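import Pool.Agent.Lib.MP_61a4e3_al.Braid1

/-! Binary unimodular lattices are hyperbolic. -/

set_option linter.unusedSectionVars false
set_option linter.unusedSimpArgs false
set_option linter.unusedVariables false
set_option maxHeartbeats 800000

namespace Pool.Agent.Lib.MP_61a4e3_al

open Matrix WG Form

variable {O : Type} [CommRing O] [StarRing O] [IsDomain O] {z : O} (H : RH z)
include H

lemma zherm {r : O} (h : r = z * star r) : ∃ a, star a = a ∧ r = a * (1 + z) := by
  obtain ⟨a, b, ha, hb, rfl⟩ := H.dec r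
  rw [star_add, star_mul, ha, hb] at h
  have : (1 - z) * (a - b) = 0 := by linear_combination h + b * H.hz
  exact ⟨a, ha, by linear_combination -z * (mul_eq_zero.1 this).resolve_left H.one_sub⟩

lemma e_ne : z - star z ≠ 0 := fun h =>
  mul_ne_zero H.one_sub H.one_add (by linear_combination -z * h - H.hz)

lemma bin_aux {p q r D ε η y e : O} (p0 : p ≠ 0) (hp : p = z * star p)
    (hdet : p * (D * r) = z * (q * star q - 1)) (D0 : D ≠ 0) (hD : star D = ε * D)
    (hε : ε * star ε = 1) (hη : η * star η = 1) (hy : 1 - η * q = D * y) (he : z - star z = D * e)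
    (hP : ∀ P : Ideal O, P.IsPrime → p ∈ P → y ∈ P → e ∈ P → False) :
    ∃ α β, IsCoprime α β ∧ (α * p + β * q) * star (α * p + β * q) = β * star β := by
  have hz := H.hz
  obtain ⟨ρ, hρ, h⟩ := H.exists_real_avoid p0 y (star z * y + e)
  set l0 := y + (star z * y + e) * ρ with hl0
  have c0 : ∀ P : Ideal O, P.IsPrime → p ∈ P → l0 ∉ P := by
    intro P hP' hp' hl
    by_cases hw : star z * y + e ∈ P
    · have h1 : y ∈ P := by simpa [hl0] using P.sub_mem hl (P.mul_mem_right ρ hw)
      exact hP P hP' hp' h1 (by simpa using P.sub_mem hw (P.mul_mem_left (star z) h1))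
    · exact h P hP' hp' hw hl
  have r0 : l0 + η * ε * q * star l0 = p * (-(1 + ρ * z) * star z * r) := by
    have a1 : D * l0 = 1 - η * q + ρ * (z - η * q * star z) := by
      rw [hl0]; linear_combination (-1 - ρ * star z) * hy - ρ * he
    have a2 := congrArg star a1
    simp only [star_mul, star_add, star_sub, star_one, star_star, hρ, hD] at a2
    refine mul_left_cancel₀ D0 ?_
    linear_combination a1 + η * q * a2 + (1 + ρ * z) * star z * hdet -
      q * star q * (1 + ρ * z) * hη + (1 + ρ * z) * (q * star q - 1) * hz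
  obtain ⟨μ, hμ⟩ := exists_add_coprime (H.fin _ (e_ne H)) (a := l0) (b := p)
    fun P hP' _ h1 h2 => c0 P hP' h2 h1
  obtain ⟨l, hl⟩ := H.exists_real_primitive (a := l0 + μ * p) (β := p * (z - star z))
    (IsCoprime.mul_right (isCoprime_of_forall_prime fun P hP' h1 h2 => c0 P hP' h2 (by
      simpa using P.sub_mem h1 (P.mul_mem_left μ h2))) hμ) (mul_ne_zero p0 (e_ne H))
  obtain ⟨s, hs, t, ht⟩ := hl z
  set ν := μ + l * (z - star z) with hν
  have el : l0 + μ * p + l * (p * (z - star z)) = l0 + ν * p := by rw [hν]; ring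
  rw [el] at ht
  have X : (-(1 + ρ * z) * star z * r + ν + η * ε * q * star z * star ν) * p +
      -(η * ε * star (l0 + ν * p)) * q = l0 + ν * p := by
    rw [star_add l0, star_mul ν]
    linear_combination -r0 + η * ε * q * star z * star ν * hp + η * ε * q * star ν * star p * hz
  refine ⟨_, _, isCoprime_of_forall_prime fun P hP' h1 h2 => ?_, by
    rw [X]; simp only [star_neg, star_mul, star_star]
    linear_combination -(l0 + ν * p) * star (l0 + ν * p) * (ε * star ε * hη + hε)⟩
  have h3 : l0 + ν * p ∈ P := X ▸ P.add_mem (P.mul_mem_right _ h1) (P.mul_mem_right _ h2)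
  have h4 : star (l0 + ν * p) ∈ P := by
    convert P.mul_mem_left (-(star η * star ε)) h2 using 1
    linear_combination -star (l0 + ν * p) * (ε * star ε * hη + hε)
  have h5 : z - star z ∈ P := by
    have ht' := congrArg star ht
    rw [star_sub, hs, star_mul] at ht'
    convert P.sub_mem (P.mul_mem_right t h3) (P.mul_mem_left (star t) h4) using 1
    linear_combination ht - ht'
  refine IsCoprime.not_mem hμ hP' ?_ h5
  convert P.sub_mem h3 (P.mul_mem_left (l * p) h5) using 1
  rw [hν]; ring

/-- The ramification alternatives. -/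
def Tri (z : O) : Prop :=
  IsUnit (1 + z) ∨ (IsUnit (1 - z) ∧ Prime (1 + z)) ∨ Associated (1 - z) (1 + z)

lemma bin (T : Tri z) {p q r : O} (p0 : p ≠ 0) (hp : p = z * star p) (hr : r = z * star r)
    (hdet : p * r = z * (q * star q - 1)) :
    ∃ α β, IsCoprime α β ∧ (α * p + β * q) * star (α * p + β * q) = β * star β := by
  have hz := H.hz
  have split : ∀ P : Ideal O, P.IsPrime → z - star z ∈ P → 1 - z ∈ P ∨ 1 + z ∈ P := by
    intro P hP h
    refine hP.mem_or_mem ?_
    convert P.mul_mem_left (-z) h using 1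
    linear_combination -hz
  have un : ∀ {P : Ideal O} {x : O}, P.IsPrime → IsUnit x → x ∉ P := fun hP hx h =>
    hP.ne_top (Ideal.eq_top_of_isUnit_mem _ h hx)
  have T1 : ∀ Q : O, IsUnit Q ∨ Prime Q → IsCoprime Q 2 →
      (∀ P : Ideal O, P.IsPrime → z - star z ∈ P → Q ∈ P) →
      ∃ α β, IsCoprime α β ∧ (α * p + β * q) * star (α * p + β * q) = β * star β := by
    intro Q h1 h2 h3
    by_cases h : Q ∣ 1 - q
    · obtain ⟨c, hc⟩ := h
      refine bin_aux H (D := 1) (ε := 1) (η := -1) (r := r) (y := 1 + q) (e := z - star z) p0 hp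
        (by rw [one_mul, hdet]) one_ne_zero (by simp) (by simp) (by simp) (by ring) (by ring)
        fun P hP _ a b => IsCoprime.not_mem h2 hP (h3 P hP b) ?_
      convert P.add_mem a (P.mul_mem_right c (h3 P hP b)) using 1
      linear_combination hc
    · exact bin_aux H (D := 1) (ε := 1) (η := 1) (r := r) (y := 1 - q) (e := z - star z) p0 hp
        (by rw [one_mul, hdet]) one_ne_zero (by simp) (by simp) (by simp) (by ring) (by ring)
        fun P hP _ a b => IsCoprime.not_mem
          (H.coprime_of_prime (h1.resolve_left fun hu => h hu.dvd) h) hP (h3 P hP b) a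
  have T2 : IsUnit (1 + z) →
      ∃ α β, IsCoprime α β ∧ (α * p + β * q) * star (α * p + β * q) = β * star β := by
    intro h
    obtain ⟨c, hc⟩ := h.exists_left_inv
    exact T1 (1 - z) H.pu ⟨-c, c, by linear_combination hc⟩
      fun P hP b => (split P hP b).resolve_right (un hP h)
  rcases T with h | ⟨h, h'⟩ | h
  · exact T2 h
  · obtain ⟨c, hc⟩ := h.exists_left_inv
    exact T1 (1 + z) (Or.inr h') ⟨-c, c, by linear_combination hc⟩
      fun P hP b => (split P hP b).resolve_left (un hP h)
  rcases H.pu with hu | hπ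
  · exact T2 (h.isUnit_iff.1 hu)
  obtain ⟨v, hv⟩ := h.dvd
  obtain ⟨v', hv'⟩ := h.symm.dvd
  obtain ⟨a, -, ha⟩ := zherm H hr
  obtain ⟨a', -, ha'⟩ := zherm H hp
  obtain ⟨y, hy⟩ : (1 - z) ∣ 1 - q := by
    obtain ⟨s, hs⟩ := H.pi_dvd_star_sub q
    refine hπ.dvd_of_dvd_pow (n := 2) ⟨(1 + v) * (1 - q) + star z * a' * v * r - q * s, ?_⟩
    linear_combination (1 - q + star z * a' * r) * hv - q * hs - star z * hdet + star z * r * ha' -
      (q * star q - 1) * hz
  have key : ∀ P : Ideal O, -star z * (1 + z) ∈ P → 1 - z ∈ P := by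
    intro P h
    convert P.mul_mem_left (-z * v') h using 1
    linear_combination hv' - v' * (1 + z) * hz
  by_cases hy' : (1 - z) ∣ y
  · obtain ⟨c, hc⟩ := hy'
    refine bin_aux H (D := 1 - z) (ε := -star z) (η := z) (r := a * v) (y := 1 + z * y)
      (e := -star z * (1 + z)) p0 hp (by rw [← hdet, ha, hv]; ring) H.one_sub H.star_pi
      (by simp [mul_comm, hz]) hz (by linear_combination z * hy) (by linear_combination -z * hz)
      fun P hP _ a b => un hP isUnit_one ?_
    convert P.sub_mem a (P.mul_mem_left (z * c) (key P b)) using 1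
    linear_combination -z * hc
  · exact bin_aux H (D := 1 - z) (ε := -star z) (η := 1) (r := a * v) (y := y)
      (e := -star z * (1 + z)) p0 hp (by rw [← hdet, ha, hv]; ring) H.one_sub H.star_pi
      (by simp [mul_comm, hz]) (by simp) (by linear_combination hy) (by linear_combination -z * hz)
      fun P hP _ a b => IsCoprime.not_mem (H.coprime_of_prime hπ hy') hP (key P b) a

lemma hyp (T : Tri z) {ι : Type} [Fintype ι] [DecidableEq ι] {F : Form O ι} (hF : F.z = z)
    {v w : ι → O} (p0 : F.B v v ≠ 0)
    (hdet : F.B v v * F.B w w = z * (F.B v w * star (F.B v w) - 1)) :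
    ∃ h ∈ sp2 v w, ∃ h' ∈ sp2 v w, F.B h h = 0 ∧ F.B h' h' = 0 ∧ F.B h h' = 1 := by
  have hz := H.hz
  have hp := F.B_swap v v
  have hr := F.B_swap w w
  have hq := F.B_swap v w
  rw [hF] at hp hr hq
  obtain ⟨α, β, ⟨a, b, hab⟩, h⟩ := bin H T p0 hp hr hdet
  have hab' := congrArg star hab
  rw [star_add, star_mul, star_mul, star_one] at hab'
  have hh : F.B (α • v + β • w) (α • v + β • w) = 0 := by
    refine mul_left_cancel₀ p0 ?_
    simp only [B_add_left, B_add_right, B_smul_left, B_smul_right, hq]
    simp only [star_add, star_mul] at h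
    linear_combination z * h + star α * (α * F.B v v + β * F.B v w) * hp + β * star β * hdet
  set k := (-star z * (F.B w w * star a - F.B v w * star b)) • v +
    (-star z * (F.B v v * star b - z * star (F.B v w) * star a)) • w with hk
  have h1 : F.B (α • v + β • w) k = 1 := by
    simp only [hk, B_add_left, B_add_right, B_smul_left, B_smul_right, hq]
    linear_combination hab' - star z * (star α * star a + star β * star b) * hdet +
      (star α * star a + star β * star b) * hz
  refine ⟨_, ⟨α, β, rfl⟩, k - F.qf k • (α • v + β • w),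
    Submodule.sub_mem _ ⟨_, _, rfl⟩ (Submodule.smul_mem _ _ ⟨α, β, rfl⟩), hh, ?_, ?_⟩
  · simp only [B_sub_left, B_sub_right, B_smul_left, B_smul_right, hh, h1, F.B_eq_one_swap h1,
      B_self F k]
    ring
  · simp only [B_sub_right, B_smul_right, hh, h1]; ring

end Pool.Agent.Lib.MP_61a4e3_al
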