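import Pool.Agent.Lib.MP_61a4e3_al.Core

/-! The braid lattice: generators, roots and coordinates. -/

set_option linter.unusedSectionVars false
set_option linter.unusedSimpArgs false
set_option linter.unusedVariables false

namespace Pool.Agent.Lib.MP_61a4e3_al

open Matrix WG Form

section root
variable {O : Type} [CommRing O] [StarRing O] {ι : Type} [Fintype ι] [DecidableEq ι]
  {F : Form O ι} {Γ : Subgroup (WG F)}

/-- The reflection in a root. -/
def rt {r : ι → O} (h : F.B r r = 1 + F.z) : WG F :=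
  ⟨ou r r, by
    have hz := F.hz
    simp only [Form.op, Form.tau, ou_ct, Matrix.mul_smul, ou_A_ou, h, smul_smul]
    match_scalars; grind⟩

@[simp] lemma rt_W {r : ι → O} (h : F.B r r = 1 + F.z) : (rt h).W = ou r r := rfl

lemma act_rt {r : ι → O} (h : F.B r r = 1 + F.z) (y : ι → O) :
    act (rt h) *ᵥ y = y - F.B r y • r := by
  rw [act_of_W, rt_W, ou_A_mulVec]

lemma det_rt {r : ι → O} (h : F.B r r = 1 + F.z) : (act (rt h)).det = -F.z := by
  rw [act_apply, rt_W, sub_eq_add_neg, ← Matrix.neg_mul, ← ou_neg_left, ou, vecMulVec_mul,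
    vecMulVec_eq Unit, det_one_add_replicateCol_mul_replicateRow, ← dotProduct_mulVec,
    mulVec_neg, dotProduct_neg]
  change 1 + -F.B r r = _
  rw [h]; ring

/-- The reflection in `r` exists and lies in `Γ`. -/
def HR (Γ : Subgroup (WG F)) (r : ι → O) : Prop := ∃ h : F.B r r = 1 + F.z, rt h ∈ Γ

/-- Orbit relation. -/
def Orb (Γ : Subgroup (WG F)) (x y : ι → O) : Prop := ∃ g ∈ Γ, act g *ᵥ x = y

lemma Orb.refl (x : ι → O) : Orb Γ x x := ⟨1, one_mem _, by simp⟩

lemma Orb.trans {x y w : ι → O} (h : Orb Γ x y) (h' : Orb Γ y w) : Orb Γ x w := by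
  obtain ⟨g, hg, rfl⟩ := h
  obtain ⟨g', hg', rfl⟩ := h'
  exact ⟨g' * g, mul_mem hg' hg, act_mul_mulVec _ _ _⟩

lemma HR.orb {x y : ι → O} (h : HR Γ x) (h' : Orb Γ x y) : HR Γ y := by
  obtain ⟨g, hg, rfl⟩ := h'
  obtain ⟨e, he⟩ := h
  refine ⟨by rw [B_act, e], ?_⟩
  convert mul_mem (mul_mem hg he) (inv_mem hg) using 1
  ext1; rw [conj_W, rt_W, rt_W, mul_ou_mul]

lemma Good.orb {x y : ι → O} (h : Good Γ x) (h' : Orb Γ x y) : Good Γ y := by
  obtain ⟨g, hg, rfl⟩ := h'; exact h.act hg

lemma HR.smul {x : ι → O} (h : HR Γ x) {l : O} (hl : l * star l = 1) : HR Γ (l • x) := by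
  obtain ⟨e, he⟩ := h
  refine ⟨by rw [B_smul_left, B_smul_right, e]; linear_combination (1 + F.z) * hl, ?_⟩
  convert he using 1
  ext1; rw [rt_W, rt_W, ou_smul_left, ou_smul_right, smul_smul, hl, one_smul]

lemma HR.eich {r f : ι → O} {l : O} (ff : F.B f f = 0) (fr : F.B f r = 0) (h : HR Γ r)
    (h' : HR Γ (r + l • f)) : HE Γ f (star l • r) (l * star l) := by
  obtain ⟨e, he⟩ := h
  obtain ⟨e', he'⟩ := h'
  have hz := F.hz
  have rf := F.B_eq_zero_swap fr
  refine ⟨⟨ff, by simp [fr], ?_⟩, ?_⟩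
  · simp only [B_smul_left, B_smul_right, e, star_mul, star_star]; ring
  · convert mul_mem he' (inv_mem he) using 1
    ext1
    simp only [mkE_W, mul_W, inv_W, rt_W, Form.op, Form.tau, ou_ct, Matrix.mul_smul, ou_A_ou,
      B_add_left, B_smul_left, e, fr, eW, ou_add_left, ou_add_right, ou_smul_left, ou_smul_right,
      star_star, Matrix.add_mul, Matrix.smul_mul]
    match_scalars <;> grind

lemma HE.comm {k x y : ι → O} {c d : O} (h : HE Γ k x c) (h' : HE Γ k y d) :
    HE Γ k 0 (star F.z * (F.B x y - F.B y x)) := by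
  have hz := F.hz
  have := (h.mul h').mul (h'.mul h).inv
  have v := (h'.mul h).1.hc
  convert this using 1
  · abel
  · rw [B_neg_right, add_comm x y, ← v]; grind

lemma HE.zero {k : ι → O} (kk : F.B k k = 0) : HE Γ k 0 0 :=
  ⟨⟨kk, by simp, by simp⟩, by
    convert one_mem Γ using 1; ext1; simp [eW_zero]⟩

end root

variable {O : Type} [CommRing O] [StarRing O]

/-- The form of the braid lattice. -/
def BF (m : ℕ) (z : O) (hz : z * star z = 1) : Form O (Fin m) :=
  ⟨z, hz, Matrix.of fun i j => if i = j then 1 else if i.val = j.val + 1 then -1 else 0⟩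

variable {m : ℕ} {z : O} {hz : z * star z = 1}

@[simp] lemma BF_z : (BF m z hz).z = z := rfl

lemma BF_A (i j : Fin m) : (BF m z hz).A i j =
    if i = j then 1 + z else if i.val = j.val + 1 then -z else if j.val = i.val + 1 then -1
      else 0 := by
  simp only [Form.A, BF, Matrix.add_apply, Matrix.smul_apply, conjTranspose_apply, of_apply,
    smul_eq_mul, Fin.ext_iff]
  split_ifs <;> first | omega | simp [add_comm]

/-- Coordinates indexed by `1, …, m`. -/
def vec (m : ℕ) (v : ℕ → O) : Fin m → O := fun i => v (i.val + 1)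

lemma vec_congr {u v : ℕ → O} (h : ∀ i, 1 ≤ i → i ≤ m → u i = v i) : vec m u = vec m v :=
  funext fun i => h _ (by omega) (by omega)

lemma sum_delta (v : ℕ → O) (a : ℕ) (ha : 1 ≤ a ∧ a ≤ m ∨ v a = 0) :
    ∑ j : Fin m, (if j.val + 1 = a then v (j.val + 1) else 0) = v a := by
  by_cases h : 1 ≤ a ∧ a ≤ m
  · rw [Finset.sum_eq_single (⟨a - 1, by omega⟩ : Fin m)]
    · simp [Nat.sub_add_cancel h.1]
    · intro b _ hb
      rw [if_neg]; intro e; exact hb (Fin.ext (by simp; omega))
    · simp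
  · rw [ha.resolve_left h]
    refine Finset.sum_eq_zero fun j _ => if_neg ?_
    have := j.2; omega

lemma A_vec {v : ℕ → O} (h0 : v 0 = 0) (h1 : v (m + 1) = 0) :
    (BF m z hz).A *ᵥ vec m v =
      vec m (fun i => -z * v (i - 1) + (1 + z) * v i - v (i + 1)) := by
  ext i
  have hi := i.2
  have e : ∀ j : Fin m, (BF m z hz).A i j * vec m v j =
      -z * (if j.val + 1 = i.val then v (j.val + 1) else 0)
      + (1 + z) * (if j.val + 1 = i.val + 1 then v (j.val + 1) else 0)
      - (if j.val + 1 = i.val + 2 then v (j.val + 1) else 0) := by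
    intro j
    rw [BF_A]; simp only [vec, Fin.ext_iff]
    split_ifs <;> first | omega | ring
  simp only [mulVec, dotProduct, e, Finset.sum_sub_distrib, Finset.sum_add_distrib,
    ← Finset.mul_sum]
  rw [sum_delta, sum_delta, sum_delta]
  · simp [vec]
  · by_cases h : i.val + 2 ≤ m
    · left; omega
    · right; rwa [show i.val + 2 = m + 1 by omega]
  · left; omega
  · by_cases h : i.val = 0
    · right; rwa [h]
    · left; omega

/-- The basis vectors. -/
def ev (O : Type) [CommRing O] (m j : ℕ) : Fin m → O := vec m fun i => if i = j then 1 else 0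

lemma ev_dot (v : ℕ → O) (a : ℕ) (ha : 1 ≤ a ∧ a ≤ m ∨ v a = 0) : ev O m a ⬝ᵥ vec m v = v a := by
  rw [← sum_delta v a ha]
  simp [ev, vec, dotProduct]

@[simp] lemma star_ev (a : ℕ) : star (ev O m a) = ev O m a := by
  ext i; simp only [ev, vec, Pi.star_apply]; split_ifs <;> simp

lemma ev_eq_single (i : Fin m) : ev O m (i.val + 1) = Pi.single i 1 := by
  ext j; simp [ev, vec, Pi.single_apply, Fin.ext_iff]

lemma B_ev {v : ℕ → O} (h0 : v 0 = 0) (h1 : v (m + 1) = 0) {j : ℕ} (hj : 1 ≤ j ∧ j ≤ m) :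
    (BF m z hz).B (ev O m j) (vec m v) = -z * v (j - 1) + (1 + z) * v j - v (j + 1) := by
  rw [Form.B, star_ev, A_vec h0 h1, ev_dot _ _ (Or.inl hj)]

lemma B_ev_ev {i j : ℕ} (hi : 1 ≤ i ∧ i ≤ m) (hj : 1 ≤ j ∧ j ≤ m) :
    (BF m z hz).B (ev O m i) (ev O m j) =
      if i = j then 1 + z else if i = j + 1 then -z else if j = i + 1 then -1 else 0 := by
  change (BF m z hz).B (ev O m i) (vec m fun i => if i = j then 1 else 0) = _
  rw [B_ev (by rw [if_neg]; omega) (by rw [if_neg]; omega) hi]
  split_ifs <;> first | omega | simp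

lemma root_ev {j : ℕ} (hj : 1 ≤ j ∧ j ≤ m) :
    (BF m z hz).B (ev O m j) (ev O m j) = 1 + (BF m z hz).z := by
  rw [B_ev_ev hj hj]; simp

variable (m z hz) in
/-- The group generated by the braid reflections. -/
def Gam : Subgroup (WG (BF m z hz)) :=
  Subgroup.closure {g | ∃ j, ∃ hj : 1 ≤ j ∧ j ≤ m, g = rt (root_ev hj)}

lemma sg_mem {j : ℕ} (hj : 1 ≤ j ∧ j ≤ m) : rt (root_ev hj) ∈ Gam m z hz :=
  Subgroup.subset_closure ⟨j, hj, rfl⟩

lemma HR_ev {j : ℕ} (hj : 1 ≤ j ∧ j ≤ m) : HR (Gam m z hz) (ev O m j) := ⟨_, sg_mem hj⟩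

lemma act_sg {u v : ℕ → O} (h0 : u 0 = 0) (h1 : u (m + 1) = 0) {j : ℕ} (hj : 1 ≤ j ∧ j ≤ m)
    (e1 : v j = z * u (j - 1) - z * u j + u (j + 1)) (e2 : ∀ i, i ≠ j → v i = u i) :
    act (rt (root_ev (z := z) (hz := hz) hj)) *ᵥ vec m u = vec m v := by
  rw [act_rt, B_ev h0 h1 hj]
  ext i
  simp only [vec, ev, Pi.sub_apply, Pi.smul_apply, smul_eq_mul]
  split_ifs with h
  · rw [h, e1]; ring
  · rw [e2 _ h]; ring

lemma orb_step {u v : ℕ → O} (h0 : u 0 = 0) (h1 : u (m + 1) = 0) {j : ℕ} (hj : 1 ≤ j ∧ j ≤ m)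
    (e1 : v j = z * u (j - 1) - z * u j + u (j + 1)) (e2 : ∀ i, i ≠ j → v i = u i) :
    Orb (Gam m z hz) (vec m u) (vec m v) := ⟨_, sg_mem hj, act_sg h0 h1 hj e1 e2⟩

/-- Interval vectors. -/
def iv (O : Type) [CommRing O] (a b : ℕ) : ℕ → O := fun i => if a ≤ i ∧ i ≤ b then 1 else 0

lemma HR_iv {a b : ℕ} (ha : 1 ≤ a) (hab : a ≤ b) (hb : b ≤ m) :
    HR (Gam m z hz) (vec m (iv O a b)) := by
  induction hab using Nat.decreasingInduction with
  | self =>
    convert HR_ev (z := z) (hz := hz) ⟨ha, hb⟩ using 1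
    refine vec_congr fun i _ _ => ?_
    simp only [iv]; split_ifs <;> first | omega | rfl
  | of_succ k hk ih =>
    refine (ih (by omega)).orb (orb_step (j := k) ?_ ?_ ⟨ha, by omega⟩ ?_ ?_)
    all_goals try intro i hi
    all_goals simp only [iv]; split_ifs <;> first | omega | simp

/-- Partial geometric sums. -/
def geom (z : O) (i : ℕ) : O := ∑ j ∈ Finset.range i, z ^ j

@[simp] lemma geom_zero : geom z 0 = 0 := by simp [geom]
@[simp] lemma geom_one : geom z 1 = 1 := by simp [geom]
lemma geom_succ (i : ℕ) : geom z (i + 1) = z * geom z i + 1 := geom_sum_succ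
lemma geom_succ' (i : ℕ) : geom z (i + 1) = geom z i + z ^ i := Finset.sum_range_succ _ _
lemma pi_geom (i : ℕ) : (1 - z) * geom z i = 1 - z ^ i := mul_neg_geom_sum z i

lemma HR_tau {k : ℕ} (hk : k + 1 ≤ m) (l : ℕ) (hl : l ≤ k) : HR (Gam m z hz)
    (vec m fun i => if i ≤ l then 1 - z ^ i else if i ≤ k + 1 then 1 else 0) := by
  induction l with
  | zero =>
    convert HR_iv (z := z) (hz := hz) (a := 1) (b := k + 1) le_rfl (by omega) hk using 1
    refine vec_congr fun i _ _ => ?_
    simp only [iv]; split_ifs <;> first | omega | rfl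
  | succ l ih =>
    refine (ih (by omega)).orb (orb_step (j := l + 1) (by simp) ?_ ⟨by omega, by omega⟩ ?_ ?_)
    · split_ifs <;> first | omega | rfl
    · simp only [Nat.add_sub_cancel]
      split_ifs <;> first | omega | ring
    · intro i hi; split_ifs <;> first | omega | rfl

/-- The radical vector of the sublattice on `d` consecutive points. -/
def fv (z : O) (d k : ℕ) : ℕ → O := fun i => if k ≤ i ∧ i ≤ k + d then geom z (i - k) else 0

section
variable {d : ℕ} (hd : 3 ≤ d) (hg : geom z d = 0)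
include hd hg

lemma z_pow : z ^ d = 1 := by have := pi_geom (z := z) d; rw [hg] at this; linear_combination this

lemma fv_out {k i : ℕ} (h : i ≤ k ∨ k + d ≤ i) : fv z d k i = 0 := by
  simp only [fv]; split_ifs with h1
  · rcases h with h | h
    · rw [show i - k = 0 by omega, geom_zero]
    · rw [show i - k = d by omega, hg]
  · rfl

lemma fv_in {k i : ℕ} (h : k ≤ i ∧ i ≤ k + d) : fv z d k i = geom z (i - k) := if_pos h

lemma geom_pred : z * geom z (d - 1) = -1 := by
  have := geom_succ (z := z) (d - 1)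
  rw [Nat.sub_add_cancel (by omega), hg] at this; linear_combination -this

lemma A_fv {k : ℕ} (hk : k + d ≤ m + 1) :
    (BF m z hz).A *ᵥ vec m (fv z d k) = ev O m (k + d) - ev O m k := by
  rw [A_vec (fv_out hd hg (by omega)) (fv_out hd hg (by omega))]
  ext ⟨i, hi⟩
  simp only [vec, ev, Pi.sub_apply, Nat.add_sub_cancel]
  by_cases h1 : i + 1 < k
  · rw [fv_out hd hg (by omega), fv_out hd hg (by omega), fv_out hd hg (by omega), if_neg (by omega),
      if_neg (by omega)]; ring
  by_cases h2 : i + 1 = k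
  · rw [fv_out hd hg (by omega), fv_out hd hg (by omega), fv_in hd hg (by omega), if_neg (by omega),
      if_pos h2, show i + 1 + 1 - k = 1 by omega, geom_one]; ring
  by_cases h3 : i + 1 < k + d
  · rw [fv_in hd hg (by omega), fv_in hd hg (by omega), fv_in hd hg (by omega), if_neg (by omega),
      if_neg h2, show i + 1 + 1 - k = (i - k) + 1 + 1 by omega, show i + 1 - k = (i - k) + 1 by omega,
      geom_succ (i - k + 1), geom_succ (i - k)]; ring
  by_cases h4 : i + 1 = k + d
  · rw [fv_in hd hg (by omega), fv_out hd hg (by omega), fv_out hd hg (by omega), if_pos h4,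
      if_neg h2, show i - k = d - 1 by omega]
    linear_combination -geom_pred hd hg
  · rw [fv_out hd hg (by omega), fv_out hd hg (by omega), fv_out hd hg (by omega), if_neg (by omega),
      if_neg (by omega)]; ring

lemma B_fv {k : ℕ} (hk : k + d ≤ m + 1) {u : ℕ → O} (h0 : u 0 = 0) (h1 : u (m + 1) = 0) :
    (BF m z hz).B (vec m u) (vec m (fv z d k)) = star (u (k + d)) - star (u k) := by
  have : ∀ a, a ≤ m + 1 → star (vec m u) ⬝ᵥ ev O m a = star (u a) := by
    intro a ha
    rw [dotProduct_comm]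
    refine ev_dot (fun i => star (u i)) a ?_
    by_cases h : a = 0
    · right; simp [h, h0]
    by_cases h' : a = m + 1
    · right; simp [h', h1]
    · left; omega
  rw [Form.B, A_fv hd hg hk, dotProduct_sub, this _ hk, this _ (by omega)]

lemma B_fv_fv {k l : ℕ} (hk : k + d ≤ m + 1) (hl : l + d ≤ m + 1) :
    (BF m z hz).B (vec m (fv z d l)) (vec m (fv z d k)) =
      star (fv z d l (k + d)) - star (fv z d l k) :=
  B_fv hd hg hk (fv_out hd hg (by omega)) (fv_out hd hg (by omega))

lemma orb_shift {k : ℕ} (hk : k + d ≤ m) :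
    Orb (Gam m z hz) (vec m (fv z d k)) (z • vec m (fv z d (k + 1))) := by
  have : ∀ l, l ≤ k + d + 1 → k + 1 ≤ l → Orb (Gam m z hz) (vec m (fv z d k))
      (vec m fun i => if l ≤ i then z * fv z d (k + 1) i else fv z d k i) := by
    intro l hl
    induction hl using Nat.decreasingInduction with
    | self =>
      intro _
      refine ⟨1, one_mem _, ?_⟩
      rw [map_one, one_mulVec]
      refine vec_congr fun i _ _ => ?_
      split_ifs
      · rw [fv_out hd hg (by omega), fv_out hd hg (by omega), mul_zero]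
      · rfl
    | of_succ l hl ih =>
      intro h
      refine (ih (by omega)).trans (orb_step (j := l) ?_ ?_ ⟨by omega, by omega⟩ ?_ ?_)
      · rw [if_neg (by omega), fv_out hd hg (by omega)]
      · rw [if_pos (by omega), fv_out hd hg (by omega), mul_zero]
      · rw [if_pos le_rfl, if_neg (by omega), if_neg (by omega), if_pos le_rfl,
          fv_in hd hg (by omega), fv_in hd hg (by omega), fv_in hd hg (by omega),
          fv_in hd hg (by omega), show l + 1 - (k + 1) = l - k by omega,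
          show l - 1 - k = l - (k + 1) by omega]
        ring
      · intro i hi; split_ifs <;> first | omega | rfl
  refine (this (k + 1) (by omega) le_rfl).trans ⟨1, one_mem _, ?_⟩
  rw [map_one, one_mulVec]
  symm
  ext i
  simp only [vec, Pi.smul_apply, smul_eq_mul]
  split_ifs
  · rfl
  · rw [fv_out hd hg (by omega), fv_out hd hg (by omega), mul_zero]

end

end Pool.Agent.Lib.MP_61a4e3_al
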