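import Pool.Agent.Lib.MP_61a4e3_al.Braid1

/-! The full twist and the good isotropic vectors of the braid lattice. -/

set_option linter.unusedSectionVars false
set_option linter.unusedSimpArgs false
set_option linter.unusedVariables false

namespace Pool.Agent.Lib.MP_61a4e3_al

open Matrix WG Form

variable {O : Type} [CommRing O] [StarRing O] {m : ℕ} {z : O} {hz : z * star z = 1}

lemma exists_vec (x : Fin m → O) : ∃ u : ℕ → O, u 0 = 0 ∧ u (m + 1) = 0 ∧ x = vec m u := by
  refine ⟨fun i => if h : 1 ≤ i ∧ i ≤ m then x ⟨i - 1, by omega⟩ else 0, by simp, by simp, ?_⟩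
  ext i
  have := i.2
  simp only [vec]
  rw [dif_pos (by omega)]; rfl

lemma ker_A {x : Fin m → O} (h : (BF m z hz).A *ᵥ x = 0) :
    ∃ a, x = a • vec m (geom z) ∧ geom z (m + 1) * a = 0 := by
  obtain ⟨u, h0, h1, rfl⟩ := exists_vec x
  rw [A_vec h0 h1] at h
  have key : ∀ i, i ≤ m → u i = u 1 * geom z i ∧ u (i + 1) = u 1 * geom z (i + 1) := by
    intro i hi
    induction i with
    | zero => simp [h0]
    | succ i ih =>
      obtain ⟨e1, e2⟩ := ih (by omega)
      refine ⟨e2, ?_⟩
      have := congrFun h ⟨i, by omega⟩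
      simp only [vec, Nat.add_sub_cancel, Pi.zero_apply] at this
      rw [geom_succ (i + 1), geom_succ i] at *
      linear_combination -this - z * e1 + (1 + z) * e2
  refine ⟨u 1, ?_, by rw [mul_comm, ← (key m le_rfl).2, h1]⟩
  ext i
  simp only [vec, Pi.smul_apply, smul_eq_mul]
  exact (key _ (by omega)).2

lemma A_geom : (BF m z hz).A *ᵥ vec m (geom z) = geom z (m + 1) • ev O m m := by
  have : vec m (geom z) = vec m (fun i => if i ≤ m then geom z i else 0) :=
    vec_congr fun i _ h => (if_pos h).symm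
  rw [this, A_vec (by simp) (by simp)]
  ext ⟨i, hi⟩
  simp only [vec, ev, Pi.smul_apply, smul_eq_mul, Nat.add_sub_cancel]
  rw [if_pos (by omega), if_pos (by omega)]
  by_cases h : i + 1 = m
  · rw [if_neg (by omega), if_pos h, ← h, geom_succ (i + 1), geom_succ i]; ring
  · rw [if_pos (by omega), if_neg h, geom_succ (i + 1), geom_succ i]; ring

lemma A_mul_W_of_act {F : Form O (Fin m)} {g : WG F} (h : act g = 1) : F.A * g.W = 0 := by
  have h1 : g.W * F.A = 0 := by rw [act_apply] at h; exact sub_eq_self.1 h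
  have h2 : g.W = -F.tau g.W := by
    have := g.prop
    rw [Form.op, h1, Matrix.zero_mul, sub_zero] at this
    exact eq_neg_of_add_eq_zero_left this
  have h3 := congrArg conjTranspose h1
  rw [conjTranspose_mul, F.A_ct, conjTranspose_zero, Matrix.smul_mul] at h3
  rw [h2, Form.tau, Matrix.mul_neg, Matrix.mul_smul, h3, neg_zero]

lemma eq_one_of_act {g : WG (BF m z hz)} (h : act g = 1)
    (hs : g ∈ sup (BF m z hz) (kerv (ev O m m))) : g = 1 := by
  ext1
  refine Matrix.ext_of_mulVec_single fun j => ?_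
  have h1 : (BF m z hz).A *ᵥ (g.W *ᵥ Pi.single j 1) = 0 := by
    rw [mulVec_mulVec, A_mul_W_of_act h, zero_mulVec]
  obtain ⟨a, ha, ha'⟩ := ker_A h1
  have h2 := hs (Pi.single j 1)
  rw [mem_kerv, ha, dotProduct_smul, ev_dot _ _ (by have := j.2; left; omega), smul_eq_mul] at h2
  rw [geom_succ] at ha'
  have : a = 0 := by linear_combination ha' - z * h2
  rw [ha, this, zero_smul, one_W, zero_mulVec]

lemma rt_mem_sup {ι : Type} [Fintype ι] [DecidableEq ι] {F : Form O ι} {r : ι → O}
    (h : F.B r r = 1 + F.z) {P : Submodule O (ι → O)} (hr : r ∈ P) : rt h ∈ sup F P := by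
  intro y; rw [rt_W, ou_mulVec]; exact P.smul_mem _ hr

lemma ev_dot_ev {i j : ℕ} (h : i ≠ j) : ev O m i ⬝ᵥ ev O m j = 0 := by
  exact (ev_dot (fun i => if i = j then (1 : O) else 0) i (Or.inr (if_neg h))).trans (if_neg h)

lemma exists_cox {l : ℕ} (hl : l < m) :
    ∃ g ∈ Gam m z hz ⊓ sup (BF m z hz) (kerv (ev O m m)), ∀ u : ℕ → O, u 0 = 0 → u (m + 1) = 0 →
      act g *ᵥ vec m u =
        vec m fun i => if 1 ≤ i ∧ i ≤ l then z * (u (i - 1) - u l) + u (l + 1) else u i := by
  induction l with
  | zero =>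
    refine ⟨1, one_mem _, fun u _ _ => ?_⟩
    rw [map_one, one_mulVec]
    exact vec_congr fun i _ _ => (if_neg (by omega)).symm
  | succ l ih =>
    obtain ⟨g, hg, h⟩ := ih (by omega)
    have hj : 1 ≤ l + 1 ∧ l + 1 ≤ m := by omega
    refine ⟨g * rt (root_ev hj), mul_mem hg ⟨sg_mem hj, rt_mem_sup _ (ev_dot_ev (by omega))⟩,
      fun u h0 h1 => ?_⟩
    rw [act_mul_mulVec, act_sg h0 h1 hj
      (v := fun i => if i = l + 1 then z * u l - z * u (l + 1) + u (l + 2) else u i)
      (by simp) (fun i hi => if_neg hi), h _ (by simp [h0]) (by rw [if_neg (by omega), h1])]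
    refine vec_congr fun i h1 h2 => ?_
    simp only [if_true, Nat.add_eq_left, one_ne_zero, if_false, Nat.left_eq_add]
    split_ifs with c1 c2 c3 c4 c5 c6 <;> first | omega | ring1 | skip
    subst c5; simp only [Nat.add_sub_cancel]; ring

section
variable {d : ℕ} (hd : 3 ≤ d) (hg : geom z d = 0)
include hd hg

lemma exists_twist (hm : d ≤ m) :
    ∃ g ∈ Gam m z hz ⊓ sup (BF m z hz) (kerv (ev O m m)), ∀ u : ℕ → O, u 0 = 0 → u (m + 1) = 0 →
      act g *ᵥ vec m u = vec m u + ((1 - z) * u d) • vec m (fv z d 0) := by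
  obtain ⟨g, hgm, h⟩ := exists_cox (z := z) (hz := hz) (m := m) (l := d - 1) (by omega)
  refine ⟨g ^ d, pow_mem hgm d, fun u h0 h1 => ?_⟩
  have key : ∀ k, k ≤ d → act (g ^ k) *ᵥ vec m u = vec m fun i =>
      if i ≤ k then z ^ k * (u (d - k + i) - u (d - k)) + u d * (1 - z ^ i)
      else if i ≤ d then z ^ k * (u (i - k) - u (d - k)) + u d else u i := by
    intro k hk
    induction k with
    | zero =>
      rw [pow_zero, map_one, one_mulVec]
      refine vec_congr fun i _ _ => ?_
      rw [if_neg (by omega)]; split_ifs <;> simp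
    | succ k ih =>
      rw [pow_succ', act_mul_mulVec, ih (by omega), h _ (by simp)
        (by rw [if_neg (by omega), if_neg (by omega), h1])]
      refine vec_congr fun i i1 i2 => ?_
      have eA : (if d - 1 ≤ k then z ^ k * (u (d - k + (d - 1)) - u (d - k)) + u d * (1 - z ^ (d - 1))
          else if d - 1 ≤ d then z ^ k * (u (d - 1 - k) - u (d - k)) + u d else u (d - 1)) =
          z ^ k * (u (d - (k + 1)) - u (d - k)) + u d := by
        split_ifs with c1 c2
        · obtain rfl : k = d - 1 := by omega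
          rw [show d - (d - 1) + (d - 1) = d by omega, show d - (d - 1 + 1) = 0 by omega, h0]; ring
        · rw [show d - 1 - k = d - (k + 1) by omega]
        · omega
      have eB : (if d - 1 + 1 ≤ k then
          z ^ k * (u (d - k + (d - 1 + 1)) - u (d - k)) + u d * (1 - z ^ (d - 1 + 1))
          else if d - 1 + 1 ≤ d then z ^ k * (u (d - 1 + 1 - k) - u (d - k)) + u d
          else u (d - 1 + 1)) = u d := by
        rw [if_neg (by omega), if_pos (by omega), show d - 1 + 1 - k = d - k by omega]; ring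
      rw [eA, eB]
      obtain ⟨i, rfl⟩ : ∃ j, i = j + 1 := ⟨i - 1, by omega⟩
      simp only [Nat.add_sub_cancel]
      by_cases c1 : i + 1 ≤ d - 1
      · rw [if_pos ⟨i1, c1⟩]
        by_cases c2 : i ≤ k
        · rw [if_pos c2, if_pos (by omega), show d - (k + 1) + (i + 1) = d - k + i by omega]; ring
        · rw [if_neg c2, if_pos (by omega), if_neg (by omega), if_pos (by omega),
            show i + 1 - (k + 1) = i - k by omega]; ring
      · rw [if_neg (by omega), if_neg (by omega)]
        by_cases c2 : i + 1 = d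
        · rw [if_pos (by omega), show i + 1 - k = d - k by omega]
          by_cases c3 : i + 1 ≤ k + 1
          · rw [if_pos c3, show d - (k + 1) + (i + 1) = d by omega, show d - (k + 1) = 0 by omega,
              show k + 1 = i + 1 by omega, h0]; ring
          · rw [if_neg c3, if_pos (by omega), show i + 1 - (k + 1) = d - (k + 1) by omega]; ring
        · rw [if_neg (by omega), if_neg (by omega), if_neg (by omega)]
  rw [key d le_rfl]
  ext ⟨i, hi⟩
  simp only [vec, Pi.add_apply, Pi.smul_apply, smul_eq_mul, Nat.sub_self, zero_add, h0,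
    z_pow hd hg]
  by_cases c : i + 1 ≤ d
  · rw [if_pos c, fv_in hd hg (by omega), Nat.sub_zero, ← pi_geom]; ring
  · rw [if_neg c, if_neg c, fv_out hd hg (by omega)]; ring

lemma B_fv0 (hm : d ≤ m) {u : ℕ → O} (h0 : u 0 = 0) (h1 : u (m + 1) = 0) :
    (BF m z hz).B (vec m (fv z d 0)) (vec m u) = z * u d := by
  rw [B_swap, B_fv hd hg (by omega) h0 h1]; simp [h0]

lemma fv0_iso (hm : d ≤ m) : (BF m z hz).B (vec m (fv z d 0)) (vec m (fv z d 0)) = 0 := by
  rw [B_fv0 hd hg hm (fv_out hd hg (by omega)) (fv_out hd hg (by omega)),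
    fv_out hd hg (by omega), mul_zero]

lemma HE_twist (hm : d ≤ m) : HE (Gam m z hz) (vec m (fv z d 0)) 0 (star (1 - z)) := by
  obtain ⟨g, ⟨hg1, hg2⟩, h⟩ := exists_twist (hz := hz) hd hg hm
  have e : (BF m z hz).IsE (vec m (fv z d 0)) 0 (star (1 - z)) :=
    ⟨fv0_iso hd hg hm, by simp, by simp; linear_combination -hz⟩
  refine ⟨e, ?_⟩
  have hs : mkE e ∈ sup (BF m z hz) (kerv (ev O m m)) :=
    mkE_mem_sup e (by rw [mem_kerv, ev_dot _ _ (Or.inl (by omega)), fv_out hd hg (by omega)])
      (zero_mem _)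
  have ha : act g = act (mkE e) := by
    refine Matrix.ext_of_mulVec_single fun j => ?_
    obtain ⟨u, h0, h1, hu⟩ := exists_vec (Pi.single j (1 : O) : Fin m → O)
    rw [hu, h u h0 h1, act_mkE, B_fv0 hd hg hm h0 h1]
    simp only [smul_zero, sub_zero, B_zero_left, mul_zero, star_sub, star_one]
    congr 2
    linear_combination (-u d) * hz
  have := eq_one_of_act (g := g⁻¹ * mkE e) (by rw [map_mul, ← ha, ← map_mul]; simp)
    (mul_mem (inv_mem hg2) hs)
  rw [← inv_mul_eq_one.1 this]; exact hg1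

end

end Pool.Agent.Lib.MP_61a4e3_al
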