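import Mathlib

/-! Ring theoretic lemmas for a quadratic extension generated by a norm one element. -/

set_option linter.unusedSectionVars false
set_option linter.unusedSimpArgs false

namespace Pool.Agent.Lib.MP_61a4e3_al

variable {O : Type*} [CommRing O]

lemma isCoprime_of_forall_prime {a b : O}
    (h : ∀ P : Ideal O, P.IsPrime → a ∈ P → b ∈ P → False) : IsCoprime a b := by
  rw [← Ideal.isCoprime_span_singleton_iff, Ideal.isCoprime_iff_sup_eq]
  by_contra hne
  obtain ⟨M, hM, hle⟩ := Ideal.exists_le_maximal _ hne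
  exact h M hM.isPrime (hle (Ideal.mem_sup_left (Ideal.mem_span_singleton_self a)))
    (hle (Ideal.mem_sup_right (Ideal.mem_span_singleton_self b)))

lemma IsCoprime.not_mem {a b : O} (h : IsCoprime a b) {P : Ideal O} (hP : P.IsPrime)
    (ha : a ∈ P) (hb : b ∈ P) : False := by
  obtain ⟨u, v, huv⟩ := h
  exact hP.ne_top ((Ideal.eq_top_iff_one _).2
    (huv ▸ P.add_mem (P.mul_mem_left _ ha) (P.mul_mem_left _ hb)))

lemma exists_pow_dvd {m : O} (hm : Finite (O ⧸ Ideal.span {m})) (y : O) :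
    ∃ (n : ℕ) (s : O), m ∣ y ^ n * (1 - y * s) := by
  have : IsArtinian O (O ⧸ Ideal.span {m}) := isArtinian_of_finite
  obtain ⟨n, t, ht⟩ := IsArtinian.exists_pow_succ_smul_dvd y (1 : O ⧸ Ideal.span {m})
  obtain ⟨s, rfl⟩ := Ideal.Quotient.mk_surjective t
  refine ⟨n, s, ?_⟩
  rw [← Ideal.mem_span_singleton, ← Ideal.Quotient.eq_zero_iff_mem]
  have e : y ^ n * (1 - y * s) = y ^ n • (1 : O) - y ^ n.succ • s := by
    simp only [smul_eq_mul, Nat.succ_eq_add_one]; ring
  rw [e, map_sub]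
  have h1 : Ideal.Quotient.mk (Ideal.span {m}) (y ^ n.succ • s)
      = y ^ n.succ • Ideal.Quotient.mk (Ideal.span {m}) s := rfl
  have h2 : Ideal.Quotient.mk (Ideal.span {m}) (y ^ n • (1 : O))
      = y ^ n • (1 : O ⧸ Ideal.span {m}) := rfl
  rw [h1, h2, ht, sub_self]

/-- A separating element: congruent to one at primes containing `y`, zero at the others. -/
def Sep (m y r : O) : Prop :=
  ∀ P : Ideal O, P.IsPrime → m ∈ P → (y ∈ P → r - 1 ∈ P) ∧ (y ∉ P → r ∈ P)

lemma sep_of_dvd {m y s : O} {n : ℕ} (h : m ∣ y ^ n * (1 - y * s)) : Sep m y (1 - y * s) := by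
  intro P hP hm
  refine ⟨fun hy => ?_, fun hy => ?_⟩
  · have : 1 - y * s - 1 = y * (-s) := by ring
    rw [this]; exact P.mul_mem_right _ hy
  · have : y ^ n * (1 - y * s) ∈ P := by
      obtain ⟨c, hc⟩ := h
      rw [hc]; exact P.mul_mem_right _ hm
    exact (hP.mem_or_mem this).resolve_left fun h' => hy (hP.mem_of_pow_mem _ h')

lemma exists_sep {m : O} (hm : Finite (O ⧸ Ideal.span {m})) (y : O) : ∃ r, Sep m y r := by
  obtain ⟨n, s, h⟩ := exists_pow_dvd hm y
  exact ⟨_, sep_of_dvd h⟩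

lemma Sep.not_mem {m y r : O} (h : Sep m y r) {P : Ideal O} (hP : P.IsPrime) (hm : m ∈ P)
    (hy : y ∈ P) : r ∉ P := fun hr => by
  have := P.sub_mem hr ((h P hP hm).1 hy)
  rw [sub_sub_cancel] at this
  exact hP.ne_top ((Ideal.eq_top_iff_one _).2 this)

/-- Stable range: `y + r i` avoids every prime above `m` that does not contain both. -/
lemma Sep.add_not_mem {m y r : O} (h : Sep m y r) (i : O) {P : Ideal O} (hP : P.IsPrime)
    (hm : m ∈ P) (hi : y ∈ P → i ∉ P) : y + r * i ∉ P := by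
  intro hs
  by_cases hy : y ∈ P
  · have : r * i ∈ P := by simpa using P.sub_mem hs hy
    rcases hP.mem_or_mem this with h1 | h1
    · exact h.not_mem hP hm hy h1
    · exact hi hy h1
  · have hr := (h P hP hm).2 hy
    exact hy (by simpa using P.sub_mem hs (P.mul_mem_right i hr))

lemma exists_add_coprime {m : O} (hm : Finite (O ⧸ Ideal.span {m})) {a b : O}
    (h : ∀ P : Ideal O, P.IsPrime → m ∈ P → a ∈ P → b ∈ P → False) :
    ∃ r, IsCoprime (a + r * b) m := by
  obtain ⟨r, hr⟩ := exists_sep hm a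
  exact ⟨r, isCoprime_of_forall_prime fun P hP h1 h2 =>
    hr.add_not_mem b hP h2 (fun ha hb => h P hP h2 ha hb) h1⟩

variable [StarRing O]

/-- Standing hypotheses on the ring and the norm one element `z`. -/
structure RH (z : O) : Prop where
  hz : z * star z = 1
  dec : ∀ x : O, ∃ a b : O, star a = a ∧ star b = b ∧ x = a + b * z
  fin : ∀ m : O, m ≠ 0 → Finite (O ⧸ Ideal.span {m})
  one_add : 1 + z ≠ 0
  one_sub : 1 - z ≠ 0
  ram : ∀ y : O, star y = y → (1 - z) ∣ y → (1 - z) * star (1 - z) ∣ y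
  pu : IsUnit (1 - z) ∨ Prime (1 - z)
  int : ∀ r : O, star r = r → ∃ (n : ℤ) (s : O), star s = s ∧
    r = n + (1 - z) * star (1 - z) * s
  gen : ∀ S : AddSubgroup O, 1 ∈ S → (∀ x ∈ S, z * x ∈ S) → ∀ x, x ∈ S
  gu : ∀ i : ℕ, ¬ (1 - z) ∣ (i : O) → IsUnit (∑ j ∈ Finset.range i, z ^ j)

namespace RH

variable [IsDomain O] {z : O} (H : RH z)
include H

lemma unit_z : IsUnit z := IsUnit.of_mul_eq_one _ H.hz

lemma star_pi : star (1 - z) = -star z * (1 - z) := by
  rw [star_sub, star_one]; linear_combination (-1 : O) * H.hz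

lemma pi_eq : 1 - z = -z * star (1 - z) := by
  rw [star_sub, star_one]; linear_combination (-1 : O) * H.hz

lemma star_pi_ne : star (1 - z) ≠ 0 := by
  intro h; exact H.one_sub (by rw [H.pi_eq, h, mul_zero])

lemma pi_dvd_star : (1 - z) ∣ star (1 - z) := ⟨-star z, by rw [H.star_pi]; ring⟩

lemma star_dvd_pi : star (1 - z) ∣ (1 - z) := ⟨-z, by rw [mul_comm]; exact H.pi_eq⟩

lemma sq_dvd_star : (1 - z) ^ 2 ∣ star ((1 - z) ^ 2) := by
  rw [star_pow]; exact pow_dvd_pow_of_dvd H.pi_dvd_star 2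

lemma real_unique {a b : O} (ha : star a = a) (hb : star b = b) (h : a + b * z = 0) :
    a = 0 ∧ b = 0 := by
  have h' : a + b * star z = 0 := by
    have := congrArg star h
    rwa [star_add, star_mul, ha, hb, star_zero, mul_comm] at this
  have h2 : b * (star z * (1 - z) * (1 + z)) = 0 := by
    linear_combination h' - h - b * z * H.hz
  have hb0 : b = 0 := by
    rcases mul_eq_zero.1 h2 with h3 | h3
    · exact h3
    · exfalso
      rcases mul_eq_zero.1 h3 with h4 | h4
      · rcases mul_eq_zero.1 h4 with h5 | h5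
        · have := H.hz; rw [h5, mul_zero] at this; exact zero_ne_one this
        · exact H.one_sub h5
      · exact H.one_add h4
  exact ⟨by simpa [hb0] using h, hb0⟩

/-- Divisibility between real elements has a real quotient. -/
lemma real_dvd {m y : O} (hm : star m = m) (hy : star y = y) (h : m ∣ y) :
    ∃ s, star s = s ∧ y = m * s := by
  obtain ⟨c, hc⟩ := h
  obtain ⟨a, b, ha, hb, rfl⟩ := H.dec c
  have := H.real_unique (a := m * a - y) (b := m * b) (by simp [hm, ha, hy, mul_comm])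
    (by simp [hm, hb, mul_comm]) (by rw [hc]; ring)
  exact ⟨a, ha, by linear_combination -this.1⟩

lemma real_comb {x y w u v : O} (hx : star x = x) (hy : star y = y) (hw : star w = w)
    (h : u * x + v * y = w) : ∃ u' v', star u' = u' ∧ star v' = v' ∧ u' * x + v' * y = w := by
  obtain ⟨a, b, ha, hb, rfl⟩ := H.dec u
  obtain ⟨c, d, hc, hd, rfl⟩ := H.dec v
  have := H.real_unique (a := a * x + c * y - w) (b := b * x + d * y)
    (by simp [hx, hy, hw, ha, hc, mul_comm]) (by simp [hx, hy, hb, hd, mul_comm])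
    (by linear_combination h)
  exact ⟨a, c, ha, hc, by linear_combination this.1⟩

lemma exists_sep_real {m y : O} (hm0 : m ≠ 0) (hm : star m = m) (hy : star y = y) :
    ∃ r, star r = r ∧ Sep m y r := by
  obtain ⟨n, s, c, hc⟩ := exists_pow_dvd (H.fin m hm0) y
  obtain ⟨u, v, hu, hv, huv⟩ := H.real_comb (x := y ^ (n + 1)) (y := m) (w := y ^ n) (u := s)
    (v := c) (by simp [hy]) hm (by simp [hy]) (by linear_combination -hc)
  refine ⟨1 - y * u, by simp [hy, hu, mul_comm], sep_of_dvd (n := n) ⟨v, ?_⟩⟩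
  linear_combination -huv

lemma exists_real_avoid {β : O} (hβ : β ≠ 0) (y w : O) :
    ∃ r, star r = r ∧ ∀ P : Ideal O, P.IsPrime → β ∈ P → w ∉ P → y + w * r ∉ P := by
  obtain ⟨n, s, hs⟩ := exists_pow_dvd (H.fin β hβ) w
  obtain ⟨y0, y1, h0, h1, hy⟩ := H.dec (y * s)
  have hN : β * star β ≠ 0 := mul_ne_zero hβ (by simpa using hβ)
  obtain ⟨r, hr, hsep⟩ := H.exists_sep_real hN (by simp [mul_comm]) h1
  refine ⟨r - y0, by simp [hr, h0], fun P hP hβP hw hmem => ?_⟩
  have h2 : 1 - w * s ∈ P := (sep_of_dvd hs P hP hβP).2 hw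
  have h3 : r + y1 * z ∈ P := by
    have : r + y1 * z = s * (y + w * (r - y0)) + (r - y0) * (1 - w * s) := by
      linear_combination -hy
    rw [this]; exact P.add_mem (P.mul_mem_left _ hmem) (P.mul_mem_left _ h2)
  have hNP : β * star β ∈ P := P.mul_mem_right _ hβP
  by_cases hy1 : y1 ∈ P
  · exact hsep.not_mem hP hNP hy1 (by simpa using P.sub_mem h3 (P.mul_mem_right z hy1))
  · have h4 : y1 * z ∈ P := by simpa using P.sub_mem h3 ((hsep P hP hNP).2 hy1)
    rcases hP.mem_or_mem h4 with h5 | h5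
    · exact hy1 h5
    · exact hP.ne_top (Ideal.eq_top_of_isUnit_mem _ h5 H.unit_z)

lemma exists_real_primitive {a β : O} (hab : IsCoprime a β) (hβ : β ≠ 0) :
    ∃ l, ∀ y, ∃ r, star r = r ∧ a + l * β ∣ y - r := by
  have hN : β * star β ≠ 0 := mul_ne_zero hβ (by simpa using hβ)
  set n := β * star β with hn
  have hnr : star n = n := by simp [hn, mul_comm]
  obtain ⟨a0, a1, h0, h1, ha⟩ := H.dec a
  obtain ⟨m1, hm1, hy1⟩ : ∃ m1 : O, star m1 = m1 ∧ a1 + m1 * n ≠ 0 := by
    by_cases h : a1 = 0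
    · exact ⟨1, by simp, by simpa [h] using hN⟩
    · exact ⟨0, by simp, by simpa using h⟩
  set y1 := a1 + m1 * n with hy1d
  have hy1r : star y1 = y1 := by simp [hy1d, h1, hm1, hnr, mul_comm]
  obtain ⟨r, hr, hsep⟩ := H.exists_sep_real hy1 hy1r h0
  set x0 := a0 + r * n with hx0d
  have hx0r : star x0 = x0 := by simp [hx0d, h0, hr, hnr, mul_comm]
  have hab' : IsCoprime (star a) (star β) := by
    obtain ⟨u, v, huv⟩ := hab
    exact ⟨star u, star v, by simpa [mul_comm] using congrArg star huv⟩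
  have hcop : ∀ P : Ideal O, P.IsPrime → y1 ∈ P → x0 ∉ P := by
    intro P hP hy
    refine hsep.add_not_mem n hP hy fun ha0 hnP => ?_
    have ha1 : a1 ∈ P := by simpa [hy1d] using P.sub_mem hy (P.mul_mem_left m1 hnP)
    have haP : a ∈ P := ha ▸ P.add_mem ha0 (P.mul_mem_right _ ha1)
    have haP' : star a ∈ P := by
      rw [ha, star_add, star_mul, h0, h1]; exact P.add_mem ha0 (P.mul_mem_left _ ha1)
    rcases hP.mem_or_mem hnP with h | h
    · exact IsCoprime.not_mem hab hP haP h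
    · exact IsCoprime.not_mem hab' hP haP' h
  set a' := x0 + y1 * z with ha'
  have hNa : a' * star a' = x0 ^ 2 + y1 * (x0 * (z + star z) + y1) := by
    rw [ha', star_add, star_mul, hx0r, hy1r]; linear_combination (y1 ^ 2) * H.hz
  have hc : IsCoprime y1 (a' * star a') := by
    refine isCoprime_of_forall_prime fun P hP hy hN' => hcop P hP hy ?_
    rw [hNa] at hN'
    exact hP.mem_of_pow_mem 2 (by simpa using P.sub_mem hN' (P.mul_mem_right (x0 * (z + star z) + y1) hy))
  obtain ⟨u, v, huv⟩ := hc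
  obtain ⟨u', v', hu', hv', huv'⟩ := H.real_comb hy1r (by simp [mul_comm]) (star_one O) huv
  refine ⟨(r + m1 * z) * star β, fun y => ?_⟩
  obtain ⟨b0, b1, hb0, hb1, rfl⟩ := H.dec y
  have e : a + (r + m1 * z) * star β * β = a' := by
    rw [ha', hx0d, hy1d, ha, hn]; ring
  refine ⟨b0 - b1 * x0 * u', by simp [hb0, hb1, hx0r, hu', mul_comm, mul_left_comm], ?_⟩
  rw [e]
  refine ⟨b1 * (u' + z * v' * star a'), ?_⟩
  have : a' = x0 + y1 * z := ha'
  linear_combination (-b1 * z) * huv' - b1 * u' * this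

lemma lam_eq {c : O} (h : z * c + star c = 0) : ∃ r, star r = r ∧ c = star (1 - z) * r := by
  obtain ⟨a, b, ha, hb, rfl⟩ := H.dec c
  rw [star_add, star_mul, ha, hb] at h
  have h1 : (1 + z) * (a + b * (z + star z - 1)) = 0 := by
    linear_combination h + b * H.hz
  have h2 := (mul_eq_zero.1 h1).resolve_left H.one_add
  exact ⟨b, hb, by rw [star_sub, star_one]; linear_combination h2⟩

lemma lam_valid {r : O} (hr : star r = r) :
    z * (star (1 - z) * r) + star (star (1 - z) * r) = 0 := by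
  rw [star_mul, star_star, hr, star_sub, star_one]; linear_combination (-r) * H.hz

lemma lam_level {c : O} (h : z * c + star c = 0) (hc : (1 - z) ^ 2 ∣ c) :
    ∃ r, star r = r ∧ c = (1 - z) * star (1 - z) * star (1 - z) * r := by
  obtain ⟨r, hr, rfl⟩ := H.lam_eq h
  obtain ⟨t, ht⟩ := hc
  have h1 : (1 - z) ∣ r := by
    refine ⟨-z * t, mul_left_cancel₀ H.one_sub ?_⟩
    rw [H.star_pi] at ht
    linear_combination (-z) * ht - (1 - z) * r * H.hz
  obtain ⟨s, hs, hrs⟩ := H.real_dvd (by simp [mul_comm]) hr (H.ram r hr h1)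
  exact ⟨s, hs, by rw [hrs]; ring⟩

lemma pi_dvd_star_sub (x : O) : (1 - z) ∣ star x - x := by
  obtain ⟨a, b, ha, hb, rfl⟩ := H.dec x
  refine ⟨b * star z * (1 + z), ?_⟩
  rw [star_add, star_mul, ha, hb]
  linear_combination (b * z) * H.hz

lemma sq_dvd_of_cube {c : O} (h : (1 - z) ^ 3 ∣ c * (1 + z)) : (1 - z) ^ 2 ∣ c := by
  rcases H.pu with hu | hp
  · exact (hu.pow 2).dvd
  · have hn : ¬ (1 - z) ^ 2 ∣ 1 + z := by
      intro h2
      have h3 : (1 - z) ∣ 2 := by
        have : (2 : O) = (1 + z) + (1 - z) := by ring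
        rw [this]; exact dvd_add (dvd_trans (dvd_pow_self _ two_ne_zero) h2) dvd_rfl
      have h4 : (1 - z) ^ 2 ∣ 2 :=
        dvd_trans (by rw [sq]; exact mul_dvd_mul_left _ H.pi_dvd_star) (H.ram 2 (by simp) h3)
      have h5 : (1 - z) ^ 2 ∣ (1 - z) := by
        have := dvd_sub h4 h2
        rwa [show (2 : O) - (1 + z) = 1 - z by ring] at this
      obtain ⟨t, ht⟩ := h5
      refine hp.not_isUnit (IsUnit.of_mul_eq_one t (mul_left_cancel₀ H.one_sub ?_))
      linear_combination -ht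
    by_cases h1 : (1 - z) ∣ 1 + z
    · obtain ⟨w, hw⟩ := h1
      have hw' : ¬ (1 - z) ∣ w := fun ⟨t, ht⟩ => hn ⟨t, by rw [hw, ht]; ring⟩
      have h6 : (1 - z) ^ 2 ∣ c * w := by
        obtain ⟨t, ht⟩ := h
        refine ⟨t, mul_left_cancel₀ H.one_sub ?_⟩
        rw [hw] at ht; linear_combination ht
      exact hp.pow_dvd_of_dvd_mul_right 2 hw' h6
    · exact hp.pow_dvd_of_dvd_mul_right 2 h1 (dvd_trans (pow_dvd_pow _ (by norm_num)) h)

lemma int_mod (x : O) : ∃ n : ℤ, (1 - z) ∣ x - n := by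
  have := H.gen
    { carrier := {x | ∃ n : ℤ, (1 - z) ∣ x - n}
      add_mem' := by
        rintro a b ⟨n, hn⟩ ⟨m, hm⟩
        exact ⟨n + m, by convert dvd_add hn hm using 1; push_cast; ring⟩
      zero_mem' := ⟨0, by simp⟩
      neg_mem' := by
        rintro a ⟨n, hn⟩
        exact ⟨-n, by convert hn.neg_right using 1; push_cast; ring⟩ }
    ⟨1, by simp⟩ (by
      rintro a ⟨n, hn⟩
      refine ⟨n, ?_⟩
      have : z * a - n = (a - n) - (1 - z) * a := by ring
      rw [this]; exact dvd_sub hn (dvd_mul_right _ _)) x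
  exact this

lemma coprime_of_prime {Q x : O} (hQ : Prime Q) (h : ¬ Q ∣ x) : IsCoprime Q x := by
  obtain ⟨n, s, hs⟩ := exists_pow_dvd (H.fin Q hQ.ne_zero) x
  obtain ⟨t, ht⟩ := (hQ.dvd_or_dvd hs).resolve_left fun h' => h (hQ.dvd_of_dvd_pow h')
  exact ⟨t, s, by linear_combination -ht⟩

lemma pi_dvd_geom (i : ℕ) : (1 - z) ∣ (∑ j ∈ Finset.range i, z ^ j) - i := by
  induction i with
  | zero => simp
  | succ i ih =>
    have := dvd_sub ih (sub_dvd_pow_sub_pow 1 z i)
    rw [Finset.sum_range_succ]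
    convert this using 1
    push_cast; ring

lemma exists_unit {x : O} (hx : IsCoprime x (1 - z)) : ∃ ε, IsUnit ε ∧ (1 - z) ^ 2 ∣ x - ε := by
  by_cases hu : IsUnit (1 - z)
  · exact ⟨1, isUnit_one, (hu.pow 2).dvd⟩
  have nat : ∀ x : O, ∃ n : ℕ, (1 - z) ∣ x - n := fun x => H.gen
    { carrier := {x | ∃ n : ℕ, (1 - z) ∣ x - n}
      add_mem' := by
        rintro a b ⟨n, hn⟩ ⟨m, hm⟩
        exact ⟨n + m, by convert dvd_add hn hm using 1; push_cast; ring⟩
      zero_mem' := ⟨0, by simp⟩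
      neg_mem' := by
        rintro a ⟨n, hn⟩
        have := H.fin _ H.one_sub
        obtain ⟨k, k0, hk⟩ := isOfFinAddOrder_iff_nsmul_eq_zero.1
          (isOfFinAddOrder_of_finite (1 : O ⧸ Ideal.span {1 - z}))
        obtain ⟨k, rfl⟩ : ∃ j, k = j + 1 := ⟨k - 1, by omega⟩
        rw [nsmul_one, ← map_natCast (Ideal.Quotient.mk _), Ideal.Quotient.eq_zero_iff_mem,
          Ideal.mem_span_singleton] at hk
        exact ⟨k * n, by
          convert dvd_sub hn.neg_right (hk.mul_right n) using 1; push_cast; ring⟩ }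
    ⟨1, by simp⟩ (by
      rintro a ⟨n, hn⟩
      refine ⟨n, ?_⟩
      have : z * a - n = (a - n) - (1 - z) * a := by ring
      rw [this]; exact dvd_sub hn (dvd_mul_right _ _)) x
  obtain ⟨n, hn⟩ := nat x
  have h1 := H.gu n fun h => hu (hx.symm.isUnit_of_dvd' dvd_rfl (by simpa using dvd_add hn h))
  obtain ⟨c, hc⟩ := h1.exists_left_inv
  obtain ⟨t, ht⟩ := dvd_sub hn (H.pi_dvd_geom n)
  obtain ⟨j, s, hs⟩ := nat (-(c * t))
  obtain ⟨r, hr⟩ := H.pi_dvd_geom j
  refine ⟨(∑ j ∈ Finset.range n, z ^ j) * z ^ j, h1.mul (H.unit_z.pow j),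
    (∑ j ∈ Finset.range n, z ^ j) * (r - s), ?_⟩
  have e := mul_neg_geom_sum z j
  generalize ∑ j ∈ Finset.range n, z ^ j = G at *
  generalize ∑ i ∈ Finset.range j, z ^ i = G' at *
  linear_combination ht - G * e + G * (1 - z) * (hr - hs) - (1 - z) * t * hc

end RH

end Pool.Agent.Lib.MP_61a4e3_al
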