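import Pool.Agent.Lib.MP_61a4e3_al.WGroup
import Pool.Agent.Lib.MP_61a4e3_al.RingLem

/-! Levels, supports and the orbit-stabiliser step. -/

set_option linter.unusedSectionVars false
set_option linter.unusedSimpArgs false
set_option linter.unusedVariables false

namespace Pool.Agent.Lib.MP_61a4e3_al

open Matrix WG Form

variable {O : Type*} [CommRing O] [StarRing O] {ι : Type*} [Fintype ι] [DecidableEq ι]

def Dv (q : O) (x : ι → O) : Prop := ∀ i, q ∣ x i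

lemma Dv.smul_self (q : O) (x : ι → O) : Dv q (q • x) := fun i => Dvd.intro _ rfl

lemma Dv.smul {q : O} {x : ι → O} (h : Dv q x) (c : O) : Dv q (c • x) :=
  fun i => Dvd.dvd.mul_left (h i) c

lemma Dv.smul_of_dvd {q c : O} (h : q ∣ c) (x : ι → O) : Dv q (c • x) :=
  fun i => Dvd.dvd.mul_right h (x i)

lemma Dv.add {q : O} {x y : ι → O} (h : Dv q x) (h' : Dv q y) : Dv q (x + y) :=
  fun i => dvd_add (h i) (h' i)

lemma Dv.sub {q : O} {x y : ι → O} (h : Dv q x) (h' : Dv q y) : Dv q (x - y) :=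
  fun i => dvd_sub (h i) (h' i)

lemma Dv.neg {q : O} {x : ι → O} (h : Dv q x) : Dv q (-x) := fun i => (h i).neg_right

lemma Dv.zero (q : O) : Dv q (0 : ι → O) := fun _ => dvd_zero q

lemma Dv.dot {q : O} {x : ι → O} (h : Dv q x) (r : ι → O) : q ∣ r ⬝ᵥ x :=
  Finset.dvd_sum fun i _ => Dvd.dvd.mul_left (h i) _

lemma Dv.mulVec {q : O} {x : ι → O} (h : Dv q x) (M : Matrix ι ι O) : Dv q (M *ᵥ x) :=
  fun i => h.dot (M i)

lemma Dv.B_right {q : O} {x : ι → O} (F : Form O ι) (h : Dv q x) (y : ι → O) : q ∣ F.B y x :=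
  (h.mulVec F.A).dot _

lemma Dv.exists {q : O} {x : ι → O} (h : Dv q x) : ∃ y, x = q • y := by
  choose y hy using h
  exact ⟨y, funext hy⟩

lemma dv_mulVec_of_mat {q : O} {M : Matrix ι ι O} (h : ∀ i j, q ∣ M i j) (y : ι → O) :
    Dv q (M *ᵥ y) := fun i => Finset.dvd_sum fun j _ => Dvd.dvd.mul_right (h i j) _

lemma dvd_mul_mat {q : O} {M : Matrix ι ι O} (h : ∀ i j, q ∣ M i j) (N : Matrix ι ι O) (i j : ι) :
    q ∣ (M * N) i j := Finset.dvd_sum fun k _ => Dvd.dvd.mul_right (h i k) _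

lemma dvd_mat_mul {q : O} {M : Matrix ι ι O} (h : ∀ i j, q ∣ M i j) (N : Matrix ι ι O) (i j : ι) :
    q ∣ (N * M) i j := Finset.dvd_sum fun k _ => Dvd.dvd.mul_left (h k j) _

variable (F : Form O ι)

lemma inv_W_eq (g : WG F) : (g⁻¹).W = g.W * (F.A * (g⁻¹).W) - g.W := by
  have := g.prop
  rw [Form.op, ← inv_W] at this
  rw [← Matrix.mul_assoc, eq_sub_iff_add_eq, add_comm, ← sub_eq_zero]; exact this

/-- The level `q` subgroup. -/
def lev (q : O) : Subgroup (WG F) where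
  carrier := {g | ∀ i j, q ∣ g.W i j}
  mul_mem' := by
    intro g h hg hh i j
    rw [mul_W']; exact dvd_add (hg i j) (dvd_mat_mul hh _ i j)
  one_mem' := fun i j => by simp
  inv_mem' := by
    intro g hg i j
    rw [inv_W_eq]; exact dvd_sub (dvd_mul_mat hg _ i j) (hg i j)

/-- Elements supported on a submodule. -/
def sup (P : Submodule O (ι → O)) : Subgroup (WG F) where
  carrier := {g | ∀ y, g.W *ᵥ y ∈ P}
  mul_mem' := by
    intro g h hg hh y
    rw [mul_W, Form.op, sub_mulVec, add_mulVec, Matrix.mul_assoc, ← mulVec_mulVec]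
    exact P.sub_mem (P.add_mem (hg _) (hh _)) (hg _)
  one_mem' := fun y => by simp
  inv_mem' := by
    intro g hg y
    rw [inv_W_eq, sub_mulVec, ← mulVec_mulVec]
    exact P.sub_mem (hg _) (hg _)

variable {F}

lemma mem_lev {q : O} {g : WG F} : g ∈ lev F q ↔ ∀ i j, q ∣ g.W i j := Iff.rfl
lemma mem_sup {P : Submodule O (ι → O)} {g : WG F} : g ∈ sup F P ↔ ∀ y, g.W *ᵥ y ∈ P := Iff.rfl

lemma sup_mono {P Q : Submodule O (ι → O)} (h : P ≤ Q) : sup F P ≤ sup F Q :=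
  fun _ hg y => h (hg y)

lemma act_mem {P : Submodule O (ι → O)} {g : WG F} (hg : g ∈ sup F P) {y : ι → O} (hy : y ∈ P) :
    act g *ᵥ y ∈ P := by
  rw [act_mulVec]; exact P.sub_mem hy (hg _)

lemma conj_mem_lev {q : O} {n : WG F} (hn : n ∈ lev F q) (g : WG F) : g * n * g⁻¹ ∈ lev F q := by
  intro i j; rw [conj_W]; exact dvd_mul_mat (dvd_mat_mul hn _) _ i j

lemma dv_act_sub {q : O} {g : WG F} (hg : g ∈ lev F q) (y : ι → O) : Dv q (act g *ᵥ y - y) := by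
  rw [act_mulVec, sub_sub_cancel_left]; exact (dv_mulVec_of_mat hg _).neg

lemma eW_mulVec (k x : ι → O) (c : O) (y : ι → O) : F.eW k x c *ᵥ y =
    (star k ⬝ᵥ y) • x + (c * (star k ⬝ᵥ y) - star F.z * (star x ⬝ᵥ y)) • k := by
  rw [eW, add_mulVec, sub_mulVec, smul_mulVec, smul_mulVec, ou_mulVec, ou_mulVec, ou_mulVec,
    smul_smul, smul_smul, sub_smul]
  abel

lemma mkE_mem_sup {P : Submodule O (ι → O)} {k x : ι → O} {c : O} (h : F.IsE k x c)
    (hk : k ∈ P) (hx : x ∈ P) : mkE h ∈ sup F P := by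
  intro y; rw [mkE_W, eW_mulVec]; exact P.add_mem (P.smul_mem _ hx) (P.smul_mem _ hk)

lemma mkE_mem_lev {q : O} (hq : q ∣ star q) {k x : ι → O} {c : O} (h : F.IsE k x c)
    (hx : Dv q x) (hc : q ∣ c) : mkE h ∈ lev F q := by
  intro i j
  simp only [mkE_W, eW, ou, Matrix.add_apply, Matrix.sub_apply, Matrix.smul_apply,
    vecMulVec_apply, smul_eq_mul,
    Pi.star_apply]
  refine dvd_add (dvd_sub (Dvd.dvd.mul_right (hx i) _) ?_) (Dvd.dvd.mul_right hc _)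
  obtain ⟨t, ht⟩ := hx j
  rw [ht, star_mul]
  exact Dvd.dvd.mul_left (Dvd.dvd.mul_left (Dvd.dvd.mul_left hq _) _) _

variable (F) in
/-- Unimodular vectors. -/
def Uni (k : ι → O) : Prop := ∃ y, F.B y k = 1

lemma Uni.act {k : ι → O} (h : Uni F k) (g : WG F) : Uni F (act g *ᵥ k) := by
  obtain ⟨y, hy⟩ := h
  exact ⟨WG.act g *ᵥ y, by rw [B_act, hy]⟩

lemma uni_left {k k' : ι → O} (h : F.B k k' = 1) : Uni F k :=
  ⟨F.z • k', by rw [B_smul_left, F.B_eq_one_swap h, F.hz']⟩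

variable (F) in
/-- The group generated by level `q` Eichler elements based in `Q`. -/
def NQ (q : O) (Q : Submodule O (ι → O)) : Subgroup (WG F) :=
  Subgroup.closure {g | ∃ k x c, ∃ h : F.IsE k x c, (k ∈ Q ∧ Uni F k) ∧ Dv q x ∧ q ∣ c ∧ g = mkE h}

lemma mkE_mem_NQ {q : O} {Q : Submodule O (ι → O)} {k x : ι → O} {c : O} (h : F.IsE k x c)
    (hk : k ∈ Q ∧ Uni F k) (hx : Dv q x) (hc : q ∣ c) : mkE h ∈ NQ F q Q :=
  Subgroup.subset_closure ⟨k, x, c, h, hk, hx, hc, rfl⟩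

lemma conj_mem_NQ {q : O} {Q : Submodule O (ι → O)} {g n : WG F} (hg : g ∈ sup F Q)
    (hn : n ∈ NQ F q Q) : g * n * g⁻¹ ∈ NQ F q Q := by
  induction hn using Subgroup.closure_induction with
  | mem n hn =>
    obtain ⟨k, x, c, h, hk, hx, hc, rfl⟩ := hn
    rw [conj_mkE]; exact mkE_mem_NQ _ ⟨act_mem hg hk.1, hk.2.act g⟩ (hx.mulVec _) hc
  | one => simp
  | mul a b _ _ ha hb =>
    have : g * (a * b) * g⁻¹ = (g * a * g⁻¹) * (g * b * g⁻¹) := by group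
    rw [this]; exact mul_mem ha hb
  | inv a _ ha =>
    have : g * a⁻¹ * g⁻¹ = (g * a * g⁻¹)⁻¹ := by group
    rw [this]; exact inv_mem ha

/-- The kernel of a row vector. -/
def kerv (r : ι → O) : Submodule O (ι → O) where
  carrier := {x | r ⬝ᵥ x = 0}
  add_mem' := by intro a b ha hb; simp only [Set.mem_ofPred_eq] at *; simp [ha, hb]
  zero_mem' := by simp
  smul_mem' := by intro c x hx; simp only [Set.mem_ofPred_eq] at *; simp [hx]

lemma mem_kerv {r x : ι → O} : x ∈ kerv r ↔ r ⬝ᵥ x = 0 := Iff.rfl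

lemma final_step {q : O} {P : Submodule O (ι → O)} {r h : ι → O} {g : WG F}
    (hgl : g ∈ lev F q) (hgP : g ∈ sup F P) (hh : F.B h h = 0) (hP : h ∈ P)
    (h1 : r ⬝ᵥ h = 1) (h2 : r ⬝ᵥ (act g *ᵥ h) = 1) :
    ∃ x c, ∃ e : F.IsE h x c, x ∈ P ∧ Dv q x ∧ q ∣ c ∧ g * mkE e ∈ sup F (P ⊓ kerv r) := by
  set w := g.Wᴴ *ᵥ star r with hw
  have key : ∀ y, r ⬝ᵥ (g.W *ᵥ y) = star w ⬝ᵥ y := by
    intro y; rw [hw, star_mulVec, conjTranspose_conjTranspose, star_star, dotProduct_mulVec]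
  have phi : ∀ y, r ⬝ᵥ (act g *ᵥ y) = r ⬝ᵥ y - F.B w y := by
    intro y; rw [act_mulVec, dotProduct_sub, key, Form.B]
  set x := (g⁻¹).W *ᵥ star r with hx
  have hxw : x = star F.z • w := by rw [hx, inv_W, Form.tau, smul_mulVec]
  have hwh : F.B w h = 0 := by
    have := phi h; rw [h1, h2] at this; linear_combination this
  have hxD : Dv q x := dv_mulVec_of_mat (inv_mem hgl) _
  have hxP : x ∈ P := (inv_mem hgP : g⁻¹ ∈ sup F P) _
  have hc : r ⬝ᵥ (act g *ᵥ x) = -star (r ⬝ᵥ w) := by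
    have h0 : g.W + act g * (g⁻¹).W = 0 := by rw [← mul_W', mul_inv_cancel, one_W]
    have h3 : r ⬝ᵥ ((g.W + act g * (g⁻¹).W) *ᵥ star r) = 0 := by rw [h0]; simp
    rw [add_mulVec, dotProduct_add, key, ← mulVec_mulVec, ← hx] at h3
    rw [star_dotProduct_star] at h3
    linear_combination h3
  have e : F.IsE h x (star (r ⬝ᵥ w)) := by
    refine ⟨hh, by rw [hxw, B_smul_right, F.B_eq_zero_swap hwh, mul_zero], ?_⟩
    have h4 := phi x
    rw [hc, hxw, dotProduct_smul, B_smul_right, smul_eq_mul] at h4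
    rw [hxw, B_smul_left, B_smul_right, star_star, star_star]
    linear_combination (-F.z) * h4 - (r ⬝ᵥ w) * F.hz
  refine ⟨x, _, e, hxP, hxD, ?_, fun y => ⟨mul_mem hgP (mkE_mem_sup e hP hxP) y, ?_⟩⟩
  · rw [← neg_neg (star _), ← hc]; exact ((hxD.mulVec _).dot _).neg_right
  · change r ⬝ᵥ _ = 0
    rw [mul_W', add_mulVec, dotProduct_add, key, ← mulVec_mulVec, mkE_W, eW_mulVec, mulVec_add,
      mulVec_smul, mulVec_smul, dotProduct_add, dotProduct_smul, dotProduct_smul, hc, h2, hxw,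
      star_smul, star_star, smul_dotProduct]
    simp only [smul_eq_mul]
    linear_combination (-(star w ⬝ᵥ y)) * F.hz

/-- Reducibility of `g` modulo `N` to the smaller support. -/
def Red (q : O) (P' : Submodule O (ι → O)) (N : Subgroup (WG F)) (g : WG F) : Prop :=
  ∃ g' ∈ lev F q, g' ∈ sup F P' ∧ g'⁻¹ * g ∈ N

lemma Red.of_mul {q : O} {P' : Submodule O (ι → O)} {N : Subgroup (WG F)} {g n : WG F}
    (hn : n ∈ N) (h : Red q P' N (g * n)) : Red q P' N g := by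
  obtain ⟨g', h1, h2, h3⟩ := h
  refine ⟨g', h1, h2, ?_⟩
  have := mul_mem h3 (inv_mem hn)
  simpa [mul_assoc] using this

lemma Red.of_conj {q : O} {P' Q : Submodule O (ι → O)} {g x : WG F}
    (hx : x ∈ sup F Q) (hx' : x ∈ sup F P') (h : Red q P' (NQ F q Q) (x⁻¹ * g * x)) :
    Red q P' (NQ F q Q) g := by
  obtain ⟨g', h1, h2, h3⟩ := h
  refine ⟨x * g' * x⁻¹, conj_mem_lev h1 x, mul_mem (mul_mem hx' h2) (inv_mem hx'), ?_⟩
  have := conj_mem_NQ hx h3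
  convert this using 1; group

lemma red_final {q : O} (hq : q ∣ star q) {P Q : Submodule O (ι → O)} {r h : ι → O} {g : WG F}
    (hgl : g ∈ lev F q) (hgP : g ∈ sup F P) (hh : F.B h h = 0) (hP : h ∈ P) (hQ : h ∈ Q ∧ Uni F h)
    (h1 : r ⬝ᵥ h = 1) (h2 : r ⬝ᵥ (act g *ᵥ h) = 1) : Red q (P ⊓ kerv r) (NQ F q Q) g := by
  obtain ⟨x, c, e, -, hx, hc, hs⟩ := final_step hgl hgP hh hP h1 h2
  refine Red.of_mul (mkE_mem_NQ e hQ hx hc) ⟨_, mul_mem hgl (mkE_mem_lev hq e hx hc), hs, ?_⟩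
  simp

/-- Two orthogonal hyperbolic pairs. -/
structure Planes (F : Form O ι) (h h' f f' : ι → O) : Prop where
  hh : F.B h h = 0
  h'h' : F.B h' h' = 0
  ff : F.B f f = 0
  f'f' : F.B f' f' = 0
  hh' : F.B h h' = 1
  ff' : F.B f f' = 1
  hf : F.B h f = 0
  hf' : F.B h f' = 0
  h'f : F.B h' f = 0
  h'f' : F.B h' f' = 0

namespace Planes
variable {h h' f f' : ι → O} (T : Planes F h h' f f')
include T
lemma h'h : F.B h' h = F.z := F.B_eq_one_swap T.hh'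
lemma f'f : F.B f' f = F.z := F.B_eq_one_swap T.ff'
lemma fh : F.B f h = 0 := F.B_eq_zero_swap T.hf
lemma f'h : F.B f' h = 0 := F.B_eq_zero_swap T.hf'
lemma fh' : F.B f h' = 0 := F.B_eq_zero_swap T.h'f
lemma f'h' : F.B f' h' = 0 := F.B_eq_zero_swap T.h'f'
lemma symm : Planes F f f' h h' :=
  ⟨T.ff, T.f'f', T.hh, T.h'h', T.ff', T.hh', T.fh, T.fh', T.f'h, T.f'h'⟩
lemma u1 : Uni F h := uni_left T.hh'
lemma u2 : Uni F h' := ⟨h, T.hh'⟩
lemma u3 : Uni F f := uni_left T.ff'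
lemma u4 : Uni F f' := ⟨f, T.ff'⟩
end Planes

lemma isE_iso {k y : ι → O} (hk : F.B k k = 0) (hy : F.B y y = 0) (hky : F.B k y = 0) (l : O) :
    F.IsE k (l • y) 0 := ⟨hk, by simp [hky], by simp [hy]⟩

lemma isE_qf {k y : ι → O} (hk : F.B k k = 0) (hky : F.B k y = 0) {c : O}
    (hc : F.z * c + star c = 0) : F.IsE k y (F.qf y + c) :=
  ⟨hk, hky, by rw [B_self, star_add]; linear_combination hc⟩

lemma qf_smul (c : O) (y : ι → O) : F.qf (c • y) = c * star c * F.qf y := by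
  simp [Form.qf, mulVec_smul, star_smul, smul_dotProduct, dotProduct_smul]; ring

section chain

variable [IsDomain O] (H : RH F.z) {P Q : Submodule O (ι → O)} {r h h' f f' : ι → O}

/-- The state of the reduction: a functional reached by admissible moves. -/
def St (F : Form O ι) (P Q : Submodule O (ι → O)) (r : ι → O) (g : WG F)
    (p : (ι → O) →ₗ[O] O) : Prop :=
  ∃ g', g' ∈ lev F ((1 - F.z) ^ 2) ∧ g' ∈ sup F P ∧ (∀ y, p y = r ⬝ᵥ (act g' *ᵥ y)) ∧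
    (Red ((1 - F.z) ^ 2) (P ⊓ kerv r) (NQ F ((1 - F.z) ^ 2) Q) g' →
      Red ((1 - F.z) ^ 2) (P ⊓ kerv r) (NQ F ((1 - F.z) ^ 2) Q) g)

include H in
lemma St.mvN {g : WG F} {p : (ι → O) →ₗ[O] O} (S : St F P Q r g p) {k x : ι → O} {c : O}
    (e : F.IsE k x c) (hkQ : k ∈ Q ∧ Uni F k) (hkP : k ∈ P) (hxP : x ∈ P) (hx : Dv ((1 - F.z) ^ 2) x)
    (hc : (1 - F.z) ^ 2 ∣ c) : ∃ p' : (ι → O) →ₗ[O] O, St F P Q r g p' ∧ ∀ y,
      p' y = p y - F.B k y * p x + (star F.z * F.B x y - c * F.B k y) * p k := by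
  obtain ⟨g', h1, h2, h3, h4⟩ := S
  refine ⟨p ∘ₗ (act (mkE e)).mulVecLin, ⟨g' * mkE e, mul_mem h1 (mkE_mem_lev H.sq_dvd_star e hx hc),
    mul_mem h2 (mkE_mem_sup e hkP hxP), fun y => ?_,
    fun hr => h4 (Red.of_mul (mkE_mem_NQ e hkQ hx hc) hr)⟩, fun y => ?_⟩
  · simp [h3, act_mul_mulVec]
  · simp [act_mkE]

lemma St.mvC {g : WG F} {p : (ι → O) →ₗ[O] O} (S : St F P Q r g p) {k x : ι → O} {c : O}
    (e : F.IsE k x c) (hkQ : k ∈ Q) (hxQ : x ∈ Q) (hkP : k ∈ P ⊓ kerv r) (hxP : x ∈ P ⊓ kerv r) :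
    ∃ p' : (ι → O) →ₗ[O] O, St F P Q r g p' ∧ ∀ y,
      p' y = p y - F.B k y * p x + (star F.z * F.B x y - c * F.B k y) * p k := by
  obtain ⟨g', h1, h2, h3, h4⟩ := S
  have hs := mkE_mem_sup e hkP hxP
  have hs' : mkE e ∈ sup F P := sup_mono inf_le_left hs
  refine ⟨p ∘ₗ (act (mkE e)).mulVecLin, ⟨(mkE e)⁻¹ * g' * mkE e, ?_,
    mul_mem (mul_mem (inv_mem hs') h2) hs', fun y => ?_,
    fun hr => h4 (Red.of_conj (mkE_mem_sup e hkQ hxQ) hs hr)⟩, fun y => ?_⟩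
  · simpa using conj_mem_lev h1 (mkE e)⁻¹
  · have : ∀ v, r ⬝ᵥ (act (mkE e)⁻¹ *ᵥ v) = r ⬝ᵥ v := by
      intro v
      rw [act_mulVec, dotProduct_sub, mem_kerv.1 ((inv_mem hs : (mkE e)⁻¹ ∈ sup F _) _).2,
        sub_zero]
    rw [act_mul_mulVec, act_mul_mulVec, this]
    simp [h3]
  · simp [act_mkE]

lemma St.dvd {g : WG F} {p : (ι → O) →ₗ[O] O} (S : St F P Q r g p) (y : ι → O) :
    (1 - F.z) ^ 2 ∣ p y - r ⬝ᵥ y := by
  obtain ⟨g', h1, -, h3, -⟩ := S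
  rw [h3, ← dotProduct_sub]; exact (dv_act_sub h1 y).dot r

lemma St.unimod {g : WG F} {p : (ι → O) →ₗ[O] O} (S : St F P Q r g p) (hP : h ∈ P)
    (h1 : r ⬝ᵥ h = 1) : ∃ v ∈ P, p v = 1 := by
  obtain ⟨g', -, h2, h3, -⟩ := S
  exact ⟨act g'⁻¹ *ᵥ h, act_mem (inv_mem h2) hP, by rw [h3, act_act_inv, h1]⟩

lemma Planes.decomp (T : Planes F h h' f f') (v : ι → O) : ∃ (m : ι → O) (a b c d : O),
    v = m + a • h + b • h' + c • f + d • f' ∧ F.B h m = 0 ∧ F.B h' m = 0 ∧ F.B f m = 0 ∧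
      F.B f' m = 0 := by
  refine ⟨v - (star F.z * F.B h' v) • h - F.B h v • h' - (star F.z * F.B f' v) • f
    - F.B f v • f', _, _, _, _, by abel, ?_, ?_, ?_, ?_⟩
  · simp [T.hh, T.hh', T.hf, T.hf']
  · simp [T.h'h, T.h'h', T.h'f, T.h'f']; linear_combination (-F.B h' v) * F.hz
  · simp [T.fh, T.fh', T.ff, T.ff']
  · simp [T.f'h, T.f'h', T.f'f, T.f'f']; linear_combination (-F.B f' v) * F.hz

include H in
theorem chain_step (T : Planes F h h' f f') (hP : h ∈ P) (h'P : h' ∈ P ⊓ kerv r)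
    (fP : f ∈ P ⊓ kerv r) (f'P : f' ∈ P ⊓ kerv r) (hQ : h ∈ Q) (h'Q : h' ∈ Q) (fQ : f ∈ Q)
    (f'Q : f' ∈ Q) (h1 : r ⬝ᵥ h = 1) {g : WG F} (hgl : g ∈ lev F ((1 - F.z) ^ 2))
    (hgP : g ∈ sup F P) :
    Red ((1 - F.z) ^ 2) (P ⊓ kerv r) (NQ F ((1 - F.z) ^ 2) Q) g := by
  set q := (1 - F.z) ^ 2 with hq
  have hq0 : q ≠ 0 := pow_ne_zero _ H.one_sub
  have hz0 : F.z ≠ 0 := H.unit_z.ne_zero
  set v0 := (1 - F.z) * star (1 - F.z) * star (1 - F.z) with hv0
  have hv00 : v0 ≠ 0 := mul_ne_zero (mul_ne_zero H.one_sub H.star_pi_ne) H.star_pi_ne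
  have hqv0 : q ∣ v0 := by
    rw [hq, hv0, sq]; exact Dvd.dvd.mul_right (mul_dvd_mul_left _ H.pi_dvd_star) _
  have hv0v : ∀ s, star s = s → F.z * (v0 * s) + star (v0 * s) = 0 := by
    intro s hs
    have := H.lam_valid (r := (1 - F.z) * star (1 - F.z) * s) (by simp [hs, mul_comm])
    convert this using 2 <;> [skip; congr 1] <;> rw [hv0] <;> ring
  have hqs : q ∣ star q := H.sq_dvd_star
  have hsq : star q ∣ q := by
    obtain ⟨t, ht⟩ := hqs; exact ⟨star t, by simpa [mul_comm] using congrArg star ht⟩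
  -- primes containing pi do not contain the value at h
  have hpi : ∀ p, St F P Q r g p → ∀ J : Ideal O, J.IsPrime → p h ∈ J → (1 - F.z) ∉ J := by
    intro p S J hJ hp hpi
    obtain ⟨t, ht⟩ := S.dvd h
    rw [h1] at ht
    have : (1 : O) = p h - (1 - F.z) * ((1 - F.z) * t) := by linear_combination -ht
    exact hJ.ne_top ((Ideal.eq_top_iff_one _).2 (this ▸ J.sub_mem hp (J.mul_mem_right _ hpi)))
  have hzJ : ∀ J : Ideal O, J.IsPrime → F.z ∉ J := fun J hJ hz =>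
    hJ.ne_top (Ideal.eq_top_of_isUnit_mem _ hz H.unit_z)
  have S0 : St F P Q r g (dotProductBilin O O r ∘ₗ (act g).mulVecLin) :=
    ⟨g, hgl, hgP, fun y => by simp, id⟩
  -- step a0
  obtain ⟨p1, S1, hb1⟩ : ∃ p, St F P Q r g p ∧ p f ≠ 0 := by
    generalize (dotProductBilin O O r ∘ₗ (act g).mulVecLin) = p at S0
    by_cases hb : p f = 0
    swap
    · exact ⟨p, S0, hb⟩
    obtain ⟨v, hvP, hv⟩ := S0.unimod hP h1
    obtain ⟨m, a, b, c, d, rfl, m1, m2, m3, m4⟩ := T.decomp v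
    set x0 := m + a • h + b • h' with hx0
    have hx0P : x0 ∈ P := by
      have := P.sub_mem (P.sub_mem hvP (P.smul_mem d f'P.1)) (P.smul_mem c fP.1)
      convert this using 1; abel
    have k1 : F.B f' (q • x0) = 0 := by simp [hx0, m4, T.f'h, T.f'h']
    have k2 : F.B (q • x0) f = 0 :=
      F.B_eq_zero_swap (by simp [hx0, m3, T.fh, T.fh'])
    have hqq : q ∣ F.qf (q • x0) := by
      rw [qf_smul, mul_assoc]; exact dvd_mul_right _ _
    obtain ⟨pa, Sa, ha⟩ := S0.mvN H (isE_qf T.f'f' k1 (hv0v 0 (by simp))) ⟨f'Q, T.u4⟩ f'P.1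
      (P.smul_mem _ hx0P) (Dv.smul_self _ _) (dvd_add hqq (by simp))
    obtain ⟨pb, Sb, hb'⟩ := S0.mvN H (isE_qf T.f'f' k1 (hv0v 1 (by simp))) ⟨f'Q, T.u4⟩ f'P.1
      (P.smul_mem _ hx0P) (Dv.smul_self _ _) (dvd_add hqq (by simpa using hqv0))
    by_contra hne
    push Not at hne
    have e1 := hne _ Sa
    have e2 := hne _ Sb
    rw [ha, k2, T.f'f, hb, map_smul, smul_eq_mul] at e1
    rw [hb', k2, T.f'f, hb, map_smul, smul_eq_mul] at e2
    have e3 : F.z * v0 * p f' = 0 := by linear_combination e1 - e2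
    have e4 : p f' = 0 := (mul_eq_zero.1 e3).resolve_left (mul_ne_zero hz0 hv00)
    have e5 : F.z * q * p x0 = 0 := by rw [e4] at e1; linear_combination -e1
    have e6 : p x0 = 0 := (mul_eq_zero.1 e5).resolve_left (mul_ne_zero hz0 hq0)
    simp [e6, hb, e4] at hv
  -- step a1
  obtain ⟨p2, m, S2, hb2, hmP, m1, m2, m3, m4, hm⟩ : ∃ p m, St F P Q r g p ∧ p f ≠ 0 ∧ m ∈ P ∧
      F.B h m = 0 ∧ F.B h' m = 0 ∧ F.B f m = 0 ∧ F.B f' m = 0 ∧
      ∀ J : Ideal O, J.IsPrime → p f ∈ J → p h' ∈ J → p m ∈ J → p h ∉ J := by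
    obtain ⟨v, hvP, hv⟩ := S1.unimod hP h1
    obtain ⟨m, a, b, c, d, rfl, m1, m2, m3, m4⟩ := T.decomp v
    have hmP : m ∈ P := by
      have := P.sub_mem (P.sub_mem (P.sub_mem (P.sub_mem hvP (P.smul_mem d f'P.1))
        (P.smul_mem c fP.1)) (P.smul_mem b h'P.1)) (P.smul_mem a hP)
      convert this using 1; abel
    simp only [map_add, map_smul, smul_eq_mul] at hv
    obtain ⟨s, hs⟩ := exists_sep (H.fin _ hb1) (p1 h)
    obtain ⟨u, hu, hu'⟩ : ∃ u, p1 f - F.z * (q * star u * p1 h') ≠ 0 ∧ p1 f ∣ u - s := by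
      by_cases hc : p1 f - F.z * (q * star s * p1 h') = 0
      · refine ⟨s + p1 f, fun hc' => ?_, by simp⟩
        rw [star_add] at hc'
        have e3 : F.z * q * star (p1 f) * p1 h' = 0 := by linear_combination hc - hc'
        have e4 : p1 h' = 0 := (mul_eq_zero.1 e3).resolve_left
          (mul_ne_zero (mul_ne_zero hz0 hq0) (by simpa using hb1))
        rw [e4] at hc; exact hb1 (by simpa using hc)
      · exact ⟨s, hc, by simp⟩
    obtain ⟨p, S, hp⟩ := S1.mvN H (isE_iso T.f'f' T.h'h' T.f'h' (q * star u)) ⟨f'Q, T.u4⟩ f'P.1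
      (P.smul_mem _ h'P.1) (Dv.smul_of_dvd (dvd_mul_right _ _) _) (dvd_zero _)
    have pf : p f = p1 f - F.z * (q * star u * p1 h') := by
      rw [hp]; simp [T.f'f, T.h'f]
    have ph' : p h' = p1 h' := by rw [hp]; simp [T.f'h', T.h'h']
    have pm : p m = p1 m := by rw [hp]; simp [m4, m2]
    have ph : p h = p1 h + u * (star q * p1 f') := by
      rw [hp]; simp [T.f'h, T.h'h]; linear_combination (u * star q * p1 f') * F.hz
    refine ⟨p, m, S, by rw [pf]; exact hu, hmP, m1, m2, m3, m4, fun J hJ j1 j2 j3 => ?_⟩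
    rw [ph'] at j2; rw [pm] at j3
    have j4 : p1 f ∈ J := by
      rw [pf] at j1
      simpa using J.add_mem j1 (J.mul_mem_left F.z (J.mul_mem_left (q * star u) j2))
    have := hs.add_not_mem (star q * p1 f') hJ j4 (fun ha hc => by
      rcases hJ.mem_or_mem hc with h5 | h5
      · obtain ⟨t, ht⟩ := hsq
        have : q ∈ J := ht ▸ J.mul_mem_right _ h5
        exact hpi _ S1 J hJ ha (hJ.mem_of_pow_mem 2 this)
      · exact hJ.ne_top ((Ideal.eq_top_iff_one _).2 (hv ▸ J.add_mem (J.add_mem (J.add_mem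
          (J.add_mem j3 (J.mul_mem_left _ ha)) (J.mul_mem_left _ j2)) (J.mul_mem_left _ j4))
          (J.mul_mem_left _ h5))))
    intro hc
    apply this
    obtain ⟨t, ht⟩ := hu'
    have e : p1 h + s * (star q * p1 f') = p h - p1 f * (t * (star q * p1 f')) := by
      rw [ph]; linear_combination (-(star q * p1 f')) * ht
    rw [e]; exact J.sub_mem hc (J.mul_mem_right _ j4)
  -- step a2
  obtain ⟨p3, S3, hb3, hc3⟩ : ∃ p, St F P Q r g p ∧ p f ≠ 0 ∧ IsCoprime (p h) (p f) := by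
    obtain ⟨s, hs⟩ := exists_sep (H.fin _ hb2) (p2 h)
    have k1 : F.B h' ((q * s) • m) = 0 := by simp [m2]
    obtain ⟨t, ht, havoid⟩ := H.exists_real_avoid hb2
      (p2 h + s * (-F.z * q * p2 m) - F.z * F.qf ((q * s) • m) * p2 h') (-F.z * v0 * p2 h')
    obtain ⟨p, S, hp⟩ := S2.mvN H (isE_qf T.h'h' k1 (hv0v t ht)) ⟨h'Q, T.u2⟩ h'P.1
      (P.smul_mem _ hmP) (Dv.smul_of_dvd (dvd_mul_right _ _) _)
      (dvd_add (by rw [qf_smul, mul_assoc, mul_assoc]; exact dvd_mul_right _ _)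
        (Dvd.dvd.mul_right hqv0 _))
    have pf : p f = p2 f := by
      rw [hp]; simp [T.h'f, F.B_eq_zero_swap m3]
    have ph : p h = p2 h + s * (-F.z * q * p2 m) - F.z * F.qf ((q * s) • m) * p2 h'
        + -F.z * v0 * p2 h' * t := by
      rw [hp]; simp [T.h'h, F.B_eq_zero_swap m1]; ring
    refine ⟨p, S, by rw [pf]; exact hb2, isCoprime_of_forall_prime fun J hJ j1 j2 => ?_⟩
    have hpiJ := hpi p S J hJ j1
    rw [pf] at j2
    by_cases hw : p2 h' ∈ J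
    · refine hs.add_not_mem (-F.z * q * p2 m) hJ j2 (fun ha hc => ?_) ?_
      · rcases hJ.mem_or_mem hc with h5 | h5
        · rcases hJ.mem_or_mem h5 with h6 | h6
          · exact hzJ J hJ (by simpa using h6)
          · exact hpiJ (hJ.mem_of_pow_mem 2 h6)
        · exact hm J hJ j2 hw h5 ha
      · have e : p2 h + s * (-F.z * q * p2 m) =
            p h + (F.z * F.qf ((q * s) • m) + F.z * v0 * t) * p2 h' := by rw [ph]; ring
        rw [e]; exact J.add_mem j1 (J.mul_mem_left _ hw)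
    · refine havoid J hJ j2 (fun hc => ?_) (ph ▸ j1)
      rcases hJ.mem_or_mem hc with h5 | h5
      · rcases hJ.mem_or_mem h5 with h6 | h6
        · exact hzJ J hJ (by simpa using h6)
        · have hs' : star (1 - F.z) ∉ J := fun h7 => hpiJ (by
            rw [H.pi_eq]; exact J.mul_mem_left _ h7)
          rcases hJ.mem_or_mem h6 with h7 | h7
          · exact (hJ.mem_or_mem h7).elim hpiJ hs'
          · exact hs' h7
      · exact hw h5
  -- step b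
  obtain ⟨p4, S4, hc4, hprim⟩ : ∃ p, St F P Q r g p ∧ IsCoprime (p h) (p f) ∧
      ∀ y, ∃ s, star s = s ∧ p h ∣ y - s := by
    obtain ⟨l, hl⟩ := H.exists_real_primitive hc3 hb3
    obtain ⟨p, S, hp⟩ := S3.mvC (isE_iso T.h'h' T.ff T.h'f (-star F.z * l)) h'Q
      (Q.smul_mem _ fQ) h'P (Submodule.smul_mem _ _ fP)
    have pf : p f = p3 f := by rw [hp]; simp [T.h'f, T.ff]
    have ph : p h = p3 h + l * p3 f := by
      rw [hp]; simp [T.h'h, T.fh]; linear_combination (l * p3 f) * F.hz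
    exact ⟨p, S, by rw [pf, ph]; exact hc3.add_mul_right_left l, by rw [ph]; exact hl⟩
  -- step c
  obtain ⟨p5, S5, hb5⟩ : ∃ p, St F P Q r g p ∧ p f' = q := by
    obtain ⟨t, ht⟩ := S4.dvd f
    obtain ⟨t', ht'⟩ := S4.dvd f'
    rw [mem_kerv.1 fP.2, sub_zero, ← hq] at ht
    rw [mem_kerv.1 f'P.2, sub_zero, ← hq] at ht'
    have hc : IsCoprime (p4 h) (star (1 - F.z) * t) := by
      refine isCoprime_of_forall_prime fun J hJ j1 j2 => ?_
      rcases hJ.mem_or_mem j2 with h5 | h5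
      · exact hpi _ S4 J hJ j1 (by rw [H.pi_eq]; exact J.mul_mem_left _ h5)
      · exact IsCoprime.not_mem hc4 hJ j1 (ht ▸ J.mul_mem_left _ h5)
    obtain ⟨u, v, huv⟩ := hc
    obtain ⟨s, hs, w, hw⟩ := hprim (v * (t' - 1))
    have e0 : F.IsE f 0 (star (1 - F.z) * s) := ⟨T.ff, by simp, by rw [H.lam_valid hs]; simp⟩
    obtain ⟨pa, Sa, ha⟩ := S4.mvC e0 fQ Q.zero_mem fP (Submodule.zero_mem _)
    obtain ⟨p, S, hp⟩ := Sa.mvN H (isE_iso T.ff T.hh T.fh
      (q * (u * (t' - 1) + star (1 - F.z) * t * w))) ⟨fQ, T.u3⟩ fP.1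
      (P.smul_mem _ hP) (Dv.smul_of_dvd (dvd_mul_right _ _) _) (dvd_zero _)
    refine ⟨p, S, ?_⟩
    rw [hp]
    simp only [map_smul, ha, T.ff', T.fh, T.ff, T.hf', B_smul_left, B_smul_right, B_zero_left, map_zero,
      smul_eq_mul, ht, ht']
    linear_combination (-q * (t' - 1)) * huv + (q * star (1 - F.z) * t) * hw
  -- step d
  obtain ⟨t, ht⟩ := S5.dvd h
  rw [h1, ← hq] at ht
  obtain ⟨p, ⟨g', k1, k2, k3, k4⟩, hp⟩ := S5.mvC (isE_iso T.h'h' T.f'f' T.h'f' (star F.z * t)) h'Q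
      (Q.smul_mem _ f'Q) h'P (Submodule.smul_mem _ _ f'P)
  refine k4 (red_final hqs k1 k2 T.hh hP ⟨hQ, T.u1⟩ h1 ?_)
  rw [← k3, hp]
  simp only [T.h'h, map_smul, smul_eq_mul, hb5, B_smul_left, T.f'h]
  linear_combination ht - t * q * F.hz

end chain

end Pool.Agent.Lib.MP_61a4e3_al
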