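import Pool.Agent.Lib.MP_61a4e3_al.Symbol

/-! The level `π²` determinant one group lies in any group with three good planes. -/

set_option linter.unusedSectionVars false
set_option linter.unusedSimpArgs false
set_option linter.unusedVariables false

namespace Pool.Agent.Lib.MP_61a4e3_al

open Matrix WG Form

variable {O : Type} [CommRing O] [StarRing O] {ι : Type} [Fintype ι] [DecidableEq ι]
  {F : Form O ι} {Γ : Subgroup (WG F)}

/-- The Eichler element with these data exists and lies in `Γ`. -/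
def HE (Γ : Subgroup (WG F)) (k x : ι → O) (c : O) : Prop := ∃ e : F.IsE k x c, mkE e ∈ Γ

lemma HE.mul {k x y : ι → O} {c d : O} (h : HE Γ k x c) (h' : HE Γ k y d) :
    HE Γ k (x + y) (c + d + star F.z * F.B x y) := by
  obtain ⟨e, he⟩ := h
  obtain ⟨e', he'⟩ := h'
  exact ⟨e.mul e', mkE_mul e e' ▸ mul_mem he he'⟩

lemma HE.inv {k x : ι → O} {c : O} (h : HE Γ k x c) : HE Γ k (-x) (star F.z * star c) := by
  obtain ⟨e, he⟩ := h
  exact ⟨e.inv, mkE_inv e ▸ inv_mem he⟩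

lemma HE.conj {k x : ι → O} {c : O} (h : HE Γ k x c) {g : WG F} (hg : g ∈ Γ) :
    HE Γ (act g *ᵥ k) (act g *ᵥ x) c := by
  obtain ⟨e, he⟩ := h
  exact ⟨e.conj g, conj_mkE e g ▸ mul_mem (mul_mem hg he) (inv_mem hg)⟩

lemma HE.of_eW {k x k' x' : ι → O} {c c' : O} (h : HE Γ k x c) (e' : F.IsE k' x' c')
    (hw : F.eW k x c = F.eW k' x' c') : HE Γ k' x' c' := by
  obtain ⟨e, he⟩ := h
  exact ⟨e', mkE_congr e e' hw ▸ he⟩

lemma HE.mem {k x : ι → O} {c : O} (h : HE Γ k x c) (e : F.IsE k x c) : mkE e ∈ Γ := h.2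

/-- All level `π` Eichler elements at `u` lie in `Γ`. -/
def Good (Γ : Subgroup (WG F)) (u : ι → O) : Prop :=
  ∀ x c, F.IsE u x c → Dv (1 - F.z) x → HE Γ u x c

lemma Good.act {u : ι → O} (h : Good Γ u) {g : WG F} (hg : g ∈ Γ) : Good Γ (act g *ᵥ u) := by
  intro x c e hx
  have e' := e.conj g⁻¹
  rw [act_inv_act] at e'
  have := (h _ _ e' (hx.mulVec _)).conj hg
  rwa [act_act_inv] at this

lemma Good.smul {u : ι → O} (h : Good Γ u) {l : O} (hl : l * star l = 1) : Good Γ (l • u) := by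
  intro x c e hx
  have e' : F.IsE u (star l • x) c := by
    have h1 := e.kk
    have h2 := e.kx
    simp only [B_smul_left, B_smul_right] at h1 h2
    refine ⟨by linear_combination h1 - F.B u u * hl, by simpa using h2, ?_⟩
    rw [e.hc, B_smul_left, B_smul_right, star_star]; linear_combination (-F.B x x) * hl
  refine (h _ _ e' (hx.smul _)).of_eW e ?_
  simp only [eW, ou_smul_left, ou_smul_right, star_star, smul_smul]
  match_scalars <;> grind

lemma Good.smul' {u : ι → O} (h : Good Γ u) (uu : F.B u u = 0) (l : O) : Good Γ (l • u) := by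
  intro x c e hx
  have e' : F.IsE u (star l • x) (l * star l * c) := by
    refine ⟨uu, by simpa using e.kx, ?_⟩
    rw [B_smul_left, B_smul_right, ← e.hc]; simp only [star_mul, star_star]; ring
  refine (h _ _ e' (hx.smul _)).of_eW e ?_
  simp only [eW, ou_smul_left, ou_smul_right, star_star, smul_smul]
  module

lemma Good.central {u : ι → O} (h : Good Γ u) {a c : O} (e : F.IsE u (a • u) c) : mkE e ∈ Γ := by
  have hz := F.hz
  have e' : F.IsE u 0 (c + a - star F.z * star a) := by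
    refine ⟨e.kk, by simp, ?_⟩
    have := e.hc
    simp only [B_smul_left, B_smul_right, e.kk, B_zero_left, star_sub, star_add, star_mul,
      star_star] at this ⊢
    grind
  refine ((h _ _ e' (Dv.zero _)).of_eW e ?_).mem e
  simp only [eW, ou_smul_left, ou_smul_right, ou_zero_left, ou_zero_right]
  module

lemma Good.swap {u k : ι → O} (h : Good Γ u) (uu : F.B u u = 0) (kk : F.B k k = 0)
    (uk : F.B u k = 0) {m : O} (hm : (1 - F.z) ∣ star m) : HE Γ k (m • u) 0 := by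
  have hz := F.hz
  refine (h _ _ (isE_iso uu kk uk (-star F.z * star m))
    (Dv.smul_of_dvd (hm.mul_left _) _)).of_eW (isE_iso kk uu (F.B_eq_zero_swap uk) m) ?_
  simp only [eW, ou_smul_left, ou_smul_right, star_mul, star_neg, star_star, smul_smul]
  match_scalars <;> grind

/-- The orthogonal complement of a pair. -/
def orth (F : Form O ι) (u u' : ι → O) : Submodule O (ι → O) := kerv (cf F u) ⊓ kerv (cf F u')

lemma mem_orth {u u' x : ι → O} : x ∈ orth F u u' ↔ F.B u x = 0 ∧ F.B u' x = 0 := by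
  simp [orth, mem_kerv]

variable [IsDomain O]

lemma dvd_B (H : RH F.z) {x y : ι → O} (hx : Dv (1 - F.z) x) (hy : Dv (1 - F.z) y) :
    (1 - F.z) ^ 2 ∣ F.B x y := by
  obtain ⟨x, rfl⟩ := hx.exists
  obtain ⟨y, rfl⟩ := hy.exists
  rw [B_smul_left, B_smul_right, sq, ← mul_assoc]
  exact (mul_dvd_mul H.pi_dvd_star dvd_rfl).mul_right _

lemma NQ_le (H : RH F.z) {u u' : ι → O} (hu : Good Γ u) (hu' : Good Γ u') (uu : F.B u u = 0)
    (u'u' : F.B u' u' = 0) (uu' : F.B u u' = 1) : NQ F ((1 - F.z) ^ 2) (orth F u u') ≤ Γ := by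
  rw [NQ, Subgroup.closure_le]
  rintro _ ⟨k, x, c, e, ⟨hk, -⟩, hx, hc, rfl⟩
  obtain ⟨uk, u'k⟩ := mem_orth.1 hk
  have hz := F.hz
  have hpi := H.pi_eq
  have u'u := F.B_eq_one_swap uu'
  have ku := F.B_eq_zero_swap uk
  have ku' := F.B_eq_zero_swap u'k
  have st : ∀ m, (1 - F.z) ∣ m → (1 - F.z) ∣ star m := by
    rintro _ ⟨m, rfl⟩; rw [star_mul]; exact H.pi_dvd_star.mul_left _
  have s1 : ∀ m, (1 - F.z) ∣ m → HE Γ k (m • u) 0 := fun m hm => hu.swap uu e.kk uk (st m hm)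
  have s2 : ∀ m, (1 - F.z) ∣ m → HE Γ k (m • u') 0 := fun m hm => hu'.swap u'u' e.kk u'k (st m hm)
  have cen : ∀ r, star r = r →
      HE Γ k 0 ((1 - F.z) * star (1 - F.z) * star (1 - F.z) * r) := by
    intro r hr
    have a := s1 ((1 - F.z) * -r) (dvd_mul_right _ _)
    have b := s2 (1 - F.z) dvd_rfl
    have := (a.mul b).mul (b.mul a).inv
    convert this using 1
    · abel
    · simp only [B_add_right, B_add_left, B_neg_right, B_smul_left, B_smul_right, uu, u'u', uu',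
        u'u, star_mul, star_add, star_neg, star_star, star_zero, hr, star_sub, star_one]
      clear * - hz; grind
  obtain ⟨x0, rfl⟩ := hx.exists
  have kx0 : F.B k x0 = 0 := by
    have := e.kx
    rw [B_smul_right] at this
    exact (mul_eq_zero.1 this).resolve_left (pow_ne_zero _ H.one_sub)
  set y := x0 - (star F.z * F.B u' x0) • u - F.B u x0 • u' with hy
  have uy : F.B u y = 0 := by simp [hy, uu, uu']
  have u'y : F.B u' y = 0 := by simp [hy, u'u, u'u']; grind
  have ky : F.B k y = 0 := by simp [hy, ku, ku', kx0]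
  have e1 : F.IsE u ((1 - F.z) • y) (F.qf ((1 - F.z) • y) + 0) :=
    isE_qf uu (by simp [uy]) (by simp)
  have h1 := (hu _ _ e1 (Dv.smul_self _ _)).mem e1
  set c1 := F.qf ((1 - F.z) • y) + 0
  have h2 := (s2 (-(1 - F.z)) (dvd_refl _).neg_right).conj h1
  have k1 : act (mkE e1) *ᵥ k = k := by
    rw [act_mkE]; simp [uk, F.B_eq_zero_swap ky]
  have k2 : act (mkE e1) *ᵥ (-(1 - F.z) • u') =
      (1 - F.z) • ((1 - F.z) • y + c1 • u - u') := by
    rw [act_mkE]; simp only [B_smul_right, B_smul_left, uu', F.B_eq_zero_swap u'y]; module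
  rw [k1, k2] at h2
  have h3 := (h2.mul (s2 ((1 - F.z) * (1 + (1 - F.z) * F.B u x0)) (dvd_mul_right _ _))).mul
    (s1 ((1 - F.z) * ((1 - F.z) * (star F.z * F.B u' x0) - c1)) (dvd_mul_right _ _))
  have hx3 : (1 - F.z) • ((1 - F.z) • y + c1 • u - u') +
      ((1 - F.z) * (1 + (1 - F.z) * F.B u x0)) • u' +
      ((1 - F.z) * ((1 - F.z) * (star F.z * F.B u' x0) - c1)) • u = (1 - F.z) ^ 2 • x0 := by
    rw [hy]; module
  obtain ⟨c', h4, hc'⟩ : ∃ c', HE Γ k ((1 - F.z) ^ 2 • x0) c' ∧ (1 - F.z) ^ 2 ∣ c' := by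
    refine ⟨_, hx3 ▸ h3, ?_⟩
    have d1 := Dv.smul_self (1 - F.z) ((1 - F.z) • y + c1 • u - u')
    have d2 := Dv.smul_of_dvd (dvd_mul_right (1 - F.z) (1 + (1 - F.z) * F.B u x0)) u'
    have d3 := Dv.smul_of_dvd
      (dvd_mul_right (1 - F.z) ((1 - F.z) * (star F.z * F.B u' x0) - c1)) u
    simp only [zero_add, add_zero]
    exact dvd_add ((dvd_B H d1 d2).mul_left _) ((dvd_B H (d1.add d2) d3).mul_left _)
  obtain ⟨r, hr, hcr⟩ := H.lam_level (c := c - c') (by
    have a := e.hc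
    have b := h4.1.hc
    rw [star_sub]; linear_combination a - b) (dvd_sub hc hc')
  have h5 := h4.mul (cen r hr)
  rw [add_zero, B_zero_right, mul_zero, add_zero, ← hcr, add_sub_cancel] at h5
  exact h5.mem e

variable (F) in
/-- Determinant one elements. -/
def detK : Subgroup (WG F) where
  carrier := {g | (act g).det = 1}
  mul_mem' := by
    intro a b ha hb
    simp only [Set.mem_ofPred_eq] at *
    rw [map_mul, det_mul, ha, hb, one_mul]
  one_mem' := by simp
  inv_mem' := by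
    intro a ha
    simp only [Set.mem_ofPred_eq] at *
    have : (act a⁻¹ * act a).det = 1 := by rw [← map_mul, inv_mul_cancel, map_one, det_one]
    rwa [det_mul, ha, mul_one] at this

lemma NQ_le_detK (q : O) (Q : Submodule O (ι → O)) : NQ F q Q ≤ detK F := by
  rw [NQ, Subgroup.closure_le]
  rintro _ ⟨k, x, c, e, -, -, -, rfl⟩
  exact det_mkE e

lemma mem_of_fix {f f' : ι → O} (ff : F.B f f = 0) (f'f' : F.B f' f' = 0) (ff' : F.B f f' = 1)
    (hf : Good Γ f) (hf' : Good Γ f') {g : WG F} (hg : g ∈ sup F (sp2 f f'))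
    (e1 : act g *ᵥ f = f) : g ∈ Γ := by
  have f'f := F.B_eq_one_swap ff'
  have hz := F.hz
  have l1 : ∀ g : WG F, g ∈ lev F 1 := fun g i j => one_dvd _
  obtain ⟨x, c, e, hxP, -, -, hs⟩ := final_step (r := star F.z • cf F f') (l1 g) hg ff
    (left_mem_sp2 _ _) (by simp [f'f, F.hz']) (by simp [e1, f'f, F.hz'])
  obtain ⟨a, b, rfl⟩ := hxP
  have hb : b = 0 := by simpa [ff, ff'] using e.kx
  subst hb
  have m1 : mkE e ∈ Γ := by
    have e' : F.IsE f (a • f) c := by simpa using e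
    exact mkE_congr e' e (by simp) ▸ hf.central e'
  obtain ⟨x, c, e2, hxP, -, -, hs2⟩ := final_step (r := cf F f) (l1 _) hs f'f'
    ⟨right_mem_sp2 _ _, by simp [mem_kerv, f'f']⟩ (by simp [ff']) (by
      rw [fix_of_orth hs]
      · simp [ff']
      · rintro x ⟨-, hx⟩
        refine F.B_eq_zero_swap ?_
        have : star F.z * F.B f' x = 0 := by simpa [mem_kerv] using hx
        linear_combination F.z * this - F.B f' x * hz)
  obtain ⟨⟨a', b', rfl⟩, hx⟩ := hxP
  have ha' : a' = 0 := by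
    have hx : (star F.z • cf F f') ⬝ᵥ (a' • f + b' • f') = 0 := hx
    simp only [smul_dotProduct, cf_dot, B_add_right, B_smul_right, f'f, f'f', smul_eq_mul] at hx
    linear_combination hx - a' * hz
  subst ha'
  have m2 : mkE e2 ∈ Γ := by
    have e' : F.IsE f' (b' • f') c := by simpa using e2
    exact mkE_congr e' e2 (by simp) ▸ hf'.central e'
  have := eq_one_of_sup hs2 (by
    rintro x ⟨⟨⟨a, b, rfl⟩, hx1⟩, hx2⟩
    have k1 : (star F.z • cf F f') ⬝ᵥ (a • f + b • f') = 0 := hx1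
    simp only [smul_dotProduct, cf_dot, B_add_right, B_smul_right, f'f, f'f', smul_eq_mul] at k1
    have k2 : b = 0 := by simpa [mem_kerv, ff, ff'] using hx2
    have k3 : a = 0 := by linear_combination k1 - a * hz
    simp [k2, k3])
  have h3 : g = (mkE e2)⁻¹ * (mkE e)⁻¹ := by
    rw [← _root_.mul_inv_rev, eq_inv_iff_mul_eq_one, ← mul_assoc, this]
  rw [h3]; exact mul_mem (inv_mem m2) (inv_mem m1)

lemma plane_mem (H : RH F.z) (hM : MenOK F.z) {f1 f1' f2 f2' : ι → O} {Q : Submodule O (ι → O)}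
    (T : Planes F f1 f1' f2 f2') (h1 : f1 ∈ Q) (h1' : f1' ∈ Q) (h2 : f2 ∈ Q) (h2' : f2' ∈ Q)
    (hN : NQ F ((1 - F.z) ^ 2) Q ≤ Γ) (hf : Good Γ f1) (hf' : Good Γ f1') {g : WG F}
    (hl : g ∈ lev F ((1 - F.z) ^ 2)) (hg : g ∈ sup F (sp2 f1 f1')) (hd : g ∈ detK F) : g ∈ Γ := by
  have hz := F.hz
  have hpi := H.pi_eq
  obtain ⟨a, b, k1⟩ := act_mem hg (left_mem_sp2 f1 f1')
  obtain ⟨c, e, k2⟩ := act_mem hg (right_mem_sp2 f1 f1')
  have hdet : a * e - b * c = 1 := by rw [← det_plane T.hh T.h'h' T.hh' hg k1 k2]; exact hd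
  have u1 := B_act g f1 f1
  have u2 := B_act g f1 f1'
  simp only [k1, k2, B_add_left, B_add_right, B_smul_left, B_smul_right, T.hh, T.hh', T.h'h,
    T.h'h'] at u1 u2
  have ha : star a = a := by
    linear_combination (-star a) * hdet + a * u2 - c * u1
  have hb : F.z * star b + star (star b) = 0 := by
    rw [star_star]; linear_combination (-F.z * star b) * hdet - b * u2 + e * u1
  obtain ⟨β, hβ, hbβ⟩ := H.lam_eq hb
  have hb' : b = (1 - F.z) * β := by
    have := congrArg star hbβ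
    rwa [star_star, star_mul, star_star, hβ, mul_comm] at this
  have ha1 : (1 - F.z) ∣ a - 1 := by
    have := (dv_act_sub hl f1).B_right F f1'
    simp only [k1, B_sub_right, B_add_right, B_smul_right, T.h'h, T.h'h'] at this
    have h3 : a - 1 = star F.z * (a * F.z + b * 0 - F.z) := by grind
    rw [h3]; exact (dvd_trans (dvd_pow_self _ two_ne_zero) this).mul_left _
  obtain ⟨w, hw⟩ : ∃ w, w = (1 - F.z) * star (1 - F.z) := ⟨_, rfl⟩
  have hwr : star w = w := by simp [hw, mul_comm]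
  obtain ⟨s, hs, has⟩ := H.real_dvd hwr (by simp [ha]) (hw ▸ H.ram (a - 1) (by simp [ha]) ha1)
  have eL : ∀ r, star r = r → F.IsE f1' 0 (star (1 - F.z) * r) := fun r hr =>
    ⟨T.h'h', by simp, by rw [H.lam_valid hr]; simp⟩
  have eU : ∀ r, star r = r → F.IsE f1 0 (star (1 - F.z) * r) := fun r hr =>
    ⟨T.hh, by simp, by rw [H.lam_valid hr]; simp⟩
  have r1 : star (1 - β) = 1 - β := by simp [hβ]
  have r3 : star (-(β + (1 - β) * a)) = -(β + (1 - β) * a) := by simp [hβ, ha, mul_comm]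
  set g3 := mkE (eL _ r3) * mkE (eU s hs) * mkE (eL _ r1) with hg3
  have m3 : g3 ∈ Γ := mul_mem (mul_mem ((hf' _ _ (eL _ r3) (Dv.zero _)).mem _)
    ((hf _ _ (eU s hs) (Dv.zero _)).mem _)) ((hf' _ _ (eL _ r1) (Dv.zero _)).mem _)
  have s3 : g3 ∈ sup F (sp2 f1 f1') := mul_mem (mul_mem
    (mkE_mem_sup _ (right_mem_sp2 _ _) (Submodule.zero_mem _))
    (mkE_mem_sup _ (left_mem_sp2 _ _) (Submodule.zero_mem _)))
    (mkE_mem_sup _ (right_mem_sp2 _ _) (Submodule.zero_mem _))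
  have hadm : Adm F.z (1 - w ^ 2 * (s ^ 2 * (1 - β)))
      (w * (s ^ 2 * (1 - β)) * (β + (1 - β) * a)) := by
    refine ⟨by simp [hwr, hs, hβ, mul_comm], by simp [hwr, hs, hβ, ha, mul_comm],
      ⟨-(s ^ 2 * (1 - β)), by rw [← hw]; ring⟩, ?_⟩
    refine IsCoprime.mul_right ⟨1, w, by ring⟩ ?_
    have : IsCoprime a (β + (1 - β) * a) := by
      refine IsCoprime.add_mul_right_right ⟨e, -(1 - F.z) * c, ?_⟩ _
      rw [hb'] at hdet; linear_combination hdet
    have h5 : 1 - w ^ 2 * (s ^ 2 * (1 - β)) = a + (-(w * s)) * (β + (1 - β) * a) := by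
      have : a = 1 + w * s := by linear_combination has
      rw [this]; ring
    rw [h5]; exact this.add_mul_right_left _
  obtain ⟨c', e', hc', he', hd'⟩ := exists_T' H T.hh T.h'h' T.hh' hadm
  obtain ⟨t, ht, -⟩ := exists_T H T.hh T.h'h' T.hh' hadm hc' he' hd'
  have mt : t ∈ Γ := hN (plane_trivial H T h1 h1' h2 h2' hM hadm ht)
  have k3 : act (g3 * g) *ᵥ f1 = act t *ᵥ f1 := by
    rw [ht.e, hg3]
    simp only [act_mul_mulVec, k1, act_mkE, B_add_right, B_sub_right, B_smul_right, B_zero_left,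
      T.hh, T.hh', T.h'h, T.h'h', ← hw, hb', smul_zero, B_zero_right]
    have : a = 1 + w * s := by linear_combination has
    match_scalars <;> (clear * - this hz hpi hw; grind)
  have := mem_of_fix T.hh T.h'h' T.hh' hf hf' (g := t⁻¹ * (g3 * g))
    (mul_mem (inv_mem ht.s) (mul_mem s3 hg)) (by rw [act_mul_mulVec, k3, act_inv_act])
  have h6 := mul_mem (inv_mem m3) (mul_mem mt this)
  simpa using h6

theorem core (H : RH F.z) (hM : MenOK F.z) {f1 f1' f2 f2' : ι → O}
    (T12 : Planes F f1 f1' f2 f2') (g1 : Good Γ f1) (g1' : Good Γ f1')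
    (N3 : NQ F ((1 - F.z) ^ 2) ⊤ ≤ Γ) (J : Finset ι) (ρ v : ι → ι → O)
    (hρ : ∀ j ∈ J, ρ j ⬝ᵥ f1 = 0 ∧ ρ j ⬝ᵥ f1' = 0 ∧ ρ j ⬝ᵥ f2 = 0 ∧ ρ j ⬝ᵥ f2' = 0)
    (hv : ∀ i ∈ J, ∀ j ∈ J, ρ i ⬝ᵥ v j = if i = j then 1 else 0)
    (hspan : ∀ x, (∀ j ∈ J, ρ j ⬝ᵥ x = 0) → x ∈ sp4 f1 f1' f2 f2')
    {g : WG F} (hl : g ∈ lev F ((1 - F.z) ^ 2)) (hd : g ∈ detK F) : g ∈ Γ := by
  have hz := F.hz
  set q := (1 - F.z) ^ 2 with hq
  have N3' : NQ F q ⊤ ≤ Γ ⊓ detK F := le_inf N3 (NQ_le_detK _ _)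
  let PS : Finset ι → Submodule O (ι → O) := fun S => ⨅ j ∈ S, kerv (ρ j)
  have mPS : ∀ S x, x ∈ PS S ↔ ∀ j ∈ S, ρ j ⬝ᵥ x = 0 := by
    intro S x; simp [PS, mem_kerv]
  have ind : ∀ S : Finset ι, S ⊆ J → Red q (PS S) (Γ ⊓ detK F) g := by
    intro S
    induction S using Finset.induction_on with
    | empty => exact fun _ => ⟨g, hl, fun y => by simp [mPS], by simp⟩
    | insert j S hj ih =>
      intro hS
      have hjJ : j ∈ J := hS (Finset.mem_insert_self _ _)
      have hSJ : S ⊆ J := fun i hi => hS (Finset.mem_insert_of_mem hi)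
      refine (ih hSJ).trans fun g' l' s' => ?_
      obtain ⟨b, a1, a2, a3, a4, hm, n1, n2, n5, n6⟩ := T12.decomp (v j)
      have hρb : ∀ i ∈ J, ρ i ⬝ᵥ b = if i = j then 1 else 0 := by
        intro i hi
        obtain ⟨r1, r2, r3, r4⟩ := hρ i hi
        rw [← hv i hi j hjJ, hm]
        simp [r1, r2, r3, r4]
      set h := f1 + b + (-star (F.qf b)) • f1' with hh
      have T : Planes F h f1' f2 f2' := by
        refine ⟨?_, T12.h'h', T12.ff, T12.f'f', ?_, T12.ff', ?_, ?_, T12.h'f, T12.h'f'⟩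
        · simp [hh, T12.hh, T12.hh', T12.h'h, T12.h'h', n1, n2, F.B_eq_zero_swap n1,
            F.B_eq_zero_swap n2, F.B_self b]
          ring
        · simp [hh, T12.hh', T12.h'h', F.B_eq_zero_swap n2]
        · simp [hh, T12.hf, T12.h'f, F.B_eq_zero_swap n5]
        · simp [hh, T12.hf', T12.h'f', F.B_eq_zero_swap n6]
      have mem : ∀ x, (∀ i ∈ J, ρ i ⬝ᵥ x = 0) → x ∈ PS S ⊓ kerv (ρ j) := fun x hx =>
        ⟨(mPS S x).2 fun i hi => hx i (hSJ hi), hx j hjJ⟩
      have := chain_step H (P := PS S) (Q := ⊤) (r := ρ j) T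
        ((mPS S h).2 fun i hi => by
          obtain ⟨r1, r2, -⟩ := hρ i (hSJ hi)
          have : i ≠ j := fun e => hj (e ▸ hi)
          simp [hh, r1, r2, hρb i (hSJ hi), this])
        (mem _ fun i hi => (hρ i hi).2.1) (mem _ fun i hi => (hρ i hi).2.2.1)
        (mem _ fun i hi => (hρ i hi).2.2.2) trivial trivial trivial trivial (by
          obtain ⟨r1, r2, -⟩ := hρ j hjJ
          simp [hh, r1, r2, hρb j hjJ]) l' s'
      refine this.mono ?_ N3'
      rintro x ⟨hx1, hx2⟩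
      refine (mPS _ x).2 fun i hi => ?_
      rcases Finset.mem_insert.1 hi with rfl | hi
      · exact hx2
      · exact (mPS S x).1 hx1 i hi
  have R0 : Red q (sp4 f1 f1' f2 f2') (Γ ⊓ detK F) g :=
    (ind J subset_rfl).mono (fun x hx => hspan x ((mPS _ _).1 hx)) le_rfl
  have orthk : ∀ (u x : ι → O), x ∈ kerv (star F.z • cf F u) → F.B x u = 0 := by
    intro u x hx
    refine F.B_eq_zero_swap ?_
    have : star F.z * F.B u x = 0 := by simpa [mem_kerv] using hx
    linear_combination F.z * this - F.B u x * hz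
  have R3 := R0.trans fun g' l' s' => (chain_step H (Q := ⊤) (r := star F.z • cf F f2') T12.symm
    (m43 _ _ _ _) ⟨m44 _ _ _ _, by simp [mem_kerv, T12.f'f']⟩
    ⟨m41 _ _ _ _, by simp [mem_kerv, T12.f'h]⟩ ⟨m42 _ _ _ _, by simp [mem_kerv, T12.f'h']⟩
    trivial trivial trivial trivial (by simp [T12.f'f, F.hz']) l' s').mono le_rfl N3'
  have R4 := R3.trans fun g' l' s' => (red_final (Q := ⊤) (r := cf F f2)
    H.sq_dvd_star l' s' T12.f'f' ⟨m44 _ _ _ _, by simp [mem_kerv, T12.f'f']⟩ ⟨trivial, T12.u4⟩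
    (by simp [T12.ff'])
    (by rw [fix_of_orth s' fun x hx => orthk _ _ hx.2]; simp [T12.ff'])).mono le_rfl N3'
  obtain ⟨g', l', s', n'⟩ := R4
  have s'' : g' ∈ sup F (sp2 f1 f1') := by
    refine sup_mono ?_ s'
    rintro x ⟨⟨hx0, hx3⟩, hx4⟩
    obtain ⟨a1, a2, a3, a4, rfl⟩ := mem_sp4.1 hx0
    have hx3 := F.B_eq_zero_swap (orthk _ _ hx3)
    simp only [SetLike.mem_coe, mem_kerv, cf_dot, B_add_right, B_smul_right,
      T12.f'h, T12.f'h', T12.f'f, T12.f'f', T12.fh, T12.fh', T12.ff, T12.ff'] at hx3 hx4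
    have k3 : a3 = 0 := by linear_combination star F.z * hx3 - a3 * hz
    have k4 : a4 = 0 := by linear_combination hx4
    exact ⟨a1, a2, by simp [k3, k4]⟩
  have d' : g' ∈ detK F := by
    have := mul_mem hd (inv_mem n'.2)
    simpa using this
  have := plane_mem H hM (Q := ⊤) T12 trivial trivial trivial trivial N3 g1 g1' l' s'' d'
  simpa using mul_mem this n'.1

end Pool.Agent.Lib.MP_61a4e3_al
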