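import Pool.Agent.Lib.MP_61a4e3_al.Men3

/-! The cyclotomic integers satisfy the standing hypotheses. -/

set_option linter.unusedSectionVars false
set_option linter.unusedSimpArgs false
set_option linter.unusedVariables false
set_option maxHeartbeats 800000

namespace Pool.Agent.Lib.MP_61a4e3_al

open NumberField Polynomial

lemma rh_of {O : Type} [CommRing O] [StarRing O] [IsDomain O] {z : O} {d : ℕ} (hd : 3 ≤ d)
    (hp : IsPrimitiveRoot z d) (hz : z * star z = 1) (top : Algebra.adjoin ℤ {z} = ⊤)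
    (fin : ∀ m : O, m ≠ 0 → Finite (O ⧸ Ideal.span {m})) : RH z := by
  have h1 : 1 - z ≠ 0 := sub_ne_zero.2 (hp.ne_one (by omega)).symm
  have h2 : 1 + z ≠ 0 := fun h => by
    have : z ^ 2 = 1 := by linear_combination (z - 1) * h
    exact absurd (Nat.le_of_dvd two_pos (hp.dvd_of_pow_eq_one 2 this)) (by omega)
  obtain ⟨w, hw⟩ : ∃ w, w = (1 - z) * star (1 - z) := ⟨_, rfl⟩
  have hw' : z + star z = 2 - w := by rw [hw, star_sub, star_one]; linear_combination hz
  have wr : star w = w := by simp [hw, mul_comm]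
  let P : Subring O :=
    { carrier := {a | ∃ (n : ℤ) (s : O), star s = s ∧ a = n + w * s}
      mul_mem' := by
        rintro _ _ ⟨n, s, hs, rfl⟩ ⟨k, t, ht, rfl⟩
        exact ⟨n * k, n * t + k * s + w * s * t, by simp [hs, ht, wr, mul_comm, mul_left_comm],
          by push_cast; ring⟩
      one_mem' := ⟨1, 0, by simp, by simp⟩
      add_mem' := by
        rintro _ _ ⟨n, s, hs, rfl⟩ ⟨k, t, ht, rfl⟩
        exact ⟨n + k, s + t, by simp [hs, ht], by push_cast; ring⟩
      zero_mem' := ⟨0, 0, by simp, by simp⟩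
      neg_mem' := by
        rintro _ ⟨n, s, hs, rfl⟩
        exact ⟨-n, -s, by simp [hs], by push_cast; ring⟩ }
  have Pr : ∀ a ∈ P, star a = a := by
    rintro _ ⟨n, s, hs, rfl⟩; simp [hs, wr, mul_comm]
  have Pw : 2 - w ∈ P := ⟨2, -1, by simp, by push_cast; ring⟩
  have dec : ∀ x : O, ∃ a ∈ P, ∃ b ∈ P, x = a + b * z := by
    intro x
    have hx : x ∈ Algebra.adjoin ℤ {z} := top ▸ Algebra.mem_top
    induction hx using Algebra.adjoin_induction with
    | mem x hx => exact ⟨0, zero_mem _, 1, one_mem _, by simpa using hx⟩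
    | algebraMap r => exact ⟨r, intCast_mem _ _, 0, zero_mem _, by simp⟩
    | add x y _ _ hx hy =>
      obtain ⟨a, ha, b, hb, rfl⟩ := hx
      obtain ⟨c, hc, e, he, rfl⟩ := hy
      exact ⟨a + c, add_mem ha hc, b + e, add_mem hb he, by ring⟩
    | mul x y _ _ hx hy =>
      obtain ⟨a, ha, b, hb, rfl⟩ := hx
      obtain ⟨c, hc, e, he, rfl⟩ := hy
      exact ⟨a * c - b * e, sub_mem (mul_mem ha hc) (mul_mem hb he), a * e + b * c + b * e * (2 - w),
        add_mem (add_mem (mul_mem ha he) (mul_mem hb hc)) (mul_mem (mul_mem hb he) Pw), by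
          linear_combination b * e * z * hw' - b * e * hz⟩
  have imod : ∀ x : O, ∃ n : ℤ, (1 - z) ∣ x - n := by
    intro x
    obtain ⟨_, ⟨n, s, -, rfl⟩, _, ⟨k, t, -, rfl⟩, rfl⟩ := dec x
    exact ⟨n + k, star (1 - z) * (s + t * z) - k, by rw [hw]; push_cast; ring⟩
  refine ⟨hz, fun x => ?_, fin, h2, h1, fun y hy ⟨c, hc⟩ => ?_, ?_, fun r hr => ?_,
    fun S S1 Sz x => ?_, fun i hi => ?_⟩
  · obtain ⟨a, ha, b, hb, h⟩ := dec x
    exact ⟨a, b, Pr a ha, Pr b hb, h⟩
  · obtain ⟨a, ha, b, hb, rfl⟩ := dec c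
    refine ⟨b, ?_⟩
    have e := congrArg star hc
    rw [hy, star_mul, star_add, star_mul, Pr a ha, Pr b hb, star_sub, star_one] at e
    rw [star_sub, star_one]
    refine mul_left_cancel₀ h2 ?_
    linear_combination hc + z * e + (-a + b * (1 - z - star z)) * hz
  · have hdv : (1 - z) ∣ eval 1 (cyclotomic d O) := by
      have := sub_dvd_eval_sub 1 z (cyclotomic d O)
      rwa [(hp.isRoot_cyclotomic (by omega)).eq_zero, sub_zero] at this
    by_cases hu : IsUnit (1 - z)
    · exact Or.inl hu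
    by_cases hpp : ∃ p k : ℕ, p.Prime ∧ p ^ k = d
    · obtain ⟨p, k, hp', rfl⟩ := hpp
      have := Fact.mk hp'
      obtain ⟨k, rfl⟩ : ∃ j, k = j + 1 := ⟨k - 1, by
        rcases k with _ | k
        · simp at hd
        · rfl⟩
      rw [eval_one_cyclotomic_prime_pow] at hdv
      refine Or.inr ⟨h1, hu, fun x y hxy => ?_⟩
      obtain ⟨n, hn⟩ := imod x
      obtain ⟨k, hk⟩ := imod y
      have hnk : (1 - z) ∣ ((n * k : ℤ) : O) := by
        convert dvd_sub (dvd_sub hxy (hn.mul_right y)) (hk.mul_left n) using 1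
        push_cast; ring
      have key : ∀ (x : O) (n : ℤ), (1 - z) ∣ x - n → (p : ℤ) ∣ n → (1 - z) ∣ x := by
        rintro x _ h ⟨c, rfl⟩
        simpa using dvd_add h (hdv.mul_right (c : O))
      by_cases hc : (p : ℤ) ∣ n * k
      · exact ((Nat.prime_iff_prime_int.1 hp').dvd_or_dvd hc).imp (key x n hn) (key y k hk)
      · obtain ⟨u, v, huv⟩ := ((Nat.prime_iff_prime_int.1 hp').irreducible.coprime_iff_not_dvd).2 hc
        refine absurd (isUnit_of_dvd_one ?_) hu
        convert dvd_add (hdv.mul_left (u : O)) (hnk.mul_left (v : O)) using 1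
        exact_mod_cast congrArg (Int.cast : ℤ → O) huv.symm
    · rw [eval_one_cyclotomic_not_prime_pow fun hp' k e => hpp ⟨_, k, hp', e⟩] at hdv
      exact Or.inl (isUnit_of_dvd_one hdv)
  · obtain ⟨a, ha, b, hb, rfl⟩ := dec r
    rw [star_add, star_mul, Pr a ha, Pr b hb] at hr
    have : b * ((1 - z) * (1 + z)) = 0 := by linear_combination z * hr - b * hz
    rw [(mul_eq_zero.1 this).resolve_right (mul_ne_zero h1 h2), zero_mul, add_zero, ← hw]
    exact ha
  · have hx : x ∈ Algebra.adjoin ℤ {z} := top ▸ Algebra.mem_top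
    have : ∀ y ∈ S, x * y ∈ S := by
      induction hx using Algebra.adjoin_induction with
      | mem x hx => rw [Set.mem_singleton_iff.1 hx]; exact Sz
      | algebraMap r => intro y hy; simpa using zsmul_mem hy r
      | add x y _ _ hx hy => intro u hu; rw [add_mul]; exact add_mem (hx u hu) (hy u hu)
      | mul x y _ _ hx hy => intro u hu; rw [mul_assoc]; exact hx _ (hy u hu)
    simpa using this 1 S1
  · have hdv : (1 - z) ∣ eval 1 (cyclotomic d O) := by
      have := sub_dvd_eval_sub 1 z (cyclotomic d O)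
      rwa [(hp.isRoot_cyclotomic (by omega)).eq_zero, sub_zero] at this
    by_cases hpp : ∃ p k : ℕ, p.Prime ∧ p ^ k = d
    · obtain ⟨p, k, hp', rfl⟩ := hpp
      have := Fact.mk hp'
      obtain ⟨k, rfl⟩ : ∃ j, k = j + 1 := ⟨k - 1, by
        rcases k with _ | k
        · simp at hd
        · rfl⟩
      rw [eval_one_cyclotomic_prime_pow] at hdv
      refine hp.geom_sum_isUnit (by omega) (Nat.Coprime.pow_right _
        ((Nat.Prime.coprime_iff_not_dvd hp').2 ?_).symm)
      rintro ⟨c, rfl⟩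
      exact hi (by push_cast; exact hdv.mul_right _)
    · rw [eval_one_cyclotomic_not_prime_pow fun hp' k e => hpp ⟨_, k, hp', e⟩] at hdv
      exact absurd (isUnit_of_dvd_one hdv).dvd hi

lemma four_le_totient {d : ℕ} (hd : 3 ≤ d) (h3 : d ≠ 3) (h4 : d ≠ 4) (h6 : d ≠ 6) :
    4 ≤ d.totient := by
  obtain ⟨a, a1, a2, a3⟩ : ∃ a, 1 < a ∧ a + 1 < d ∧ d.Coprime a := by
    obtain ⟨k, rfl | rfl⟩ := Nat.even_or_odd' d
    · obtain ⟨j, rfl | rfl⟩ := Nat.even_or_odd' k
      · obtain ⟨i, rfl⟩ : ∃ i, j = i + 1 := ⟨j - 1, by omega⟩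
        refine ⟨2 * i + 1, by omega, by omega, ?_⟩
        rw [show 2 * (2 * (i + 1)) = 2 + (2 * i + 1) * 2 by ring, Nat.coprime_add_mul_left_left]
        simp
      · obtain ⟨i, rfl⟩ : ∃ i, j = i + 1 := ⟨j - 1, by omega⟩
        refine ⟨2 * i + 1, by omega, by omega, ?_⟩
        rw [show 2 * (2 * (i + 1) + 1) = 2 ^ 2 + (2 * i + 1) * 2 by ring,
          Nat.coprime_add_mul_left_left]
        exact Nat.Coprime.pow_left _ (by simp)
    · exact ⟨2, by omega, by omega, by simp⟩
  have h : ({1, a, d - 1} : Finset ℕ) ⊆ (Finset.range d).filter d.Coprime := by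
    intro x hx
    simp only [Finset.mem_insert, Finset.mem_singleton] at hx
    rw [Finset.mem_filter, Finset.mem_range]
    rcases hx with rfl | rfl | rfl
    · exact ⟨by omega, by simp⟩
    · exact ⟨by omega, a3⟩
    · refine ⟨by omega, ?_⟩
      obtain ⟨e, rfl⟩ : ∃ e, d = e + 1 := ⟨d - 1, by omega⟩
      simp
  have h' := Finset.card_le_card h
  rw [Finset.card_eq_three.2 ⟨1, a, d - 1, by omega, by omega, by omega, rfl⟩] at h'
  obtain ⟨k, hk⟩ := Nat.totient_even (show 2 < d by omega)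
  have : d.totient = ((Finset.range d).filter d.Coprime).card := rfl
  omega

theorem exists_model {d : ℕ} (hd : 3 ≤ d) {ζ : ℂ} (hζ : IsPrimitiveRoot ζ d) :
    ∃ (O : Type) (_ : CommRing O) (_ : StarRing O) (_ : IsDomain O) (z : O) (φ : O →+* ℂ),
      RH z ∧ MenOK z ∧ Function.Injective φ ∧ (∀ x, φ (star x) = star (φ x)) ∧ φ z = ζ ∧
      (∀ y, y ∈ Algebra.adjoin ℤ {ζ} ↔ ∃ x, φ x = y) ∧ {x : O | x * star x = 1}.Finite ∧
      ¬ IsUnit (2 : O) ∧ (Finite Oˣ ↔ d = 3 ∨ d = 4 ∨ d = 6) ∧
      (∀ p : ℕ, p.Prime → ¬ IsUnit (p : O)) ∧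
      ∀ x : O, x * star x = 1 → ∃ k : ℕ, x = z ^ k ∨ x = -z ^ k := by
  have : NeZero d := ⟨by omega⟩
  obtain ⟨K, _, _, _⟩ : ∃ (K : Type) (_ : Field K) (_ : NumberField K),
      IsCyclotomicExtension {d} ℚ K := by
    refine ⟨CyclotomicField d ℚ, inferInstance, inferInstance, ?_⟩
    convert CyclotomicField.isCyclotomicExtension d ℚ
    · rfl
    · exact Subsingleton.elim _ _
  have : IsCMField K := IsCyclotomicExtension.Rat.isCMField K (S := {d}) ⟨d, rfl, hd⟩
  have h0 := IsCyclotomicExtension.zeta_spec d ℚ K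
  let ψ := (h0.embeddingsEquivPrimitiveRoots ℂ (cyclotomic.irreducible_rat (by omega))).symm
    ⟨ζ, (mem_primitiveRoots (by omega)).2 hζ⟩
  have hψ : ψ (IsCyclotomicExtension.zeta d ℚ K) = ζ := by
    rw [← h0.embeddingsEquivPrimitiveRoots_apply_coe ℂ (cyclotomic.irreducible_rat (by omega)),
      Equiv.apply_symm_apply]
  let st : StarRing (𝓞 K) :=
    { star := IsCMField.ringOfIntegersComplexConj K
      star_involutive := fun x => RingOfIntegers.ext (by simp)
      star_mul := fun x y => by rw [map_mul, mul_comm]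
      star_add := fun x y => map_add _ x y }
  have emb : ∀ (σ : K →+* ℂ) (x : 𝓞 K), σ (star x : 𝓞 K) = star (σ x) := fun σ x =>
    IsCMField.complexEmbedding_complexConj K σ x
  let φ : 𝓞 K →+* ℂ := (ψ : K →+* ℂ).comp (algebraMap _ _)
  have inj : Function.Injective φ := (ψ : K →+* ℂ).injective.comp RingOfIntegers.coe_injective
  have hφ : φ h0.toInteger = ζ := hψ
  have hs : ∀ x, φ (star x) = star (φ x) := emb ψ
  have top := IsCyclotomicExtension.Rat.adjoin_singleton_eq_top h0
  have H : RH h0.toInteger := rh_of hd h0.toInteger_isPrimitiveRoot (inj (by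
      rw [map_mul, hs, hφ, map_one, Complex.star_def, Complex.mul_conj', hζ.norm'_eq_one (by omega)]
      simp)) top
    fun m hm => Ideal.finiteQuotientOfFreeOfNeBot _ (by simpa using hm)
  refine ⟨𝓞 K, inferInstance, st, inferInstance, h0.toInteger, φ, H,
    menOK_of H (algebraMap (𝓞 (maximalRealSubfield K)) (𝓞 K)) (FaithfulSMul.algebraMap_injective _ _)
      fun x => IsCMField.ringOfIntegersComplexConj_eq_self_iff K x, inj, hs, hφ, fun y => ?_, ?_,
      fun h => ?_, ?_, fun p hp h => ?_, fun x hx => ?_⟩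
  · have := AlgHom.map_adjoin_singleton φ.toIntAlgHom h0.toInteger
    rw [top, Algebra.map_top] at this
    rw [← hφ]
    exact (SetLike.ext_iff.1 this y).symm
  · refine Set.Finite.of_finite_image (f := algebraMap (𝓞 K) K)
      ((Embeddings.finite_of_norm_le K ℂ 1).subset ?_) RingOfIntegers.coe_injective.injOn
    rintro _ ⟨x, hx, rfl⟩
    refine ⟨x.isIntegral_coe, fun σ => ?_⟩
    have := congrArg (fun y : 𝓞 K => σ y) hx
    simp only [map_mul, emb, map_one, RingOfIntegers.coe_eq_algebraMap] at this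
    rw [Complex.star_def, Complex.mul_conj'] at this
    exact (pow_le_one_iff_of_nonneg (norm_nonneg _) two_ne_zero).1 (le_of_eq (by exact_mod_cast this))
  · have h2 : IsUnit ((2 : ℤ) : 𝓞 K) := by simpa using h
    exact absurd (isUnit_of_map_unit (algebraMap ℤ (𝓞 K)) 2 h2) (by decide)
  · have hr : Units.rank K = d.totient / 2 - 1 := by
      rw [Units.rank, InfinitePlace.card_eq_nrRealPlaces_add_nrComplexPlaces,
        IsCyclotomicExtension.Rat.nrRealPlaces_eq_zero (n := d) K hd, zero_add,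
        IsCyclotomicExtension.Rat.nrComplexPlaces_eq_totient_div_two d]
    have h1 := Units.finrank_eq K
    constructor
    · intro hf
      by_contra! h
      have := four_le_totient hd h.1 h.2.1 h.2.2
      have h2 : Module.finrank ℤ (Additive (𝓞 K)ˣ) = 0 :=
        Module.finrank_eq_zero_iff.2 fun x => ⟨(Nat.card (Additive (𝓞 K)ˣ) : ℤ),
          Int.natCast_ne_zero.2 Nat.card_pos.ne', by rw [natCast_zsmul, card_nsmul_eq_zero']⟩
      omega
    · intro h
      rw [hr, show d.totient / 2 - 1 = 0 by rcases h with rfl | rfl | rfl <;> decide,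
        Module.finrank_eq_zero_iff] at h1
      refine Finite.of_surjective (fun x : Units.torsion K => (x : (𝓞 K)ˣ)) fun u => ⟨⟨u, ?_⟩, rfl⟩
      obtain ⟨a, ha, e⟩ := h1 (Additive.ofMul u)
      exact isOfFinOrder_iff_zpow_eq_one.2 ⟨a, ha, e⟩
  · have h2 : IsUnit ((p : ℤ) : 𝓞 K) := by simpa using h
    exact (Nat.prime_iff_prime_int.1 hp).not_isUnit (isUnit_of_map_unit (algebraMap ℤ (𝓞 K)) _ h2)
  · have hu := IsUnit.of_mul_eq_one _ hx
    have ht : hu.unit ∈ Units.torsion K := by
      obtain ⟨n, hn, e⟩ := Embeddings.pow_eq_one_of_norm_eq_one K ℂ x.isIntegral_coe fun σ => by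
        have := congrArg (fun y : 𝓞 K => σ y) hx
        simp only [map_mul, emb, map_one, RingOfIntegers.coe_eq_algebraMap] at this
        rw [Complex.star_def, Complex.mul_conj'] at this
        exact (pow_eq_one_iff_of_nonneg (norm_nonneg _) two_ne_zero).1 (by exact_mod_cast this)
      exact isOfFinOrder_iff_pow_eq_one.2 ⟨n, hn, Units.ext (RingOfIntegers.ext (by simpa using e))⟩
    by_cases he : Even d
    · rw [← Units.rootsOfUnity_eq_torsion, IsCyclotomicExtension.Rat.torsionOrder_eq (n := d),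
        if_pos he, mem_rootsOfUnity] at ht
      obtain ⟨k, -, hk⟩ := h0.toInteger_isPrimitiveRoot.eq_pow_of_pow_eq_one (ξ := x)
        (by simpa using congrArg Units.val ht)
      exact ⟨k, Or.inl hk.symm⟩
    · obtain ⟨k, -, hk⟩ := h0.exists_pow_or_neg_mul_pow_of_isOfFinOrder (Nat.not_even_iff_odd.1 he)
        (((algebraMap (𝓞 K) K).toMonoidHom.comp (Units.coeHom _)).isOfFinOrder ht)
      exact ⟨k, hk.imp (fun h => RingOfIntegers.ext h) fun h => RingOfIntegers.ext h⟩

end Pool.Agent.Lib.MP_61a4e3_al
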