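import Pool.Agent.Lib.MP_61a4e3_al.Defs

/-! The two finite counts entering the index formula. -/

namespace Pool.Agent.Lib.MP_61a4e3_al

open Matrix

/-- The number of `m × m` matrices `W` over `ℤ/p` with `x · W x = q (W x)` for all `x`, where
`q y = ∑ y_i ^ 2 - ∑ y_(j+1) y_j`. -/
noncomputable def orthCard (p m : ℕ) : ℕ :=
  Nat.card {W : Matrix (Fin m) (Fin m) (ZMod p) // ∀ x, x ⬝ᵥ W *ᵥ x =
    ∑ i, ∑ j, (if i = j then 1 else if i.val = j.val + 1 then -1 else 0) *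
      ((W *ᵥ x) i * (W *ᵥ x) j)}

/-- The number of residue classes `x + N R` with `x ∈ R`, `x x̄ - 1 ∈ N R`, where `R = ℤ[ζ]` and
`N = 1 + ζ + ⋯ + ζ ^ (n - 1)`. -/
noncomputable def normOne (d n : ℕ) : ℕ :=
  {S : Set ℂ | ∃ x ∈ Algebra.adjoin ℤ {zeta d},
    (∃ t ∈ Algebra.adjoin ℤ {zeta d}, x * star x - 1 = (∑ i ∈ Finset.range n, zeta d ^ i) * t) ∧
    S = {y | ∃ t ∈ Algebra.adjoin ℤ {zeta d}, y = x + (∑ i ∈ Finset.range n, zeta d ^ i) * t}}.ncard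

end Pool.Agent.Lib.MP_61a4e3_al
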