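import Mathlib

/-! The reduced Burau representation at a root of unity: definitions. -/

namespace Pool.Agent.Lib.MP_61a4e3_al

open Matrix

/-- The root of unity `exp (2πi/d)`. -/
noncomputable def zeta (d : ℕ) : ℂ := Complex.exp (2 * Real.pi * Complex.I / d)

/-- The reduced Burau matrix of the `i`-th generator, at `t`. -/
def burau (t : ℂ) {m : ℕ} (i : Fin m) : Matrix (Fin m) (Fin m) ℂ := of fun a b =>
  if a = i then
    (if b = i then -t else if b.val + 1 = i.val then t else if b.val = i.val + 1 then 1 else 0)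
  else if a = b then 1 else 0

/-- The invariant hermitian matrix, at `t`. -/
noncomputable def herm (t : ℂ) (m : ℕ) : Matrix (Fin m) (Fin m) ℂ := of fun a b =>
  if a = b then 2 + t + t⁻¹ else if b.val = a.val + 1 then -(1 + t⁻¹)
  else if a.val = b.val + 1 then -(1 + t) else 0

/-- The image of the braid group on `m + 1` strands. -/
def burauImage (m d : ℕ) : Subgroup (GL (Fin m) ℂ) :=
  Subgroup.closure {g | ∃ i, g.val = burau (zeta d) i}

/-- The unitary group of the invariant form over the cyclotomic integers. -/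
noncomputable def unitaryInt (m d : ℕ) : Subgroup (GL (Fin m) ℂ) where
  carrier := {g | (∀ i j, g.val i j ∈ Algebra.adjoin ℤ {zeta d} ∧
    (g⁻¹).val i j ∈ Algebra.adjoin ℤ {zeta d}) ∧
    g.valᴴ * herm (zeta d) m * g.val = herm (zeta d) m}
  mul_mem' := by
    rintro a b ⟨h1, h2⟩ ⟨h3, h4⟩
    refine ⟨fun i j => ⟨?_, ?_⟩, ?_⟩
    · rw [Units.val_mul, Matrix.mul_apply]; exact sum_mem fun k _ => mul_mem (h1 i k).1 (h3 k j).1
    · rw [_root_.mul_inv_rev, Units.val_mul, Matrix.mul_apply]
      exact sum_mem fun k _ => mul_mem (h3 i k).2 (h1 k j).2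
    · rw [Units.val_mul, conjTranspose_mul, Matrix.mul_assoc, Matrix.mul_assoc,
        ← Matrix.mul_assoc (herm _ _), ← Matrix.mul_assoc a.valᴴ, ← Matrix.mul_assoc a.valᴴ, h2,
        ← Matrix.mul_assoc, h4]
  one_mem' := by
    refine ⟨fun i j => ?_, by simp⟩
    simp only [inv_one, Units.val_one, Matrix.one_apply, and_self]
    split_ifs
    exacts [one_mem _, zero_mem _]
  inv_mem' := by
    rintro a ⟨h1, h2⟩
    refine ⟨fun i j => ⟨(h1 i j).2, (h1 i j).1⟩, ?_⟩
    conv_lhs => rw [← h2]
    rw [← Matrix.mul_assoc, ← Matrix.mul_assoc, ← conjTranspose_mul, Matrix.mul_assoc _ a.val,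
      Units.mul_inv, conjTranspose_one, Matrix.one_mul, Matrix.mul_one]

/-- The integer matrix attached to a permutation of `m + 1` points. -/
def permVar {m : ℕ} (s : Equiv.Perm (Fin (m + 1))) : Matrix (Fin m) (Fin m) ℂ := of fun i j =>
  (min i.val j.val + 1 : ℕ) -
    ((Finset.univ.filter fun k : Fin (m + 1) => k.val ≤ i.val ∧ (s k).val ≤ j.val).card : ℕ)

end Pool.Agent.Lib.MP_61a4e3_al
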