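import Pool.Agent.Lib.MP_61a4e3_al.Index
import Pool.Agent.Lib.MP_61a4e3_al.Cyc
import Pool.Agent.Lib.MP_61a4e3_al.Defs

/-! Transfer to complex matrices. -/

set_option linter.unusedSectionVars false
set_option linter.unusedSimpArgs false
set_option linter.unusedVariables false
set_option maxHeartbeats 800000

namespace Pool.Agent.Lib.MP_61a4e3_al

open Matrix WG Form

lemma zeta_prim {d : ℕ} (hd : 3 ≤ d) : IsPrimitiveRoot (zeta d) d :=
  Complex.isPrimitiveRoot_exp d (by omega)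

variable {O : Type} [CommRing O] [StarRing O] [IsDomain O] {z : O} {φ : O →+* ℂ} {d m : ℕ}
  (H : RH z) (inj : Function.Injective φ) (hs : ∀ x, φ (star x) = star (φ x)) (hφ : φ z = zeta d)
  (hr : ∀ y, y ∈ Algebra.adjoin ℤ {zeta d} ↔ ∃ x, φ x = y)

include inj in
lemma map_inj {A B : Matrix (Fin m) (Fin m) O} (h : A.map φ = B.map φ) : A = B :=
  Matrix.map_injective inj h

include hr in
lemma exists_map {X : Matrix (Fin m) (Fin m) ℂ} (h : ∀ i j, X i j ∈ Algebra.adjoin ℤ {zeta d}) :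
    ∃ Y : Matrix (Fin m) (Fin m) O, Y.map φ = X := by
  choose Y hY using fun i j => (hr _).1 (h i j)
  exact ⟨of Y, Matrix.ext hY⟩

include inj in
lemma glmap_inj : Function.Injective (GeneralLinearGroup.map (n := Fin m) φ) := fun _ _ h =>
  Units.ext (map_inj inj (congrArg Units.val h))

include inj hφ in
lemma geom_iff (hd : 3 ≤ d) (n : ℕ) : geom z n = 0 ↔ d ∣ n := by
  have hp := zeta_prim hd
  rw [← hφ] at hp
  have hp' := hp.of_map_of_injective inj
  rw [← hp'.pow_eq_one_iff_dvd, eq_comm (a := z ^ n), ← sub_eq_zero (a := 1), ← pi_geom,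
    mul_eq_zero, or_iff_right (sub_ne_zero.2 (hp'.ne_one (by omega)).symm)]

include H inj hφ in
lemma scal_ne : 1 + (zeta d)⁻¹ ≠ 0 := by
  have h1 : zeta d ≠ 0 := hφ ▸ (map_ne_zero_iff φ inj).2 H.unit_z.ne_zero
  have h2 : 1 + zeta d ≠ 0 := by simpa [hφ] using (map_ne_zero_iff φ inj).2 H.one_add
  intro h
  exact h2 (by field_simp at h; linear_combination h)

include inj hφ in
lemma herm_eq : herm (zeta d) m = (1 + (zeta d)⁻¹) • (BF m z H.hz).A.map φ := by
  have h1 : zeta d ≠ 0 := hφ ▸ (map_ne_zero_iff φ inj).2 H.unit_z.ne_zero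
  ext i j
  simp only [herm, of_apply, Matrix.smul_apply, map_apply, BF_A, smul_eq_mul, Fin.ext_iff]
  split_ifs <;> first | omega | (simp [hφ]; done) | (simp [hφ]; field_simp; ring)

include hφ in
lemma act_gen (i : Fin m) : (act (rt (root_ev (z := z) (hz := H.hz) (j := i.val + 1)
    ⟨Nat.le_add_left 1 _, i.2⟩))).map φ = burau (zeta d) i := by
  ext a b
  rw [act_apply, rt_W, ou, star_ev, ev_eq_single, vecMulVec_mul, single_one_vecMul]
  simp only [burau, of_apply, map_apply, Matrix.sub_apply, vecMulVec_apply, Pi.single_apply,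
    Matrix.one_apply, row_apply, BF_A, Fin.ext_iff]
  split_ifs <;> first | omega | simp [hφ]

include hφ in
lemma image_eq : burauImage m d = (GO m z H.hz).map (GeneralLinearGroup.map φ) := by
  rw [GO, Gam, MonoidHom.map_closure, MonoidHom.map_closure, burauImage]
  congr 1
  ext g
  constructor
  · rintro ⟨i, hi⟩
    exact ⟨_, ⟨_, ⟨_, ⟨Nat.le_add_left 1 _, i.2⟩, rfl⟩, rfl⟩, Units.ext ((act_gen H hφ i).trans hi.symm)⟩
  · rintro ⟨_, ⟨_, ⟨j, hj, rfl⟩, rfl⟩, rfl⟩
    obtain ⟨j, rfl⟩ : ∃ i, j = i + 1 := ⟨j - 1, by omega⟩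
    exact ⟨⟨j, hj.2⟩, act_gen H hφ ⟨j, hj.2⟩⟩

include inj hs hφ in
lemma unit_iff (G : Matrix (Fin m) (Fin m) O) :
    (G.map φ)ᴴ * herm (zeta d) m * G.map φ = herm (zeta d) m ↔
      Gᴴ * (BF m z H.hz).A * G = (BF m z H.hz).A := by
  have e : (G.map φ)ᴴ = Gᴴ.map φ := by ext i j; simp [hs]
  rw [herm_eq H inj hφ, e, Matrix.mul_smul, Matrix.smul_mul, ← Matrix.map_mul, ← Matrix.map_mul]
  exact ⟨fun h => map_inj inj (smul_right_injective _ (scal_ne H inj hφ) h), fun h => by rw [h]⟩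

include inj hs hφ hr in
lemma unitary_eq : unitaryInt m d = (UO (BF m z H.hz).A).map (GeneralLinearGroup.map φ) := by
  ext g
  constructor
  · rintro ⟨h1, h2⟩
    obtain ⟨G, hG⟩ := exists_map hr fun i j => (h1 i j).1
    obtain ⟨G', hG'⟩ := exists_map hr fun i j => (h1 i j).2
    refine ⟨⟨G, G', map_inj inj ?_, map_inj inj ?_⟩, (unit_iff H inj hs hφ G).1 (hG ▸ h2),
      Units.ext hG⟩
    · rw [Matrix.map_mul, hG, hG']; simp
    · rw [Matrix.map_mul, hG, hG']; simp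
  · rintro ⟨G, hG, rfl⟩
    exact ⟨fun i j => ⟨(hr _).2 ⟨_, rfl⟩, (hr _).2 ⟨(G⁻¹).val i j, by rw [← map_inv]; rfl⟩⟩,
      (unit_iff H inj hs hφ G.val).2 hG⟩

lemma WP_complex (s : Equiv.Perm (Fin (m + 1))) : (WP O s).map φ = permVar s := by
  rw [WP_map]; ext i j; rw [WP_apply]; rfl

end Pool.Agent.Lib.MP_61a4e3_al
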