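import Pool.Agent.Lib.MP_61a4e3_al.Disc
import Pool.Agent.Lib.MP_61a4e3_al.Transfer
import Pool.Agent.Lib.MP_61a4e3_al.Defs2

/-! Cyclotomic case analysis for the index formula. -/

set_option linter.unusedSectionVars false
set_option linter.unusedSimpArgs false
set_option linter.unusedVariables false
set_option maxHeartbeats 800000

namespace Pool.Agent.Lib.MP_61a4e3_al

open Matrix WG Form Polynomial

section
variable {O : Type} [CommRing O] [IsDomain O] {z : O} {d : ℕ} (hp : IsPrimitiveRoot z d)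
include hp

lemma pi_dvd_eval (hd : 0 < d) : (1 - z) ∣ eval 1 (cyclotomic d O) := by
  have := sub_dvd_eval_sub 1 z (cyclotomic d O)
  rwa [(hp.isRoot_cyclotomic hd).eq_zero, sub_zero] at this

lemma pi_unit (hd : 1 < d) (h : ¬ IsPrimePow d) : IsUnit (1 - z) := by
  have := pi_dvd_eval hp (by omega)
  rw [eval_one_cyclotomic_not_prime_pow fun {p} hp' k e => h ((isPrimePow_nat_iff d).2
    ⟨p, k, hp', Nat.pos_of_ne_zero (by rintro rfl; simp at e; omega), e⟩)] at this
  exact isUnit_of_dvd_one this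

omit hp in
lemma eval_pp (h : IsPrimePow d) : eval 1 (cyclotomic d O) = d.minFac := by
  obtain ⟨p, k, hp', hk, rfl⟩ := (isPrimePow_nat_iff d).1 h
  have := Fact.mk hp'
  obtain ⟨k, rfl⟩ : ∃ j, k = j + 1 := ⟨k - 1, by omega⟩
  rw [eval_one_cyclotomic_prime_pow, hp'.pow_minFac (by omega)]

lemma pi_not_unit (hnu : ∀ p : ℕ, p.Prime → ¬ IsUnit (p : O)) (h : IsPrimePow d) :
    ¬ IsUnit (1 - z) := by
  intro hu
  have : NeZero d := ⟨h.ne_zero⟩
  refine hnu _ (Nat.minFac_prime h.ne_one) ?_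
  rw [← eval_pp h, cyclotomic_eq_prod_X_sub_primitiveRoots hp, eval_prod, IsUnit.prod_iff]
  intro μ hμ
  obtain ⟨i, -, hi, rfl⟩ := hp.isPrimitiveRoot_iff.1 ((mem_primitiveRoots h.pos).1 hμ)
  have := (hp.associated_sub_one_pow_sub_one_of_coprime hi).isUnit_iff.1 (by simpa using hu.neg)
  simpa using this.neg

lemma pow_half {e : ℕ} (he : d = 2 * e) (h0 : 0 < e) : z ^ e = -1 := by
  have := hp.pow_of_dvd h0.ne' ⟨2, by omega⟩
  rw [he, Nat.mul_div_cancel _ h0] at this
  exact this.eq_neg_one_of_two_right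

lemma neg_prim (h : d % 4 = 2) : IsPrimitiveRoot (-z) (d / 2) := by
  obtain ⟨j, rfl⟩ : ∃ j, d = 2 * (2 * j + 1) := ⟨d / 4, by omega⟩
  have h1 := (hp.pow_of_dvd two_ne_zero ⟨_, rfl⟩).pow_of_coprime (j + 1) (by
    rw [Nat.mul_div_cancel_left _ two_pos, show 2 * j + 1 = j + (j + 1) by ring]; simp)
  rwa [← pow_mul, show 2 * (j + 1) = (2 * j + 1) + 1 by ring, pow_succ, pow_half hp rfl (by omega),
    neg_one_mul] at h1

lemma neg_pow_A (hd : 0 < d) (h : d % 4 ≠ 2) : ∃ k : ℕ, (-z) ^ k = -1 := by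
  rcases Nat.even_or_odd' d with ⟨e, h1 | h1⟩
  · exact ⟨e, by rw [Even.neg_pow (Nat.even_iff.2 (by omega)), pow_half hp h1 (by omega)]⟩
  · exact ⟨d, by rw [Odd.neg_pow ⟨e, h1⟩, hp.pow_eq_one]⟩

omit hp in
lemma not_pp (hd : 3 ≤ d) (h : d % 4 = 2) : ¬ IsPrimePow d := by
  intro h'
  obtain ⟨p, k, hp', hk, rfl⟩ := (isPrimePow_nat_iff d).1 h'
  obtain rfl := (Nat.prime_dvd_prime_iff_eq Nat.prime_two hp').1
    (Nat.prime_two.dvd_of_dvd_pow (show 2 ∣ p ^ k by omega))
  rcases k with _ | _ | k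
  · omega
  · omega
  · rw [pow_succ, pow_succ] at h; omega

end

variable {O : Type} [CommRing O] [StarRing O] [IsDomain O] {z : O} {d m : ℕ} (H : RH z)
  (hd : 3 ≤ d) (hp : IsPrimitiveRoot z d)
include H hd hp

lemma theta_pu (h : d % 4 = 2) : IsUnit (1 + z) ∨ Prime (1 + z) := by
  have := (rh_of (d := d / 2) (by omega) (neg_prim hp h) (by simpa using H.hz)
    (eq_top_iff.2 fun x _ => H.gen (Algebra.adjoin ℤ {-z}).toSubring.toAddSubgroup (Subalgebra.one_mem _)
      (fun y hy => Subalgebra.mul_mem _ (by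
        simpa using neg_mem (Algebra.self_mem_adjoin_singleton ℤ (-z))) hy) x) H.fin).pu
  rwa [sub_neg_eq_add] at this

lemma tri : Tri z := by
  by_cases h : d % 4 = 2
  · exact (theta_pu H hd hp h).imp_right fun h' =>
      Or.inl ⟨pi_unit hp (by omega) (not_pp hd h), h'⟩
  rcases Nat.even_or_odd' d with ⟨e, h1 | h1⟩
  · obtain ⟨j, rfl⟩ : ∃ j, e = 2 * (j + 1) := ⟨e / 2 - 1, by omega⟩
    have := hp.associated_sub_one_pow_sub_one_of_coprime (j := 2 * (j + 1) + 1) (by
      rw [h1]
      refine Nat.Coprime.mul_right (by simp) ?_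
      simp)
    rw [pow_succ, pow_half hp h1 (by omega)] at this
    refine Or.inr (Or.inr ?_)
    convert this.neg_neg using 1 <;> ring
  · have := hp.geom_sum_isUnit (j := 2) (by omega) (by rw [h1]; simp)
    exact Or.inl (by simpa [Finset.sum_range_succ] using this)

theorem index_Gam (hM : MenOK z) (hm : 2 * d ≤ m) (hnu : ∀ p : ℕ, p.Prime → ¬ IsUnit (p : O))
    (h0 : (2 : O) ≠ 0) (hN : ∀ x : O, x * star x = 1 → ∃ k : ℕ, x = z ^ k ∨ x = -z ^ k) :
    (Gam m z H.hz).index * (if IsPrimePow d then (m + 1).factorial else 1) =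
      if IsPrimePow d then orthCard d.minFac m
      else if d % 4 = 2 ∧ ¬ IsPrimePow (d / 2) then 2 else 1 := by
  have hg : geom z d = 0 := hp.geom_sum_eq_zero (by omega)
  have hN' : ∀ x : O, x * star x = 1 → ∃ k : ℕ, x = (-z) ^ k ∨ x = -(-z) ^ k := by
    intro x hx
    obtain ⟨k, hk⟩ := hN x hx
    refine ⟨k, ?_⟩
    rcases Nat.even_or_odd k with h | h
    · rwa [h.neg_pow]
    · rwa [h.neg_pow, neg_neg, or_comm]
  by_cases h : IsPrimePow d
  · rw [if_pos h, if_pos h, Gam_eq_A H hd hg hM hm hN'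
      (neg_pow_A hp (by omega) fun h' => not_pp hd h' h)]
    have pp := Nat.minFac_prime h.ne_one
    have := Fact.mk pp
    have : Nontrivial (O ⧸ Ideal.span {1 - z}) := Ideal.Quotient.nontrivial_iff.2
      (Ideal.span_singleton_ne_top (pi_not_unit hp hnu h))
    have : CharP (O ⧸ Ideal.span {1 - z}) d.minFac := (CharP.charP_iff_prime_eq_zero pp).2 (by
      rw [← map_natCast (rd z), ← map_zero (rd z), rd_eq, sub_zero, ← eval_pp h]
      exact pi_dvd_eval hp (by omega))
    let e := RingEquiv.ofBijective (ZMod.castHom (dvd_refl d.minFac) (O ⧸ Ideal.span {1 - z}))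
      ⟨ZMod.castHom_injective _, fun x => by
        obtain ⟨x, rfl⟩ := Ideal.Quotient.mk_surjective x
        obtain ⟨n, hn⟩ := H.int_mod x
        exact ⟨n, by rw [map_intCast, ← map_intCast (rd z), eq_comm, rd_eq]; exact hn⟩⟩
    let _ : StarRing (ZMod d.minFac) := starRingOfComm
    have : TrivialStar (ZMod d.minFac) := ⟨fun _ => rfl⟩
    rw [index_PL (ψ := e.symm.toRingHom.comp (rd z)) H hd hg (fun x => by
      simp [Ideal.Quotient.eq_zero_iff_mem, Ideal.mem_span_singleton]) (fun t ht => ?_) (by omega),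
      orthCard]
    · congr 3
      ext W
      refine forall_congr' fun x => ?_
      rw [Form.qf, star_vec]
      generalize W *ᵥ x = y
      simp only [dotProduct, mulVec, Finset.mul_sum, BF, of_apply, mul_left_comm]
    · refine ⟨geom z t.val, hp.geom_sum_isUnit (by omega) ?_, by simp [geom, rd_z]⟩
      have := (ZMod.val_coe_unit_coprime (Units.mk0 t ht)).pow_right (d.factorization d.minFac)
      rwa [h.minFac_pow_factorization_eq] at this
  have hu := pi_unit hp (by omega) h
  rw [if_neg h, if_neg h, mul_one]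
  by_cases h4 : d % 4 = 2
  · by_cases h' : IsPrimePow (d / 2)
    · rw [if_neg (by tauto), Gam_eq_B H hd hg hM hm hN' hu ((theta_pu H hd hp h4).resolve_left
        (by simpa using pi_not_unit (neg_prim hp h4) hnu h')), PL_top H hu, Subgroup.index_top]
    · rw [if_pos ⟨h4, h'⟩]
      refine index_Gam_C H hd hg hM hm hN' hu
        (by simpa using pi_unit (neg_prim hp h4) (by omega) h') fun k hk => h0 ?_
      have := congrArg (· ^ (d / 2)) hk
      rw [← pow_mul, mul_comm k, pow_mul, (neg_prim hp h4).pow_eq_one, one_pow,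
        Odd.neg_one_pow (Nat.odd_iff.2 (show d / 2 % 2 = 1 by omega))] at this
      linear_combination this
  · rw [if_neg (by tauto), Gam_eq_A H hd hg hM hm hN' (neg_pow_A hp (by omega) h4), PL_top H hu,
      Subgroup.index_top]

theorem relIndex_GO (hM : MenOK z) (hm : 2 * d ≤ m) :
    (GO m z H.hz).relIndex (UO (BF m z H.hz).A) = (Gam m z H.hz).index *
      (act (F := BF m z H.hz)).toHomUnits.range.relIndex (UO (BF m z H.hz).A) := by
  have hg : geom z d = 0 := hp.geom_sum_eq_zero (by omega)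
  have k : (act (F := BF m z H.hz)).toHomUnits.ker ≤ Gam m z H.hz := by
    intro g hg'
    have e : act g = 1 := congrArg Units.val hg'
    refine lev_mem H hd hg hM hm ?_ ⟨0, by simp [e]⟩
    obtain ⟨R, hR⟩ := row1 (z := z) (hz := H.hz) (show 0 < m by omega)
    have c : ∀ i j, g.W i j = g.W ⟨0, by omega⟩ j * geom z (i.val + 1) := by
      intro i j
      have := congrFun (hR (g.W *ᵥ Pi.single j 1)) i
      rw [mulVec_mulVec _ _ g.W, A_mul_W_of_act e, zero_mulVec, mulVec_zero,
        ev_eq_single (⟨0, by omega⟩ : Fin m)] at this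
      simpa [vec, sub_eq_zero] using this.symm
    have t : ∀ i j, g.W i j = -(star z * star (g.W j i)) := by
      intro i j
      have h1 : g.W * (BF m z H.hz).A = 0 := by rw [act_apply] at e; exact sub_eq_self.1 e
      have := g.prop
      rw [Form.op, h1, Matrix.zero_mul, sub_zero] at this
      exact congrFun (congrFun (eq_neg_of_add_eq_zero_left this) i) j
    obtain ⟨r, hr, h⟩ := H.lam_eq (c := g.W ⟨0, by omega⟩ ⟨0, by omega⟩) (by
      linear_combination z * t ⟨0, by omega⟩ ⟨0, by omega⟩ -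
        star (g.W ⟨0, by omega⟩ ⟨0, by omega⟩) * H.hz)
    intro i j
    rw [c, t, c j, h, star_mul, star_mul, star_star]
    exact ⟨-(star z * star (geom z (j.val + 1)) * star r * geom z (i.val + 1)), by ring⟩
  rw [← Subgroup.relIndex_mul_relIndex (GO m z H.hz) (act (F := BF m z H.hz)).toHomUnits.range _
    (Subgroup.map_le_range _ _) (by rintro _ ⟨g, rfl⟩; exact WG.unitary g), GO,
    MonoidHom.range_eq_map, Subgroup.relIndex_map_map, sup_eq_left.2 k, top_sup_eq,
    Subgroup.relIndex_top_right]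

end Pool.Agent.Lib.MP_61a4e3_al
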