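import Pool.Agent.Lib.MP_61a4e3_al.Lift

/-! Determinants of variation group elements. -/

set_option linter.unusedSectionVars false
set_option linter.unusedSimpArgs false
set_option linter.unusedVariables false
set_option maxHeartbeats 800000

namespace Pool.Agent.Lib.MP_61a4e3_al

open Matrix WG Form Equiv

lemma det_norm {O : Type} [CommRing O] [StarRing O] {ι : Type} [Fintype ι] [DecidableEq ι]
    {F : Form O ι} (g : WG F) : (act g).det * star (act g).det = 1 := by
  have : star (act g).det = (act g⁻¹).det := by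
    rw [← det_conjTranspose, act_apply, act_apply, conjTranspose_sub, conjTranspose_one,
      conjTranspose_mul, F.A_ct, det_one_sub_mul_comm, inv_W, Form.tau, Matrix.mul_smul,
      Matrix.smul_mul]
  rw [this, ← det_mul, ← map_mul, mul_inv_cancel, map_one, det_one]

lemma det_eq_one_aux {k : Type} [Field k] {ι : Type} [Fintype ι] [DecidableEq ι]
    {W A : Matrix ι ι k} (h : (1 - W * A) * Wᵀ = W) : (1 - W * A).det = 1 := by
  obtain ⟨V, U, e, hV, hU, hD⟩ := Matrix.exists_rank_normal_form W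
  set D := (fromBlocks (1 : Matrix (Fin W.rank) _ k) 0 0 (0 : Matrix _ (Fin _) k)).submatrix e e
    with hD'
  have D1 : D * D = D := by
    rw [hD', submatrix_mul_equiv, fromBlocks_multiply]; simp
  have D2 : Dᵀ = D := by rw [hD', transpose_submatrix, fromBlocks_transpose]; simp
  clear_value D
  obtain ⟨V', v1⟩ := hV.exists_left_inv
  obtain ⟨U', u1⟩ := hU.exists_right_inv
  have v2 : Vᵀ * V'ᵀ = 1 := by rw [← transpose_mul, v1, transpose_one]
  set W' := V * W * Vᵀ with hW'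
  set A' := V'ᵀ * A * V' with hA'
  have e1 : W' = D * (U' * Vᵀ) := by
    rw [← hD, hW', Matrix.mul_assoc _ U, ← Matrix.mul_assoc U, u1, Matrix.one_mul]
  have e2 : 1 - W' * A' = V * (1 - W * A) * V' := by
    rw [hW', hA', Matrix.mul_sub, Matrix.sub_mul, Matrix.mul_one, mul_eq_one_comm.1 v1]
    simp only [Matrix.mul_assoc]
    rw [← Matrix.mul_assoc Vᵀ, v2, Matrix.one_mul]
  have e3 : (1 - W' * A') * W'ᵀ = W' := by
    rw [e2, hW', transpose_mul, transpose_mul, transpose_transpose]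
    conv_rhs => rw [← h]
    simp only [Matrix.mul_assoc]
    rw [← Matrix.mul_assoc V', v1, Matrix.one_mul]
  have e4 : D * W' = W' := by rw [e1, ← Matrix.mul_assoc, D1]
  have e5 : W'ᵀ * D = W'ᵀ := by rw [← D2, ← transpose_mul, e4]
  have e6 : W' * D = W' := by rw [← e3, Matrix.mul_assoc, e5]
  have e7 : (1 - W' * A') * (W' + (1 - D))ᵀ = (W' + (1 - D)) * (1 - D * (A' * (1 - D))) := by
    rw [transpose_add, transpose_sub, transpose_one, D2, Matrix.mul_add, e3, Matrix.mul_sub _ 1 (D * _),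
      ← Matrix.mul_assoc _ D, Matrix.add_mul _ _ D, e6, Matrix.sub_mul _ _ D, D1, Matrix.sub_mul]
    simp only [Matrix.one_mul, Matrix.mul_one, sub_self, add_zero, Matrix.mul_assoc]
    abel
  have e8 : (W' + (1 - D)).det ≠ 0 := by
    intro h0
    rw [← det_transpose] at h0
    obtain ⟨x, x0, hx⟩ := exists_mulVec_eq_zero_iff.2 h0
    rw [transpose_add, transpose_sub, transpose_one, D2] at hx
    have h1 := congrArg (D *ᵥ ·) hx
    have h2 : D * W'ᵀ = W'ᵀ := by rw [← D2, ← transpose_mul, e6]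
    simp only [mulVec_mulVec, Matrix.mul_add, Matrix.mul_sub, D1, h2, Matrix.mul_one, sub_self,
      add_zero, mulVec_zero] at h1
    rw [add_mulVec, h1, zero_add, sub_mulVec, one_mulVec, sub_eq_zero] at hx
    have h3 := congrArg ((Uᵀ * V') *ᵥ ·) h1
    simp only [e1, transpose_mul, transpose_transpose, D2, mulVec_mulVec, mulVec_zero,
      Matrix.mul_assoc] at h3
    rw [← Matrix.mul_assoc V', v1, Matrix.one_mul, ← Matrix.mul_assoc, ← transpose_mul,
      mul_eq_one_comm.1 u1, transpose_one, Matrix.one_mul, ← hx] at h3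
    exact x0 h3
  have e9 := congrArg det e7
  rw [det_mul, det_mul, det_transpose, det_one_sub_mul_comm D, Matrix.mul_assoc A',
    Matrix.sub_mul _ _ D, D1, Matrix.one_mul, sub_self, Matrix.mul_zero, sub_zero, det_one, mul_one,
    mul_eq_right₀ e8, e2, det_mul_comm, ← Matrix.mul_assoc, v1, Matrix.one_mul] at e9
  exact e9

variable {O : Type} [CommRing O] [StarRing O] [IsDomain O] {m : ℕ} {z : O} {hz : z * star z = 1}
  {d : ℕ} (H : RH z) (hd : 3 ≤ d) (hg : geom z d = 0) (hM : MenOK z) (hm : 2 * d ≤ m)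

include H in
lemma det_theta (hp : Prime (1 + z)) (g : WG (BF m z hz)) : (1 + z) ∣ (act g).det - 1 := by
  have := (Ideal.span_singleton_prime hp.ne_zero).2 hp
  let ψ : O →+* FractionRing (O ⧸ Ideal.span {1 + z}) :=
    (algebraMap (O ⧸ Ideal.span {1 + z}) _).comp (Ideal.Quotient.mk _)
  have ker : ∀ x, ψ x = 0 ↔ (1 + z) ∣ x := fun x => by
    simp [ψ, Ideal.Quotient.eq_zero_iff_mem, Ideal.mem_span_singleton]
  have st : ∀ x, ψ (star x) = ψ x := fun x => by
    obtain ⟨a, b, ha, hb, rfl⟩ := H.dec x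
    rw [← sub_eq_zero, ← map_sub, ker, star_add, star_mul, ha, hb]
    exact ⟨b * star z * (1 - z), by linear_combination b * z * hz⟩
  have z1 : ψ z = -1 := by rw [eq_neg_iff_add_eq_zero, ← map_one ψ, ← map_add, ker, add_comm]
  have hp := congrArg (·.map ψ) g.prop
  rw [← ker, map_sub, map_one, sub_eq_zero, RingHom.map_det, act_apply, map_sub, map_one, map_mul]
  refine det_eq_one_aux ?_
  have t : ((BF m z hz).tau g.W).map ψ = -(g.W.map ψ)ᵀ := by
    ext i j; simp [Form.tau, st, z1]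
  simp only [Form.op_eq, Matrix.map_add _ (map_add _), Matrix.map_mul, t,
    Matrix.map_sub _ (map_sub _), Matrix.map_one _ (map_zero ψ) (map_one ψ), Matrix.mul_neg,
    Matrix.map_zero _ (map_zero ψ), add_neg_eq_zero] at hp
  exact hp.symm

include H hd hg hM hm

lemma gam_iff {g : WG (BF m z hz)} :
    g ∈ Gam m z hz ↔ g ∈ PL H m hz ∧ ∃ k : ℕ, (act g).det = (-z) ^ k := by
  refine ⟨fun h => ⟨Gam_le_PL H h, det_mem_of_Gam H hd hg h⟩, ?_⟩
  rintro ⟨⟨s, hs⟩, k, hk⟩
  obtain ⟨h, hh, hs'⟩ := exists_perm (hz := hz) H s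
  obtain ⟨l, hl⟩ := det_mem_of_Gam H hd hg (inv_mem hh)
  have := lev_mem H hd hg hM hm (g := h⁻¹ * g) (by
    intro i j
    rw [inv_mul_W]
    exact dvd_mat_mul (fun i j => by
      have := dvd_sub (map_rd_iff.1 hs i j) (map_rd_iff.1 hs' i j)
      rwa [sub_sub_sub_cancel_right] at this) _ i j)
    ⟨l + k, by rw [map_mul, det_mul, hk, hl, pow_add]⟩
  simpa using (Gam m z hz).mul_mem hh this

variable (hN : ∀ x : O, x * star x = 1 → ∃ k : ℕ, x = (-z) ^ k ∨ x = -(-z) ^ k)
include hN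

lemma Gam_eq_A (h : ∃ k : ℕ, (-z) ^ k = -1) : Gam m z hz = PL H m hz := by
  obtain ⟨l, hl⟩ := h
  ext g
  rw [gam_iff H hd hg hM hm, and_iff_left]
  obtain ⟨k, h | h⟩ := hN _ (det_norm g)
  · exact ⟨k, h⟩
  · exact ⟨l + k, by rw [h, pow_add, hl, neg_one_mul]⟩

lemma Gam_eq_B (h1 : IsUnit (1 - z)) (h2 : Prime (1 + z)) : Gam m z hz = PL H m hz := by
  ext g
  rw [gam_iff H hd hg hM hm, and_iff_left]
  obtain ⟨k, h | h⟩ := hN _ (det_norm g)
  · exact ⟨k, h⟩
  · refine absurd (isUnit_of_dvd_unit ?_ h1) h2.not_isUnit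
    have a := det_theta H h2 g
    have b := sub_dvd_pow_sub_pow 1 (-z) k
    rw [h] at a
    rw [sub_neg_eq_add] at b
    convert dvd_sub (dvd_sub b a) dvd_rfl using 1
    ring

lemma index_Gam_C (h1 : IsUnit (1 - z)) (h2 : IsUnit (1 + z)) (h : ∀ k : ℕ, (-z) ^ k ≠ -1) :
    (Gam m z hz).index = 2 := by
  obtain ⟨c, hc⟩ := h2.exists_left_inv
  have hc' : star c * (1 + star z) = 1 := by
    simpa [mul_comm] using congrArg star hc
  have r := root_ev (z := z) (hz := hz) (m := m) (j := 1) ⟨le_rfl, by omega⟩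
  have e : (BF m z hz).z * (2 * c) + star (2 * c) =
      2 * c * star (2 * c) * (BF m z hz).B (ev O m 1) (ev O m 1) := by
    rw [r, BF_z, star_mul, star_ofNat]
    linear_combination (-2 * star c) * hc - 2 * z * c * hc' + 2 * c * star c * hz
  have da : (act (rf e)).det = -1 := by rw [det_rf, r, BF_z]; linear_combination -2 * hc
  have u : ∀ k : ℕ, ∃ l : ℕ, (-z) ^ k * (-z) ^ l = 1 := fun k => ⟨k * (2 * d - 1), by
    rw [← pow_add, show k + k * (2 * d - 1) = 2 * (d * k) by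
      obtain ⟨e, rfl⟩ : ∃ e, d = e + 1 := ⟨d - 1, by omega⟩
      rw [show 2 * (e + 1) - 1 = 2 * e + 1 by omega]; ring,
      pow_mul, neg_sq, ← pow_mul, mul_comm 2, mul_assoc, pow_mul, z_pow hd hg, one_pow]⟩
  refine Subgroup.index_eq_two_iff.2 ⟨rf e, fun b => ?_⟩
  simp only [gam_iff H hd hg hM hm, PL_top H h1, Subgroup.mem_top, true_and, map_mul, det_mul, da]
  have nb : ¬ ((∃ k : ℕ, (act b).det * -1 = (-z) ^ k) ∧ ∃ k : ℕ, (act b).det = (-z) ^ k) := by
    rintro ⟨⟨k, hk⟩, l, hl⟩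
    obtain ⟨j, hj⟩ := u l
    exact h (k + j) (by rw [pow_add, ← hk, hl]; linear_combination -hj)
  obtain ⟨k, hk | hk⟩ := hN _ (det_norm b)
  · exact Or.inr ⟨⟨k, hk⟩, fun h => nb ⟨h, k, hk⟩⟩
  · have : ∃ k : ℕ, (act b).det * -1 = (-z) ^ k := ⟨k, by rw [hk]; ring⟩
    exact Or.inl ⟨this, fun h => nb ⟨this, h⟩⟩

end Pool.Agent.Lib.MP_61a4e3_al
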