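import Pool.Agent.Lib.MP_61a4e3_al.Perm

/-! When the braid group image has finite index in the unitary group. -/

set_option linter.unusedSectionVars false
set_option linter.unusedSimpArgs false
set_option linter.unusedVariables false
set_option maxHeartbeats 800000

namespace Pool.Agent.Lib.MP_61a4e3_al

open Matrix WG Form

variable {O : Type} [CommRing O] [StarRing O] [IsDomain O] {m : ℕ} {z : O} {hz : z * star z = 1}
  {d : ℕ}

/-- The unitary group of a matrix. -/
def UO (A : Matrix (Fin m) (Fin m) O) : Subgroup (GL (Fin m) O) where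
  carrier := {g | g.valᴴ * A * g.val = A}
  mul_mem' := by
    intro a b ha hb
    simp only [Set.mem_ofPred_eq, Units.val_mul, conjTranspose_mul] at *
    rw [Matrix.mul_assoc, Matrix.mul_assoc, ← Matrix.mul_assoc A, ← Matrix.mul_assoc a.valᴴ,
      ← Matrix.mul_assoc a.valᴴ, ha, ← Matrix.mul_assoc, hb]
  one_mem' := by simp
  inv_mem' := by
    intro a ha
    simp only [Set.mem_ofPred_eq] at *
    conv_lhs => rw [← ha]
    rw [← Matrix.mul_assoc, ← Matrix.mul_assoc, ← conjTranspose_mul, Matrix.mul_assoc _ a.val,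
      Units.mul_inv, conjTranspose_one, Matrix.one_mul, Matrix.mul_one]

variable (m z hz) in
/-- The braid group image as a matrix group. -/
def GO : Subgroup (GL (Fin m) O) := (Gam m z hz).map act.toHomUnits

lemma mem_GO {g : GL (Fin m) O} : g ∈ GO m z hz ↔ ∃ γ ∈ Gam m z hz, act γ = g.val := by
  simp [GO, Units.ext_iff]

lemma exists_sep_finite (h2 : ¬ IsUnit (2 : O)) (h0 : (2 : O) ≠ 0) {S : Set O} (hS : S.Finite) :
    ∃ q ≠ 0, ∀ u ∈ S, q ∣ 1 - u → u = 1 := by
  classical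
  refine ⟨2 * ∏ u ∈ hS.toFinset.erase 1, (1 - u), mul_ne_zero h0 (Finset.prod_ne_zero_iff.2
    fun u hu => sub_ne_zero.2 (Finset.ne_of_mem_erase hu).symm), fun u hu h => ?_⟩
  by_contra hne
  obtain ⟨c, hc⟩ := (mul_dvd_mul_left 2 (Finset.dvd_prod_of_mem (fun u => 1 - u)
    (Finset.mem_erase.2 ⟨hne, hS.mem_toFinset.2 hu⟩))).trans h
  exact h2 (IsUnit.of_mul_eq_one c (mul_left_cancel₀ (sub_ne_zero.2 (Ne.symm hne))
    (by linear_combination -hc)))

lemma ev_one_geom (hm : 0 < m) : ev O m 1 ⬝ᵥ vec m (geom z) = 1 := by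
  rw [ev_dot _ _ (Or.inl ⟨le_rfl, hm⟩), geom_one]

lemma det_A_ne (hn : geom z (m + 1) ≠ 0) : (BF m z hz).A.det ≠ 0 := by
  intro h
  obtain ⟨v, h0, hv⟩ := exists_mulVec_eq_zero_iff.2 h
  obtain ⟨a, ha, ha'⟩ := ker_A hv
  exact h0 (by rw [ha, (mul_eq_zero.1 ha').resolve_left hn, zero_smul])

lemma exists_solve (hm : 0 < m) : ∃ N ≠ (0 : O), ∀ T : Matrix (Fin m) (Fin m) O,
    (geom z (m + 1) = 0 → T *ᵥ vec m (geom z) = 0) → ∃ W, W * (BF m z hz).A = N • T := by
  by_cases hn : geom z (m + 1) = 0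
  swap
  · exact ⟨_, det_A_ne (hz := hz) hn, fun T _ => ⟨T * (BF m z hz).A.adjugate, by
      rw [Matrix.mul_assoc, adjugate_mul, Matrix.mul_smul, Matrix.mul_one]⟩⟩
  have Af : (BF m z hz).A *ᵥ vec m (geom z) = 0 := by rw [A_geom, hn, zero_smul]
  have ef := ev_one_geom (z := z) hm
  set B := (BF m z hz).A + ou (ev O m 1) (ev O m 1) with hB
  refine ⟨B.det, fun h => ?_, fun T hT => ⟨T * B.adjugate, ?_⟩⟩
  · obtain ⟨v, h0, hv⟩ := exists_mulVec_eq_zero_iff.2 h
    rw [hB, add_mulVec, ou_mulVec, star_ev] at hv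
    have h1 : (BF m z hz).B (vec m (geom z)) v = 0 :=
      B_eq_zero_swap _ (by rw [Form.B, Af, dotProduct_zero])
    have h2 := congrArg (star (vec m (geom z)) ⬝ᵥ ·) hv
    have h3 : star (vec m (geom z)) ⬝ᵥ ev O m 1 = 1 := by
      rw [← star_ev, star_dotProduct_star, ef, star_one]
    simp only [dotProduct_add, dotProduct_smul, dotProduct_zero, h3, smul_eq_mul, mul_one] at h2
    rw [Form.B] at h1
    rw [h1, zero_add] at h2
    rw [h2, zero_smul, add_zero] at hv
    obtain ⟨a, ha, -⟩ := ker_A hv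
    rw [ha, dotProduct_smul, ef, smul_eq_mul, mul_one] at h2
    exact h0 (by rw [ha, h2, zero_smul])
  · have h1 : T * B.adjugate * B = B.det • T := by
      rw [Matrix.mul_assoc, adjugate_mul, Matrix.mul_smul, Matrix.mul_one]
    have h2 := congrArg (· *ᵥ vec m (geom z)) h1
    simp only [smul_mulVec, hT hn, smul_zero] at h2
    rw [← mulVec_mulVec, hB, add_mulVec, Af, zero_add, ou_mulVec, star_ev, ef, one_smul,
      ← hB] at h2
    rw [← h1]
    conv_rhs => rw [hB, Matrix.mul_add, ← hB, ou, mul_vecMulVec, h2, zero_vecMulVec, add_zero]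

lemma U_geom (hn : geom z (m + 1) = 0) {g : GL (Fin m) O} (hg : g ∈ UO (BF m z hz).A) :
    ∃ a : O, g.val *ᵥ vec m (geom z) = a • vec m (geom z) := by
  have Af : (BF m z hz).A *ᵥ vec m (geom z) = 0 := by rw [A_geom, hn, zero_smul]
  have h1 : (g⁻¹).valᴴ * (BF m z hz).A * (g⁻¹).val = (BF m z hz).A := inv_mem hg
  obtain ⟨a, ha, -⟩ := ker_A (z := z) (hz := hz) (x := g.val *ᵥ vec m (geom z)) (by
    rw [← h1, mulVec_mulVec, Matrix.mul_assoc, Units.inv_mul, Matrix.mul_one, ← mulVec_mulVec, Af,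
      mulVec_zero])
  exact ⟨a, ha⟩

variable (H : RH z) (hd : 3 ≤ d) (hg : geom z d = 0) (hM : MenOK z) (hm : 2 * d ≤ m)
include H hd hg hM hm

theorem exists_level (h2 : ¬ IsUnit (2 : O)) (h0 : (2 : O) ≠ 0)
    (hf : {x : O | x * star x = 1}.Finite) (h : geom z (m + 1) ≠ 0 ∨ Finite Oˣ) :
    ∃ q ≠ (0 : O), ∀ g ∈ UO (BF m z hz).A, (∀ i j, q ∣ (1 - g.val) i j) → g ∈ GO m z hz := by
  obtain ⟨S, S1, S2, S3⟩ : ∃ S : Set O, S.Finite ∧ (∀ g ∈ UO (BF m z hz).A, g.val.det ∈ S) ∧
      (geom z (m + 1) = 0 → ∀ u, IsUnit u → u ∈ S) := by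
    rcases h with h | h
    · refine ⟨_, hf, fun g hg => mul_left_cancel₀ (det_A_ne (hz := hz) h) ?_, fun e => absurd e h⟩
      have := congrArg det (show g.valᴴ * (BF m z hz).A * g.val = _ from hg)
      rw [det_mul, det_mul, det_conjTranspose] at this
      linear_combination this
    · exact ⟨_, Set.finite_range (Units.val : Oˣ → O), fun g _ => g.isUnit.map detMonoidHom,
        fun _ u hu => hu⟩
  obtain ⟨q, q0, hq⟩ := exists_sep_finite h2 h0 S1
  obtain ⟨N, N0, hN⟩ := exists_solve (z := z) (hz := hz) (show 0 < m by omega)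
  have ne := mul_ne_zero (mul_ne_zero q0 H.one_sub) N0
  refine ⟨_, ne, fun g gU hg' => ?_⟩
  obtain ⟨T, hT⟩ := exists_smul_mat hg'
  have e : g.val = 1 + q • (-((1 - z) * N) • T) := by
    rw [smul_smul, mul_neg, ← mul_assoc, neg_smul, ← hT]; abel
  obtain ⟨W, hW⟩ := hN T fun hn => by
    obtain ⟨a, ha⟩ := U_geom hn gU
    obtain ⟨b, hb⟩ := U_geom hn (inv_mem gU)
    have ef := ev_one_geom (z := z) (show 0 < m by omega)
    have h1 := congrArg (fun x => ev O m 1 ⬝ᵥ ((g⁻¹).val *ᵥ x)) ha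
    simp only [mulVec_mulVec, Units.inv_mul, one_mulVec, mulVec_smul, hb, dotProduct_smul, ef,
      smul_eq_mul, mul_one] at h1
    have h3 := congrArg (· *ᵥ vec m (geom z)) hT
    simp only [sub_mulVec, one_mulVec, ha, smul_mulVec] at h3
    have h4 := congrArg (ev O m 1 ⬝ᵥ ·) h3
    simp only [dotProduct_sub, dotProduct_smul, ef, smul_eq_mul, mul_one, mul_assoc] at h4
    rw [hq a (S3 hn a (IsUnit.of_mul_eq_one b h1.symm)) ⟨_, h4⟩, one_smul, sub_self] at h3
    exact (smul_eq_zero.1 h3.symm).resolve_left ne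
  refine mem_GO.2 ((abstract_main H hd hg hM hm _).2 ⟨gU, ⟨(q * (1 - z)) • W, 1, ?_, fun i j => ?_⟩,
    0, (hq _ (S2 g gU) ?_).trans (pow_zero _).symm⟩)
  · rw [Matrix.smul_mul, hW, smul_smul, ← hT, sub_sub_cancel]
  · rw [WP_one, Matrix.zero_apply, sub_zero]
    exact dvd_smul_mat (dvd_mul_left _ _) _ _ _
  · rw [e, det_one_add_smul, add_assoc, sub_add_cancel_left]
    exact (dvd_add (dvd_mul_left _ _) ((dvd_pow_self q two_ne_zero).mul_left _)).neg_right

theorem index_iff (h2 : ¬ IsUnit (2 : O)) (h0 : (2 : O) ≠ 0)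
    (hf : {x : O | x * star x = 1}.Finite) :
    (GO m z hz).relIndex (UO (BF m z hz).A) ≠ 0 ↔ geom z (m + 1) ≠ 0 ∨ Finite Oˣ := by
  constructor
  · intro h
    refine or_iff_not_imp_left.2 fun hn => ?_
    rw [not_not] at hn
    have Af : (BF m z hz).A *ᵥ vec m (geom z) = 0 := by rw [A_geom, hn, zero_smul]
    have ef := ev_one_geom (z := z) (show 0 < m by omega)
    set f := vec m (geom z)
    set e := ev O m 1
    have oo : ou f e * ou f e = ou f e := by
      rw [ou, vecMulVec_mul_vecMulVec, star_ev, ef, one_smul]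
    have mu : ∀ a b : O, (1 + (a - 1) • ou f e) * (1 + (b - 1) • ou f e) =
        1 + (a * b - 1) • ou f e := by
      intro a b
      simp only [Matrix.add_mul, Matrix.mul_add, Matrix.smul_mul, Matrix.mul_smul, oo,
        Matrix.one_mul, Matrix.mul_one]
      module
    have Ao : (BF m z hz).A * ou f e = 0 := by rw [ou, mul_vecMulVec, Af, zero_vecMulVec]
    have oA : ou e f * (BF m z hz).A = 0 := by
      have := congrArg (fun N => z • Nᴴ) Ao
      simpa [A_ct, ou_ct, smul_smul, hz] using this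
    let g : Oˣ → UO (BF m z hz).A := fun u =>
      ⟨⟨1 + (u.val - 1) • ou f e, 1 + ((u⁻¹).val - 1) • ou f e, by simp [mu], by simp [mu]⟩, by
        change (1 + (u.val - 1) • ou f e)ᴴ * _ * (1 + (u.val - 1) • ou f e) = _
        simp [Matrix.add_mul, Matrix.mul_add, ou_ct, oA, Ao]⟩
    have : ((GO m z hz).subgroupOf (UO (BF m z hz).A)).FiniteIndex := ⟨h⟩
    refine Finite.of_injective (fun u => (QuotientGroup.mk (g u) :
      _ ⧸ (GO m z hz).subgroupOf (UO (BF m z hz).A))) fun u v huv => ?_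
    obtain ⟨γ, -, hγ⟩ := mem_GO.1 (Subgroup.mem_subgroupOf.1 (QuotientGroup.eq.1 huv))
    have h1 : act γ = 1 + ((u⁻¹).val * v.val - 1) • ou f e := hγ.trans (mu _ _)
    have h3 := act_mulVec γ f
    rw [Af, mulVec_zero, sub_zero, h1, add_mulVec, one_mulVec, smul_mulVec, ou_mulVec, star_ev, ef,
      one_smul] at h3
    have h4 := congrArg (e ⬝ᵥ ·) h3
    simp only [dotProduct_add, dotProduct_smul, ef, smul_eq_mul, mul_one, add_eq_left,
      sub_eq_zero] at h4
    exact inv_mul_eq_one.1 (Units.ext h4)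
  · intro h
    obtain ⟨q, q0, hq⟩ := exists_level (hz := hz) H hd hg hM hm h2 h0 hf h
    have := H.fin q q0
    let r := (GeneralLinearGroup.map (n := Fin m) (Ideal.Quotient.mk (Ideal.span {q}))).ker
    have : (r.subgroupOf (UO (BF m z hz).A)).FiniteIndex := inferInstance
    refine (Subgroup.finiteIndex_of_le (H := r.subgroupOf (UO (BF m z hz).A))
      fun g hg' => hq _ g.2 fun i j => ?_).index_ne_zero
    have := congrArg (fun x : GL (Fin m) _ => x.val i j) (Subgroup.mem_subgroupOf.1 hg')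
    simp only [GeneralLinearGroup.map_apply, Units.val_one] at this
    rw [← Ideal.mem_span_singleton, Matrix.sub_apply, ← Ideal.Quotient.eq, this]
    simp only [Matrix.one_apply]
    split_ifs <;> simp

end Pool.Agent.Lib.MP_61a4e3_al
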