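import Pool.Agent.Lib.MP_61a4e3_al.Bin
import Pool.Agent.Lib.MP_61a4e3_al.Index
import Pool.Agent.Lib.MP_61a4e3_al.Det

/-! The action of the unitary group on the discriminant. -/

set_option linter.unusedSectionVars false
set_option linter.unusedSimpArgs false
set_option linter.unusedVariables false
set_option maxHeartbeats 800000

namespace Pool.Agent.Lib.MP_61a4e3_al

open Matrix WG Form

variable {O : Type} [CommRing O] [StarRing O] [IsDomain O] {m : ℕ} {z : O} {hz : z * star z = 1}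
  {d : ℕ}

lemma row_aux (j : ℕ) (hj : j ≤ m + 1) : ∃ ρ : Fin m → O, ∀ u : ℕ → O, u 0 = 0 → u (m + 1) = 0 →
    ρ ⬝ᵥ ((BF m z hz).A *ᵥ vec m u) = u j - geom z j * u 1 := by
  induction j using Nat.twoStepInduction with
  | zero => exact ⟨0, fun u h0 _ => by simp [h0]⟩
  | one => exact ⟨0, fun u h0 _ => by simp⟩
  | more j ih1 ih2 =>
    obtain ⟨a, ha⟩ := ih1 (by omega)
    obtain ⟨b, hb⟩ := ih2 (by omega)
    refine ⟨(1 + z) • b - z • a - ev O m (j + 1), fun u h0 h1 => ?_⟩
    have := B_ev (z := z) (hz := hz) h0 h1 (j := j + 1) ⟨by omega, by omega⟩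
    rw [Form.B, star_ev] at this
    rw [sub_dotProduct, sub_dotProduct, smul_dotProduct, smul_dotProduct, ha u h0 h1, hb u h0 h1,
      this, geom_succ (j + 1), geom_succ j]
    simp only [smul_eq_mul, Nat.add_sub_cancel]
    ring

lemma row1 (hm : 0 < m) : ∃ R : Matrix (Fin m) (Fin m) O, ∀ x,
    R *ᵥ ((BF m z hz).A *ᵥ x) = x - (ev O m 1 ⬝ᵥ x) • vec m (geom z) := by
  choose ρ h using fun i : Fin m => row_aux (z := z) (hz := hz) (m := m) (i.val + 1) (by omega)
  refine ⟨of ρ, fun x => funext fun i => ?_⟩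
  obtain ⟨u, h0, h1, rfl⟩ := exists_vec x
  rw [ev_dot _ _ (Or.inl ⟨le_rfl, hm⟩)]
  exact (h i u h0 h1).trans (by simp [vec, mul_comm])

lemma row2 (hm : 0 < m) : ∃ ρ : Fin m → O, ∀ x,
    ρ ⬝ᵥ ((BF m z hz).A *ᵥ x) = -geom z (m + 1) * (ev O m 1 ⬝ᵥ x) := by
  obtain ⟨ρ, h⟩ := row_aux (z := z) (hz := hz) (m := m) (m + 1) le_rfl
  refine ⟨ρ, fun x => ?_⟩
  obtain ⟨u, h0, h1, rfl⟩ := exists_vec x
  rw [ev_dot _ _ (Or.inl ⟨le_rfl, hm⟩), h u h0 h1, h1]; ring

lemma U_geom' (hm : 0 < m) {g : GL (Fin m) O} (hg : g ∈ UO (BF m z hz).A) :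
    ∃ y, g.val *ᵥ vec m (geom z) =
      (ev O m 1 ⬝ᵥ g.val *ᵥ vec m (geom z)) • vec m (geom z) + geom z (m + 1) • y := by
  obtain ⟨R, hR⟩ := row1 (z := z) (hz := hz) hm
  have h1 : (g⁻¹).valᴴ * (BF m z hz).A * (g⁻¹).val = (BF m z hz).A := inv_mem hg
  have h2 := hR (g.val *ᵥ vec m (geom z))
  rw [← h1, mulVec_mulVec _ (_ * _ * _), Matrix.mul_assoc, Units.inv_mul, Matrix.mul_one,
    ← mulVec_mulVec, A_geom, mulVec_smul, mulVec_smul] at h2
  exact ⟨_, by rw [h2]; abel⟩

lemma mem_range_act (hm : 0 < m) {g : GL (Fin m) O} (hg : g ∈ UO (BF m z hz).A) :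
    g ∈ (act (F := BF m z hz)).toHomUnits.range ↔
      Dv (geom z (m + 1)) (vec m (geom z) - g.val *ᵥ vec m (geom z)) := by
  constructor
  · rintro ⟨γ, rfl⟩
    change Dv _ (_ - act γ *ᵥ _)
    rw [act_mulVec, sub_sub_cancel, A_geom, mulVec_smul]
    exact Dv.smul_self _ _
  · intro h
    obtain ⟨y, hy⟩ := h.exists
    obtain ⟨R, hR⟩ := row1 (z := z) (hz := hz) hm
    obtain ⟨ρ, hρ⟩ := row2 (z := z) (hz := hz) hm
    have e : g.val = 1 - ((1 - g.val) * R - vecMulVec y ρ) * (BF m z hz).A := by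
      refine Matrix.ext_of_mulVec_single fun j => ?_
      rw [sub_mulVec, ← mulVec_mulVec, sub_mulVec, ← mulVec_mulVec, hR, vecMulVec_mulVec, hρ,
        mulVec_sub, mulVec_smul, sub_mulVec, sub_mulVec, one_mulVec, one_mulVec, hy, op_smul_eq_smul]
      module
    obtain ⟨γ, -, h⟩ := exists_lift (hz := hz) (q := 1) (one_dvd _) (fun _ _ => one_dvd _)
      (e ▸ hg) (e ▸ (g.isUnit.map detMonoidHom).ne_zero)
    exact ⟨γ, Units.ext (h.trans e.symm)⟩

lemma index_chi (hm : 0 < m) {X : Type} (κ : O → X)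
    (hκ : ∀ a b, κ a = κ b ↔ geom z (m + 1) ∣ a - b) :
    (act (F := BF m z hz)).toHomUnits.range.relIndex (UO (BF m z hz).A) =
      (κ '' {u | ∃ g ∈ UO (BF m z hz).A,
        geom z (m + 1) ∣ ev O m 1 ⬝ᵥ g.val *ᵥ vec m (geom z) - u}).ncard := by
  set U := UO (BF m z hz).A
  set K := (act (F := BF m z hz)).toHomUnits.range
  have key : ∀ g h : U, (QuotientGroup.mk g : U ⧸ K.subgroupOf U) = QuotientGroup.mk h ↔
      κ (ev O m 1 ⬝ᵥ g.1.val *ᵥ vec m (geom z)) = κ (ev O m 1 ⬝ᵥ h.1.val *ᵥ vec m (geom z)) := by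
    intro g h
    rw [QuotientGroup.eq, Subgroup.mem_subgroupOf, mem_range_act hm (g⁻¹ * h).2, hκ]
    change Dv _ (_ - ((g.1⁻¹).val * h.1.val) *ᵥ _) ↔ _
    constructor
    · intro e
      have := (e.mulVec g.1.val).dot (ev O m 1)
      rwa [mulVec_sub, mulVec_mulVec, ← Matrix.mul_assoc, Units.mul_inv, Matrix.one_mul,
        dotProduct_sub] at this
    · intro e
      obtain ⟨y, hy⟩ := U_geom' hm g.2
      obtain ⟨y', hy'⟩ := U_geom' hm h.2
      have : Dv (geom z (m + 1)) (g.1.val *ᵥ vec m (geom z) - h.1.val *ᵥ vec m (geom z)) := by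
        rw [hy, hy']
        convert (Dv.smul_of_dvd e (vec m (geom z))).add (Dv.smul_self _ (y - y')) using 1
        module
      have := this.mulVec (g.1⁻¹).val
      rwa [mulVec_sub, mulVec_mulVec, mulVec_mulVec, Units.inv_mul, one_mulVec] at this
  let Φ : U ⧸ K.subgroupOf U → X := fun c => κ (ev O m 1 ⬝ᵥ c.out.1.val *ᵥ vec m (geom z))
  have inj : Function.Injective Φ := fun a b h => by
    rw [← a.out_eq', ← b.out_eq']; exact (key _ _).2 h
  rw [Subgroup.relIndex, Subgroup.index, ← Nat.card_range_of_injective inj, Nat.card_coe_set_eq]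
  congr 1
  ext x
  constructor
  · rintro ⟨c, rfl⟩
    exact ⟨_, ⟨c.out.1, c.out.2, by rw [sub_self]; exact dvd_zero _⟩, rfl⟩
  · rintro ⟨u, ⟨g, hg, h⟩, rfl⟩
    exact ⟨QuotientGroup.mk ⟨g, hg⟩, ((key _ _).1 (Quotient.out_eq' _)).trans ((hκ _ _).2 h)⟩

lemma chi_zero (hm : 0 < m) (hn : geom z (m + 1) = 0) (u : O) :
    (∃ g ∈ UO (BF m z hz).A, geom z (m + 1) ∣ ev O m 1 ⬝ᵥ g.val *ᵥ vec m (geom z) - u) ↔
      IsUnit u := by
  have ef := ev_one_geom (z := z) hm
  simp only [hn, zero_dvd_iff, sub_eq_zero]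
  constructor
  · rintro ⟨g, gU, rfl⟩
    obtain ⟨a, ha⟩ := U_geom hn gU
    obtain ⟨b, hb⟩ := U_geom hn (inv_mem gU)
    have h1 := congrArg (fun x => ev O m 1 ⬝ᵥ ((g⁻¹).val *ᵥ x)) ha
    simp only [mulVec_mulVec, Units.inv_mul, one_mulVec, mulVec_smul, hb, dotProduct_smul, ef,
      smul_eq_mul, mul_one] at h1
    rw [ha, dotProduct_smul, ef, smul_eq_mul, mul_one]
    exact IsUnit.of_mul_eq_one b h1.symm
  · rintro ⟨u, rfl⟩
    have Af : (BF m z hz).A *ᵥ vec m (geom z) = 0 := by rw [A_geom, hn, zero_smul]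
    set f := vec m (geom z)
    set e := ev O m 1
    have oo : ou f e * ou f e = ou f e := by
      rw [ou, vecMulVec_mul_vecMulVec, star_ev, ef, one_smul]
    have mu : ∀ a b : O, (1 + (a - 1) • ou f e) * (1 + (b - 1) • ou f e) =
        1 + (a * b - 1) • ou f e := by
      intro a b
      simp only [Matrix.add_mul, Matrix.mul_add, Matrix.smul_mul, Matrix.mul_smul, oo,
        Matrix.one_mul, Matrix.mul_one]
      module
    have Ao : (BF m z hz).A * ou f e = 0 := by rw [ou, mul_vecMulVec, Af, zero_vecMulVec]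
    have oA : ou e f * (BF m z hz).A = 0 := by
      have := congrArg (fun N => z • Nᴴ) Ao
      simpa [A_ct, ou_ct, smul_smul, hz] using this
    refine ⟨⟨1 + (u.val - 1) • ou f e, 1 + ((u⁻¹).val - 1) • ou f e, by simp [mu], by simp [mu]⟩,
      ?_, ?_⟩
    · change (1 + (u.val - 1) • ou f e)ᴴ * _ * (1 + (u.val - 1) • ou f e) = _
      simp [Matrix.add_mul, Matrix.mul_add, ou_ct, oA, Ao]
    · change e ⬝ᵥ (1 + (u.val - 1) • ou f e) *ᵥ f = _
      rw [add_mulVec, one_mulVec, smul_mulVec, ou_mulVec, star_ev, ef, one_smul, dotProduct_add,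
        dotProduct_smul, ef]
      simp

lemma B_geom (x : Fin m → O) :
    (BF m z hz).B x (vec m (geom z)) = geom z (m + 1) * star (ev O m m ⬝ᵥ x) := by
  rw [Form.B, A_geom, dotProduct_smul, ← star_ev, star_dotProduct_star, star_ev, smul_eq_mul]

lemma chi_le (hm : 0 < m) (hn : geom z (m + 1) ≠ 0) {g : GL (Fin m) O} (hg : g ∈ UO (BF m z hz).A)
    {u : O} (hu : u = ev O m 1 ⬝ᵥ g.val *ᵥ vec m (geom z)) : geom z (m + 1) ∣ u * star u - 1 := by
  obtain ⟨y, hy⟩ := U_geom' hm hg
  rw [← hu] at hy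
  have h1 : (BF m z hz).B (g.val *ᵥ vec m (geom z)) (g.val *ᵥ vec m (geom z)) =
      (BF m z hz).B (vec m (geom z)) (vec m (geom z)) := by
    rw [Form.B, star_mulVec, ← dotProduct_mulVec, mulVec_mulVec, mulVec_mulVec,
      show g.valᴴ * _ * g.val = _ from hg, Form.B]
  have h2 := (BF m z hz).B_swap y (vec m (geom z))
  have h3 := B_geom (hz := hz) (vec m (geom z))
  rw [ev_dot _ _ (Or.inl ⟨hm, le_rfl⟩)] at h3
  rw [hy] at h1
  simp only [B_add_left, B_add_right, B_smul_left, B_smul_right, h2, h3, B_geom y, BF_z, star_mul,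
    star_star] at h1
  have h4 : star (geom z m) * (u * star u - 1) = -star (geom z (m + 1)) *
      (star u * z * (ev O m m ⬝ᵥ y) + u * star (ev O m m ⬝ᵥ y) + (BF m z hz).B y y) :=
    mul_left_cancel₀ hn (by linear_combination h1)
  have h5 := congrArg star h4
  generalize star u * z * (ev O m m ⬝ᵥ y) + u * star (ev O m m ⬝ᵥ y) + (BF m z hz).B y y = T at h5
  simp only [star_mul, star_star, star_sub, star_one, star_neg] at h5
  exact ⟨u * star u - 1 + z * star T, by
    linear_combination -z * h5 - (u * star u - 1) * geom_succ (z := z) m⟩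

lemma exists_isom {ι : Type} [Fintype ι] [DecidableEq ι] {F : Form O ι} {b : O} (b0 : b ≠ 0)
    {e w f f' y h h' : ι → O} {N : O} (hw : ∀ x, F.B x w = N * star (e ⬝ᵥ x)) (ew : e ⬝ᵥ w = b)
    (ef : e ⬝ᵥ f = 0) (ef' : e ⬝ᵥ f' = 0) (ff : F.B f f = 0) (f'f' : F.B f' f' = 0)
    (ff' : F.B f f' = 1) (hh : F.B h h = 0) (h'h' : F.B h' h' = 0) (hh' : F.B h h' = 1)
    (ww : F.B (w + b • y) (w + b • y) = F.B w w) (wh : F.B (w + b • y) h = 0)
    (wh' : F.B (w + b • y) h' = 0)
    (sp : ∀ x, F.B x w = 0 → F.B x f = 0 → F.B x f' = 0 →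
      F.B x (w + b • y) = 0 ∧ F.B x h = 0 ∧ F.B x h' = 0) :
    ∃ g : Matrix ι ι O, gᴴ * F.A * g = F.A ∧ g *ᵥ w = w + b • y := by
  have hz := F.hz
  have fw : F.B f w = 0 := by rw [hw, ef]; simp
  have f'w : F.B f' w = 0 := by rw [hw, ef']; simp
  set g := 1 + vecMulVec y e + star F.z • (ou (h - f) f' * F.A) + ou (h' - f') f * F.A with hg
  have gx : ∀ x, g *ᵥ x = x + (e ⬝ᵥ x) • y + (star F.z * F.B f' x) • (h - f) +
      F.B f x • (h' - f') := by
    intro x
    rw [hg, add_mulVec, add_mulVec, add_mulVec, one_mulVec, vecMulVec_mulVec, smul_mulVec,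
      ou_A_mulVec, ou_A_mulVec, smul_smul, op_smul_eq_smul]
  refine ⟨g, ?_, by rw [gx, fw, f'w, ew]; simp⟩
  set w' := w + b • y with hw'
  have dec : ∀ x, ∃ (v : ι → O) (a c d : O), b • x = v + a • w + c • f + d • f' ∧
      b • (g *ᵥ x) = v + a • w' + c • h + d • h' ∧ F.B v w = 0 ∧ F.B v f = 0 ∧ F.B v f' = 0 := by
    intro x
    refine ⟨b • x - (e ⬝ᵥ x) • w - (b * star F.z * F.B f' x) • f - (b * F.B f x) • f', _, _, _,
      by abel, by rw [gx, hw']; module, ?_, B_eq_zero_swap _ ?_, B_eq_zero_swap _ ?_⟩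
    · rw [hw]; simp [ew, ef, ef', mul_comm]
    · simp [fw, ff, ff']
    · simp only [B_sub_right, B_smul_right, f'w, f'f', F.B_eq_one_swap ff']
      linear_combination -b * F.B f' x * hz
  have iso : ∀ x x', F.B (g *ᵥ x) (g *ᵥ x') = F.B x x' := by
    intro x x'
    obtain ⟨v, a, c, d, e1, e2, v1, v2, v3⟩ := dec x
    obtain ⟨v', a', c', d', e1', e2', v1', v2', v3'⟩ := dec x'
    obtain ⟨v4, v5, v6⟩ := sp v v1 v2 v3
    obtain ⟨v4', v5', v6'⟩ := sp v' v1' v2' v3'
    have : F.B (b • (g *ᵥ x)) (b • (g *ᵥ x')) = F.B (b • x) (b • x') := by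
      rw [e1, e2, e1', e2']
      simp only [B_add_left, B_add_right, B_smul_left, B_smul_right, v1, v2, v3, v4, v5, v6,
        B_eq_zero_swap _ v1', B_eq_zero_swap _ v2', B_eq_zero_swap _ v3', B_eq_zero_swap _ v4',
        B_eq_zero_swap _ v5', B_eq_zero_swap _ v6', ww, wh, wh', B_eq_zero_swap _ wh,
        B_eq_zero_swap _ wh', hh, h'h', hh', F.B_eq_one_swap hh', ff, f'f', ff',
        F.B_eq_one_swap ff', fw, f'w, B_eq_zero_swap _ fw, B_eq_zero_swap _ f'w]
    simp only [B_smul_left, B_smul_right] at this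
    exact mul_left_cancel₀ (star_ne_zero.2 b0) (mul_left_cancel₀ b0 this)
  ext i j
  have := iso (Pi.single i 1) (Pi.single j 1)
  rw [Form.B, star_mulVec, ← dotProduct_mulVec, mulVec_mulVec, mulVec_mulVec, Form.B] at this
  simpa [Pi.star_single] using this

lemma chi_ne (H : RH z) (hd : 3 ≤ d) (hg : geom z d = 0) (hm : d + 1 ≤ m) (T : Tri z)
    (hn : geom z (m + 1) ≠ 0) (u : O) :
    (∃ g ∈ UO (BF m z hz).A, geom z (m + 1) ∣ ev O m 1 ⬝ᵥ g.val *ᵥ vec m (geom z) - u) ↔
      geom z (m + 1) ∣ u * star u - 1 := by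
  have hm0 : 0 < m := by omega
  have hN := geom_succ (z := z) m
  have h3 := B_geom (hz := hz) (m := m) (vec m (geom z))
  rw [ev_dot _ _ (Or.inl ⟨hm0, le_rfl⟩)] at h3
  have h4 := (BF m z hz).B_swap (vec m (geom z)) (vec m (geom z))
  rw [h3, star_mul, star_star, BF_z] at h4
  set N := geom z (m + 1) with hN'
  set b := geom z m with hb'
  have sN : star N = N * (star N - star b) := by linear_combination h4 - star N * hN
  have stab : ∀ u v : O, N ∣ u - v → N ∣ v * star v - 1 → N ∣ u * star u - 1 := by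
    rintro u v ⟨s, hs⟩ ⟨t, ht⟩
    have := congrArg star hs
    rw [star_sub, star_mul] at this
    exact ⟨t + s * star u + v * star s * (star N - star b), by
      linear_combination ht + star u * hs + v * this + v * star s * sN⟩
  refine ⟨?_, fun hu => ?_⟩
  · rintro ⟨g, gU, h⟩
    exact stab _ _ (by simpa using h.neg_right) (chi_le hm0 hn gU rfl)
  by_cases b0 : b = 0
  · exact ⟨1, one_mem _, by rw [hN, b0]; simp⟩
  set u' := N - z * b * u with hu'
  have d1 : N ∣ u' - u := ⟨1 - u, by rw [hu']; linear_combination u * hN⟩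
  obtain ⟨t, ht⟩ := stab _ _ d1 hu
  have sb : star b = b * (z * star N - z * star b) := by linear_combination h4 - star b * hN
  have d2 : u' - 1 = b * (z * (1 - u)) := by rw [hu']; linear_combination hN
  set β := z * star N - z * star b with hβ
  have ht' := congrArg star ht
  have d2' := congrArg star d2
  have hN2 := congrArg star hN
  simp only [star_mul, star_sub, star_add, star_star, star_one] at ht' d2' hN2
  obtain ⟨s, hs⟩ : ∃ s, u' * star u' - 1 = b * star N * s :=
    ⟨z * (1 - u) * star u' + β * (1 - star u) * star z - star t * star z * β, by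
      linear_combination star N * star u' * d2 + star N * d2' +
        (star N * (1 - star u) * star z - star z * (u' * star u' - 1)) * sb -
        star z * β * b * ht' - (u' * star u' - 1) * hN2⟩
  obtain ⟨a, ha, rfl⟩ := zherm H (r := s) (by
    have := congrArg star hs
    simp only [star_mul, star_sub, star_star, star_one] at this
    exact mul_left_cancel₀ (mul_ne_zero b0 (star_ne_zero.2 hn)) (by
      linear_combination this - hs + star s * h4))
  have ef : ev O m m ⬝ᵥ (-z • vec m (fv z d (0 + 1))) = 0 := by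
    rw [dotProduct_smul, ev_dot _ _ (Or.inl ⟨hm0, le_rfl⟩), fv_out hd hg (by omega), smul_zero]
  have ef' : ev O m m ⬝ᵥ vec m (fv z d 0) = 0 := by
    rw [ev_dot _ _ (Or.inl ⟨hm0, le_rfl⟩), fv_out hd hg (by omega)]
  have ff' := plane_fv (hz := hz) (m := m) H hd hg (j := 0) (by omega)
  have f'f' := fv_iso (hz := hz) (m := m) H hd hg (j := 0) (by omega)
  have ff : (BF m z hz).B (-z • vec m (fv z d (0 + 1))) (-z • vec m (fv z d (0 + 1))) = 0 := by
    simp [fv_iso (hz := hz) H hd hg (show 1 + d ≤ m + 1 by omega)]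
  have f'f := (BF m z hz).B_eq_one_swap ff'
  generalize -z • vec m (fv z d (0 + 1)) = f at *
  generalize vec m (fv z d 0) = f' at *
  have fw : (BF m z hz).B f (vec m (geom z)) = 0 := by rw [B_geom, ef]; simp
  have f'w : (BF m z hz).B f' (vec m (geom z)) = 0 := by rw [B_geom, ef']; simp
  have wf := B_eq_zero_swap _ fw
  have wf' := B_eq_zero_swap _ f'w
  have ew : vec m (geom z) + b • ((z * (1 - u)) • vec m (geom z) + (N * β) • (f - a • f')) =
      u' • vec m (geom z) + (N * star b) • (f - a • f') := by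
    rw [sb, show u' = 1 + b * (z * (1 - u)) by linear_combination d2]; module
  obtain ⟨h, ⟨a1, a2, e1⟩, h', ⟨a3, a4, e2⟩, hh, h'h', hh'⟩ := hyp H T (F := BF m z hz) rfl
    (v := vec m (geom z) - (z * star u') • f') (w := f + (a * z) • f')
    (by simpa [h3, wf', f'w, f'f'] using ⟨hn, b0⟩) (by
      simp only [B_add_left, B_add_right, B_sub_left, B_sub_right, B_smul_left, B_smul_right, h3,
        wf, wf', fw, f'w, ff, f'f', ff', f'f, BF_z, star_mul, star_star, ha, star_sub, star_add,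
        mul_zero, star_zero, star_one]
      linear_combination a * (1 + z) * h4 - z * hs +
        (N * star b * a - z * u' * star u' * (z * star z + 1)) * hz)
  have o1 : (BF m z hz).B (u' • vec m (geom z) + (N * star b) • (f - a • f'))
      (vec m (geom z) - (z * star u') • f') = 0 := by
    simp only [B_add_left, B_add_right, B_sub_left, B_sub_right, B_smul_left, B_smul_right, h3,
      wf, wf', fw, f'w, ff, f'f', ff', f'f, BF_z, star_mul, star_star, ha]
    linear_combination star u' * h4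
  have o2 : (BF m z hz).B (u' • vec m (geom z) + (N * star b) • (f - a • f'))
      (f + (a * z) • f') = 0 := by
    simp only [B_add_left, B_add_right, B_sub_left, B_sub_right, B_smul_left, B_smul_right, h3,
      wf, wf', fw, f'w, ff, f'f', ff', f'f, BF_z, star_mul, star_star, ha]
    ring
  obtain ⟨g, gU, gw⟩ := exists_isom (F := BF m z hz) b0 B_geom (ev_dot _ _ (Or.inl ⟨hm0, le_rfl⟩))
    ef ef' ff f'f' ff' hh h'h' hh'
    (y := (z * (1 - u)) • vec m (geom z) + (N * β) • (f - a • f')) (by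
      rw [ew]
      simp only [B_add_left, B_add_right, B_sub_left, B_sub_right, B_smul_left, B_smul_right, h3,
        wf, wf', fw, f'w, ff, f'f', ff', f'f, BF_z, star_mul, star_star, ha]
      linear_combination N * star b * hs)
    (by rw [ew, e1, B_add_right, B_smul_right, B_smul_right, o1, o2]; ring)
    (by rw [ew, e2, B_add_right, B_smul_right, B_smul_right, o1, o2]; ring)
    (fun x h1 h2 h3 => by rw [ew, e1, e2]; simp [h1, h2, h3])
  have gu : IsUnit g := (isUnit_iff_isUnit_det g).2 (IsUnit.of_mul_eq_one (star g.det) (by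
    have := congrArg det gU
    rw [det_mul, det_mul, det_conjTranspose] at this
    exact mul_left_cancel₀ (det_A_ne (hz := hz) hn) (by linear_combination this)))
  refine ⟨gu.unit, gU, ?_⟩
  rw [IsUnit.unit_spec, gw, ew, dotProduct_add, dotProduct_smul, dotProduct_smul, ev_one_geom hm0]
  convert dvd_add d1 (dvd_mul_right N (star b * (ev O m 1 ⬝ᵥ (f - a • f')))) using 1
  simp only [smul_eq_mul]; ring

end Pool.Agent.Lib.MP_61a4e3_al
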