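import Mathlib

/-! Two zero-sum subsets with controlled overlap. -/

set_option linter.unusedVariables false

namespace Pool.Agent.Lib.MP_61a4e3_al

open Finset

section
variable {ι : Type} [DecidableEq ι] (a : ι → ℤ) {p : ℕ}

lemma egz_two (hp : 2 ≤ p) {s : Finset ι} (hs : 2 * p + 1 ≤ #s) : ∃ S ⊆ s, ∃ T ⊆ s, #S = p ∧ #T = p ∧
    (p : ℤ) ∣ ∑ i ∈ S, a i ∧ (p : ℤ) ∣ ∑ i ∈ T, a i ∧ 0 < #(S \ T) ∧ #(S \ T) < p := by
  by_contra! h
  obtain ⟨S, hS, c, e⟩ := Int.erdos_ginzburg_ziv (n := p) a (s := s) (by omega)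
  obtain ⟨x, hx⟩ : S.Nonempty := card_pos.1 (by omega)
  have key : ∀ C ⊆ s \ S, #C = p → (p : ℤ) ∣ ∑ i ∈ C, a i := by
    intro C hC hc
    have dj : Disjoint (S.erase x) C := disjoint_left.2 fun y h1 h2 =>
      (mem_sdiff.1 (hC h2)).2 (mem_of_mem_erase h1)
    obtain ⟨T, hT, c', e'⟩ := Int.erdos_ginzburg_ziv (n := p) a (s := S.erase x ∪ C) (by
      rw [card_union_of_disjoint dj, card_erase_of_mem hx]; omega)
    have h1 := h S hS T (hT.trans (union_subset ((erase_subset _ _).trans hS)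
      (hC.trans sdiff_subset))) c c' e e' (card_pos.2 ⟨x, mem_sdiff.2 ⟨hx, fun h' => by
        rcases mem_union.1 (hT h') with h2 | h2
        · exact notMem_erase _ _ h2
        · exact (mem_sdiff.1 (hC h2)).2 hx⟩⟩)
    have h2 : S \ T = S := eq_of_subset_of_card_le sdiff_subset (by omega)
    have h3 : T ⊆ C := fun y hy => (mem_union.1 (hT hy)).resolve_left fun h' =>
      (mem_sdiff.1 (h2.symm ▸ mem_of_mem_erase h')).2 hy
    rwa [← eq_of_subset_of_card_le h3 (by omega)]
  obtain ⟨K, hK, k⟩ := exists_subset_card_eq (s := s \ S) (n := p + 1) (by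
    rw [card_sdiff_of_subset hS]; omega)
  obtain ⟨y, hy, y', hy', hne⟩ := one_lt_card.1 (show 1 < #K by omega)
  have c1 : #(K.erase y) = p := by rw [card_erase_of_mem hy]; omega
  have c2 : #(K.erase y') = p := by rw [card_erase_of_mem hy']; omega
  have e3 : K.erase y \ K.erase y' = {y'} := by
    ext w; simp only [mem_sdiff, mem_erase, mem_singleton]
    constructor
    · rintro ⟨⟨-, h1⟩, h2⟩; by_contra h3; exact h2 ⟨h3, h1⟩
    · rintro rfl; exact ⟨⟨hne.symm, hy'⟩, fun h => h.1 rfl⟩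
  have := h _ (((erase_subset _ _).trans hK).trans sdiff_subset) _
    (((erase_subset _ _).trans hK).trans sdiff_subset) c1 c2
    (key _ ((erase_subset _ _).trans hK) c1) (key _ ((erase_subset _ _).trans hK) c2)
    (by rw [e3]; simp)
  rw [e3, card_singleton] at this
  omega

lemma egz_mul (c : ℕ) {s : Finset ι} (hs : c * p + p ≤ #s) :
    ∃ B ⊆ s, #B = c * p ∧ (p : ℤ) ∣ ∑ i ∈ B, a i := by
  induction c with
  | zero => exact ⟨∅, empty_subset _, by simp, by simp⟩
  | succ c ih =>
    rw [add_one_mul] at hs ⊢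
    obtain ⟨B, hB, c1, e1⟩ := ih (by omega)
    obtain ⟨T, hT, c2, e2⟩ := Int.erdos_ginzburg_ziv (n := p) a (s := s \ B) (by
      rw [card_sdiff_of_subset hB]; omega)
    have dj : Disjoint B T := disjoint_left.2 fun y h1 h2 => (mem_sdiff.1 (hT h2)).2 h1
    exact ⟨B ∪ T, union_subset hB (hT.trans sdiff_subset), by rw [card_union_of_disjoint dj, c1, c2],
      by rw [sum_union dj]; exact dvd_add e1 e2⟩

end

lemma card_window {n lo hi : ℕ} (h : hi ≤ n) :
    #{a : Fin n | lo ≤ a.val ∧ a.val < hi} = hi - lo := by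
  rw [← Nat.card_Ico, ← card_map Fin.valEmbedding]
  congr 1
  ext x
  simp only [mem_map, mem_filter, mem_univ, true_and, Fin.valEmbedding_apply, mem_Ico]
  exact ⟨by rintro ⟨a, h, rfl⟩; exact h, fun h' => ⟨⟨x, by omega⟩, h', rfl⟩⟩

theorem exists_perm_sum {n p d : ℕ} (t : Fin n → ℤ) (hp : 2 ≤ p) (hd : p ∣ d) (d0 : 0 < d)
    (hn : 2 * d + 1 ≤ n) : ∃ (s : Equiv.Perm (Fin n)) (j : ℕ), 0 < j ∧ j < p ∧
      (p : ℤ) ∣ ∑ a : Fin n with 0 ≤ a.val ∧ a.val < 0 + d, t (s a) ∧
      (p : ℤ) ∣ ∑ a : Fin n with j ≤ a.val ∧ a.val < j + d, t (s a) := by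
  obtain ⟨c, rfl⟩ := hd
  obtain ⟨c, rfl⟩ : ∃ e, c = e + 1 := ⟨c - 1, by rcases c with _ | c <;> simp at d0 ⊢⟩
  rw [mul_comm p, add_one_mul] at *
  obtain ⟨B, -, c1, e1⟩ := egz_mul t c (p := p) (s := univ) (by simp; omega)
  obtain ⟨S, hS, T, hT, c2, c3, e2, e3, j1, j2⟩ := egz_two t hp (s := univ \ B) (by
    rw [card_sdiff_of_subset (subset_univ _)]; simp; omega)
  have dS : Disjoint B S := disjoint_left.2 fun y h1 h2 => (mem_sdiff.1 (hS h2)).2 h1
  have dT : Disjoint B T := disjoint_left.2 fun y h1 h2 => (mem_sdiff.1 (hT h2)).2 h1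
  have cS : #(B ∪ S) = c * p + p := by rw [card_union_of_disjoint dS, c1, c2]
  have cT : #(B ∪ T) = c * p + p := by rw [card_union_of_disjoint dT, c1, c3]
  have eS : (p : ℤ) ∣ ∑ i ∈ B ∪ S, t i := by rw [sum_union dS]; exact dvd_add e1 e2
  have eT : (p : ℤ) ∣ ∑ i ∈ B ∪ T, t i := by rw [sum_union dT]; exact dvd_add e1 e3
  have cj : #((B ∪ S) \ (B ∪ T)) = #(S \ T) := by
    congr 1; ext y
    have : y ∈ B → y ∉ S := fun h => disjoint_left.1 dS h
    simp only [mem_sdiff, mem_union]; tauto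
  generalize B ∪ S = S' at *
  generalize B ∪ T = T' at *
  generalize #(S \ T) = j at *
  have hpd : p ≤ c * p + p := Nat.le_add_left _ _
  generalize c * p + p = d at *
  have k1 := card_sdiff_add_card_inter S' T'
  have k2 := card_sdiff_add_card_inter T' S'
  have k3 := card_union_add_card_inter S' T'
  rw [inter_comm] at k2
  let f : Fin n → Bool × Bool := fun a => (decide (a.val < d), decide (j ≤ a.val ∧ a.val < j + d))
  let g : Fin n → Bool × Bool := fun a => (decide (a ∈ S'), decide (a ∈ T'))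
  have hc : ∀ b, #{a | f a = b} = #{a | g a = b} := by
    rintro ⟨_ | _, _ | _⟩
    · rw [show ({a | g a = (false, false)} : Finset _) = (S' ∪ T')ᶜ by ext; simp [g],
        show ({a | f a = (false, false)} : Finset _) = ({a : Fin n | j + d ≤ a.val ∧ a.val < n} : Finset _) by
          ext a; have := a.2; simp [f]; omega, card_window le_rfl, card_compl, Fintype.card_fin]
      omega
    · rw [show ({a | g a = (false, true)} : Finset _) = T' \ S' by ext; simp [g, and_comm],
        show ({a | f a = (false, true)} : Finset _) = ({a : Fin n | d ≤ a.val ∧ a.val < j + d} : Finset _) by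
          ext a; simp [f]; omega, card_window (by omega)]
      omega
    · rw [show ({a | g a = (true, false)} : Finset _) = S' \ T' by ext; simp [g],
        show ({a | f a = (true, false)} : Finset _) = ({a : Fin n | 0 ≤ a.val ∧ a.val < j} : Finset _) by
          ext a; simp [f]; omega, card_window (by omega)]
      omega
    · rw [show ({a | g a = (true, true)} : Finset _) = S' ∩ T' by ext; simp [g],
        show ({a | f a = (true, true)} : Finset _) = ({a : Fin n | j ≤ a.val ∧ a.val < d} : Finset _) by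
          ext a; simp [f]; omega, card_window (by omega)]
      omega
  let s : Equiv.Perm (Fin n) := Equiv.ofFiberEquiv (f := f) (g := g) fun b =>
    Fintype.equivOfCardEq (by rw [Fintype.card_subtype, Fintype.card_subtype, hc])
  have hs : ∀ a, g (s a) = f a := Equiv.ofFiberEquiv_map _
  refine ⟨s, j, j1, j2, ?_, ?_⟩
  · rwa [sum_equiv (t := S') (g := t) s (fun a => by
      have := congrArg Prod.fst (hs a); simpa [f, g] using this.symm) fun _ _ => rfl]
  · rwa [sum_equiv (t := T') (g := t) s (fun a => by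
      have := congrArg Prod.snd (hs a); simpa [f, g, -Bool.decide_and] using this.symm)
      fun _ _ => rfl]

end Pool.Agent.Lib.MP_61a4e3_al
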