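import Pool.Agent.Lib.MP_61a4e3_al.Two

/-! The braid group image contains the level `π` group with determinant a power of `-z`. -/

set_option linter.unusedSectionVars false
set_option linter.unusedSimpArgs false
set_option linter.unusedVariables false

namespace Pool.Agent.Lib.MP_61a4e3_al

open Matrix WG Form

section
variable {O : Type} [CommRing O] [StarRing O] [IsDomain O] {ι : Type} [Fintype ι] [DecidableEq ι]
  {F : Form O ι} {Γ : Subgroup (WG F)}

lemma inv_mul_W (h g : WG F) : (h⁻¹ * g).W = act h⁻¹ * (g.W - h.W) := by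
  have h0 : (h⁻¹).W + act h⁻¹ * h.W = 0 := by rw [← mul_W', inv_mul_cancel, one_W]
  rw [mul_W', Matrix.mul_sub, eq_neg_of_add_eq_zero_left h0]; abel

lemma exists_smul_mat {q : O} {M : Matrix ι ι O} (h : ∀ i j, q ∣ M i j) : ∃ Y, M = q • Y := by
  choose Y hY using h
  exact ⟨Matrix.of Y, by ext i j; simp [hY]⟩

lemma mat_cancel {q : O} (hq : q ≠ 0) {M N : Matrix ι ι O} (h : q • M = q • N) : M = N := by
  ext i j
  exact mul_left_cancel₀ hq (by simpa using congrFun (congrFun h i) j)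

lemma det_lev_sq (H : RH F.z) {g : WG F} (hl : g ∈ lev F ((1 - F.z) ^ 2)) :
    (1 - F.z) ^ 3 ∣ 1 - (act g).det := by
  obtain ⟨Y, hY⟩ := exists_smul_mat hl
  have hz := F.hz
  have hp := g.prop
  have hs := H.star_pi
  have e1 : Yᴴ = -(F.z ^ 3) • Y + ((1 - F.z) ^ 2) • (Y * F.A * Yᴴ) := by
    refine mat_cancel (pow_ne_zero 2 H.one_sub) ?_
    rw [hY] at hp
    simp only [Form.op, Form.tau, conjTranspose_smul, Matrix.smul_mul, Matrix.mul_smul, smul_smul,
      star_pow, hs] at hp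
    have := congrArg (fun M => (F.z ^ 3) • M) hp
    simp only [smul_zero] at this
    rw [← sub_eq_zero, ← this]
    match_scalars <;> (clear * - hz; grind)
  have e2 : (1 - F.z) ∣ trace (Y * F.A) := by
    have t1 : star (trace (Y * F.C)) = trace (Yᴴ * F.Cᴴ) := by
      rw [← trace_conjTranspose, conjTranspose_mul, trace_mul_comm]
    rw [e1, Matrix.add_mul, Matrix.smul_mul, Matrix.smul_mul, trace_add, trace_smul,
      trace_smul, smul_eq_mul, smul_eq_mul] at t1
    obtain ⟨s, hs⟩ := H.pi_dvd_star_sub (trace (Y * F.C))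
    rw [Form.A, Matrix.mul_add, Matrix.mul_smul, trace_add, trace_smul, smul_eq_mul]
    refine ⟨-s - trace (Y * F.C) + (1 + F.z + F.z ^ 2) * trace (Y * F.Cᴴ)
      + (1 - F.z) * trace (Y * F.A * Yᴴ * F.Cᴴ), ?_⟩
    linear_combination t1 - hs
  have e3 : act g = 1 + ((1 - F.z) ^ 2) • (-(Y * F.A)) := by
    rw [act_apply, hY, Matrix.smul_mul, smul_neg, sub_eq_add_neg]
  rw [e3, det_one_add_smul, trace_neg]
  obtain ⟨t, ht⟩ := e2
  rw [ht]
  generalize Polynomial.eval ((1 - F.z) ^ 2) _ = E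
  exact ⟨t - (1 - F.z) * E, by ring⟩

lemma symm_lev (H : RH F.z) {g : WG F} {X : Matrix ι ι O} (hX : g.W = (1 - F.z) • X) (i j : ι) :
    (1 - F.z) ∣ X j i - X i j := by
  have hz := F.hz
  have hp := g.prop
  have hs := H.star_pi
  have e1 : Xᴴ = (F.z ^ 2) • X + (1 - F.z) • (X * F.A * Xᴴ) := by
    refine mat_cancel H.one_sub ?_
    rw [hX] at hp
    simp only [Form.op, Form.tau, conjTranspose_smul, Matrix.smul_mul, Matrix.mul_smul, smul_smul,
      star_pow, hs] at hp
    have := congrArg (fun M => (-F.z ^ 2) • M) hp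
    simp only [smul_zero] at this
    rw [← sub_eq_zero, ← this]
    match_scalars <;> (clear * - hz; grind)
  have e2 := congrFun (congrFun e1 i) j
  simp only [conjTranspose_apply, Matrix.add_apply, Matrix.smul_apply, smul_eq_mul] at e2
  obtain ⟨s, hs⟩ := H.pi_dvd_star_sub (X j i)
  exact ⟨-s + (X * F.A * Xᴴ) i j - (1 + F.z) * X i j, by linear_combination e2 - hs⟩

/-- Leading terms of level `π` elements of the group. -/
def LT (H : RH F.z) (Γ : Subgroup (WG F)) : Submodule O (Matrix ι ι O) where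
  carrier := {X | ∃ g ∈ Γ, ∃ Y, g.W = (1 - F.z) • X + (1 - F.z) ^ 2 • Y}
  add_mem' := by
    rintro X X' ⟨g, hg, Y, hY⟩ ⟨g', hg', Y', hY'⟩
    refine ⟨g * g', mul_mem hg hg',
      Y + Y' - (X + (1 - F.z) • Y) * F.A * (X' + (1 - F.z) • Y'), ?_⟩
    rw [mul_W, Form.op, hY, hY']
    simp only [Matrix.add_mul, Matrix.mul_add, Matrix.smul_mul, Matrix.mul_smul]
    module
  zero_mem' := ⟨1, one_mem _, 0, by simp⟩
  smul_mem' := by
    rintro c X ⟨g, hg, Y, hY⟩
    obtain ⟨n, t, ht⟩ := H.int_mod c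
    have key : ∀ k : ℕ, ∃ Z, (g ^ k).W = (1 - F.z) • ((k : O) • X) + (1 - F.z) ^ 2 • Z := by
      intro k
      induction k with
      | zero => exact ⟨0, by simp⟩
      | succ k ih =>
        obtain ⟨Z, hZ⟩ := ih
        refine ⟨Z + Y - ((k : O) • X + (1 - F.z) • Z) * F.A * (X + (1 - F.z) • Y), ?_⟩
        rw [pow_succ, mul_W, Form.op, hY, hZ]
        simp only [Matrix.add_mul, Matrix.mul_add, Matrix.smul_mul, Matrix.mul_smul]
        push_cast
        module
    obtain ⟨k, rfl | rfl⟩ := n.eq_nat_or_neg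
    · obtain ⟨Z, hZ⟩ := key k
      refine ⟨g ^ k, pow_mem hg k, Z - t • X, ?_⟩
      rw [hZ, show c = k + (1 - F.z) * t by push_cast at ht; linear_combination ht]
      module
    · obtain ⟨Z, hZ⟩ := key k
      have hl : (g ^ k)⁻¹ ∈ lev F (1 - F.z) := inv_mem (fun i j => by
        rw [hZ, sq, mul_smul, ← smul_add]; exact dvd_smul_mat dvd_rfl _ _ _)
      obtain ⟨V, hV⟩ := exists_smul_mat hl
      refine ⟨(g ^ k)⁻¹, inv_mem (pow_mem hg k),
        ((k : O) • X + (1 - F.z) • Z) * (F.A * V) - Z - t • X, ?_⟩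
      rw [inv_W_eq, hV, hZ, show c = -k + (1 - F.z) * t by push_cast at ht; linear_combination ht]
      simp only [Matrix.add_mul, Matrix.mul_add, Matrix.smul_mul, Matrix.mul_smul]
      module

lemma LT_of_dvd (H : RH F.z) {c : O} (hc : (1 - F.z) ∣ c) (X : Matrix ι ι O) : c • X ∈ LT H Γ := by
  obtain ⟨t, rfl⟩ := hc
  exact ⟨1, one_mem _, -t • X, by rw [one_W]; module⟩

lemma HR.LT (H : RH F.z) {r : ι → O} (h : HR Γ r) : ou r r ∈ LT H Γ := by
  obtain ⟨e, he⟩ := h
  refine ⟨_, mul_mem he he, 0, ?_⟩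
  rw [mul_W, Form.op, rt_W, ou_A_ou, e]; module

lemma rt_pow {r : ι → O} (h : F.B r r = 1 + F.z) (k : ℕ) :
    ∃ c, (rt h ^ k).W = c • ou r r ∧ c * (1 + F.z) = 1 - (-F.z) ^ k := by
  induction k with
  | zero => exact ⟨0, by simp, by simp⟩
  | succ k ih =>
    obtain ⟨c, h1, h2⟩ := ih
    refine ⟨1 - F.z * c, ?_, by rw [pow_succ]; linear_combination (-F.z) * h2⟩
    rw [pow_succ, mul_W, Form.op, h1, rt_W, Matrix.smul_mul, Matrix.smul_mul, ou_A_ou, h]
    module

lemma det_inv_mul {h g : WG F} (e : (act g).det = (act h).det) : h⁻¹ * g ∈ detK F := by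
  change (act (h⁻¹ * g)).det = 1
  rw [map_mul, det_mul, e, ← det_mul, ← map_mul, inv_mul_cancel, map_one, det_one]

end

variable {O : Type} [CommRing O] [StarRing O] [IsDomain O] {m : ℕ} {z : O} {hz : z * star z = 1}
  {d : ℕ} (H : RH z) (hd : 3 ≤ d) (hg : geom z d = 0)
include H

lemma sym_mem_LT {X : Matrix (Fin m) (Fin m) O} (hX : ∀ i j, (1 - z) ∣ X j i - X i j) :
    X ∈ LT (F := BF m z hz) H (Gam m z hz) := by
  set T := LT (F := BF m z hz) H (Gam m z hz)
  have hI : ∀ a b, 1 ≤ a → b ≤ m → ou (vec m (iv O a b)) (vec m (iv O a b)) ∈ T := by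
    intro a b ha hb
    by_cases hab : a ≤ b
    · exact (HR_iv ha hab hb).LT (F := BF m z hz) H
    · have : vec m (iv O a b) = 0 := funext fun i => if_neg (by omega)
      rw [this, ou_zero_left]; exact zero_mem _
  have hD : ∀ a : Fin m, ou (ev O m (a.val + 1)) (ev O m (a.val + 1)) ∈ T := fun a =>
    (HR_ev ⟨by omega, a.2⟩).LT (F := BF m z hz) H
  have hS : ∀ a b : ℕ, 1 ≤ a → a < b → b ≤ m →
      ou (ev O m a) (ev O m b) + ou (ev O m b) (ev O m a) ∈ T := by
    intro a b ha hab hb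
    have := add_mem (sub_mem (sub_mem (hI a b ha hb) (hI (a + 1) b (by omega) hb))
      (hI a (b - 1) ha (by omega))) (hI (a + 1) (b - 1) (by omega) (by omega))
    have e1 : vec m (iv O a b) = ev O m a + vec m (iv O (a + 1) (b - 1)) + ev O m b := by
      ext i; simp only [vec, iv, ev, Pi.add_apply]; split_ifs <;> first | omega | simp
    have e2 : vec m (iv O (a + 1) b) = vec m (iv O (a + 1) (b - 1)) + ev O m b := by
      ext i; simp only [vec, iv, ev, Pi.add_apply]; split_ifs <;> first | omega | simp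
    have e3 : vec m (iv O a (b - 1)) = ev O m a + vec m (iv O (a + 1) (b - 1)) := by
      ext i; simp only [vec, iv, ev, Pi.add_apply]; split_ifs <;> first | omega | simp
    rw [e1, e2, e3] at this
    convert this using 1
    simp only [ou_add_left, ou_add_right]; abel
  have hS' : ∀ a b : Fin m, ou (ev O m (a.val + 1)) (ev O m (b.val + 1)) +
      ou (ev O m (b.val + 1)) (ev O m (a.val + 1)) ∈ T := by
    intro a b
    rcases lt_trichotomy a.val b.val with h | h | h
    · exact hS _ _ (by omega) (by omega) b.2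
    · rw [h]; exact add_mem (hD b) (hD b)
    · rw [add_comm]; exact hS _ _ (by omega) (by omega) a.2
  have e : X = ∑ p : Fin m × Fin m,
      X p.1 p.2 • ou (ev O m (p.1.val + 1)) (ev O m (p.2.val + 1)) := by
    ext i j
    simp [ev_eq_single, ou, Matrix.sum_apply, vecMulVec_apply, Pi.single_apply,
      Fintype.sum_prod_type, apply_ite star]
  rw [e, ← Submodule.Quotient.mk_eq_zero, ← Submodule.mkQ_apply, map_sum]
  refine Finset.sum_involution (fun p _ => p.swap) (fun p _ => ?_) (fun p _ h e => h ?_)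
    (fun _ _ => Finset.mem_univ _) (fun _ _ => rfl)
  · rw [← map_add, Submodule.mkQ_apply, Submodule.Quotient.mk_eq_zero]
    convert add_mem (T.smul_mem (X p.1 p.2) (hS' p.1 p.2))
      (LT_of_dvd (F := BF m z hz) H (hX p.1 p.2) (ou (ev O m (p.2.val + 1)) (ev O m (p.1.val + 1))))
      using 1
    simp only [Prod.fst_swap, Prod.snd_swap]; module
  · have : p.2 = p.1 := congrArg Prod.fst e
    rw [Submodule.mkQ_apply, Submodule.Quotient.mk_eq_zero, this]
    exact T.smul_mem _ (hD _)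

include hd hg

/-- Powers of `-z`. -/
lemma det_mem_of_Gam {g : WG (BF m z hz)} (h : g ∈ Gam m z hz) : ∃ k : ℕ, (act g).det = (-z) ^ k := by
  induction h using Subgroup.closure_induction with
  | mem g hg => obtain ⟨j, hj, rfl⟩ := hg; exact ⟨1, by rw [det_rt, pow_one, BF_z]⟩
  | one => exact ⟨0, by simp⟩
  | mul a b _ _ ha hb =>
    obtain ⟨k, hk⟩ := ha
    obtain ⟨l, hl⟩ := hb
    exact ⟨k + l, by rw [map_mul, det_mul, hk, hl, pow_add]⟩
  | inv a _ ha =>
    obtain ⟨k, hk⟩ := ha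
    have h1 : (act a⁻¹).det * (-z) ^ k = 1 := by
      rw [← hk, ← det_mul, ← map_mul, inv_mul_cancel, map_one, det_one]
    have h2 : (-z) ^ k * (-z) ^ (k * (2 * d - 1)) = 1 := by
      rw [← pow_add, show k + k * (2 * d - 1) = 2 * (d * k) by
        obtain ⟨e, rfl⟩ : ∃ e, d = e + 1 := ⟨d - 1, by omega⟩
        rw [show 2 * (e + 1) - 1 = 2 * e + 1 by omega]; ring,
        pow_mul, neg_sq, ← pow_mul, mul_comm 2, mul_assoc, pow_mul, z_pow hd hg, one_pow]
    exact ⟨k * (2 * d - 1), by linear_combination (-z) ^ (k * (2 * d - 1)) * h1 -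
      (act a⁻¹).det * h2⟩

theorem lev_mem (hM : MenOK z) (hm : 2 * d ≤ m) {g : WG (BF m z hz)}
    (hl : g ∈ lev _ (1 - z)) (hdet : ∃ k : ℕ, (act g).det = (-z) ^ k) : g ∈ Gam m z hz := by
  obtain ⟨X, hX⟩ := exists_smul_mat hl
  obtain ⟨h, hh, Y, hY⟩ := sym_mem_LT (hz := hz) H (symm_lev (F := BF m z hz) H hX)
  have l2 : h⁻¹ * g ∈ lev _ ((1 - z) ^ 2) := by
    intro i j
    rw [inv_mul_W, hX, hY]
    refine dvd_mat_mul (fun i j => ?_) _ i j
    rw [BF_z, sub_add_cancel_left]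
    exact (dvd_smul_mat dvd_rfl _ _ _).neg_right
  obtain ⟨k, hk⟩ := hdet
  obtain ⟨l, hl⟩ := det_mem_of_Gam H hd hg (inv_mem hh)
  have hj : 1 ≤ 1 ∧ 1 ≤ m := by omega
  obtain ⟨c, c1, c2⟩ := rt_pow (root_ev (z := z) (hz := hz) hj) (l + k)
  have d1 : (act (h⁻¹ * g)).det = (-z) ^ (l + k) := by rw [map_mul, det_mul, hk, hl, pow_add]
  have d2 := det_lev_sq (F := BF m z hz) H l2
  rw [d1] at d2
  have l3 : rt (root_ev (z := z) (hz := hz) hj) ^ (l + k) ∈ lev _ ((1 - z) ^ 2) := by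
    intro i j
    rw [c1]
    exact dvd_smul_mat (H.sq_dvd_of_cube (by rw [BF_z] at c2 d2; rwa [c2])) _ _ _
  have := lev_sq_mem H hd hg hM hm (mul_mem (inv_mem l3) l2)
    (det_inv_mul (by rw [d1, map_pow, det_pow, det_rt, BF_z]))
  simpa using mul_mem hh (mul_mem (pow_mem (sg_mem hj) (l + k)) this)

end Pool.Agent.Lib.MP_61a4e3_al
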