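import Pool.Agent.Lib.MP_61a4e3_al.Level

/-! The abstract description of the image. -/

set_option linter.unusedSectionVars false
set_option linter.unusedSimpArgs false
set_option linter.unusedVariables false

namespace Pool.Agent.Lib.MP_61a4e3_al

open Matrix WG Form Equiv

variable {O : Type} [CommRing O] [StarRing O] [IsDomain O] {m : ℕ} {z : O} {hz : z * star z = 1}
  {d : ℕ} (H : RH z) (hd : 3 ≤ d) (hg : geom z d = 0)

include H

omit H in
lemma exists_lift {q : O} (hq : q ∣ star q) {W : Matrix (Fin m) (Fin m) O} (hW : ∀ i j, q ∣ W i j)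
    (hu : (1 - W * (BF m z hz).A)ᴴ * (BF m z hz).A * (1 - W * (BF m z hz).A) = (BF m z hz).A)
    (hdet : (1 - W * (BF m z hz).A).det ≠ 0) :
    ∃ g ∈ lev (BF m z hz) q, act g = 1 - W * (BF m z hz).A := by
  set F := BF m z hz with hF
  set Y := F.op W (F.tau W) with hY
  have hz' := F.hz
  have c1 : (1 - W * F.A)ᴴ * F.A = F.A * (1 - F.tau W * F.A) := by
    simp only [Form.tau, conjTranspose_sub, conjTranspose_one, conjTranspose_mul, F.A_ct,
      Matrix.sub_mul, Matrix.mul_sub, Matrix.one_mul, Matrix.mul_one, Matrix.smul_mul,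
      Matrix.mul_smul, Matrix.mul_assoc]
  have c2 : F.A * Y * F.A = 0 := by
    have h1 : (F.A * Y * F.A) * (1 - W * F.A) = 0 := by
      have e : F.A * Y * F.A = F.A - F.A * ((1 - W * F.A) * (1 - F.tau W * F.A)) := by
        rw [← F.act_op, ← hY, Matrix.mul_sub, Matrix.mul_one, Matrix.mul_assoc]; abel
      have e2 : F.A * (1 - W * F.A) = (1 - F.A * W) * F.A := by
        simp [Matrix.mul_sub, Matrix.sub_mul, Matrix.mul_assoc]
      rw [e, Matrix.sub_mul, ← Matrix.mul_assoc, e2, Matrix.mul_assoc, Matrix.mul_assoc,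
        ← Matrix.mul_assoc F.A, ← c1, hu, sub_self]
    have := congrArg (· * (1 - W * F.A).adjugate) h1
    simp only [Matrix.mul_assoc, mul_adjugate, Matrix.zero_mul, Matrix.mul_smul,
      Matrix.mul_one] at this
    rw [Matrix.mul_assoc]
    exact mat_cancel hdet (by rw [smul_zero]; exact this)
  have tY : F.tau Y = Y := by rw [hY, F.tau_op, F.tau_tau]
  have ct : ∀ M : Matrix (Fin m) (Fin m) O, M * F.A = 0 → F.A * Mᴴ = 0 := by
    intro M hM
    have := congrArg (fun N => F.z • Nᴴ) hM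
    simpa [F.A_ct, smul_smul, hz'] using this
  have lv : ∀ i j, q ∣ Y i j := by
    intro i j
    rw [hY, F.op_eq]
    refine dvd_add (hW i j) (dvd_mat_mul (fun i j => ?_) _ i j)
    obtain ⟨t, ht⟩ := hW j i
    simp only [Form.tau, Matrix.smul_apply, conjTranspose_apply, smul_eq_mul, ht, star_mul]
    exact (hq.mul_left _).mul_left _
  by_cases hn : geom z (m + 1) = 0
  swap
  · have k0 : ∀ M : Matrix (Fin m) (Fin m) O, F.A * M = 0 → M = 0 := by
      intro M hM
      refine Matrix.ext_of_mulVec_single fun j => ?_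
      obtain ⟨a, ha, ha'⟩ := ker_A (z := z) (hz := hz) (x := M *ᵥ Pi.single j 1)
        (by rw [mulVec_mulVec, hM, zero_mulVec])
      rw [ha, (mul_eq_zero.1 ha').resolve_left hn, zero_smul, zero_mulVec]
    have h1 := k0 _ (ct _ (k0 _ (by rw [← Matrix.mul_assoc, c2])))
    refine ⟨⟨W, ?_⟩, hW, rfl⟩
    rw [← hY, ← conjTranspose_conjTranspose Y, h1, conjTranspose_zero]
  rcases Nat.eq_zero_or_pos m with rfl | hm
  · exact ⟨1, one_mem _, Subsingleton.elim _ _⟩
  set f := vec m (geom z) with hf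
  set e := ev O m 1 with he
  have Af : F.A *ᵥ f = 0 := by rw [hf, A_geom, hn, zero_smul]
  have ef : star e ⬝ᵥ f = 1 := by rw [he, star_ev, hf, ev_dot _ _ (Or.inl ⟨le_rfl, hm⟩), geom_one]
  have Aou : ∀ x, F.A * ou f x = 0 := by
    intro x; rw [ou, mul_vecMulVec, Af, zero_vecMulVec]
  have ouA : ∀ x, ou x f * F.A = 0 := by
    intro x
    have := congrArg conjTranspose (Aou x)
    rw [conjTranspose_mul, ou_ct, F.A_ct, Matrix.mul_smul, conjTranspose_zero] at this
    have := congrArg (fun N => F.z • N) this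
    simpa [smul_smul, hz'] using this
  have k1 : ∀ M : Matrix (Fin m) (Fin m) O, F.A * M = 0 → (1 - ou f e) * M = 0 := by
    intro M hM
    refine Matrix.ext_of_mulVec_single fun j => ?_
    obtain ⟨a, ha, ha'⟩ := ker_A (z := z) (hz := hz) (x := M *ᵥ Pi.single j 1)
      (by rw [mulVec_mulVec, hM, zero_mulVec])
    rw [← mulVec_mulVec, ha, ← hf, zero_mulVec, mulVec_smul, sub_mulVec, ou_mulVec, ef]; simp
  have h1 : (1 - ou f e) * Y * F.A = 0 := by
    rw [Matrix.mul_assoc]; exact k1 _ (by rw [← Matrix.mul_assoc, c2])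
  have h2 := congrArg conjTranspose (k1 _ (ct _ h1))
  rw [conjTranspose_mul, conjTranspose_conjTranspose, conjTranspose_sub, conjTranspose_one, ou_ct,
    conjTranspose_zero] at h2
  set y := Y *ᵥ e with hy
  have r1 : Y * ou e f = ou y f := by rw [ou, mul_vecMulVec, ou]
  have r2 : ou f e * Y = star z • ou f y := by
    have := congrArg conjTranspose (show Y * ou e f = ou y f from r1)
    rw [conjTranspose_mul, ou_ct, ou_ct] at this
    rw [← tY, Form.tau, Matrix.mul_smul, this]; rfl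
  have r3 : ou f e * Y * ou e f = (star e ⬝ᵥ y) • ou f f := by
    rw [Matrix.mul_assoc, r1, ou, ou, vecMulVec_mul_vecMulVec, vecMulVec_smul, ou]
  set μ := star e ⬝ᵥ (W *ᵥ e) - F.qf (Wᴴ *ᵥ e) with hμ
  have r4 : star e ⬝ᵥ y = μ + star z * star μ := by
    have b := F.B_self (Wᴴ *ᵥ e)
    rw [Form.B, star_mulVec, conjTranspose_conjTranspose, ← dotProduct_mulVec] at b
    rw [hμ, star_sub, star_dot_mulVec, hy, hY, Form.op, Form.tau, sub_mulVec, add_mulVec,
      Matrix.mul_smul, smul_mulVec, smul_mulVec, dotProduct_sub, dotProduct_add, dotProduct_smul,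
      dotProduct_smul, ← mulVec_mulVec, ← mulVec_mulVec, b]
    simp only [smul_eq_mul]
    change _ + star z * _ - star z * (z * _ + _) = _
    linear_combination (-F.qf (Wᴴ *ᵥ e)) * hz
  have hZ : ∀ i, q ∣ (μ • f - y) i := by
    refine Dv.sub (Dv.smul_of_dvd (dvd_sub ((dv_mulVec_of_mat hW _).dot _) ?_) _)
      (dv_mulVec_of_mat lv _)
    refine (Dv.mulVec (dv_mulVec_of_mat (fun i j => ?_) _) _).dot _
    obtain ⟨t, ht⟩ := hW j i
    rw [conjTranspose_apply, ht, star_mul]
    exact hq.mul_left _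
  refine ⟨⟨W + ou (μ • f - y) f, ?_⟩, fun i j => dvd_add (hW i j) ((hZ i).mul_right _), ?_⟩
  · have e1 : F.op (W + ou (μ • f - y) f) (F.tau (W + ou (μ • f - y) f)) =
        Y + ou (μ • f - y) f + star z • ou f (μ • f - y) := by
      rw [hY]
      simp only [Form.op, Form.tau, conjTranspose_add, ou_ct, smul_add, Matrix.add_mul,
        Matrix.mul_add, ouA, Matrix.mul_smul, Matrix.mul_assoc W, Aou, Matrix.zero_mul,
        Matrix.mul_zero, smul_zero, add_zero]
      change _ + _ + (star z • _ + star z • _) - star z • _ = _ + star z • _ - star z • _ + _ + _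
      abel
    rw [Matrix.sub_mul, Matrix.one_mul, Matrix.mul_sub, Matrix.mul_one, Matrix.sub_mul, r1, r3, r2,
      r4] at h2
    rw [e1, ← h2, sub_eq_add_neg (μ • f), ou_add_left, ou_add_right, ou_neg_left, ou_neg_right,
      ou_smul_left, ou_smul_right]
    module
  · rw [act_apply, Matrix.add_mul, ouA, add_zero]

include hd hg

theorem abstract_main (hM : MenOK z) (hm : 2 * d ≤ m) (g : Matrix (Fin m) (Fin m) O) :
    (∃ γ ∈ Gam m z hz, act γ = g) ↔ gᴴ * (BF m z hz).A * g = (BF m z hz).A ∧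
      (∃ W s, g = 1 - W * (BF m z hz).A ∧ ∀ i j, (1 - z) ∣ W i j - WP O s i j) ∧
      ∃ k : ℕ, g.det = (-z) ^ k := by
  constructor
  · rintro ⟨γ, hγ, rfl⟩
    obtain ⟨s, hs⟩ := Gam_le_PL H hγ
    exact ⟨WG.unitary γ, ⟨γ.W, s, rfl, map_rd_iff.1 hs⟩, det_mem_of_Gam H hd hg hγ⟩
  · rintro ⟨hu, ⟨W, s, hW, hs⟩, k, hk⟩
    obtain ⟨h, hh, hs'⟩ := exists_perm (hz := hz) H s
    obtain ⟨l, hl⟩ := det_mem_of_Gam H hd hg (inv_mem hh)
    have e : act h⁻¹ * g = 1 - act h⁻¹ * (W - h.W) * (BF m z hz).A := by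
      have h0 : act h⁻¹ * act h = 1 := by rw [← map_mul, inv_mul_cancel, map_one]
      rw [← h0, act_apply h, hW]
      simp only [Matrix.mul_sub, Matrix.sub_mul, Matrix.mul_assoc, Matrix.mul_one]
      abel
    have hdet : (act h⁻¹ * g).det = (-z) ^ (l + k) := by rw [det_mul, hk, hl, pow_add]
    obtain ⟨γ, hγ, hact⟩ := exists_lift (hz := hz) H.pi_dvd_star (W := act h⁻¹ * (W - h.W))
      (dvd_mat_mul (fun i j => by
        have := dvd_sub (hs i j) (map_rd_iff.1 hs' i j)
        rwa [sub_sub_sub_cancel_right] at this) _)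
      (by
        rw [← e, conjTranspose_mul, Matrix.mul_assoc, Matrix.mul_assoc, ← Matrix.mul_assoc _ _ g,
          ← Matrix.mul_assoc _ _ g, ← Matrix.mul_assoc _ _ (act h⁻¹), WG.unitary, ← Matrix.mul_assoc,
          hu])
      (by rw [← e, hdet]; exact pow_ne_zero _ (neg_ne_zero.2 H.unit_z.ne_zero))
    rw [← e] at hact
    refine ⟨h * γ, mul_mem hh (lev_mem H hd hg hM hm hγ ⟨l + k, by rw [hact, hdet]⟩), ?_⟩
    rw [map_mul, hact, ← Matrix.mul_assoc, ← map_mul, mul_inv_cancel, map_one, Matrix.one_mul]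

end Pool.Agent.Lib.MP_61a4e3_al
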