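import Pool.Agent.Lib.MP_61a4e3_al.Orth
import Pool.Agent.Lib.MP_61a4e3_al.Perm

/-! Reduction of the variation group modulo `1 - z`. -/

set_option linter.unusedSectionVars false
set_option linter.unusedSimpArgs false
set_option linter.unusedVariables false
set_option maxHeartbeats 800000

namespace Pool.Agent.Lib.MP_61a4e3_al

open Matrix WG Form Equiv

section
variable {O : Type} [CommRing O] [StarRing O] {ι : Type} [Fintype ι] [DecidableEq ι]
  {F : Form O ι}

/-- A general reflection. -/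
def rf {r : ι → O} {c : O} (h : F.z * c + star c = c * star c * F.B r r) : WG F :=
  ⟨c • ou r r, by
    have hz := F.hz
    simp only [Form.op, Form.tau, conjTranspose_smul, ou_ct, Matrix.mul_smul, Matrix.smul_mul,
      ou_A_ou, smul_smul]
    match_scalars
    linear_combination star F.z * h - c * hz⟩

lemma det_rf {r : ι → O} {c : O} (h : F.z * c + star c = c * star c * F.B r r) :
    (act (rf h)).det = 1 - c * F.B r r := by
  rw [act_apply]
  change (1 - (c • ou r r) * F.A).det = _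
  rw [← ou_smul_left, sub_eq_add_neg, ← Matrix.neg_mul, ← ou_neg_left, ou, vecMulVec_mul,
    vecMulVec_eq Unit, det_one_add_replicateCol_mul_replicateRow, ← dotProduct_mulVec,
    mulVec_neg, dotProduct_neg, mulVec_smul, dotProduct_smul, ← sub_eq_add_neg]
  rfl

variable {k : Type} [CommRing k] [StarRing k] {F' : Form k ι} {ψ : O →+* k}

/-- Compatibility of a ring map with two forms. -/
structure Cp (ψ : O →+* k) (F : Form O ι) (F' : Form k ι) : Prop where
  st : ∀ x, ψ (star x) = star (ψ x)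
  z : ψ F.z = F'.z
  C : F.C.map ψ = F'.C

namespace Cp
variable (T : Cp ψ F F')
include T

lemma ct (M : Matrix ι ι O) : Mᴴ.map ψ = (M.map ψ)ᴴ := by ext i j; simp [T.st]

lemma A : F.A.map ψ = F'.A := by
  rw [Form.A, Form.A, ← T.C, ← T.z, ← T.ct]; ext i j; simp

lemma op (W V : Matrix ι ι O) : (F.op W V).map ψ = F'.op (W.map ψ) (V.map ψ) := by
  rw [Form.op, Form.op, Matrix.map_sub _ (map_sub _), Matrix.map_add _ (map_add _), Matrix.map_mul,
    Matrix.map_mul, T.A]

lemma tau (W : Matrix ι ι O) : (F.tau W).map ψ = F'.tau (W.map ψ) := by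
  rw [Form.tau, Form.tau, ← T.ct, ← T.z]; ext i j; simp [T.st]

/-- The induced map of variation groups. -/
def red : WG F →* WG F' where
  toFun g := ⟨g.W.map ψ, by rw [← T.tau, ← T.op, g.prop]; simp⟩
  map_one' := by ext1; simp
  map_mul' g h := WG.ext (T.op _ _)

lemma red_W (g : WG F) : (T.red g).W = g.W.map ψ := rfl

lemma dot (M : Matrix ι ι O) (x y : ι → O) :
    ψ (star x ⬝ᵥ M *ᵥ y) = star (ψ ∘ x) ⬝ᵥ (M.map ψ) *ᵥ (ψ ∘ y) := by
  simp [dotProduct, mulVec, T.st]

lemma B (x y : ι → O) : ψ (F.B x y) = F'.B (ψ ∘ x) (ψ ∘ y) := by rw [Form.B, T.dot, T.A, Form.B]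

lemma qf (x : ι → O) : ψ (F.qf x) = F'.qf (ψ ∘ x) := by rw [Form.qf, T.dot, T.C, Form.qf]

lemma det (g : WG F) : ψ (act g).det = (act (T.red g)).det := by
  rw [RingHom.map_det, act_apply, act_apply, map_sub, map_one, map_mul, T.red_W, ← T.A]; rfl

lemma HE {f x : ι → O} {c : O} (e : F.IsE f x c) : HE T.red.range (ψ ∘ f) (ψ ∘ x) (ψ c) := by
  refine ⟨⟨by rw [← T.B, e.kk, map_zero], by rw [← T.B, e.kx, map_zero], by
    rw [← T.B, ← e.hc, map_add, map_mul, T.st, T.z]⟩, mkE e, ?_⟩
  ext i j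
  simp [red_W, eW, ou, vecMulVec_apply, T.st, T.z]

end Cp
end

section
variable {k : Type} [Field k] [StarRing k] [TrivialStar k] {ι : Type} [Fintype ι] [DecidableEq ι]
  {F : Form k ι} (h1 : F.z = 1)
include h1

lemma card_GQ : Nat.card (GQ h1) =
    Nat.card {W : Matrix ι ι k // ∀ x, x ⬝ᵥ W *ᵥ x = F.qf (W *ᵥ x)} := by
  refine Nat.card_congr ⟨fun g => ⟨g.1.W, g.2⟩, fun W => ⟨⟨W.1, ?_⟩, W.2⟩, fun _ => rfl,
    fun _ => rfl⟩
  obtain ⟨W, hW⟩ := W
  have := F.op_tau_comm (W := F.tau W) (by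
    rw [F.tau_tau, tau_eq h1, Form.op]
    ext i j
    have e := hW (Pi.single i 1 + Pi.single j 1)
    rw [mulVec_add, qf_add h1, ← hW, ← hW, Form.B, star_vec, dotProduct_comm (W *ᵥ _) (F.A *ᵥ _),
      dotProduct_mulVec (F.A *ᵥ _), ← mulVec_transpose, dotProduct_comm (Wᵀ *ᵥ _), mulVec_mulVec, mulVec_mulVec] at e
    simp only [add_dotProduct, dotProduct_add, single_one_dotProduct, mulVec_single_one,
      col_apply] at e
    simp only [Matrix.sub_apply, Matrix.add_apply, transpose_apply, Matrix.zero_apply]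
    linear_combination e)
  rwa [F.tau_tau] at this

end

lemma WP_inj {S : Type} [CommRing S] [Nontrivial S] {m : ℕ} :
    Function.Injective (WP S : Perm (Fin (m + 1)) → _) := by
  intro s t h
  have e := DM_WP (S := S) s
  rw [h, DM_WP, sub_right_inj] at e
  ext a
  have := congrFun (congrFun e a) (s a)
  rw [pm_apply, pm_apply, if_pos rfl] at this
  by_contra hne
  rw [if_neg fun e => hne (congrArg Fin.val e.symm)] at this
  exact zero_ne_one this

variable {O : Type} [CommRing O] [StarRing O] [IsDomain O] {m : ℕ} {z : O} {hz : z * star z = 1}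
  {d : ℕ} (H : RH z) (hd : 3 ≤ d) (hg : geom z d = 0)
  {k : Type} [Field k] [StarRing k] [TrivialStar k] {ψ : O →+* k}
  (ker : ∀ x, ψ x = 0 ↔ (1 - z) ∣ x) (hu : ∀ t : k, t ≠ 0 → ∃ u, IsUnit u ∧ ψ u = t)

lemma hone : (1 : k) * star 1 = 1 := by simp

include H ker in
lemma cp_BF : Cp ψ (BF m z hz) (BF m 1 hone) := by
  refine ⟨fun x => ?_, ?_, ?_⟩
  · rw [star_trivial (ψ x), ← sub_eq_zero, ← map_sub, ker]; exact H.pi_dvd_star_sub x
  · rw [BF_z, BF_z, eq_comm, ← sub_eq_zero, ← map_one ψ, ← map_sub, ker]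
  · ext i j; simp only [BF, map_apply, of_apply]; split_ifs <;> simp

include H hd hg ker hu in
theorem range_red (hm : d + 1 ≤ m) :
    (cp_BF (m := m) (hz := hz) H ker).red.range = GQ (F := BF m 1 hone) rfl := by
  have T := cp_BF (m := m) (hz := hz) H ker
  have surj : ∀ x : Fin m → k, ∃ y : Fin m → O, ψ ∘ y = x := by
    have : ∀ t : k, ∃ u, ψ u = t := fun t => by
      by_cases h : t = 0
      · exact ⟨0, by simp [h]⟩
      · exact (hu t h).imp fun _ h => h.2
    choose s hs using this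
    exact fun x => ⟨s ∘ x, funext fun i => hs _⟩
  have lam : ∀ c : O, z * c + star c = 0 → ψ c = 0 := by
    intro c hc
    obtain ⟨r, -, rfl⟩ := H.lam_eq hc
    exact (ker _).2 (H.pi_dvd_star.mul_right _)
  refine le_antisymm ?_ ?_
  · rintro _ ⟨g, rfl⟩ x
    obtain ⟨x, rfl⟩ := surj x
    have e : (T.red g).W *ᵥ (ψ ∘ x) = ψ ∘ (g.W *ᵥ x) := by
      ext i; simp [T.red_W, mulVec, dotProduct]
    rw [e, ← T.qf, ← e, ← star_vec (ψ ∘ x), T.red_W, star_vec, ← star_vec (ψ ∘ x)]
    conv_lhs => enter [2]; rw [star_vec]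
    rw [← T.dot, ← sub_eq_zero, ← map_sub]
    refine lam _ ?_
    have h2 := congrArg (fun M => star x ⬝ᵥ M *ᵥ x) (op_tau' g)
    have h3 := (BF m z hz).B_self (g.W *ᵥ x)
    rw [Form.B, star_mulVec, ← dotProduct_mulVec] at h3
    simp only [Form.tau, sub_mulVec, add_mulVec, Matrix.smul_mul, smul_mulVec, dotProduct_sub,
      dotProduct_add, dotProduct_smul, zero_mulVec, dotProduct_zero, ← mulVec_mulVec, h3,
      ← star_dot_mulVec, BF_z, smul_eq_mul] at h2
    rw [star_sub]
    linear_combination z * h2 - (star (star x ⬝ᵥ g.W *ᵥ x) - z * (BF m z hz).qf (g.W *ᵥ x) -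
      star ((BF m z hz).qf (g.W *ᵥ x))) * hz
  · have Phh' := plane_fv (hz := hz) (m := m) H hd hg (j := 0) (by omega)
    have Ph'h' := fv_iso (hz := hz) (m := m) H hd hg (j := 0) (by omega)
    have Phh : (BF m z hz).B (-z • vec m (fv z d (0 + 1))) (-z • vec m (fv z d (0 + 1))) = 0 := by
      simp [fv_iso (hz := hz) H hd hg (show 1 + d ≤ m + 1 by omega)]
    have Ph'h := (BF m z hz).B_eq_one_swap Phh'
    set f := -z • vec m (fv z d (0 + 1)) with hf
    set f' := vec m (fv z d 0) with hf'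
    have z1 : ψ z = 1 := T.z
    refine HP.gen (f := ψ ∘ f) (f' := ψ ∘ f') (p := ⟨d - 1, by omega⟩) (p' := ⟨0, by omega⟩) rfl
      ⟨?_, ?_, ?_, fun u h => ?_, fun u h => ?_⟩ (fun t ht => ?_) ?_ ?_ ?_ ?_
    · rw [← T.qf]; exact lam _ (by rw [← Phh, B_self]; rfl)
    · rw [← T.qf]; exact lam _ (by rw [← Ph'h', B_self]; rfl)
    · rw [← T.B, Phh', map_one]
    · obtain ⟨u, rfl⟩ := surj u
      rw [← T.B] at h
      have := T.HE (isE_qf (y := u - (BF m z hz).B f u • f') Phh (by simp [Phh']) (c := 0)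
        (by simp))
      rwa [add_zero, T.qf, show ψ ∘ (u - (BF m z hz).B f u • f') = ψ ∘ u by
        ext i; simp [h]] at this
    · obtain ⟨u, rfl⟩ := surj u
      rw [← T.B] at h
      have := T.HE (isE_qf (y := u - (star z * (BF m z hz).B f' u) • f) Ph'h' (by
        simp only [B_sub_right, B_smul_right, Ph'h, BF_z]
        linear_combination (-(BF m z hz).B f' u) * hz) (c := 0) (by simp))
      rwa [add_zero, T.qf, show ψ ∘ (u - (star z * (BF m z hz).B f' u) • f) = ψ ∘ u by
        ext i; simp [h]] at this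
    · obtain ⟨u, hu', rfl⟩ := hu t ht
      obtain ⟨c, hc⟩ := hu'.exists_left_inv
      have hc' : star c * star u = 1 := by rw [← star_mul, mul_comm, hc, star_one]
      refine ⟨_, ⟨rf (r := f + u • f') (c := c) ?_, rfl⟩, ?_⟩
      · simp only [B_add_left, B_add_right, B_smul_left, B_smul_right, Phh, Ph'h', Phh', Ph'h,
          BF_z]
        linear_combination (-star c) * hc - z * c * hc'
      · have : ψ c = (ψ u)⁻¹ := eq_inv_of_mul_eq_one_left (by rw [← map_mul, hc, map_one])
        ext i j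
        simp [T.red_W, rf, ou, vecMulVec_apply, T.st, this]
    · simp only [hf, Function.comp, vec, Pi.smul_apply, smul_eq_mul]
      rw [fv_in hd hg (by omega), show d - 1 + 1 - (0 + 1) = d - 1 by omega, neg_mul,
        geom_pred hd hg]; simp
    · simp only [hf, Function.comp, vec, Pi.smul_apply, smul_eq_mul]
      rw [fv_out hd hg (by omega)]; simp
    · simp only [hf', Function.comp, vec]
      rw [fv_out hd hg (by omega)]; simp
    · simp only [hf', Function.comp, vec]
      rw [fv_in hd hg (by omega)]; simp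

include H hd hg ker hu in
theorem index_PL (hm : d + 1 ≤ m) : (PL H m hz).index * (m + 1).factorial =
    Nat.card {W : Matrix (Fin m) (Fin m) k // ∀ x, x ⬝ᵥ W *ᵥ x = (BF m 1 hone).qf (W *ᵥ x)} := by
  have T := cp_BF (m := m) (hz := hz) H ker
  have iff : ∀ (W : Matrix (Fin m) (Fin m) O) s, W.map ψ = WP k s ↔ W.map (rd z) = WP _ s := by
    intro W s
    rw [map_rd_iff, ← WP_map ψ, ← Matrix.ext_iff]
    simp only [map_apply, ← ker, map_sub, sub_eq_zero]
  have e : ((PL H m hz).map T.red).comap T.red = PL H m hz := by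
    refine le_antisymm ?_ (Subgroup.le_comap_map _ _)
    rintro g ⟨h, ⟨s, hs⟩, e⟩
    exact ⟨s, (iff _ _).1 ((congrArg WG.W e).symm.trans ((iff _ _).2 hs))⟩
  have c : Nat.card ((PL H m hz).map T.red) = (m + 1).factorial := by
    choose h hh hs using exists_perm (hz := hz) (m := m) H
    rw [← Fintype.card_fin (m + 1), ← Fintype.card_perm, ← Nat.card_eq_fintype_card]
    refine (Nat.card_eq_of_bijective
      (fun s => ⟨T.red (h s), h s, Gam_le_PL H (hh s), rfl⟩) ⟨fun s t e => ?_, ?_⟩).symm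
    · have := congrArg (fun x => x.1.W) e
      simp only [T.red_W, (iff _ _).2 (hs _)] at this
      exact WP_inj this
    · rintro ⟨_, g, ⟨s, hs'⟩, rfl⟩
      exact ⟨s, Subtype.ext (WG.ext (((iff _ _).2 (hs s)).trans ((iff _ _).2 hs').symm))⟩
  rw [← e, Subgroup.index_comap, ← c, ← card_GQ rfl, ← range_red (hz := hz) H hd hg ker hu hm, mul_comm,
    ← Subgroup.card_mul_index (((PL H m hz).map T.red).subgroupOf T.red.range),
    Nat.card_congr (Subgroup.subgroupOfEquivOfLe (Subgroup.map_le_range _ _)).toEquiv]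
  rfl

include H in
lemma PL_top (h : IsUnit (1 - z)) : PL H m hz = ⊤ :=
  eq_top_iff.2 fun _ _ => ⟨1, map_rd_iff.2 fun _ _ => h.dvd⟩

end Pool.Agent.Lib.MP_61a4e3_al
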