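import Pool.Agent.Lib.MP_61a4e3_al.RingLem

/-! Relative symbols on a Dedekind domain and their extension to ideals. -/

set_option linter.unusedSectionVars false
set_option linter.unusedSimpArgs false
set_option linter.unusedVariables false
set_option maxHeartbeats 400000

namespace Pool.Agent.Lib.MP_61a4e3_al

open Ideal

variable {R : Type} [CommRing R]

lemma mem_l {I J : Ideal R} {x : R} (h : x ∈ I * J) : x ∈ I := (Ideal.mul_le_inf h).1

lemma mem_r {I J : Ideal R} {x : R} (h : x ∈ I * J) : x ∈ J := (Ideal.mul_le_inf h).2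

lemma crt {u v : R} (h : IsCoprime u v) (s t : R) : ∃ w, u ∣ w - s ∧ v ∣ w - t := by
  obtain ⟨a, b, hab⟩ := h
  exact ⟨s * (b * v) + t * (a * u), ⟨(t - s) * a, by linear_combination s * hab⟩,
    ⟨(s - t) * b, by linear_combination t * hab⟩⟩

lemma crt_ideal {I J : Ideal R} (h : IsCoprime I J) (s t : R) : ∃ w, w - s ∈ I ∧ w - t ∈ J := by
  obtain ⟨i, hi, j, hj, hij⟩ := isCoprime_iff_exists.1 h
  refine ⟨s * j + t * i, ?_, ?_⟩
  · convert I.mul_mem_left (t - s) hi using 1; linear_combination s * hij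
  · convert J.mul_mem_left (s - t) hj using 1; linear_combination t * hij

lemma cop_of_dvd_sub {a b b' : R} (h : IsCoprime a b) (h' : a ∣ b' - b) : IsCoprime a b' := by
  obtain ⟨c, hc⟩ := h'
  rw [show b' = b + a * c by linear_combination hc]
  exact h.add_mul_left_right c

lemma cop_of_dvd_sub_one {a b : R} (h : b ∣ a - 1) : IsCoprime a b :=
  (cop_of_dvd_sub isCoprime_one_right h).symm

lemma cop_ideal_of_sub {I : Ideal R} {y y' : R} (h : IsCoprime I (span {y})) (h' : y' - y ∈ I) :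
    IsCoprime I (span {y'}) := by
  obtain ⟨i, hi, j, hj, hij⟩ := isCoprime_iff_exists.1 h
  obtain ⟨c, rfl⟩ := mem_span_singleton'.1 hj
  exact isCoprime_iff_exists.2 ⟨i - c * (y' - y), I.sub_mem hi (I.mul_mem_left _ h'), c * y',
    mul_mem_left _ _ (mem_span_singleton_self _), by linear_combination hij⟩

lemma cop_ideal_one (I : Ideal R) : IsCoprime I (span {1}) := by
  rw [span_singleton_one, ← one_eq_top]; exact isCoprime_one_right

lemma cop_ideal_mul {I : Ideal R} {x y : R} :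
    IsCoprime I (span {x * y}) ↔ IsCoprime I (span {x}) ∧ IsCoprime I (span {y}) := by
  rw [← span_singleton_mul_span_singleton, IsCoprime.mul_right_iff]

lemma exists_pow_sub_one {m x : R} (hm : Finite (R ⧸ span {m})) (h : IsCoprime x m) :
    ∃ k, 0 < k ∧ m ∣ x ^ k - 1 := by
  obtain ⟨u, v, huv⟩ := h
  have hu : IsUnit (Ideal.Quotient.mk (span {m}) x) := by
    refine IsUnit.of_mul_eq_one (Ideal.Quotient.mk _ u) ?_
    rw [← map_mul, ← map_one (Ideal.Quotient.mk (span {m})), Ideal.Quotient.eq,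
      mem_span_singleton]
    exact ⟨-v, by linear_combination huv⟩
  obtain ⟨k, hk, e⟩ := isOfFinOrder_iff_pow_eq_one.1 (isOfFinOrder_of_finite hu.unit)
  refine ⟨k, hk, ?_⟩
  rw [← mem_span_singleton, ← Ideal.Quotient.eq, map_pow, map_one]
  simpa using congrArg Units.val e

/-- Axioms of a relative symbol. -/
structure MS (Q D : R) {C : Type} [CommGroup C] (M : R → R → C) : Prop where
  fin : ∀ m : R, m ≠ 0 → Finite (R ⧸ span {m})
  Q0 : Q ≠ 0
  D0 : D ≠ 0
  Du : ¬ IsUnit D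
  r1 : ∀ a b r, Q ∣ a - 1 → IsCoprime a b → M a (b + r * a) = M a b
  r2 : ∀ a b r, Q ∣ a - 1 → IsCoprime a b → M (a + r * Q * b) b = M a b
  r3 : ∀ b, M 1 b = 1
  r4 : ∀ a x y, Q ∣ a - 1 → IsCoprime a D → IsCoprime a x → IsCoprime a y →
    M a (x * y) = M a x * M a y

/-- Good first arguments. -/
def Gd (Q D a : R) : Prop := Q ∣ a - 1 ∧ IsCoprime a D

lemma Gd.mul {Q D a b : R} (ha : Gd Q D a) (hb : Gd Q D b) : Gd Q D (a * b) :=
  ⟨by convert dvd_add (ha.1.mul_right b) hb.1 using 1; ring, ha.2.mul_left hb.2⟩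

lemma Gd.of_dvd {Q D a : R} (h : Q * D ∣ a - 1) : Gd Q D a :=
  ⟨dvd_of_mul_right_dvd h, cop_of_dvd_sub_one (dvd_of_mul_left_dvd h)⟩

lemma Gd.cop {Q D a : R} (h : Gd Q D a) : IsCoprime a (Q * D) :=
  (cop_of_dvd_sub_one h.1).mul_right h.2

/-- Representation of an ideal pair by an element pair. -/
def Rep (Q D : R) (I : Ideal R) (y a y' : R) : Prop :=
  Gd Q D a ∧ ∃ J, span {a} = I * J ∧ IsCoprime I J ∧ y' - y ∈ I ∧ y' - 1 ∈ J

open Classical in
/-- The symbol of an ideal. -/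
noncomputable def chi (Q D : R) {C : Type} [CommGroup C] (M : R → R → C) (I : Ideal R) (y : R) :
    C := if h : ∃ p : R × R, Rep Q D I y p.1 p.2 then M h.choose.1 h.choose.2 else 1

lemma Rep.cop {Q D : R} {I : Ideal R} {y a y' : R} (h : Rep Q D I y a y')
    (hy : IsCoprime I (span {y})) : IsCoprime a y' := by
  obtain ⟨-, J, e, -, h1, h2⟩ := h
  rw [← isCoprime_span_singleton_iff, e]
  exact (cop_ideal_of_sub hy h1).mul_left (cop_ideal_of_sub (cop_ideal_one J) h2)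

lemma exists_cofactor [IsDedekindDomain R] {I : Ideal R} (hI : I ≠ ⊥) {f : R} (hf : f ≠ 0) :
    ∃ a J, span {a} = I * J ∧ IsCoprime J (span {f}) := by
  obtain ⟨a, ha⟩ := IsDedekindDomain.exists_sup_span_eq (I := I * span {f}) (J := I)
    (fun _ => mem_l) (mul_ne_zero hI (by simpa using hf))
  obtain ⟨J, hJ⟩ := dvd_iff_le.2 (show span {a} ≤ I from le_sup_right.trans ha.le)
  refine ⟨a, J, hJ, ?_⟩
  rw [hJ, ← Ideal.mul_sup] at ha
  rw [isCoprime_iff_sup_eq, sup_comm]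
  exact mul_left_cancel₀ hI (by rw [ha, mul_top])

namespace MS

variable {Q D : R} {C : Type} [CommGroup C] {M : R → R → C} (S : MS Q D M)
include S

lemma ne_zero {a : R} (h : Gd Q D a) : a ≠ 0 := by
  rintro rfl; exact S.Du (isCoprime_zero_left.1 h.2)

lemma cr {a b b' : R} (ha : Q ∣ a - 1) (h : IsCoprime a b) (h' : a ∣ b' - b) :
    M a b' = M a b := by
  obtain ⟨c, hc⟩ := h'
  rw [← S.r1 a b c ha h]; congr 1; linear_combination hc

lemma cl {a a' b : R} (ha : Q ∣ a - 1) (h : IsCoprime a b) (h' : Q * b ∣ a' - a) :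
    M a' b = M a b := by
  obtain ⟨c, hc⟩ := h'
  rw [← S.r2 a b c ha h]; congr 1; linear_combination hc

lemma one_of_dvd {a b : R} (h : Q * b ∣ a - 1) : M a b = 1 := by
  rw [S.cl (by simp) isCoprime_one_left h, S.r3]

lemma unit {a u : R} (ha : Q ∣ a - 1) (hu : IsUnit u) : M a u = 1 :=
  S.one_of_dvd (by rwa [hu.mul_right_dvd])

lemma right_one {a b : R} (ha : Q ∣ a - 1) (h : a ∣ b - 1) : M a b = 1 := by
  rw [S.cr ha isCoprime_one_right h, S.unit ha isUnit_one]

lemma at_Q {a : R} (ha : Gd Q D a) : M a Q = 1 := by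
  obtain ⟨s, hs⟩ := ha.1
  have c1 : IsCoprime a (-s) := cop_of_dvd_sub_one ⟨-Q, by linear_combination hs⟩
  have h1 := S.r4 a Q (-s) ha.1 ha.2 (cop_of_dvd_sub_one ha.1) c1
  rw [S.right_one ha.1 ⟨-1, by linear_combination hs⟩,
    S.one_of_dvd (b := -s) ⟨-1, by linear_combination hs⟩, mul_one] at h1
  exact h1.symm

lemma symm {a d : R} (ha : Gd Q D a) (hd : Gd Q D d) (h : IsCoprime a d) : M a d = M d a := by
  obtain ⟨k, hk⟩ : Q ∣ a - d := by simpa using dvd_sub ha.1 hd.1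
  have c1 : IsCoprime a (Q * -k) := cop_of_dvd_sub h ⟨-1, by linear_combination hk⟩
  have c2 : IsCoprime d (Q * k) := cop_of_dvd_sub h.symm ⟨-1, by linear_combination -hk⟩
  have c3 := c1.of_mul_right_right
  have c4 := c2.of_mul_right_right
  have e1 : M a (Q * -k) = M a d := S.cr ha.1 h ⟨-1, by linear_combination hk⟩
  have e2 : M d (Q * k) = M d a := S.cr hd.1 h.symm ⟨-1, by linear_combination -hk⟩
  have e3 : M a (-k) = M d (-k) := S.cl hd.1 c4.neg_right ⟨-1, by linear_combination hk⟩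
  have e4 := S.r4 d (-1) k hd.1 hd.2 isCoprime_one_right.neg_right c4
  rw [S.unit hd.1 isUnit_one.neg, one_mul, neg_one_mul] at e4
  rw [← e1, ← e2, S.r4 _ _ _ ha.1 ha.2 c1.of_mul_right_left c3,
    S.r4 _ _ _ hd.1 hd.2 c2.of_mul_right_left c4, S.at_Q ha, S.at_Q hd, e3, e4]

lemma mul_left {a a' b : R} (ha : Gd Q D a) (ha' : Gd Q D a') (h : IsCoprime a b)
    (h' : IsCoprime a' b) : M (a * a') b = M a b * M a' b := by
  obtain ⟨d, h1, h2⟩ := crt (ha.mul ha').cop b 1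
  have hd := Gd.of_dvd h2
  have c := cop_of_dvd_sub (h.mul_left h') h1
  rw [← S.cr (ha.mul ha').1 (h.mul_left h') h1, ← S.cr ha.1 h (dvd_of_mul_right_dvd h1),
    ← S.cr ha'.1 h' (dvd_of_mul_left_dvd h1), S.symm (ha.mul ha') hd c,
    S.symm ha hd c.of_mul_left_left, S.symm ha' hd c.of_mul_left_right,
    S.r4 _ _ _ hd.1 hd.2 c.of_mul_left_left.symm c.of_mul_left_right.symm]

variable [IsDedekindDomain R]

lemma exists_co {I : Ideal R} (hI : I ≠ ⊥) (hc : IsCoprime I (span {Q * D})) {f : R}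
    (hf : f ≠ 0) : ∃ a J, Gd Q D a ∧ span {a} = I * J ∧ IsCoprime J (span {f}) := by
  obtain ⟨a, J, h1, h2⟩ := exists_cofactor hI (mul_ne_zero hf (mul_ne_zero S.Q0 S.D0))
  obtain ⟨h3, h4⟩ := cop_ideal_mul.1 h2
  obtain ⟨u, v, huv⟩ : IsCoprime a (Q * D) := by
    rw [← isCoprime_span_singleton_iff, h1]; exact hc.mul_left h4
  obtain ⟨r, hr⟩ := exists_add_coprime (S.fin f hf) (a := u) (b := Q * D) fun P hP _ hu hq =>
    hP.ne_top ((eq_top_iff_one _).2 (huv ▸ P.add_mem (P.mul_mem_right _ hu) (P.mul_mem_left _ hq)))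
  refine ⟨a * (u + r * (Q * D)), J * span {u + r * (Q * D)},
    Gd.of_dvd ⟨a * r - v, by linear_combination huv⟩, ?_,
    h3.mul_left ((isCoprime_span_singleton_iff _ _).2 hr)⟩
  rw [← span_singleton_mul_span_singleton, h1, mul_assoc]

lemma rep_unique {I : Ideal R} {y a y1 a' y2 : R} (hy : IsCoprime I (span {y}))
    (h : Rep Q D I y a y1) (h' : Rep Q D I y a' y2) : M a y1 = M a' y2 := by
  have k1 := h.cop hy
  have k2 := h'.cop hy
  obtain ⟨ha, J, e, cJ, m1, m2⟩ := h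
  obtain ⟨ha', J', e', cJ', m1', m2'⟩ := h'
  have a0 := S.ne_zero ha
  have hJ : J ≠ ⊥ := by
    rintro rfl; exact a0 (by simpa using e)
  obtain ⟨c, K, hc, ec, cK⟩ := S.exists_co hJ (by
    have := (isCoprime_span_singleton_iff _ _).2 ha.cop
    rw [e] at this; exact this.of_mul_left_right) a0
  have e3 : span {a' * c} = span {a} * (J' * K) := by
    rw [← span_singleton_mul_span_singleton, e, e', ec]; ring
  obtain ⟨c', hc'⟩ : a ∣ a' * c := by
    rw [← span_singleton_le_span_singleton, e3]; exact fun _ => mem_l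
  have ec' : span {c'} = J' * K := by
    rw [hc', ← span_singleton_mul_span_singleton] at e3
    exact mul_left_cancel₀ (by simpa using a0) e3
  have g' : Gd Q D c' := by
    have := ha'.mul hc
    rw [hc'] at this
    exact ⟨by convert dvd_sub this.1 (ha.1.mul_right c') using 1; ring, this.2.of_mul_left_right⟩
  rw [e] at cK
  obtain ⟨w, w1, w2⟩ := crt_ideal ((cJ.mul_right cJ').mul_right cK.of_mul_right_left.symm) y 1
  have w3 : w - 1 ∈ J := mem_l (mem_l w2)
  have w4 : w - 1 ∈ J' := mem_r (mem_l w2)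
  have d1 : a ∣ w - y1 := by
    rw [← mem_span_singleton, e, mul_eq_inf_of_isCoprime cJ]
    exact ⟨by simpa using I.sub_mem w1 m1, by simpa using J.sub_mem w3 m2⟩
  have d2 : a' ∣ w - y2 := by
    rw [← mem_span_singleton, e', mul_eq_inf_of_isCoprime cJ']
    exact ⟨by simpa using I.sub_mem w1 m1', by simpa using J'.sub_mem w4 m2'⟩
  have d3 : c ∣ w - 1 := by
    rw [← mem_span_singleton, ec]
    rw [mul_right_comm] at w2; exact mem_l w2
  have d4 : c' ∣ w - 1 := by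
    rw [← mem_span_singleton, ec']
    rw [mul_assoc] at w2; exact mem_r w2
  have t1 := S.mul_left ha' hc (cop_of_dvd_sub k2 d2) (cop_of_dvd_sub_one d3).symm
  have t2 := S.mul_left ha g' (cop_of_dvd_sub k1 d1) (cop_of_dvd_sub_one d4).symm
  rw [hc', t2, S.right_one hc.1 d3, S.right_one g'.1 d4, S.cr ha.1 k1 d1, S.cr ha'.1 k2 d2] at t1
  simpa using t1

lemma chi_eq {I : Ideal R} {y a y' : R} (hy : IsCoprime I (span {y})) (h : Rep Q D I y a y') :
    chi Q D M I y = M a y' := by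
  have : ∃ p : R × R, Rep Q D I y p.1 p.2 := ⟨(a, y'), h⟩
  rw [chi, dif_pos this]
  exact S.rep_unique hy this.choose_spec h

lemma chi_span {x y : R} (hx : Gd Q D x) (h : IsCoprime x y) : chi Q D M (span {x}) y = M x y :=
  S.chi_eq ((isCoprime_span_singleton_iff _ _).2 h)
    ⟨hx, ⊤, by simp, by rw [← one_eq_top]; exact isCoprime_one_right, by simp, trivial⟩

lemma chi_mul_left {I I' : Ideal R} {y : R} (hI : I ≠ ⊥) (hI' : I' ≠ ⊥)
    (c : IsCoprime I (span {Q * D})) (c' : IsCoprime I' (span {Q * D}))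
    (hy : IsCoprime I (span {y})) (hy' : IsCoprime I' (span {y})) :
    chi Q D M (I * I') y = chi Q D M I y * chi Q D M I' y := by
  obtain ⟨f, hf, f0⟩ := Submodule.exists_mem_ne_zero_of_ne_bot (mul_ne_zero hI hI')
  obtain ⟨a, J, ha, e, cJ⟩ := S.exists_co hI c f0
  obtain ⟨a', J', ha', e', cJ'⟩ := S.exists_co hI' c' f0
  have cc : IsCoprime (I * I') (J * J') :=
    ((cJ.mul_left cJ').of_isCoprime_of_dvd_right (dvd_span_singleton.2 hf)).symm
  obtain ⟨w, w1, w2⟩ := crt_ideal cc y 1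
  have r1 : Rep Q D I y a w :=
    ⟨ha, J, e, cc.of_mul_left_left.of_mul_right_left, mem_l w1, mem_l w2⟩
  have r2 : Rep Q D I' y a' w :=
    ⟨ha', J', e', cc.of_mul_left_right.of_mul_right_right, mem_r w1, mem_r w2⟩
  have r3 : Rep Q D (I * I') y (a * a') w :=
    ⟨ha.mul ha', J * J', by rw [← span_singleton_mul_span_singleton, e, e']; ring, cc, w1, w2⟩
  rw [S.chi_eq hy r1, S.chi_eq hy' r2, S.chi_eq (hy.mul_left hy') r3,
    S.mul_left ha ha' (r1.cop hy) (r2.cop hy')]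

lemma exists_rep {I : Ideal R} (hI : I ≠ ⊥) (c : IsCoprime I (span {Q * D})) :
    ∃ a J, Gd Q D a ∧ span {a} = I * J ∧ IsCoprime I J := by
  obtain ⟨f, hf, f0⟩ := Submodule.exists_mem_ne_zero_of_ne_bot hI
  obtain ⟨a, J, ha, e, cJ⟩ := S.exists_co hI c f0
  exact ⟨a, J, ha, e, (cJ.of_isCoprime_of_dvd_right (dvd_span_singleton.2 hf)).symm⟩

lemma chi_val {I : Ideal R} (hI : I ≠ ⊥) (c : IsCoprime I (span {Q * D})) {y : R}
    (hy : IsCoprime I (span {y})) : ∃ a w, Gd Q D a ∧ IsCoprime a w ∧ chi Q D M I y = M a w := by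
  obtain ⟨a, J, ha, e, cJ⟩ := S.exists_rep hI c
  obtain ⟨w, w1, w2⟩ := crt_ideal cJ y 1
  have r : Rep Q D I y a w := ⟨ha, J, e, cJ, w1, w2⟩
  exact ⟨a, w, ha, r.cop hy, S.chi_eq hy r⟩

lemma chi_mul_right {I : Ideal R} (hI : I ≠ ⊥) (c : IsCoprime I (span {Q * D})) {x y u : R}
    (hx : IsCoprime I (span {x})) (hy : IsCoprime I (span {y})) (hu : u - x * y ∈ I) :
    chi Q D M I u = chi Q D M I x * chi Q D M I y := by
  obtain ⟨a, J, ha, e, cJ⟩ := S.exists_rep hI c
  obtain ⟨v, v1, v2⟩ := crt_ideal cJ x 1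
  obtain ⟨w, w1, w2⟩ := crt_ideal cJ y 1
  have r1 : Rep Q D I x a v := ⟨ha, J, e, cJ, v1, v2⟩
  have r2 : Rep Q D I y a w := ⟨ha, J, e, cJ, w1, w2⟩
  have r3 : Rep Q D I u a (v * w) := by
    refine ⟨ha, J, e, cJ, ?_, ?_⟩
    · convert I.sub_mem (I.add_mem (I.mul_mem_right w v1) (I.mul_mem_left x w1)) hu using 1; ring
    · convert J.add_mem (J.mul_mem_right w v2) w2 using 1; ring
  rw [S.chi_eq hx r1, S.chi_eq hy r2, S.chi_eq (cop_ideal_of_sub (cop_ideal_mul.2 ⟨hx, hy⟩) hu) r3,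
    S.r4 _ _ _ ha.1 ha.2 (r1.cop hx) (r2.cop hy)]

lemma chi_one {I : Ideal R} (hI : I ≠ ⊥) (c : IsCoprime I (span {Q * D})) {u : R}
    (hu : u - 1 ∈ I) : chi Q D M I u = 1 := by
  obtain ⟨a, J, ha, e, cJ⟩ := S.exists_rep hI c
  rw [S.chi_eq (cop_ideal_of_sub (cop_ideal_one I) hu) (a := a) (y' := 1)
    ⟨ha, J, e, cJ, by simpa using I.neg_mem hu, by simp⟩, S.unit ha.1 isUnit_one]

lemma chi_pow {I : Ideal R} (hI : I ≠ ⊥) (c : IsCoprime I (span {Q * D})) {x : R}
    (hx : IsCoprime I (span {x})) (k : ℕ) : chi Q D M I (x ^ k) = chi Q D M I x ^ k := by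
  induction k with
  | zero => rw [pow_zero, pow_zero, S.chi_one hI c (by simp)]
  | succ k ih =>
    rw [S.chi_mul_right hI c (x := x ^ k) (y := x) (by
      rw [← span_singleton_pow]; exact hx.pow_right) hx (by simp [pow_succ]), ih, pow_succ]

end MS

end Pool.Agent.Lib.MP_61a4e3_al
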