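import Mathlib

/-! A Lipschitz partition of unity along unit orbits. -/

namespace Pool.Agent.Lib.MP_61a4e3_al

open NumberField NumberField.Units NumberField.Units.dirichletUnitTheorem
  NumberField.mixedEmbedding NumberField.InfinitePlace Module

variable {F : Type} [Field F] [NumberField F]

noncomputable def tent (t : ℝ) : ℝ := max 0 (1 - |t|)

theorem tent_nonneg (t : ℝ) : 0 ≤ tent t := le_max_left _ _

theorem tent_le_one (t : ℝ) : tent t ≤ 1 := max_le zero_le_one (by linarith [abs_nonneg t])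

theorem abs_lt_of_tent_ne {t : ℝ} (h : tent t ≠ 0) : |t| < 1 := by
  by_contra hn
  exact h (max_eq_left (by linarith [not_lt.mp hn]))

theorem tent_lip (a b : ℝ) : |tent a - tent b| ≤ |a - b| := by
  unfold tent
  refine (abs_max_sub_max_le_max _ _ _ _).trans ?_
  simp only [sub_self, abs_zero]
  refine max_le (abs_nonneg _) ?_
  have : 1 - |a| - (1 - |b|) = |b| - |a| := by ring
  rw [this, abs_sub_comm a b]
  exact abs_abs_sub_abs_le_abs_sub b a

theorem tent_two (t : ℝ) : tent (((-⌊t⌋ : ℤ) : ℝ) + t) + tent (((-⌊t⌋ - 1 : ℤ) : ℝ) + t) = 1 := by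
  have h0 := Int.floor_le t
  have h1 := Int.lt_floor_add_one t
  unfold tent
  push_cast
  rw [abs_of_nonneg (by linarith), abs_of_nonpos (by linarith), max_eq_right (by linarith),
    max_eq_right (by linarith)]
  ring

theorem tent_support {t : ℝ} {k : ℤ} (h : tent ((k : ℝ) + t) ≠ 0) :
    k ∈ ({-⌊t⌋, -⌊t⌋ - 1} : Finset ℤ) := by
  have h0 := Int.floor_le t
  have h1 := Int.lt_floor_add_one t
  obtain ⟨h2, h3⟩ := abs_lt.mp (abs_lt_of_tent_ne h)
  have h4 : ((k + ⌊t⌋ : ℤ) : ℝ) < 1 := by push_cast; linarith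
  have h5 : (-2 : ℝ) < ((k + ⌊t⌋ : ℤ) : ℝ) := by push_cast; linarith
  have h4' : k + ⌊t⌋ < 1 := by exact_mod_cast h4
  have h5' : -2 < k + ⌊t⌋ := by exact_mod_cast h5
  simp only [Finset.mem_insert, Finset.mem_singleton]
  omega

theorem abs_prod_sub_le {ι : Type} (s : Finset ι) (a b : ι → ℝ) (ha : ∀ i, 0 ≤ a i ∧ a i ≤ 1)
    (hb : ∀ i, 0 ≤ b i ∧ b i ≤ 1) : |∏ i ∈ s, a i - ∏ i ∈ s, b i| ≤ ∑ i ∈ s, |a i - b i| := by
  classical
  induction s using Finset.induction_on with
  | empty => simp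
  | insert j s hj ih =>
    rw [Finset.prod_insert hj, Finset.prod_insert hj, Finset.sum_insert hj]
    have e : a j * ∏ i ∈ s, a i - b j * ∏ i ∈ s, b i =
        (a j - b j) * ∏ i ∈ s, a i + b j * (∏ i ∈ s, a i - ∏ i ∈ s, b i) := by ring
    have h1 : |∏ i ∈ s, a i| ≤ 1 := by
      rw [abs_of_nonneg (Finset.prod_nonneg fun i _ => (ha i).1)]
      exact Finset.prod_le_one (fun i _ => (ha i).1) fun i _ => (ha i).2
    have h2 : |b j| ≤ 1 := by rw [abs_of_nonneg (hb j).1]; exact (hb j).2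
    rw [e]
    refine (abs_add_le _ _).trans (add_le_add ?_ ?_)
    · rw [abs_mul]; exact mul_le_of_le_one_right (abs_nonneg _) h1
    · rw [abs_mul]; exact (mul_le_of_le_one_left (abs_nonneg _) h2).trans ih

/-- the real basis of the log space given by the unit lattice. -/
noncomputable def ub (F : Type) [Field F] [NumberField F] : Basis (Fin (rank F)) ℝ (logSpace F) := by
  classical exact (basisUnitLattice F).ofZLatticeBasis ℝ (unitLattice F)

theorem ub_apply (i : Fin (rank F)) :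
    ub F i = logEmbedding F (Additive.ofMul (fundSystem F i)) := by
  classical
  rw [logEmbedding_fundSystem]
  exact Basis.ofZLatticeBasis_apply ℝ _ _ i

noncomputable def lg (x : F) : logSpace F := logMap (mixedEmbedding F x)

/-- the norm as a real number. -/
noncomputable def nr (x : F) : ℝ := ((Algebra.norm ℚ x : ℚ) : ℝ)

theorem nr_mul (x y : F) : nr (x * y) = nr x * nr y := by simp [nr]

theorem nr_ne_zero {x : F} (hx : x ≠ 0) : nr x ≠ 0 := by
  simpa [nr] using hx

theorem lg_apply (x : F) (w : {w : InfinitePlace F // w ≠ w₀}) :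
    lg x w = mult w.1 * (Real.log (w.1 x) - Real.log |nr x| * (finrank ℚ F : ℝ)⁻¹) := by
  simp [lg, nr]

theorem lg_mul {x y : F} (hx : x ≠ 0) (hy : y ≠ 0) : lg (x * y) = lg x + lg y := by
  unfold lg
  rw [map_mul, logMap_mul] <;> simpa

noncomputable def Psi (x : F) : ℝ := ∏ i, tent ((ub F).repr (lg x) i)

theorem Psi_nonneg (x : F) : 0 ≤ Psi x := Finset.prod_nonneg fun _ _ => tent_nonneg _

theorem Psi_le_one (x : F) : Psi x ≤ 1 :=
  Finset.prod_le_one (fun _ _ => tent_nonneg _) fun _ _ => tent_le_one _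

theorem hasSum_Psi {x : F} (hx : x ≠ 0) :
    HasSum (fun u : (𝓞 F)ˣ => Psi (((u : 𝓞 F) : F) * x)) (torsionOrder F) := by
  classical
  let φ : torsion F × (Fin (rank F) → ℤ) → (𝓞 F)ˣ := fun p => p.1 * ∏ i, fundSystem F i ^ p.2 i
  have hφ : Function.Bijective φ := by
    constructor
    · intro p q hpq
      exact (exist_unique_eq_mul_prod F (φ p)).unique rfl hpq
    · intro u
      obtain ⟨p, hp, -⟩ := exist_unique_eq_mul_prod F u
      exact ⟨p, hp.symm⟩
  rw [← (Equiv.ofBijective φ hφ).hasSum_iff]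
  have hco : ∀ (p : torsion F × (Fin (rank F) → ℤ)) (i : Fin (rank F)),
      (ub F).repr (lg ((((φ p : (𝓞 F)ˣ) : 𝓞 F) : F) * x)) i = (p.2 i : ℝ) + (ub F).repr (lg x) i := by
    intro p i
    rw [lg_mul (by simp) hx, map_add, Finsupp.add_apply]
    congr 1
    have : lg (((φ p : (𝓞 F)ˣ) : 𝓞 F) : F) = ∑ j, (p.2 j : ℝ) • ub F j := by
      have h1 : lg (((φ p : (𝓞 F)ˣ) : 𝓞 F) : F) = logEmbedding F (Additive.ofMul (φ p)) :=
        logMap_eq_logEmbedding (φ p)
      rw [h1]
      simp only [φ, ofMul_mul, map_add, ofMul_prod, map_sum, ofMul_zpow, map_zsmul]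
      rw [logEmbedding_eq_zero_iff.mpr p.1.2, zero_add]
      refine Finset.sum_congr rfl fun j _ => ?_
      rw [ub_apply, Int.cast_smul_eq_zsmul]
    rw [this, (ub F).repr_sum_self]
  set t : Fin (rank F) → ℝ := fun i => (ub F).repr (lg x) i with ht
  have hf : (fun u : (𝓞 F)ˣ => Psi (((u : 𝓞 F) : F) * x)) ∘ (Equiv.ofBijective φ hφ) =
      fun p => ∏ i, tent ((p.2 i : ℝ) + t i) := by
    funext p
    simp only [Function.comp, Equiv.ofBijective_apply, Psi, hco, ht]
  rw [hf]
  have := Fintype.ofFinite (torsion F)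
  have key := hasSum_sum_of_ne_finset_zero
    (f := fun p : torsion F × (Fin (rank F) → ℤ) => ∏ i, tent ((p.2 i : ℝ) + t i))
    (s := Finset.univ ×ˢ Fintype.piFinset fun i => ({-⌊t i⌋, -⌊t i⌋ - 1} : Finset ℤ))
    (L := SummationFilter.unconditional _) (by
      intro p hp
      by_contra hne
      apply hp
      simp only [Finset.mem_product, Finset.mem_univ, true_and, Fintype.mem_piFinset]
      intro i
      exact tent_support (Finset.prod_ne_zero_iff.mp hne i (Finset.mem_univ i)))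
  convert key using 1
  rw [Finset.sum_product]
  have : ∑ k ∈ Fintype.piFinset fun i => ({-⌊t i⌋, -⌊t i⌋ - 1} : Finset ℤ),
      ∏ i, tent ((k i : ℝ) + t i) = 1 := by
    rw [← Finset.prod_univ_sum (fun i => ({-⌊t i⌋, -⌊t i⌋ - 1} : Finset ℤ))
      (fun i k => tent ((k : ℝ) + t i))]
    refine Finset.prod_eq_one fun i _ => ?_
    rw [Finset.sum_pair (by omega), tent_two]
  simp only [this, Finset.sum_const, Finset.card_univ, nsmul_eq_mul, mul_one, torsionOrder,
    Nat.card_eq_fintype_card]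

open Classical in
theorem Psi_lip : ∃ K : ℝ, 0 ≤ K ∧ ∀ x y : F, |Psi x - Psi y| ≤ K * ‖lg x - lg y‖ := by
  classical
  refine ⟨∑ i, ‖LinearMap.toContinuousLinearMap ((ub F).coord i)‖,
    Finset.sum_nonneg fun _ _ => norm_nonneg _, fun x y => ?_⟩
  refine (abs_prod_sub_le _ _ _ (fun i => ⟨tent_nonneg _, tent_le_one _⟩)
    (fun i => ⟨tent_nonneg _, tent_le_one _⟩)).trans ?_
  rw [Finset.sum_mul]
  refine Finset.sum_le_sum fun i _ => (tent_lip _ _).trans ?_
  have := (LinearMap.toContinuousLinearMap ((ub F).coord i)).le_opNorm (lg x - lg y)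
  simpa using this

open Classical in
theorem lg_bound : ∃ K : ℝ, 0 ≤ K ∧ ∀ x : F, Psi x ≠ 0 → ‖lg x‖ ≤ K := by
  classical
  refine ⟨∑ i, ‖ub F i‖, Finset.sum_nonneg fun _ _ => norm_nonneg _, fun x hx => ?_⟩
  rw [← (ub F).sum_repr (lg x)]
  refine (norm_sum_le _ _).trans (Finset.sum_le_sum fun i _ => ?_)
  rw [_root_.norm_smul]
  have := abs_lt_of_tent_ne (Finset.prod_ne_zero_iff.mp hx i (Finset.mem_univ i))
  exact mul_le_of_le_one_left (norm_nonneg _) this.le

end Pool.Agent.Lib.MP_61a4e3_al
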