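import Mathlib
import Pool.Agent.Lib.MP_61a4e3_al.WDTent

/-! Translation estimates for the weighted norm function. -/

namespace Pool.Agent.Lib.MP_61a4e3_al

open NumberField NumberField.Units NumberField.Units.dirichletUnitTheorem
  NumberField.mixedEmbedding NumberField.InfinitePlace Module

variable {F : Type} [Field F] [NumberField F]

/-- the sup norm of the embedding. -/
noncomputable def hs (x : F) : ℝ :=
  Finset.univ.sup' Finset.univ_nonempty fun w : InfinitePlace F => w x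

theorem le_hs (x : F) (w : InfinitePlace F) : w x ≤ hs x :=
  Finset.le_sup' (fun w : InfinitePlace F => w x) (Finset.mem_univ w)

theorem exists_hs (x : F) : ∃ w : InfinitePlace F, hs x = w x := by
  obtain ⟨w, -, hw⟩ := Finset.exists_mem_eq_sup' Finset.univ_nonempty
    (fun w : InfinitePlace F => w x)
  exact ⟨w, hw⟩

theorem hs_pos {x : F} (hx : x ≠ 0) : 0 < hs x := by
  obtain ⟨w, hw⟩ := exists_hs x
  rw [hw]; exact pos_iff.mpr hx

theorem hs_nonneg (x : F) : 0 ≤ hs x := by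
  obtain ⟨w, hw⟩ := exists_hs x
  rw [hw]; exact apply_nonneg _ _

theorem hs_neg (x : F) : hs (-x) = hs x := by
  unfold hs
  congr 1
  funext w
  rw [← norm_embedding_eq, ← norm_embedding_eq, map_neg, norm_neg]

open scoped Classical in
theorem hs_eq (x : F) : ‖mixedEmbedding F x‖ = hs x := by
  rw [norm_eq_sup'_normAtPlace]
  simp only [normAtPlace_apply, hs]

open scoped Classical in
theorem summable_hs : Summable fun x : 𝓞 F => hs (x : F) ^ (-((finrank ℚ F : ℝ) + 1)) := by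
  have h := ZLattice.summable_norm_rpow (mixedEmbedding.integerLattice F)
    (-((finrank ℚ F : ℝ) + 1)) (by
      rw [ZLattice.rank ℝ, mixedEmbedding.finrank]; linarith)
  let i : 𝓞 F → mixedEmbedding.integerLattice F := fun x => ⟨mixedEmbedding F x, ⟨x, rfl⟩⟩
  have hi : Function.Injective i := by
    intro x y hxy
    have := mixedEmbedding_injective F (congrArg Subtype.val hxy)
    exact Subtype.ext this
  refine (h.comp_injective hi).congr fun x => ?_
  simp only [Function.comp, Submodule.coe_norm, i, hs_eq]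

theorem one_le_abs_nr {x : 𝓞 F} (hx : x ≠ 0) : 1 ≤ |nr (x : F)| := by
  have h1 : nr (x : F) = ((Algebra.norm ℤ x : ℤ) : ℝ) := by
    unfold nr
    rw [← Algebra.coe_norm_int]; simp
  rw [h1, ← Int.cast_abs]
  exact_mod_cast Int.one_le_abs (Algebra.norm_ne_zero_iff.mpr hx)

variable [IsTotallyReal F]

theorem card_places : Fintype.card (InfinitePlace F) = finrank ℚ F := by
  rw [← sum_mult_eq]
  simp [IsTotallyReal.mult_eq]

theorem abs_nr_eq (x : F) : |nr x| = ∏ w : InfinitePlace F, w x := by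
  have := prod_eq_abs_norm x
  simp only [IsTotallyReal.mult_eq, pow_one] at this
  rw [this]; simp [nr]

theorem log_abs_nr {x : F} (hx : x ≠ 0) :
    Real.log |nr x| = ∑ w : InfinitePlace F, Real.log (w x) := by
  rw [abs_nr_eq, Real.log_prod fun w _ => (pos_iff.mpr hx).ne']

theorem nr_pos {z : F} (hz : ∀ w : InfinitePlace F, w z < 1) : 0 < nr (1 + z) := by
  have h := Algebra.norm_eq_prod_embeddings ℚ ℂ (1 + z)
  have h2 : ∀ σ : F →ₐ[ℚ] ℂ, σ (1 + z) =
      ((1 + (IsTotallyReal.complexEmbedding_isReal (σ : F →+* ℂ)).embedding z : ℝ) : ℂ) := by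
    intro σ
    push_cast
    rw [ComplexEmbedding.IsReal.coe_embedding_apply]
    simp
  simp_rw [h2] at h
  rw [← Complex.ofReal_prod] at h
  have h3 : nr (1 + z) = ∏ σ : F →ₐ[ℚ] ℂ,
      (1 + (IsTotallyReal.complexEmbedding_isReal (σ : F →+* ℂ)).embedding z : ℝ) := by
    apply Complex.ofReal_injective
    rw [← h]; simp [nr]
  rw [h3]
  refine Finset.prod_pos fun σ _ => ?_
  have h4 := hz (InfinitePlace.mk (σ : F →+* ℂ))
  rw [InfinitePlace.apply,
    ← (IsTotallyReal.complexEmbedding_isReal (σ : F →+* ℂ)).coe_embedding_apply,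
    Complex.norm_real, Real.norm_eq_abs] at h4
  linarith [(abs_lt.mp h4).1]

theorem comparable : ∃ c : ℝ, 0 < c ∧ ∀ x : F, x ≠ 0 → Psi x ≠ 0 →
    ∀ w : InfinitePlace F, c * hs x ≤ w x := by
  classical
  obtain ⟨K, hK0, hK⟩ := lg_bound (F := F)
  have hn : (0 : ℝ) < finrank ℚ F := by exact_mod_cast finrank_pos
  refine ⟨Real.exp (-(2 * ((finrank ℚ F + 1) * K))), Real.exp_pos _, fun x hx hP => ?_⟩
  set L := Real.log |nr x| * (finrank ℚ F : ℝ)⁻¹
  have h1 : ∀ w : InfinitePlace F, w ≠ w₀ → |Real.log (w x) - L| ≤ K := by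
    intro w hw
    have := (norm_le_pi_norm (lg x) ⟨w, hw⟩).trans (hK x hP)
    rwa [lg_apply, IsTotallyReal.mult_eq, Nat.cast_one, one_mul, Real.norm_eq_abs] at this
  have h2 : ∀ w : InfinitePlace F, |Real.log (w x) - L| ≤ (finrank ℚ F + 1) * K := by
    intro w
    by_cases hw : w = w₀
    · have h3 : ∑ w : InfinitePlace F, (Real.log (w x) - L) = 0 := by
        rw [Finset.sum_sub_distrib, ← log_abs_nr hx]
        simp only [Finset.sum_const, Finset.card_univ, card_places, nsmul_eq_mul, L]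
        field_simp
        ring
      rw [← Finset.add_sum_erase _ _ (Finset.mem_univ w₀), add_eq_zero_iff_eq_neg] at h3
      rw [hw, h3, abs_neg]
      refine (Finset.abs_sum_le_sum_abs _ _).trans ?_
      calc ∑ w ∈ Finset.univ.erase w₀, |Real.log (w x) - L|
          ≤ ∑ w ∈ Finset.univ.erase (w₀ : InfinitePlace F), K :=
            Finset.sum_le_sum fun w hw => h1 w (Finset.ne_of_mem_erase hw)
        _ ≤ ∑ w : InfinitePlace F, K :=
            Finset.sum_le_sum_of_subset_of_nonneg (Finset.erase_subset _ _) fun _ _ _ => hK0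
        _ ≤ _ := by
            simp only [Finset.sum_const, Finset.card_univ, card_places, nsmul_eq_mul]
            nlinarith
    · refine (h1 w hw).trans ?_
      nlinarith
  intro w
  obtain ⟨w', hw'⟩ := exists_hs x
  rw [hw', ← Real.exp_log (pos_iff.mpr hx : 0 < w x), ← Real.exp_log (pos_iff.mpr hx : 0 < w' x),
    ← Real.exp_add]
  have := abs_le.mp (h2 w)
  have := abs_le.mp (h2 w')
  exact Real.exp_le_exp.mpr (by linarith)

omit [NumberField F] [IsTotallyReal F] in
theorem abs_log_place {z : F} {δ : ℝ} (hδ : δ ≤ 1 / 2) (w : InfinitePlace F) (hz : w z ≤ δ) :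
    |Real.log (w (1 + z))| ≤ 2 * δ := by
  have h0 : 0 ≤ w z := apply_nonneg _ _
  have h1 : w (1 + z) ≤ 1 + δ := by
    rw [← norm_embedding_eq, map_add, map_one]
    refine (norm_add_le _ _).trans ?_
    rw [norm_one, norm_embedding_eq]; linarith
  have h2 : 1 - δ ≤ w (1 + z) := by
    rw [← norm_embedding_eq, map_add, map_one]
    have := norm_sub_norm_le (1 : ℂ) (-(w.embedding z))
    rw [norm_one, norm_neg, norm_embedding_eq, sub_neg_eq_add] at this
    linarith
  have h3 : 0 < w (1 + z) := by linarith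
  rw [abs_le]
  constructor
  · have := Real.one_sub_inv_le_log_of_pos h3
    refine le_trans ?_ this
    have : (w (1 + z))⁻¹ ≤ 1 + 2 * δ := by
      rw [inv_eq_one_div, div_le_iff₀ h3]
      nlinarith
    linarith
  · have := Real.log_le_sub_one_of_pos h3
    linarith

/-- the weighted norm function. -/
noncomputable def Fs (s : ℝ) (x : F) : ℝ := Psi x * |nr x| ^ (-s)

omit [IsTotallyReal F] in
theorem Fs_nonneg (s : ℝ) (x : F) : 0 ≤ Fs s x :=
  mul_nonneg (Psi_nonneg _) (by positivity)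

omit [IsTotallyReal F] in
theorem Fs_zero {s : ℝ} (hs : 0 < s) : Fs s (0 : F) = 0 := by
  simp [Fs, nr, Real.zero_rpow (show -s ≠ 0 by linarith)]

omit [IsTotallyReal F] in
theorem Fs_le_one {s : ℝ} (hs : 0 < s) (x : 𝓞 F) : Fs s (x : F) ≤ 1 := by
  by_cases hx : x = 0
  · subst hx; simp [Fs_zero hs]
  · exact mul_le_one₀ (Psi_le_one _) (by positivity)
      (Real.rpow_le_one_of_one_le_of_nonpos (one_le_abs_nr hx) (by linarith))

theorem translate_est (E : ℝ) (hE : 0 ≤ E) : ∃ C H : ℝ, 0 ≤ C ∧ 0 < H ∧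
    ∀ s : ℝ, 1 ≤ s → s ≤ 2 → ∀ (x : 𝓞 F) (e : F), hs e ≤ E → x ≠ 0 → Psi (x : F) ≠ 0 →
      H ≤ hs (x : F) → 0 < nr (x : F) * nr ((x : F) + e) ∧
        |Fs s ((x : F) + e) - Fs s (x : F)| ≤ C * hs (x : F) ^ (-((finrank ℚ F : ℝ) + 1)) := by
  classical
  obtain ⟨c, hc, hcomp⟩ := comparable (F := F)
  obtain ⟨K, hK0, hK⟩ := Psi_lip (F := F)
  set n := finrank ℚ F with hndef
  have hn : (1 : ℝ) ≤ n := by exact_mod_cast (finrank_pos : 0 < finrank ℚ F)
  refine ⟨(8 * n + 4 * K) * E / c ^ (n + 1), 4 * n * E / c + 1, by positivity, by positivity, ?_⟩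
  intro s hs1 hs2 x e he hx hP hH
  have hx' : (x : F) ≠ 0 := by simpa using hx
  have hH0 := hs_pos hx'
  set H := hs (x : F)
  set z : F := e / x with hz
  set δ : ℝ := E / (c * H) with hδ
  have hδ0 : 0 ≤ δ := by positivity
  have hδn : 4 * n * δ ≤ 1 := by
    rw [hδ, ← mul_div_assoc, div_le_one (by positivity)]
    have : 4 * n * E / c ≤ H := by linarith
    rw [div_le_iff₀ hc] at this
    linarith
  have hδ2 : δ ≤ 1 / 4 := by nlinarith
  have hwz : ∀ w : InfinitePlace F, w z ≤ δ := by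
    intro w
    rw [hz, map_div₀, hδ]
    exact div_le_div₀ hE ((le_hs e w).trans he) (by positivity) (hcomp x hx' hP w)
  have hxe : (x : F) + e = x * (1 + z) := by rw [hz]; field_simp
  have hpos : 0 < nr (1 + z) := nr_pos fun w => (hwz w).trans_lt (by linarith)
  have hz1 : 1 + z ≠ 0 := by
    intro h; rw [h] at hpos; simp [nr] at hpos
  have hlog : ∀ w : InfinitePlace F, |Real.log (w (1 + z))| ≤ 2 * δ :=
    fun w => abs_log_place (by linarith) w (hwz w)
  have hlogN : |(Real.log |nr (1 + z)|)| ≤ n * (2 * δ) := by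
    rw [log_abs_nr hz1]
    refine (Finset.abs_sum_le_sum_abs _ _).trans ((Finset.sum_le_sum fun w _ => hlog w).trans ?_)
    simp [card_places, hndef]
  have hlg : ‖lg (1 + z)‖ ≤ 4 * δ := by
    refine (pi_norm_le_iff_of_nonneg (by positivity)).mpr fun w => ?_
    rw [lg_apply, IsTotallyReal.mult_eq, Nat.cast_one, one_mul, Real.norm_eq_abs]
    refine (abs_sub _ _).trans ?_
    have : |(Real.log |nr (1 + z)| * (n : ℝ)⁻¹)| ≤ 2 * δ := by
      rw [abs_mul, abs_of_pos (by positivity : (0 : ℝ) < (n : ℝ)⁻¹), ← div_eq_mul_inv,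
        div_le_iff₀ (by positivity)]
      linarith
    linarith [hlog w.1]
  have hnx := nr_ne_zero hx'
  refine ⟨?_, ?_⟩
  · rw [hxe, nr_mul, ← mul_assoc]
    exact mul_pos (mul_self_pos.mpr hnx) hpos
  have hPsi : |Psi ((x : F) + e) - Psi (x : F)| ≤ K * (4 * δ) := by
    refine (hK _ _).trans ?_
    rw [hxe, lg_mul hx' hz1, add_sub_cancel_left]
    gcongr
  have hpow : |(|nr (1 + z)| ^ (-s) - 1)| ≤ 8 * n * δ := by
    rw [Real.rpow_def_of_pos (abs_pos.mpr hpos.ne')]
    have h1 : |(Real.log |nr (1 + z)| * -s)| ≤ 4 * n * δ := by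
      rw [abs_mul, abs_neg, abs_of_pos (by linarith : 0 < s)]
      have := abs_nonneg (Real.log |nr (1 + z)|)
      nlinarith
    refine (Real.abs_exp_sub_one_le (h1.trans hδn)).trans (by linarith)
  have hN : |nr (x : F)| ^ (-s) ≤ ((c * H) ^ n)⁻¹ := by
    refine (Real.rpow_le_rpow_of_exponent_le (one_le_abs_nr hx) (show -s ≤ -1 by linarith)).trans ?_
    rw [Real.rpow_neg_one]
    refine inv_anti₀ (by positivity) ?_
    rw [abs_nr_eq, hndef, ← card_places, ← Finset.card_univ, ← Finset.prod_const]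
    exact Finset.prod_le_prod (fun _ _ => by positivity) fun w _ => hcomp x hx' hP w
  have e1 : Fs s ((x : F) + e) - Fs s (x : F) = |nr (x : F)| ^ (-s) *
      (Psi ((x : F) + e) * (|nr (1 + z)| ^ (-s) - 1) + (Psi ((x : F) + e) - Psi (x : F))) := by
    unfold Fs
    nth_rewrite 2 [hxe]
    rw [nr_mul, abs_mul, Real.mul_rpow (abs_nonneg _) (abs_nonneg _)]
    ring
  rw [e1, abs_mul, abs_of_nonneg (by positivity)]
  have e2 : |(Psi ((x : F) + e) * (|nr (1 + z)| ^ (-s) - 1) + (Psi ((x : F) + e) - Psi (x : F)))| ≤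
      (8 * n + 4 * K) * δ := by
    refine (abs_add_le _ _).trans ?_
    rw [abs_mul, abs_of_nonneg (Psi_nonneg _)]
    have := mul_le_of_le_one_left (abs_nonneg (|nr (1 + z)| ^ (-s) - 1)) (Psi_le_one ((x : F) + e))
    linarith
  refine (mul_le_mul hN e2 (abs_nonneg _) (by positivity)).trans (le_of_eq ?_)
  rw [Real.rpow_neg hH0.le, ← Nat.cast_succ, Real.rpow_natCast, hδ, Nat.succ_eq_add_one, mul_pow,
    pow_succ, pow_succ]
  field_simp

/-- uniform bound for the total variation under a translation. -/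
theorem translate_sum (e : 𝓞 F) : ∃ B : 𝓞 F → ℝ, Summable B ∧
    ∀ s : ℝ, 1 ≤ s → s ≤ 2 → ∀ φ : 𝓞 F → ℂ, (∀ x, ‖φ x‖ ≤ 1) →
      (∀ x : 𝓞 F, 0 < nr (x : F) * nr ((x + e : 𝓞 F) : F) → φ (x + e) = φ x) →
      ∀ x : 𝓞 F, ‖φ (x + e) * Fs s ((x + e : 𝓞 F) : F) - φ x * Fs s (x : F)‖ ≤ B x := by
  obtain ⟨C, H, hC, hH, h⟩ := translate_est (F := F) (hs (e : F)) (hs_nonneg _)
  set r : ℝ := -((finrank ℚ F : ℝ) + 1) with hr
  have hr0 : r < 0 := by rw [hr]; have : (0 : ℝ) ≤ finrank ℚ F := Nat.cast_nonneg _; linarith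
  set C' : ℝ := C + 2 * H ^ (-r) with hC'
  have hC'0 : 0 ≤ C' := by positivity
  -- one sided estimate
  have key : ∀ s : ℝ, 1 ≤ s → s ≤ 2 → ∀ φ : 𝓞 F → ℂ, (∀ x, ‖φ x‖ ≤ 1) → ∀ x y : 𝓞 F,
      hs ((y : F) - x) ≤ hs (e : F) → (0 < nr (x : F) * nr (y : F) → φ y = φ x) →
      Fs s (x : F) ≠ 0 → ‖φ y * Fs s (y : F) - φ x * Fs s (x : F)‖ ≤ C' * hs (x : F) ^ r := by
    intro s hs1 hs2 φ hφ x y hxy hper hF
    have hx : x ≠ 0 := by
      rintro rfl
      exact hF (by simpa using Fs_zero (F := F) (by linarith : 0 < s))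
    have hx' : (x : F) ≠ 0 := by simpa using hx
    have hP : Psi (x : F) ≠ 0 := fun h0 => hF (by simp [Fs, h0])
    have hH0 := hs_pos hx'
    by_cases hle : H ≤ hs (x : F)
    · obtain ⟨h1, h2⟩ := h s hs1 hs2 x ((y : F) - x) hxy hx hP hle
      rw [add_sub_cancel] at h1 h2
      rw [hper h1, ← mul_sub, norm_mul, ← Complex.ofReal_sub, Complex.norm_real, Real.norm_eq_abs]
      refine (mul_le_of_le_one_left (abs_nonneg _) (hφ x)).trans (h2.trans ?_)
      gcongr
      rw [hC']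
      have : 0 ≤ 2 * H ^ (-r) := by positivity
      linarith
    · have h1 : ∀ y : 𝓞 F, ‖φ y * Fs s (y : F)‖ ≤ 1 := by
        intro y
        rw [norm_mul, Complex.norm_real, Real.norm_of_nonneg (Fs_nonneg _ _)]
        exact mul_le_one₀ (hφ y) (Fs_nonneg _ _) (Fs_le_one (by linarith) y)
      refine (norm_sub_le _ _).trans ((add_le_add (h1 y) (h1 x)).trans ?_)
      have h2 : H ^ r ≤ hs (x : F) ^ r :=
        Real.rpow_le_rpow_of_nonpos hH0 (not_le.mp hle).le hr0.le
      have h3 : H ^ (-r) * H ^ r = 1 := by rw [← Real.rpow_add hH]; simp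
      have h4 : 0 ≤ C * hs (x : F) ^ r := by positivity
      have h5 : H ^ (-r) * H ^ r ≤ H ^ (-r) * hs (x : F) ^ r := by gcongr
      rw [hC']
      nlinarith
  refine ⟨fun x => C' * hs (x : F) ^ r + C' * hs ((x + e : 𝓞 F) : F) ^ r, ?_, ?_⟩
  · refine (summable_hs.mul_left C').add ?_
    exact ((Equiv.addRight e).summable_iff.mpr (summable_hs (F := F))).mul_left C'
  intro s hs1 hs2 φ hφ hper x
  have p1 : 0 ≤ C' * hs (x : F) ^ r := mul_nonneg hC'0 (Real.rpow_nonneg (hs_nonneg _) _)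
  have p2 : 0 ≤ C' * hs ((x + e : 𝓞 F) : F) ^ r :=
    mul_nonneg hC'0 (Real.rpow_nonneg (hs_nonneg _) _)
  by_cases h1 : Fs s (x : F) = 0
  · by_cases h2 : Fs s ((x + e : 𝓞 F) : F) = 0
    · rw [h1, h2]; simp only [Complex.ofReal_zero, mul_zero, sub_zero, norm_zero]; linarith
    · have := key s hs1 hs2 φ hφ (x + e) x (by simp [hs_neg])
        (fun h => (hper x (by rwa [mul_comm])).symm) h2
      rw [norm_sub_rev] at this
      linarith
  · have := key s hs1 hs2 φ hφ x (x + e) (by simp) (hper x) h1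
    linarith

end Pool.Agent.Lib.MP_61a4e3_al
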