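import Mathlib

/-! Sieving form of the Euler product for ideals of a number ring. -/

namespace Pool.Agent.Lib.MP_61a4e3_al

open NumberField IsDedekindDomain Filter Topology

variable {F : Type} [Field F] [NumberField F]

open Classical in
theorem sieve_finite (h : Ideal (𝓞 F) → ℂ) (hmul : ∀ I J, h (I * J) = h I * h J)
    (hs : Summable h) (T : Finset (HeightOneSpectrum (𝓞 F))) :
    ∑' I : Ideal (𝓞 F), (if ∀ P ∈ T, ¬ P.asIdeal ∣ I then h I else 0) =
      (∑' I, h I) * ∏ P ∈ T, (1 - h P.asIdeal) := by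
  induction T using Finset.induction_on with
  | empty => simp
  | insert P T hP ih =>
    rw [Finset.prod_insert hP, mul_comm (1 - h P.asIdeal), ← mul_assoc, ← ih]
    have hsum : ∀ (q : Ideal (𝓞 F) → Prop) [DecidablePred q],
        Summable fun I => if q I then h I else 0 := by
      intro q _
      have := hs.indicator {I | q I}
      refine this.congr fun I => ?_
      simp [Set.indicator]
    have e1 : ∀ I : Ideal (𝓞 F), (if ∀ Q ∈ insert P T, ¬ Q.asIdeal ∣ I then h I else 0) =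
        (if ∀ Q ∈ T, ¬ Q.asIdeal ∣ I then h I else 0) -
          (if P.asIdeal ∣ I ∧ ∀ Q ∈ T, ¬ Q.asIdeal ∣ I then h I else 0) := by
      intro I
      simp only [Finset.forall_mem_insert]
      by_cases h1 : P.asIdeal ∣ I <;> by_cases h2 : ∀ Q ∈ T, ¬ Q.asIdeal ∣ I <;> simp [h1, h2]
    have hinj : Function.Injective fun J : Ideal (𝓞 F) => P.asIdeal * J :=
      fun J J' hJ => mul_left_cancel₀ P.ne_bot hJ
    have e2 : ∑' I : Ideal (𝓞 F), (if P.asIdeal ∣ I ∧ ∀ Q ∈ T, ¬ Q.asIdeal ∣ I then h I else 0) =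
        h P.asIdeal * ∑' I : Ideal (𝓞 F), (if ∀ Q ∈ T, ¬ Q.asIdeal ∣ I then h I else 0) := by
      rw [← hinj.tsum_eq, ← tsum_mul_left]
      · refine tsum_congr fun J => ?_
        have : (∀ Q ∈ T, ¬ Q.asIdeal ∣ P.asIdeal * J) ↔ ∀ Q ∈ T, ¬ Q.asIdeal ∣ J := by
          refine forall₂_congr fun Q hQ => not_congr ⟨fun hd => ?_, fun hd => hd.mul_left _⟩
          rcases Q.prime.dvd_or_dvd hd with h1 | h1
          · exfalso
            apply hP
            have : Q = P := by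
              ext1
              exact (P.isMaximal.eq_of_le Q.isPrime.ne_top (Ideal.le_of_dvd h1)).symm
            rwa [← this]
          · exact h1
        simp only [dvd_mul_right, true_and, this, hmul]
        split_ifs <;> simp
      · intro I hI
        have : P.asIdeal ∣ I := by
          by_contra hn
          exact hI (by simp [hn])
        obtain ⟨J, rfl⟩ := this
        exact ⟨J, rfl⟩
    simp_rw [e1]
    rw [(hsum _).tsum_sub (hsum _), e2]
    ring

open Classical in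
theorem sieve_tendsto (h : Ideal (𝓞 F) → ℂ) (hmul : ∀ I J, h (I * J) = h I * h J)
    (hs : Summable fun I => ‖h I‖) (h0 : h ⊥ = 0) (h1 : h ⊤ = 1) :
    Tendsto (fun T : Finset (HeightOneSpectrum (𝓞 F)) =>
      (∑' I, h I) * ∏ P ∈ T, (1 - h P.asIdeal)) atTop (𝓝 1) := by
  simp_rw [← sieve_finite h hmul hs.of_norm]
  have e : (1 : ℂ) = ∑' I : Ideal (𝓞 F), if I = ⊤ then h I else 0 := by
    rw [tsum_ite_eq, h1]
  rw [e]
  refine tendsto_tsum_of_dominated_convergence hs (fun I => ?_) (Eventually.of_forall ?_)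
  · by_cases hI : I = ⊤
    · subst hI
      have : ∀ T : Finset (HeightOneSpectrum (𝓞 F)), ∀ P ∈ T, ¬ P.asIdeal ∣ ⊤ := by
        intro T P _ hd
        exact P.isPrime.ne_top (top_le_iff.mp (Ideal.le_of_dvd hd))
      simp only [if_true]
      refine tendsto_const_nhds.congr fun T => ?_
      rw [if_pos (this T)]
    · by_cases hb : I = ⊥
      · subst hb; simp [h0]
      · obtain ⟨M, hM, hIM⟩ := Ideal.exists_le_maximal I hI
        have hM0 : M ≠ ⊥ := by
          rintro rfl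
          exact hb (le_bot_iff.mp hIM)
        let P : HeightOneSpectrum (𝓞 F) := ⟨M, hM.isPrime, hM0⟩
        rw [if_neg hI]
        refine tendsto_const_nhds.congr' ?_
        filter_upwards [eventually_ge_atTop ({P} : Finset _)] with T hT
        rw [if_neg]
        intro hh
        exact hh P (hT (Finset.mem_singleton_self P)) (Ideal.dvd_iff_le.mpr hIM)
  · intro T I
    split_ifs <;> simp

theorem norm_one_sub_le (z : ℂ) : ‖1 - z‖ ≤ Real.exp (-z.re + ‖z‖ ^ 2 / 2) := by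
  have h1 : ‖1 - z‖ ^ 2 = 1 + (-2 * z.re + ‖z‖ ^ 2) := by
    rw [Complex.sq_norm, Complex.sq_norm, Complex.normSq_apply, Complex.normSq_apply]
    simp only [Complex.sub_re, Complex.one_re, Complex.sub_im, Complex.one_im]
    ring
  have h2 : Real.exp (-z.re + ‖z‖ ^ 2 / 2) ^ 2 = Real.exp (-2 * z.re + ‖z‖ ^ 2) := by
    rw [← Real.exp_nat_mul]; congr 1; push_cast; ring
  have h3 := Real.add_one_le_exp (-2 * z.re + ‖z‖ ^ 2)
  exact pow_le_pow_left₀ (norm_nonneg _) le_rfl 2 |> fun _ =>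
    abs_le_of_sq_le_sq' (by rw [h1, h2]; linarith) (Real.exp_pos _).le |>.2

theorem exp_le_norm_one_sub (z : ℂ) (hz : ‖z‖ ≤ 1 / 2) : Real.exp (-(2 * ‖z‖)) ≤ ‖1 - z‖ := by
  have h0 := norm_nonneg z
  have h1 : 1 - ‖z‖ ≤ ‖1 - z‖ := by simpa using norm_sub_norm_le (1 : ℂ) z
  refine le_trans ?_ h1
  have h2 := Real.add_one_le_exp (2 * ‖z‖)
  rw [Real.exp_neg, inv_le_comm₀ (Real.exp_pos _) (by linarith)]
  refine le_trans ?_ h2
  rw [inv_eq_one_div, div_le_iff₀ (by linarith)]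
  nlinarith

omit [NumberField F] in
theorem summable_primes {E : Type} [NormedAddCommGroup E] [CompleteSpace E]
    {g : Ideal (𝓞 F) → E} (hg : Summable g) :
    Summable fun P : HeightOneSpectrum (𝓞 F) => g P.asIdeal :=
  hg.comp_injective (i := fun P : HeightOneSpectrum (𝓞 F) => P.asIdeal)
    fun _ _ h => HeightOneSpectrum.ext h

/-- upper bound for the real part of the prime sum. -/
theorem sieve_upper (h : Ideal (𝓞 F) → ℂ) (hmul : ∀ I J, h (I * J) = h I * h J)
    (hs : Summable fun I => ‖h I‖) (h0 : h ⊥ = 0) (h1 : h ⊤ = 1)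
    (b : Ideal (𝓞 F) → ℝ) (hb : Summable b) (hhb : ∀ I, ‖h I‖ ^ 2 ≤ b I) :
    Real.exp (∑' P : HeightOneSpectrum (𝓞 F), (h P.asIdeal).re) ≤
      ‖∑' I, h I‖ * Real.exp ((∑' I, b I) / 2) := by
  have hb0 : ∀ I, 0 ≤ b I := fun I => (sq_nonneg _).trans (hhb I)
  have t1 := (sieve_tendsto h hmul hs h0 h1).norm
  have hre : Summable fun P : HeightOneSpectrum (𝓞 F) => (h P.asIdeal).re :=
    Summable.of_norm_bounded (summable_primes hs) fun P => Complex.abs_re_le_norm _
  have t2 : Tendsto (fun T : Finset (HeightOneSpectrum (𝓞 F)) => ‖∑' I, h I‖ *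
      Real.exp (-(∑ P ∈ T, (h P.asIdeal).re) + (∑' I, b I) / 2)) atTop
      (𝓝 (‖∑' I, h I‖ * Real.exp (-(∑' P : HeightOneSpectrum (𝓞 F), (h P.asIdeal).re) +
        (∑' I, b I) / 2))) :=
    ((Real.continuous_exp.tendsto _).comp
      ((Tendsto.neg (f := fun T : Finset (HeightOneSpectrum (𝓞 F)) => ∑ P ∈ T, (h P.asIdeal).re)
        hre.hasSum).add_const _)).const_mul _
  have key : (‖(1 : ℂ)‖ : ℝ) ≤ ‖∑' I, h I‖ *
      Real.exp (-(∑' P : HeightOneSpectrum (𝓞 F), (h P.asIdeal).re) + (∑' I, b I) / 2) := by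
    refine le_of_tendsto_of_tendsto' t1 t2 fun T => ?_
    rw [norm_mul, norm_prod]
    gcongr
    calc ∏ P ∈ T, ‖1 - h P.asIdeal‖
        ≤ ∏ P ∈ T, Real.exp (-(h P.asIdeal).re + ‖h P.asIdeal‖ ^ 2 / 2) :=
          Finset.prod_le_prod (fun _ _ => norm_nonneg _) fun P _ => norm_one_sub_le _
      _ = Real.exp (-(∑ P ∈ T, (h P.asIdeal).re) + (∑ P ∈ T, ‖h P.asIdeal‖ ^ 2) / 2) := by
          rw [← Real.exp_sum, Finset.sum_add_distrib, Finset.sum_neg_distrib, Finset.sum_div]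
      _ ≤ _ := by
          gcongr
          calc ∑ P ∈ T, ‖h P.asIdeal‖ ^ 2 ≤ ∑ P ∈ T, b P.asIdeal :=
                Finset.sum_le_sum fun P _ => hhb _
            _ ≤ ∑' P : HeightOneSpectrum (𝓞 F), b P.asIdeal :=
                (summable_primes hb).sum_le_tsum _ fun _ _ => hb0 _
            _ ≤ ∑' I, b I :=
                tsum_comp_le_tsum_of_inj hb hb0 fun _ _ h => HeightOneSpectrum.ext h
  rw [norm_one, Real.exp_add, Real.exp_neg] at key
  have hp := Real.exp_pos (∑' P : HeightOneSpectrum (𝓞 F), (h P.asIdeal).re)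
  calc _ = Real.exp (∑' P : HeightOneSpectrum (𝓞 F), (h P.asIdeal).re) * 1 := (mul_one _).symm
    _ ≤ Real.exp (∑' P : HeightOneSpectrum (𝓞 F), (h P.asIdeal).re) * (‖∑' I, h I‖ *
      ((Real.exp (∑' P : HeightOneSpectrum (𝓞 F), (h P.asIdeal).re))⁻¹ *
        Real.exp ((∑' I, b I) / 2))) := by gcongr
    _ = _ := by field_simp

/-- lower bound for the prime sum. -/
theorem sieve_lower (h : Ideal (𝓞 F) → ℂ) (hmul : ∀ I J, h (I * J) = h I * h J)
    (hs : Summable fun I => ‖h I‖) (h0 : h ⊥ = 0) (h1 : h ⊤ = 1)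
    (hh : ∀ P : HeightOneSpectrum (𝓞 F), ‖h P.asIdeal‖ ≤ 1 / 2) :
    ‖∑' I, h I‖ ≤ Real.exp (2 * ∑' P : HeightOneSpectrum (𝓞 F), ‖h P.asIdeal‖) := by
  have t1 := (sieve_tendsto h hmul hs h0 h1).norm
  have key : ‖∑' I, h I‖ * Real.exp (-(2 * ∑' P : HeightOneSpectrum (𝓞 F), ‖h P.asIdeal‖)) ≤
      ‖(1 : ℂ)‖ := by
    refine ge_of_tendsto' t1 fun T => ?_
    rw [norm_mul, norm_prod]
    gcongr
    calc Real.exp (-(2 * ∑' P : HeightOneSpectrum (𝓞 F), ‖h P.asIdeal‖))
        ≤ Real.exp (∑ P ∈ T, -(2 * ‖h P.asIdeal‖)) := by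
          rw [Finset.sum_neg_distrib, ← Finset.mul_sum]
          gcongr
          exact (summable_primes hs).sum_le_tsum _ fun _ _ => norm_nonneg _
      _ = ∏ P ∈ T, Real.exp (-(2 * ‖h P.asIdeal‖)) := Real.exp_sum _ _
      _ ≤ _ := Finset.prod_le_prod (fun _ _ => (Real.exp_pos _).le)
          fun P _ => exp_le_norm_one_sub _ (hh P)
  rw [norm_one, Real.exp_neg] at key
  rwa [← div_eq_mul_inv, div_le_one (Real.exp_pos _)] at key

/-- the weight `N(I)^(-s)`. -/
noncomputable def nw (s : ℝ) (I : Ideal (𝓞 F)) : ℝ := (Ideal.absNorm I : ℝ) ^ (-s)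

theorem nw_nonneg (s : ℝ) (I : Ideal (𝓞 F)) : 0 ≤ nw s I := by unfold nw; positivity

theorem nw_mul (s : ℝ) (I J : Ideal (𝓞 F)) : nw s (I * J) = nw s I * nw s J := by
  unfold nw
  rw [map_mul, Nat.cast_mul, Real.mul_rpow (Nat.cast_nonneg _) (Nat.cast_nonneg _)]

theorem nw_bot {s : ℝ} (hs : 0 < s) : nw s (⊥ : Ideal (𝓞 F)) = 0 := by
  unfold nw
  rw [Ideal.absNorm_bot, Nat.cast_zero, Real.zero_rpow (by linarith)]

theorem nw_top (s : ℝ) : nw s (⊤ : Ideal (𝓞 F)) = 1 := by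
  unfold nw
  rw [Ideal.absNorm_top, Nat.cast_one, Real.one_rpow]

theorem nw_anti {s t : ℝ} (hs : 0 < s) (hst : s ≤ t) (I : Ideal (𝓞 F)) : nw t I ≤ nw s I := by
  by_cases hI : I = ⊥
  · subst hI; rw [nw_bot hs, nw_bot (by linarith)]
  · unfold nw
    refine Real.rpow_le_rpow_of_exponent_le ?_ (by linarith)
    exact_mod_cast Nat.one_le_iff_ne_zero.mpr (Ideal.absNorm_eq_zero_iff.not.mpr hI)

theorem nw_le_one {s : ℝ} (hs : 0 < s) (I : Ideal (𝓞 F)) : nw s I ≤ 1 := by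
  by_cases hI : I = ⊥
  · subst hI; rw [nw_bot hs]; exact zero_le_one
  · unfold nw
    refine Real.rpow_le_one_of_one_le_of_nonpos ?_ (by linarith)
    exact_mod_cast Nat.one_le_iff_ne_zero.mpr (Ideal.absNorm_eq_zero_iff.not.mpr hI)

theorem nw_prime_le {s : ℝ} (hs : 1 ≤ s) (P : HeightOneSpectrum (𝓞 F)) :
    nw s P.asIdeal ≤ 1 / 2 := by
  refine (nw_anti one_pos hs _).trans ?_
  unfold nw
  have h2 : 2 ≤ Ideal.absNorm P.asIdeal := by
    have h0 : Ideal.absNorm P.asIdeal ≠ 0 := Ideal.absNorm_eq_zero_iff.not.mpr P.ne_bot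
    have h1 : Ideal.absNorm P.asIdeal ≠ 1 := Ideal.absNorm_eq_one_iff.not.mpr P.isPrime.ne_top
    omega
  have h2' : (2 : ℝ) ≤ Ideal.absNorm P.asIdeal := by exact_mod_cast h2
  rw [Real.rpow_neg_one, ← one_div]
  exact one_div_le_one_div_of_le two_pos h2'

theorem hasSum_fiber_norm (s : ℝ) (n : ℕ) :
    HasSum (fun I : {I : Ideal (𝓞 F) // Ideal.absNorm I = n} => nw s I.1)
      ((Nat.card {I : Ideal (𝓞 F) // Ideal.absNorm I = n} : ℝ) * (n : ℝ) ^ (-s)) := by
  have : Finite {I : Ideal (𝓞 F) // Ideal.absNorm I = n} :=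
    (Ideal.finite_setOfPred_absNorm_eq n).to_subtype
  have := Fintype.ofFinite {I : Ideal (𝓞 F) // Ideal.absNorm I = n}
  have : ∀ I : {I : Ideal (𝓞 F) // Ideal.absNorm I = n}, nw s I.1 = (n : ℝ) ^ (-s) := by
    intro I; unfold nw; rw [I.2]
  simp_rw [this]
  convert hasSum_fintype (fun _ : {I : Ideal (𝓞 F) // Ideal.absNorm I = n} => (n : ℝ) ^ (-s))
  simp

theorem term_eq {s : ℝ} (hs : 0 < s) (n : ℕ) :
    LSeries.term (fun n => (Nat.card {I : Ideal (𝓞 F) // Ideal.absNorm I = n} : ℂ)) s n =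
      (((Nat.card {I : Ideal (𝓞 F) // Ideal.absNorm I = n} : ℝ) * (n : ℝ) ^ (-s) : ℝ) : ℂ) := by
  rcases Nat.eq_zero_or_pos n with rfl | hn
  · simp [Real.zero_rpow (show -s ≠ 0 by linarith)]
  · rw [LSeries.term_of_ne_zero hn.ne', Real.rpow_neg (Nat.cast_nonneg _)]
    push_cast
    rw [Complex.ofReal_cpow (Nat.cast_nonneg _)]
    simp [div_eq_mul_inv]

theorem zeta_eventually : ∀ᶠ s : ℝ in 𝓝[>] 1,
    dedekindZeta_residue F / 2 ≤ (s - 1) * ‖dedekindZeta F s‖ := by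
  have t := (tendsto_sub_one_mul_dedekindZeta_nhdsGT F).norm
  have hp := dedekindZeta_residue_pos F
  rw [Complex.norm_real, Real.norm_of_nonneg hp.le] at t
  filter_upwards [t.eventually (lt_mem_nhds (show dedekindZeta_residue F / 2 <
    dedekindZeta_residue F by linarith)), self_mem_nhdsWithin] with s h1 h2
  have h2' : (1 : ℝ) < s := h2
  rw [norm_mul] at h1
  have : ‖(s : ℂ) - 1‖ = s - 1 := by
    rw [← Complex.ofReal_one, ← Complex.ofReal_sub, Complex.norm_real,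
      Real.norm_of_nonneg (by linarith)]
  rw [this] at h1
  exact h1.le

theorem summable_nw {s : ℝ} (hs : 1 < s) : Summable (nw s : Ideal (𝓞 F) → ℝ) := by
  have hp := dedekindZeta_residue_pos F
  obtain ⟨t, h1, h2, h3⟩ : ∃ t : ℝ, dedekindZeta_residue F / 2 ≤ (t - 1) * ‖dedekindZeta F t‖ ∧
      1 < t ∧ t < s := by
    have := (zeta_eventually (F := F)).and (Ioo_mem_nhdsGT hs)
    obtain ⟨t, h1, h2⟩ := this.exists
    exact ⟨t, h1, h2.1, h2.2⟩
  refine Summable.of_nonneg_of_le (nw_nonneg s) (nw_anti (by linarith) h3.le) ?_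
  have hsum : Summable fun n : ℕ =>
      (Nat.card {I : Ideal (𝓞 F) // Ideal.absNorm I = n} : ℝ) * (n : ℝ) ^ (-t) := by
    by_contra hn
    have : dedekindZeta F t = 0 := by
      unfold dedekindZeta LSeries
      simp_rw [term_eq (show 0 < t by linarith)]
      rw [← Complex.ofReal_tsum, tsum_eq_zero_of_not_summable hn, Complex.ofReal_zero]
    rw [this] at h1
    simp at h1
    linarith
  rw [← (Equiv.sigmaFiberEquiv (Ideal.absNorm : Ideal (𝓞 F) → ℕ)).summable_iff]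
  refine (summable_sigma_of_nonneg fun x => nw_nonneg _ _).mpr ⟨fun n => ?_, ?_⟩
  · exact (hasSum_fiber_norm t n).summable
  · refine hsum.congr fun n => ?_
    exact (hasSum_fiber_norm t n).tsum_eq.symm

theorem tsum_nw {s : ℝ} (hs : 1 < s) :
    ((∑' I : Ideal (𝓞 F), nw s I : ℝ) : ℂ) = dedekindZeta F s := by
  have h1 := (summable_nw (F := F) hs).hasSum
  rw [← (Equiv.sigmaFiberEquiv (Ideal.absNorm : Ideal (𝓞 F) → ℕ)).hasSum_iff] at h1
  have h2 := h1.sigma fun n => hasSum_fiber_norm s n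
  unfold dedekindZeta LSeries
  simp_rw [term_eq (show 0 < s by linarith)]
  rw [← Complex.ofReal_tsum, h2.tsum_eq]

/-- The sum over primes is unbounded as `s` tends to one. -/
theorem prime_sum_unbounded (C : ℝ) : ∃ s : ℝ, 1 < s ∧ s ≤ 2 ∧
    C < ∑' P : HeightOneSpectrum (𝓞 F), nw s P.asIdeal := by
  have hp := dedekindZeta_residue_pos F
  set ρ := dedekindZeta_residue F
  have hδ : (1 : ℝ) < 1 + min 1 (ρ / 2 / Real.exp (2 * C)) := by
    have : 0 < min 1 (ρ / 2 / Real.exp (2 * C)) := lt_min one_pos (by positivity)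
    linarith
  obtain ⟨s, h1, h2, h3⟩ := ((zeta_eventually (F := F)).and (Ioo_mem_nhdsGT hδ)).exists
  have h4 : s - 1 < ρ / 2 / Real.exp (2 * C) := by
    have := min_le_right 1 (ρ / 2 / Real.exp (2 * C)); linarith
  refine ⟨s, h2, by have := min_le_left 1 (ρ / 2 / Real.exp (2 * C)); linarith, ?_⟩
  have key := sieve_lower (F := F) (fun I => (nw s I : ℂ))
    (fun I J => by rw [nw_mul]; push_cast; ring)
    (by simpa [abs_of_nonneg (nw_nonneg s _)] using summable_nw h2)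
    (by simp [nw_bot (show 0 < s by linarith)]) (by simp [nw_top])
    (fun P => by simpa [abs_of_nonneg (nw_nonneg s _)] using nw_prime_le h2.le P)
  rw [← Complex.ofReal_tsum, tsum_nw h2] at key
  simp only [Complex.norm_real, Real.norm_eq_abs, abs_of_nonneg (nw_nonneg s _)] at key
  by_contra hC
  have h5 : ‖dedekindZeta F s‖ ≤ Real.exp (2 * C) :=
    key.trans (Real.exp_le_exp.mpr (by linarith [not_lt.mp hC]))
  rw [lt_div_iff₀ (Real.exp_pos _)] at h4
  have : (s - 1) * ‖dedekindZeta F s‖ ≤ (s - 1) * Real.exp (2 * C) := by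
    gcongr
  linarith

end Pool.Agent.Lib.MP_61a4e3_al
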