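import Mathlib
import Pool.Agent.Lib.MP_61a4e3_al.WDLattice
import Pool.Agent.Lib.MP_61a4e3_al.WDSieve

/-! Boundedness of the twisted ideal sums near `s = 1`. -/

namespace Pool.Agent.Lib.MP_61a4e3_al

open NumberField NumberField.Units IsDedekindDomain

variable {F : Type} [Field F] [NumberField F]

theorem hasSum_Psi_fiber {J : Ideal (𝓞 F)} (hJ : J ≠ ⊥) (hP : J.IsPrincipal) :
    HasSum (fun x : {x : 𝓞 F // Ideal.span {x} = J} => Psi ((x : 𝓞 F) : F)) (torsionOrder F) := by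
  obtain ⟨x0, rfl⟩ := hP
  have hx0 : x0 ≠ 0 := by
    rintro rfl
    exact hJ (by simp)
  let φ : (𝓞 F)ˣ → {x : 𝓞 F // Ideal.span {x} = Submodule.span (𝓞 F) {x0}} :=
    fun u => ⟨u * x0, Ideal.span_singleton_mul_left_unit u.isUnit x0⟩
  have hφ : Function.Bijective φ := by
    constructor
    · intro u v huv
      have := congrArg Subtype.val huv
      exact Units.ext (mul_right_cancel₀ hx0 this)
    · rintro ⟨x, hx⟩
      obtain ⟨u, hu⟩ := (Ideal.span_singleton_eq_span_singleton.mp hx).symm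
      exact ⟨u, Subtype.ext (by simp [φ, ← hu, mul_comm])⟩
  rw [← (Equiv.ofBijective φ hφ).hasSum_iff]
  have := hasSum_Psi (F := F) (x := (x0 : F)) (by simpa using hx0)
  refine this.congr_fun ?_
  intro u
  simp [φ]

open Classical in
theorem hasSum_fiber_gen {𝕜 : Type} [RCLike 𝕜] (g : Ideal (𝓞 F) → 𝕜) (hg : g ⊥ = 0)
    (J : Ideal (𝓞 F)) :
    HasSum (fun x : {x : 𝓞 F // Ideal.span {x} = J} =>
      (Psi ((x : 𝓞 F) : F) : 𝕜) * g (Ideal.span {(x : 𝓞 F)}))
      ((torsionOrder F : 𝕜) * if J.IsPrincipal then g J else 0) := by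
  have e : (fun x : {x : 𝓞 F // Ideal.span {x} = J} =>
      (Psi ((x : 𝓞 F) : F) : 𝕜) * g (Ideal.span {(x : 𝓞 F)})) =
      fun x : {x : 𝓞 F // Ideal.span {x} = J} => (Psi ((x : 𝓞 F) : F) : 𝕜) * g J := by
    funext x; rw [x.2]
  rw [e]
  by_cases hJ : J = ⊥
  · subst hJ; simp [hg, hasSum_zero]
  by_cases hP : J.IsPrincipal
  · rw [if_pos hP]
    have := (RCLike.hasSum_ofReal 𝕜).mpr (hasSum_Psi_fiber hJ hP)
    simpa using this.mul_right (g J)
  · rw [if_neg hP, mul_zero]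
    have : IsEmpty {x : 𝓞 F // Ideal.span {x} = J} := ⟨fun x => hP ⟨x.1, x.2.symm⟩⟩
    exact hasSum_empty

open Classical in
theorem orbit_sum (g : Ideal (𝓞 F) → ℂ) (hg : g ⊥ = 0) (hs : Summable fun J => ‖g J‖) :
    (Summable fun x : 𝓞 F => (Psi (x : F) : ℂ) * g (Ideal.span {x})) ∧
    ∑' x : 𝓞 F, (Psi (x : F) : ℂ) * g (Ideal.span {x}) =
      (torsionOrder F : ℂ) * ∑' J, if J.IsPrincipal then g J else 0 := by
  have h1 : Summable fun x : 𝓞 F => (Psi (x : F) : ℂ) * g (Ideal.span {x}) := by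
    refine Summable.of_norm ?_
    have : ∀ x : 𝓞 F, ‖(Psi (x : F) : ℂ) * g (Ideal.span {x})‖ =
        Psi (x : F) * ‖g (Ideal.span {x})‖ := by
      intro x
      rw [norm_mul, Complex.norm_real, Real.norm_of_nonneg (Psi_nonneg _)]
    simp_rw [this]
    rw [← (Equiv.sigmaFiberEquiv (fun x : 𝓞 F => Ideal.span {x})).summable_iff]
    have hf := fun J => hasSum_fiber_gen (𝕜 := ℝ) (fun J => ‖g J‖) (by simp [hg]) J
    refine (summable_sigma_of_nonneg fun x => mul_nonneg (Psi_nonneg _) (norm_nonneg _)).mpr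
      ⟨fun J => (hf J).summable, ?_⟩
    refine Summable.congr (f := fun J : Ideal (𝓞 F) =>
      (torsionOrder F : ℝ) * if J.IsPrincipal then ‖g J‖ else 0) ?_ fun J => (hf J).tsum_eq.symm
    refine Summable.mul_left _ (Summable.of_nonneg_of_le (fun J => ?_) (fun J => ?_) hs) <;>
      split_ifs <;> simp
  refine ⟨h1, ?_⟩
  have h2 := h1.hasSum
  rw [← (Equiv.sigmaFiberEquiv (fun x : 𝓞 F => Ideal.span {x})).hasSum_iff] at h2
  have h3 := h2.sigma fun J => hasSum_fiber_gen (𝕜 := ℂ) g hg J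
  rw [← h3.tsum_eq, tsum_mul_left]

open Classical in
theorem exists_reps {m : 𝓞 F} (hm : m ≠ 0) {c Y : Ideal (𝓞 F)} (hc : c ≠ ⊥) (hY : Y ≠ ⊥)
    (hYm : IsCoprime Y (Ideal.span {m})) [Fintype (𝓞 F ⧸ Y)] :
    ∃ e : 𝓞 F ⧸ Y → 𝓞 F, (∀ j, m ∣ e j) ∧
      ∀ x : 𝓞 F, (if x ∈ c then (1 : ℂ) else 0) = ∑ j, if x - e j ∈ c * Y then 1 else 0 := by
  have hM : Ideal.span {m} ≠ ⊥ := by simpa using hm
  obtain ⟨γ, hγ⟩ := IsDedekindDomain.exists_sup_span_eq
    (I := c * Ideal.span {m} * Y) (J := c * Ideal.span {m}) Ideal.mul_le_left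
    (mul_ne_zero (mul_ne_zero hc hM) hY)
  have hle : Ideal.span {γ} ≤ c * Ideal.span {m} := hγ ▸ le_sup_right
  obtain ⟨d, hd⟩ := Ideal.dvd_iff_le.mpr hle
  have hYd : IsCoprime Y d := by
    rw [Ideal.isCoprime_iff_sup_eq]
    apply mul_left_cancel₀ (mul_ne_zero hc hM)
    rw [Ideal.mul_sup, ← hd, hγ, Ideal.mul_top]
  have hcop : IsCoprime Y (Ideal.span {m} * d) := hYm.mul_right hYd
  have hsup : c * Y ⊔ Ideal.span {γ} = c := by
    rw [hd, mul_assoc, ← Ideal.mul_sup, Ideal.isCoprime_iff_sup_eq.mp hcop, Ideal.mul_top]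
  have hγc : γ ∈ c := (Ideal.span_singleton_le_iff_mem _).mp (hsup ▸ le_sup_right)
  have hiff : ∀ r : 𝓞 F, r * γ ∈ c * Y ↔ r ∈ Y := by
    intro r
    constructor
    · intro h
      have h1 : c * Y ∣ Ideal.span {r * γ} := Ideal.dvd_span_singleton.mpr h
      rw [← Ideal.span_singleton_mul_span_singleton, hd, mul_comm (Ideal.span {r}), mul_assoc,
        mul_assoc, mul_dvd_mul_iff_left hc, ← mul_assoc] at h1
      exact Ideal.dvd_span_singleton.mp (hcop.dvd_of_dvd_mul_left h1)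
    · intro h
      rw [mul_comm r]
      exact Ideal.mul_mem_mul hγc h
  refine ⟨fun j => Quotient.out j * γ, fun j => Dvd.dvd.mul_left ?_ _, fun x => ?_⟩
  · exact Ideal.mem_span_singleton.mp
      (Ideal.mul_le_right ((Ideal.span_singleton_le_iff_mem _).mp hle))
  by_cases hx : x ∈ c
  · rw [if_pos hx]
    rw [← hsup] at hx
    obtain ⟨y, hy, z, hz, rfl⟩ := Submodule.mem_sup.mp hx
    obtain ⟨r, rfl⟩ := Ideal.mem_span_singleton'.mp hz
    have : ∀ j : 𝓞 F ⧸ Y, (y + r * γ - Quotient.out j * γ ∈ c * Y) ↔ j = Ideal.Quotient.mk Y r := by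
      intro j
      rw [add_sub_assoc, ← sub_mul, Submodule.add_mem_iff_right _ hy, hiff,
        ← Ideal.Quotient.eq, Ideal.Quotient.mk_out, eq_comm]
    simp [this]
  · rw [if_neg hx]
    refine (Finset.sum_eq_zero fun j _ => if_neg fun h => hx ?_).symm
    have h1 : x - Quotient.out j * γ ∈ c := Ideal.mul_le_left h
    simpa using c.add_mem h1 (c.mul_mem_left (Quotient.out j) hγc)

theorem nw_span (s : ℝ) (x : 𝓞 F) : nw s (Ideal.span {x}) = |nr (x : F)| ^ (-s) := by
  unfold nw nr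
  rw [Ideal.absNorm_span_singleton, ← Algebra.coe_norm_int]
  simp

variable [IsTotallyReal F]

open Classical in
theorem class_bound {m : 𝓞 F} (hm : m ≠ 0) (f : Ideal (𝓞 F) → ℂ)
    (fmul : ∀ I J, f (I * J) = f I * f J) (fle : ∀ I, ‖f I‖ ≤ 1)
    (fper : ∀ x e : 𝓞 F, m ∣ e → 0 < nr (x : F) * nr ((x + e : 𝓞 F) : F) →
      f (Ideal.span {x + e}) = f (Ideal.span {x}))
    {c Y : Ideal (𝓞 F)} (hc : c ≠ ⊥) (hfc : ‖f c‖ = 1) (hY : Y ≠ ⊥)
    (hYm : IsCoprime Y (Ideal.span {m})) :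
    ∃ C : ℝ, ∀ s : ℝ, 1 < s → s ≤ 2 → ‖∑' I : Ideal (𝓞 F), if (c * I).IsPrincipal then
      f I * nw s I * (1 - if Y ∣ I then (Ideal.absNorm Y : ℂ) else 0) else 0‖ ≤ C := by
  have := Ideal.finiteQuotientOfFreeOfNeBot Y hY
  have := Fintype.ofFinite (𝓞 F ⧸ Y)
  obtain ⟨e, hem, he⟩ := exists_reps hm hc hY hYm
  choose B hB hBb using fun j => translate_sum (F := F) (e j)
  refine ⟨(∑ j, ∑' x, B j x) / nw 2 c, fun s hs1 hs2 => ?_⟩
  set N : ℂ := (Ideal.absNorm Y : ℂ) with hN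
  set g : Ideal (𝓞 F) → ℂ := fun J => f J * nw s J *
    ((if c ∣ J then 1 else 0) - if c * Y ∣ J then N else 0) with hg
  have hsn : Summable fun J : Ideal (𝓞 F) => ‖f J * nw s J‖ := by
    refine Summable.of_nonneg_of_le (fun _ => norm_nonneg _) (fun J => ?_) (summable_nw hs1)
    rw [norm_mul, Complex.norm_real, Real.norm_of_nonneg (nw_nonneg _ _)]
    exact mul_le_of_le_one_left (nw_nonneg _ _) (fle J)
  have hb : nw s (⊥ : Ideal (𝓞 F)) = 0 := nw_bot (by linarith)
  have hgs : Summable fun J => ‖g J‖ := by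
    refine Summable.of_nonneg_of_le (fun _ => norm_nonneg _) (fun J => ?_)
      (hsn.mul_right (1 + ‖N‖))
    rw [hg, norm_mul]
    gcongr
    refine (norm_sub_le _ _).trans (add_le_add ?_ ?_) <;> split_ifs <;> simp
  obtain ⟨-, h1⟩ := orbit_sum g (by simp [hg, hb]) hgs
  obtain ⟨hA, -⟩ := orbit_sum (fun J => f J * nw s J) (by simp [hb]) hsn
  set A : 𝓞 F → ℂ := fun x => f (Ideal.span {x}) * Fs s (x : F) with hAdef
  have hA' : Summable A := hA.congr fun x => by
    simp only [hAdef, Fs, nw_span]; push_cast; ring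
  -- ideal side
  have hinj : Function.Injective fun J : Ideal (𝓞 F) => c * J :=
    fun J J' hJ => mul_left_cancel₀ hc hJ
  have h2 : ∑' J, (if J.IsPrincipal then g J else 0) = f c * nw s c *
      ∑' I : Ideal (𝓞 F), if (c * I).IsPrincipal then
        f I * nw s I * (1 - if Y ∣ I then N else 0) else 0 := by
    rw [← hinj.tsum_eq, ← tsum_mul_left]
    · refine tsum_congr fun I => ?_
      simp only [hg, dvd_mul_right, if_true, mul_dvd_mul_iff_left hc, fmul, nw_mul]
      split_ifs <;> push_cast <;> ring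
    · intro J hJ
      have : c ∣ J := by
        by_contra hn
        have hn' : ¬ c * Y ∣ J := fun h => hn ((dvd_mul_right c Y).trans h)
        exact hJ (by simp [hg, hn, hn'])
      obtain ⟨I, rfl⟩ := this
      exact ⟨I, rfl⟩
  -- lattice side
  have hind : ∀ (q : 𝓞 F → Prop) [DecidablePred q] (u : 𝓞 F → ℂ), Summable u →
      Summable fun x => u x * if q x then 1 else 0 := by
    intro q _ u hu
    refine (hu.indicator {x | q x}).congr fun x => ?_
    simp [Set.indicator]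
  have h3 : ∑' x : 𝓞 F, (Psi (x : F) : ℂ) * g (Ideal.span {x}) =
      ∑ j, ∑' x : 𝓞 F, (A (x + e j) - A x) * if x ∈ c * Y then 1 else 0 := by
    have e1 : ∀ x : 𝓞 F, (Psi (x : F) : ℂ) * g (Ideal.span {x}) =
        ∑ j, ((A x * if x - e j ∈ c * Y then 1 else 0) - A x * if x ∈ c * Y then 1 else 0) := by
      intro x
      rw [Finset.sum_sub_distrib, ← Finset.mul_sum, ← he]
      simp only [hg, hAdef, Fs, nw_span, Ideal.dvd_span_singleton, Finset.sum_const,
        Finset.card_univ, nsmul_eq_mul, hN, Ideal.absNorm_apply, Submodule.cardQuot_apply,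
        Nat.card_eq_fintype_card]
      split_ifs <;> push_cast <;> ring
    simp_rw [e1]
    rw [Summable.tsum_finsetSum fun j _ => (hind _ _ hA').sub (hind _ _ hA')]
    refine Finset.sum_congr rfl fun j _ => ?_
    have hAe : Summable fun x => A (x + e j) := (Equiv.addRight (e j)).summable_iff.mpr hA'
    rw [(hind _ _ hA').tsum_sub (hind _ _ hA'), ← (Equiv.addRight (e j)).tsum_eq]
    simp only [Equiv.coe_addRight, add_sub_cancel_right, sub_mul]
    rw [(hind _ _ hAe).tsum_sub (hind _ _ hA')]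
  have h4 : ‖∑' x : 𝓞 F, (Psi (x : F) : ℂ) * g (Ideal.span {x})‖ ≤ ∑ j, ∑' x, B j x := by
    rw [h3]
    refine (norm_sum_le _ _).trans (Finset.sum_le_sum fun j _ => ?_)
    refine tsum_of_norm_bounded (hB j).hasSum fun x => ?_
    have := hBb j s hs1.le hs2 (fun x => f (Ideal.span {x})) (fun x => fle _)
      (fun x => fper x (e j) (hem j)) x
    split_ifs
    · rw [mul_one]; exact this
    · rw [mul_zero, norm_zero]; exact (norm_nonneg _).trans this
  rw [h1, h2, norm_mul, norm_mul, norm_mul, hfc, one_mul, Complex.norm_real,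
    Real.norm_of_nonneg (nw_nonneg _ _), Complex.norm_natCast] at h4
  have hpos : 0 < nw 2 c := by
    unfold nw
    exact Real.rpow_pos_of_pos (by
      exact_mod_cast Nat.pos_of_ne_zero (Ideal.absNorm_eq_zero_iff.not.mpr hc)) _
  rw [le_div_iff₀ hpos]
  refine le_trans ?_ h4
  have hw : (1 : ℝ) ≤ torsionOrder F := by exact_mod_cast torsionOrder_pos F
  have := nw_anti (by linarith : 0 < s) hs2 c
  rw [mul_comm]
  refine le_trans ?_ (le_mul_of_one_le_left (mul_nonneg (nw_nonneg _ _) (norm_nonneg _)) hw)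
  gcongr

open Classical in
theorem L_bound {m : 𝓞 F} (hm : m ≠ 0) (f : Ideal (𝓞 F) → ℂ)
    (fmul : ∀ I J, f (I * J) = f I * f J) (fnorm : ∀ I, f I = 0 ∨ ‖f I‖ = 1) (f0 : f ⊥ = 0)
    (f1 : f ⊤ = 1)
    (fper : ∀ x e : 𝓞 F, m ∣ e → 0 < nr (x : F) * nr ((x + e : 𝓞 F) : F) →
      f (Ideal.span {x + e}) = f (Ideal.span {x}))
    {Y : Ideal (𝓞 F)} (hY : Y ≠ ⊥) (hYm : IsCoprime Y (Ideal.span {m})) (hfY : (f Y).re < 1) :
    ∃ C : ℝ, ∀ s : ℝ, 1 < s → s ≤ 2 → ‖∑' I : Ideal (𝓞 F), f I * nw s I‖ ≤ C := by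
  have fle : ∀ I, ‖f I‖ ≤ 1 := fun I => by
    rcases fnorm I with h | h <;> simp [h]
  set N : ℂ := (Ideal.absNorm Y : ℂ) with hN
  let cls : Ideal (𝓞 F) → ClassGroup (𝓞 F) := fun I =>
    if h : I = ⊥ then 1 else ClassGroup.mk0 ⟨I, mem_nonZeroDivisors_of_ne_zero h⟩
  have hcls : ∀ k : ClassGroup (𝓞 F), ∃ C : ℝ, ∀ s : ℝ, 1 < s → s ≤ 2 →
      ‖∑' I : Ideal (𝓞 F), if cls I = k then
        f I * nw s I * (1 - if Y ∣ I then N else 0) else 0‖ ≤ C := by
    intro k
    by_cases hk : ∃ I0, cls I0 = k ∧ f I0 ≠ 0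
    · obtain ⟨I0, hI0, hf0⟩ := hk
      have hne : I0 ≠ ⊥ := by rintro rfl; exact hf0 f0
      set h := Fintype.card (ClassGroup (𝓞 F))
      have hh : 0 < h := Fintype.card_pos
      have hpow : ∀ n : ℕ, ‖f (I0 ^ n)‖ = 1 := by
        intro n
        induction n with
        | zero => simp [f1]
        | succ n ih => rw [pow_succ, fmul, norm_mul, ih, (fnorm I0).resolve_left hf0, one_mul]
      have hc : I0 ^ (h - 1) ≠ ⊥ := pow_ne_zero _ hne
      obtain ⟨C, hC⟩ := class_bound hm f fmul fle fper hc (hpow _) hY hYm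
      refine ⟨C, fun s hs1 hs2 => le_of_eq_of_le (congrArg _ (tsum_congr fun I => ?_))
        (hC s hs1 hs2)⟩
      by_cases hI : I = ⊥
      · subst hI; simp [f0]
      have : cls I = k ↔ (I0 ^ (h - 1) * I).IsPrincipal := by
        rw [← ClassGroup.mk0_eq_one_iff (mem_nonZeroDivisors_of_ne_zero (mul_ne_zero hc hI))]
        have e : (⟨I0 ^ (h - 1) * I, mem_nonZeroDivisors_of_ne_zero (mul_ne_zero hc hI)⟩ :
            nonZeroDivisors (Ideal (𝓞 F))) =
            ⟨I0, mem_nonZeroDivisors_of_ne_zero hne⟩ ^ (h - 1) *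
              ⟨I, mem_nonZeroDivisors_of_ne_zero hI⟩ := rfl
        rw [e, map_mul, map_pow]
        simp only [cls, dif_neg hI, dif_neg hne] at hI0 ⊢
        rw [hI0]
        have e2 : k ^ (h - 1) = k⁻¹ := by
          rw [eq_inv_iff_mul_eq_one, ← pow_succ, Nat.sub_add_cancel hh, pow_card_eq_one]
        rw [e2, inv_mul_eq_one, eq_comm]
      simp only [this, hN]
    · refine ⟨0, fun s _ _ => ?_⟩
      have : ∀ I : Ideal (𝓞 F), (if cls I = k then
          f I * nw s I * (1 - if Y ∣ I then N else 0) else 0) = 0 := by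
        intro I
        split_ifs with h1
        all_goals first
          | rfl
          | (have : f I = 0 := by
              by_contra hn
              exact hk ⟨I, h1, hn⟩
             simp [this])
      simp [this]
  choose C hC using hcls
  have hδ : 0 < min 1 (1 - (f Y).re) := lt_min one_pos (by linarith)
  refine ⟨(∑ k, C k) / min 1 (1 - (f Y).re), fun s hs1 hs2 => ?_⟩
  have hsn : Summable fun J : Ideal (𝓞 F) => f J * nw s J := by
    refine Summable.of_norm_bounded (summable_nw hs1) (fun J => ?_)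
    rw [norm_mul, Complex.norm_real, Real.norm_of_nonneg (nw_nonneg _ _)]
    exact mul_le_of_le_one_left (nw_nonneg _ _) (fle J)
  have hind : ∀ (q : Ideal (𝓞 F) → Prop) [DecidablePred q] (u : Ideal (𝓞 F) → ℂ), Summable u →
      Summable fun x => if q x then u x else 0 := by
    intro q _ u hu
    refine (hu.indicator {x | q x}).congr fun x => ?_
    simp [Set.indicator]
  have e0 : ∀ I : Ideal (𝓞 F), f I * nw s I * (1 - if Y ∣ I then N else 0) =
      f I * nw s I - N * if Y ∣ I then f I * nw s I else 0 := by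
    intro I; split_ifs <;> ring
  have hsD : Summable fun I : Ideal (𝓞 F) => f I * nw s I * (1 - if Y ∣ I then N else 0) := by
    simp_rw [e0]
    exact hsn.sub ((hind _ _ hsn).mul_left N)
  have h1 : ‖∑' I : Ideal (𝓞 F), f I * nw s I * (1 - if Y ∣ I then N else 0)‖ ≤ ∑ k, C k := by
    have : ∀ I : Ideal (𝓞 F), f I * nw s I * (1 - if Y ∣ I then N else 0) =
        ∑ k, if cls I = k then f I * nw s I * (1 - if Y ∣ I then N else 0) else 0 := by
      intro I; simp
    rw [tsum_congr this, Summable.tsum_finsetSum fun k _ => hind _ _ hsD]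
    exact (norm_sum_le _ _).trans (Finset.sum_le_sum fun k _ => hC k s hs1 hs2)
  have hinj : Function.Injective fun J : Ideal (𝓞 F) => Y * J :=
    fun J J' hJ => mul_left_cancel₀ hY hJ
  have h2 : ∑' I : Ideal (𝓞 F), (if Y ∣ I then f I * nw s I else 0) =
      f Y * nw s Y * ∑' I : Ideal (𝓞 F), f I * nw s I := by
    rw [← hinj.tsum_eq, ← tsum_mul_left]
    · refine tsum_congr fun I => ?_
      simp only [dvd_mul_right, if_true, fmul, nw_mul]
      push_cast; ring
    · intro J hJ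
      have : Y ∣ J := by
        by_contra hn
        exact hJ (by simp [hn])
      obtain ⟨I, rfl⟩ := this
      exact ⟨I, rfl⟩
  simp_rw [e0] at h1
  rw [hsn.tsum_sub ((hind _ _ hsn).mul_left N), tsum_mul_left, h2] at h1
  set t : ℝ := (Ideal.absNorm Y : ℝ) * nw s Y with ht
  have ht0 : 0 ≤ t := mul_nonneg (Nat.cast_nonneg _) (nw_nonneg _ _)
  have ht1 : t ≤ 1 := by
    have h0 : (0 : ℝ) < Ideal.absNorm Y := by
      exact_mod_cast Nat.pos_of_ne_zero (Ideal.absNorm_eq_zero_iff.not.mpr hY)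
    calc t ≤ (Ideal.absNorm Y : ℝ) * nw 1 Y := by
          rw [ht]; gcongr; exact nw_anti one_pos hs1.le Y
      _ = 1 := by unfold nw; rw [Real.rpow_neg_one, mul_inv_cancel₀ h0.ne']
  have e3 : (∑' I : Ideal (𝓞 F), f I * nw s I) - N * (f Y * nw s Y *
      ∑' I : Ideal (𝓞 F), f I * nw s I) = (∑' I : Ideal (𝓞 F), f I * nw s I) * (1 - t * f Y) := by
    rw [ht, hN]; push_cast; ring
  rw [e3, norm_mul] at h1
  rw [le_div_iff₀ hδ]
  refine le_trans ?_ h1
  gcongr
  refine le_trans ?_ (Complex.re_le_norm _)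
  simp only [Complex.sub_re, Complex.one_re, Complex.re_ofReal_mul]
  rcases le_total 0 (f Y).re with h | h
  · exact (min_le_right _ _).trans (by nlinarith)
  · exact (min_le_left _ _).trans (by nlinarith)

end Pool.Agent.Lib.MP_61a4e3_al
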