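import Mathlib

/-! Finite group lemma for the weak Dirichlet theorem. -/

namespace Pool.Agent.Lib.MP_61a4e3_al

open Finset

theorem wd_group_add {A : Type} [AddCommGroup A] [Fintype A] [Nontrivial A] {ι : Type}
    (S : ι → A → ℝ) (hS : ∀ s a, 0 ≤ S s a)
    (h1 : ∀ η : AddChar A ℂ, η ≠ 1 → ∃ C : ℝ, ∀ s, ∑ a, (η a).re * S s a ≤ C)
    (h2 : ∀ C : ℝ, ∃ s, C < ∑ a, S s a) :
    ∃ η : AddChar A ℂ, η ≠ 1 ∧ ∀ a, (∀ s, S s a = 0) → (∀ s, S s (-a) = 0) → η a = 1 := by
  classical
  by_contra hcon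
  push Not at hcon
  set T : AddChar A ℂ → ι → ℝ := fun η s => ∑ a, (η a).re * S s a with hT
  have hnorm : ∀ (η : AddChar A ℂ) (a : A), ‖η a‖ = 1 := fun η a => AddChar.norm_apply η a
  have hre : ∀ (η : AddChar A ℂ) (a : A), |(η a).re| ≤ 1 := fun η a =>
    (Complex.abs_re_le_norm _).trans (hnorm η a).le
  -- orthogonality
  have horth : ∀ (a b : A), ∑ η : AddChar A ℂ, (η a).re * (η b).re =
      ((if a + b = 0 then (Fintype.card A : ℝ) else 0) +
        (if a - b = 0 then (Fintype.card A : ℝ) else 0)) / 2 := by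
    intro a b
    have e : ∀ η : AddChar A ℂ, (η a).re * (η b).re = ((η (a + b)).re + (η (a - b)).re) / 2 := by
      intro η
      rw [sub_eq_add_neg, AddChar.map_add_eq_mul, AddChar.map_add_eq_mul,
        AddChar.map_neg_eq_conj]
      simp only [Complex.mul_re, Complex.conj_re, Complex.conj_im]
      ring
    simp_rw [e]
    rw [← Finset.sum_div, Finset.sum_add_distrib, ← Complex.re_sum, ← Complex.re_sum,
      AddChar.sum_apply_eq_ite, AddChar.sum_apply_eq_ite]
    congr 2 <;> split_ifs <;> simp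
  have hsum : ∀ s (b : A), ∑ η : AddChar A ℂ, T η s * (η b).re =
      (Fintype.card A : ℝ) * (S s (-b) + S s b) / 2 := by
    intro s b
    simp only [hT, Finset.sum_mul]
    rw [Finset.sum_comm]
    have : ∀ a : A, ∑ η : AddChar A ℂ, (η a).re * S s a * (η b).re =
        ((if a = -b then (Fintype.card A : ℝ) * S s a else 0) +
          (if a = b then (Fintype.card A : ℝ) * S s a else 0)) / 2 := by
      intro a
      have : ∑ η : AddChar A ℂ, (η a).re * S s a * (η b).re =
          (∑ η : AddChar A ℂ, (η a).re * (η b).re) * S s a := by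
        rw [Finset.sum_mul]; exact Finset.sum_congr rfl fun _ _ => by ring
      rw [this, horth]
      simp only [add_eq_zero_iff_eq_neg, sub_eq_zero]
      split_ifs <;> ring
    simp_rw [this]
    rw [← Finset.sum_div, Finset.sum_add_distrib, Finset.sum_ite_eq', Finset.sum_ite_eq']
    simp only [Finset.mem_univ, if_true]
    ring
  -- uniform upper bound
  obtain ⟨C, hC0, hC⟩ : ∃ C : ℝ, 0 ≤ C ∧ ∀ η : AddChar A ℂ, η ≠ 1 → ∀ s, T η s ≤ C := by
    have : ∀ η : AddChar A ℂ, ∃ C : ℝ, η ≠ 1 → ∀ s, T η s ≤ C := by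
      intro η
      by_cases h : η = 1
      · exact ⟨0, fun h' => absurd h h'⟩
      · obtain ⟨C, hC⟩ := h1 η h
        exact ⟨C, fun _ => hC⟩
    choose c hc using this
    refine ⟨∑ η, |c η|, Finset.sum_nonneg fun _ _ => abs_nonneg _, fun η hη s => ?_⟩
    exact (hc η hη s).trans ((le_abs_self _).trans
      (Finset.single_le_sum (f := fun η => |c η|) (fun _ _ => abs_nonneg _) (Finset.mem_univ η)))
  -- lower bounds
  have hlow : ∀ η : AddChar A ℂ, ∃ B : ℝ, η ≠ 1 → ∀ s, |T η s| ≤ B := by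
    intro η
    by_cases hη : η = 1
    · exact ⟨0, fun h => absurd hη h⟩
    obtain ⟨a, ha1, ha2, ha3⟩ := hcon η hη
    have hlt : (η a).re < 1 := by
      have h1 := hnorm η a
      by_contra hge
      apply ha3
      have h2 : (η a).re = 1 := le_antisymm ((le_abs_self _).trans (hre η a)) (not_lt.mp hge)
      have h3 : (η a).im = 0 := by
        have := Complex.sq_norm (η a)
        rw [h1, Complex.normSq_apply, h2] at this
        nlinarith
      exact Complex.ext h2 h3
    refine ⟨C + 2 * C * (Fintype.card (AddChar A ℂ)) / (1 - (η a).re), fun _ s => ?_⟩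
    have e1 := hsum s a
    have e2 := hsum s 0
    rw [ha1, ha2] at e1
    simp only [AddChar.map_zero_eq_one, Complex.one_re, mul_one, neg_zero] at e2
    have e3 : 0 ≤ ∑ ψ : AddChar A ℂ, T ψ s * (1 - (ψ a).re) := by
      simp only [mul_sub, mul_one, Finset.sum_sub_distrib, e1, e2]
      have := hS s 0
      have : (0 : ℝ) ≤ Fintype.card A := Nat.cast_nonneg _
      have : 0 ≤ (Fintype.card A : ℝ) * (S s 0 + S s 0) := by positivity
      linarith
    have e4 : ∀ ψ : AddChar A ℂ, T ψ s * (1 - (ψ a).re) ≤ 2 * C := by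
      intro ψ
      by_cases hψ : ψ = 1
      · subst hψ; simp; positivity
      · have := hC ψ hψ s
        have h5 := abs_le.mp (hre ψ a)
        nlinarith
    have e5 : ∑ ψ : AddChar A ℂ, T ψ s * (1 - (ψ a).re) ≤
        T η s * (1 - (η a).re) + 2 * C * (Fintype.card (AddChar A ℂ)) := by
      rw [← Finset.add_sum_erase _ _ (Finset.mem_univ η)]
      gcongr
      calc ∑ ψ ∈ Finset.univ.erase η, T ψ s * (1 - (ψ a).re)
          ≤ ∑ ψ ∈ Finset.univ.erase η, 2 * C := Finset.sum_le_sum fun ψ _ => e4 ψ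
        _ ≤ ∑ ψ : AddChar A ℂ, 2 * C :=
          Finset.sum_le_sum_of_subset_of_nonneg (Finset.erase_subset _ _) fun _ _ _ => by positivity
        _ = _ := by simp [mul_comm]
    have hpos : 0 < 1 - (η a).re := by linarith
    have e6 : -(2 * C * (Fintype.card (AddChar A ℂ)) / (1 - (η a).re)) ≤ T η s := by
      rw [← neg_div, div_le_iff₀ hpos]; linarith
    have e7 : 0 ≤ 2 * C * (Fintype.card (AddChar A ℂ)) / (1 - (η a).re) := by positivity
    rw [abs_le]
    constructor
    · linarith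
    · linarith [hC η hη s]
  choose B hB using hlow
  obtain ⟨a0, ha0⟩ := exists_ne (0 : A)
  obtain ⟨η0, hη0⟩ := AddChar.exists_apply_ne_zero.mpr ha0
  have hη0' : η0 ≠ 1 := by rintro rfl; simp at hη0
  obtain ⟨a, ha1, ha2, -⟩ := hcon η0 hη0'
  obtain ⟨s, hs⟩ := h2 (∑ η, |B η|)
  have e1 := hsum s a
  rw [ha1, ha2, ← Finset.add_sum_erase _ _ (Finset.mem_univ (1 : AddChar A ℂ))] at e1
  have e2 : T 1 s = ∑ a, S s a := by simp [hT]
  have e3 : -(∑ η, |B η|) ≤ ∑ η ∈ Finset.univ.erase (1 : AddChar A ℂ), T η s * (η a).re := by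
    calc -(∑ η, |B η|) ≤ -(∑ η ∈ Finset.univ.erase (1 : AddChar A ℂ), |B η|) :=
          neg_le_neg (Finset.sum_le_sum_of_subset_of_nonneg (Finset.erase_subset _ _)
            fun _ _ _ => abs_nonneg _)
      _ = ∑ η ∈ Finset.univ.erase (1 : AddChar A ℂ), -|B η| := by rw [Finset.sum_neg_distrib]
      _ ≤ _ := by
        refine Finset.sum_le_sum fun η hη => ?_
        have h5 := hB η (Finset.ne_of_mem_erase hη) s
        have h6 : |T η s * (η a).re| ≤ |B η| := by
          rw [abs_mul]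
          calc |T η s| * |(η a).re| ≤ |B η| * 1 :=
                mul_le_mul (h5.trans (le_abs_self _)) (hre η a) (abs_nonneg _) (abs_nonneg _)
            _ = _ := mul_one _
        exact (abs_le.mp h6).1
  simp only [AddChar.one_apply, Complex.one_re, mul_one, e2] at e1
  linarith

end Pool.Agent.Lib.MP_61a4e3_al
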