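import Mathlib
import Pool.Agent.Lib.MP_61a4e3_al.WDGroup
import Pool.Agent.Lib.MP_61a4e3_al.WDBound

/-! Weak Dirichlet theorem for norm-positive ray classes of a totally real field. -/

namespace Pool.Agent.Lib.MP_61a4e3_al

open NumberField IsDedekindDomain

theorem nr_int {F : Type} [Field F] [NumberField F] (x : 𝓞 F) :
    nr (x : F) = ((Algebra.norm ℤ x : ℤ) : ℝ) := by
  unfold nr
  rw [← Algebra.coe_norm_int]; simp

theorem cl_periodic {F : Type} [Field F] [NumberField F]
    {m : 𝓞 F} (hm : m ≠ 0) {G : Type} [CommGroup G] (cl : Ideal (𝓞 F) → G)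
    (hmul : ∀ I J : Ideal (𝓞 F), I ≠ ⊥ → J ≠ ⊥ → IsCoprime I (Ideal.span {m}) →
      IsCoprime J (Ideal.span {m}) → cl (I * J) = cl I * cl J)
    (htriv : ∀ x : 𝓞 F, m ∣ x - 1 → 0 < Algebra.norm ℤ x → cl (Ideal.span {x}) = 1)
    {x y : 𝓞 F} (hxy : m ∣ y - x) (hpos : 0 < Algebra.norm ℤ x * Algebra.norm ℤ y)
    (hx : IsCoprime x m) (hy : IsCoprime y m) :
    cl (Ideal.span {y}) = cl (Ideal.span {x}) := by
  have hx0 : x ≠ 0 := by rintro rfl; simp at hpos
  have hy0 : y ≠ 0 := by rintro rfl; simp at hpos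
  have hM : Ideal.span {m} ≠ ⊥ := by simpa using hm
  have := Ideal.finiteQuotientOfFreeOfNeBot _ hM
  have hu : IsUnit (Ideal.Quotient.mk (Ideal.span {m}) x) := by
    obtain ⟨a, b, hab⟩ := hx
    refine IsUnit.of_mul_eq_one (Ideal.Quotient.mk _ a) ?_
    rw [← map_mul, ← map_one (Ideal.Quotient.mk (Ideal.span {m})), Ideal.Quotient.eq,
      Ideal.mem_span_singleton]
    exact ⟨-b, by rw [← hab]; ring⟩
  obtain ⟨k, hk, hk1⟩ : ∃ k : ℕ, 0 < k ∧ m ∣ x ^ k - 1 := by
    refine ⟨Nat.card (𝓞 F ⧸ Ideal.span {m})ˣ, Nat.card_pos, ?_⟩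
    rw [← Ideal.mem_span_singleton, ← Ideal.Quotient.eq, map_pow, map_one, ← hu.unit_spec,
      ← Units.val_pow_eq_pow_val, pow_card_eq_one', Units.val_one]
  obtain ⟨j, rfl⟩ : ∃ j, k = j + 1 := ⟨k - 1, by omega⟩
  set t := x ^ (2 * j + 1) with ht
  have h1 : m ∣ t * x - 1 := by
    have : t * x - 1 = (x ^ (j + 1) - 1) * (x ^ (j + 1) + 1) := by rw [ht]; ring
    rw [this]; exact hk1.mul_right _
  have h2 : m ∣ t * y - 1 := by
    have : t * y - 1 = (t * x - 1) + t * (y - x) := by ring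
    rw [this]; exact h1.add (hxy.mul_left _)
  have hN : Algebra.norm ℤ x ≠ 0 := Algebra.norm_ne_zero_iff.mpr hx0
  have n1 : 0 < Algebra.norm ℤ (t * x) := by
    have : Algebra.norm ℤ (t * x) = (Algebra.norm ℤ x ^ (j + 1)) ^ 2 := by
      rw [ht, map_mul, map_pow]; ring
    rw [this]; positivity
  have n2 : 0 < Algebra.norm ℤ (t * y) := by
    have : Algebra.norm ℤ (t * y) =
        (Algebra.norm ℤ x ^ j) ^ 2 * (Algebra.norm ℤ x * Algebra.norm ℤ y) := by
      rw [ht, map_mul, map_pow]; ring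
    rw [this]; positivity
  have c1 := htriv _ h1 n1
  have c2 := htriv _ h2 n2
  have hT : Ideal.span {t} ≠ ⊥ := by simp [ht, hx0]
  have hTc : IsCoprime (Ideal.span {t}) (Ideal.span {m}) :=
    (Ideal.isCoprime_span_singleton_iff _ _).mpr hx.pow_left
  rw [← Ideal.span_singleton_mul_span_singleton, hmul _ _ hT (by simpa using hx0) hTc
    ((Ideal.isCoprime_span_singleton_iff _ _).mpr hx)] at c1
  rw [← Ideal.span_singleton_mul_span_singleton, hmul _ _ hT (by simpa using hy0) hTc
    ((Ideal.isCoprime_span_singleton_iff _ _).mpr hy)] at c2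
  exact mul_left_cancel (c2.trans c1.symm)

theorem weak_dirichlet (F : Type) [Field F] [NumberField F] [IsTotallyReal F]
    (m : 𝓞 F) (hm : m ≠ 0) (G : Type) [CommGroup G] [Finite G] [Nontrivial G]
    (cl : Ideal (𝓞 F) → G)
    (hmul : ∀ I J : Ideal (𝓞 F), I ≠ ⊥ → J ≠ ⊥ → IsCoprime I (Ideal.span {m}) →
      IsCoprime J (Ideal.span {m}) → cl (I * J) = cl I * cl J)
    (htriv : ∀ x : 𝓞 F, m ∣ x - 1 → 0 < Algebra.norm ℤ x → cl (Ideal.span {x}) = 1)
    (hsurj : ∀ g, ∃ I : Ideal (𝓞 F), I ≠ ⊥ ∧ IsCoprime I (Ideal.span {m}) ∧ cl I = g) :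
    ∃ H : Subgroup G, H ≠ ⊤ ∧ ∀ g, g ∉ H → ∃ P : Ideal (𝓞 F), P.IsPrime ∧ P ≠ ⊥ ∧
      IsCoprime P (Ideal.span {m}) ∧ (cl P = g ∨ cl P = g⁻¹) := by
  classical
  have := Fintype.ofFinite G
  set M : Ideal (𝓞 F) := Ideal.span {m} with hM
  have hM0 : M ≠ ⊥ := by simpa [hM] using hm
  let ι := {s : ℝ // 1 < s ∧ s ≤ 2}
  let S : ι → Additive G → ℝ := fun s a => ∑' P : HeightOneSpectrum (𝓞 F),
    if IsCoprime P.asIdeal M ∧ Additive.ofMul (cl P.asIdeal) = a then nw s.1 P.asIdeal else 0
  have hsum : ∀ (s : ι) (q : HeightOneSpectrum (𝓞 F) → Prop) [DecidablePred q],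
      Summable fun P : HeightOneSpectrum (𝓞 F) => if q P then nw s.1 P.asIdeal else 0 := by
    intro s q _
    refine ((summable_primes (summable_nw s.2.1)).indicator {P | q P}).congr fun P => ?_
    simp [Set.indicator]
  have hS : ∀ s a, 0 ≤ S s a := fun s a => tsum_nonneg fun P => by
    split_ifs
    · exact nw_nonneg _ _
    · exact le_rfl
  have hweight : ∀ (s : ι) (c : Additive G → ℝ), ∑ a, c a * S s a =
      ∑' P : HeightOneSpectrum (𝓞 F), if IsCoprime P.asIdeal M then
        c (Additive.ofMul (cl P.asIdeal)) * nw s.1 P.asIdeal else 0 := by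
    intro s c
    simp only [S, ← tsum_mul_left]
    rw [← Summable.tsum_finsetSum fun a _ => (hsum s _).mul_left (c a)]
    refine tsum_congr fun P => ?_
    by_cases h : IsCoprime P.asIdeal M <;> simp [h]
  obtain ⟨η, hη, hZ⟩ := wd_group_add S hS (by
    intro η hη
    let f : Ideal (𝓞 F) → ℂ := fun I =>
      if I ≠ ⊥ ∧ IsCoprime I M then η (Additive.ofMul (cl I)) else 0
    have fmul : ∀ I J, f (I * J) = f I * f J := by
      intro I J
      by_cases hI : I ≠ ⊥ ∧ IsCoprime I M
      · by_cases hJ : J ≠ ⊥ ∧ IsCoprime J M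
        · have hIJ : I * J ≠ ⊥ ∧ IsCoprime (I * J) M := ⟨mul_ne_zero hI.1 hJ.1, hI.2.mul_left hJ.2⟩
          simp only [f, if_pos hI, if_pos hJ, if_pos hIJ, hmul I J hI.1 hJ.1 hI.2 hJ.2, ofMul_mul,
            AddChar.map_add_eq_mul]
        · have hIJ : ¬ (I * J ≠ ⊥ ∧ IsCoprime (I * J) M) := fun h =>
            hJ ⟨right_ne_zero_of_mul h.1, h.2.of_mul_left_right⟩
          simp only [f, if_neg hJ, if_neg hIJ, mul_zero]
      · have hIJ : ¬ (I * J ≠ ⊥ ∧ IsCoprime (I * J) M) := fun h =>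
          hI ⟨left_ne_zero_of_mul h.1, h.2.of_mul_left_left⟩
        simp only [f, if_neg hI, if_neg hIJ, zero_mul]
    have fnorm : ∀ I, f I = 0 ∨ ‖f I‖ = 1 := by
      intro I
      simp only [f]
      split_ifs
      · exact Or.inr (AddChar.norm_apply _ _)
      · exact Or.inl rfl
    have fle : ∀ I, ‖f I‖ ≤ 1 := fun I => by
      rcases fnorm I with h | h <;> simp [h]
    have f0 : f ⊥ = 0 := by simp [f]
    have f1 : f ⊤ = 1 := by
      have h1 : cl ⊤ = 1 := by simpa using htriv 1 (by simp) (by simp)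
      have h2 : IsCoprime (⊤ : Ideal (𝓞 F)) M := by
        rw [← Ideal.one_eq_top]; exact isCoprime_one_left
      simp [f, h1, h2]
    have fper : ∀ x e : 𝓞 F, m ∣ e → 0 < nr (x : F) * nr ((x + e : 𝓞 F) : F) →
        f (Ideal.span {x + e}) = f (Ideal.span {x}) := by
      intro x e he hpos
      rw [nr_int, nr_int] at hpos
      have hpos' : 0 < Algebra.norm ℤ x * Algebra.norm ℤ (x + e) := by exact_mod_cast hpos
      have hx0 : x ≠ 0 := by rintro rfl; simp at hpos'
      have hy0 : x + e ≠ 0 := by intro h; rw [h] at hpos'; simp at hpos'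
      obtain ⟨d, rfl⟩ := he
      have hc : IsCoprime (x + m * d) m ↔ IsCoprime x m := IsCoprime.add_mul_left_left_iff
      simp only [f, hM, Ideal.isCoprime_span_singleton_iff, hc, ne_eq,
        Ideal.span_singleton_eq_bot, hx0, hy0, not_false_eq_true, true_and]
      split_ifs with h
      · rw [cl_periodic hm cl hmul htriv (by simp) hpos' h (hc.mpr h)]
      · rfl
    obtain ⟨a, ha⟩ : ∃ a, η a ≠ 1 := by
      by_contra hn
      push Not at hn
      exact hη (AddChar.ext _ _ hn)
    obtain ⟨Y, hY0, hYm, hYa⟩ := hsurj a.toMul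
    have hfY : (f Y).re < 1 := by
      have e : f Y = η a := by simp [f, hY0, hYm, hYa]
      rw [e]
      have h1 : ‖η a‖ = 1 := AddChar.norm_apply η a
      by_contra hge
      apply ha
      have h2 : (η a).re = 1 :=
        le_antisymm ((Complex.re_le_norm _).trans h1.le) (not_lt.mp hge)
      have h3 : (η a).im = 0 := by
        have := Complex.sq_norm (η a)
        rw [h1, Complex.normSq_apply, h2] at this
        nlinarith
      exact Complex.ext h2 h3
    obtain ⟨C, hC⟩ := L_bound hm f fmul fnorm f0 f1 fper hY0 hYm hfY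
    refine ⟨Real.log (max C 1 * Real.exp ((∑' I : Ideal (𝓞 F), nw 2 I) / 2)), fun s => ?_⟩
    have hle : ∀ I : Ideal (𝓞 F), ‖f I * nw s.1 I‖ ≤ nw s.1 I := by
      intro I
      rw [norm_mul, Complex.norm_real, Real.norm_of_nonneg (nw_nonneg _ _)]
      exact mul_le_of_le_one_left (nw_nonneg _ _) (fle I)
    have key := sieve_upper (fun I => f I * nw s.1 I)
      (fun I J => by rw [fmul, nw_mul]; push_cast; ring)
      (Summable.of_nonneg_of_le (fun _ => norm_nonneg _) hle (summable_nw s.2.1))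
      (by simp [f0]) (by simp [f1, nw_top]) (nw 2) (summable_nw one_lt_two) (by
        intro I
        refine (pow_le_pow_left₀ (norm_nonneg _)
          ((hle I).trans (nw_anti one_pos s.2.1.le I)) 2).trans (le_of_eq ?_)
        unfold nw
        rw [← Real.rpow_natCast, ← Real.rpow_mul (Nat.cast_nonneg _)]
        norm_num)
    rw [hweight s fun a => (η a).re, Real.le_log_iff_exp_le (by positivity)]
    refine le_trans (le_of_eq ?_) (key.trans ?_)
    · congr 1
      refine tsum_congr fun P => ?_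
      simp only [f, P.ne_bot, ne_eq, not_false_eq_true, true_and]
      split_ifs <;> simp
    · gcongr
      exact (hC s.1 s.2.1 s.2.2).trans (le_max_left _ _)) (by
    intro C
    have hfin := Ideal.finite_factors hM0
    obtain ⟨s, hs1, hs2, hs⟩ := prime_sum_unbounded (F := F) (C + hfin.toFinset.card)
    refine ⟨⟨s, hs1, hs2⟩, ?_⟩
    have e := hweight ⟨s, hs1, hs2⟩ fun _ => 1
    simp only [one_mul] at e
    rw [e]
    have e2 : ∑' P : HeightOneSpectrum (𝓞 F), nw s P.asIdeal =
        (∑' P : HeightOneSpectrum (𝓞 F), if IsCoprime P.asIdeal M then nw s P.asIdeal else 0) +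
        ∑' P : HeightOneSpectrum (𝓞 F), if ¬ IsCoprime P.asIdeal M then nw s P.asIdeal else 0 := by
      rw [← (hsum ⟨s, hs1, hs2⟩ _).tsum_add (hsum ⟨s, hs1, hs2⟩ _)]
      refine tsum_congr fun P => ?_
      by_cases h : IsCoprime P.asIdeal M <;> simp [h]
    have e3 : (∑' P : HeightOneSpectrum (𝓞 F),
        if ¬ IsCoprime P.asIdeal M then nw s P.asIdeal else 0) ≤ hfin.toFinset.card := by
      rw [tsum_eq_sum (s := hfin.toFinset)]
      · refine (Finset.sum_le_card_nsmul _ _ 1 fun P _ => ?_).trans (by simp)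
        split_ifs
        · exact zero_le_one
        · exact nw_le_one (by linarith) _
      · intro P hP
        rw [if_neg]
        rw [not_not, Ideal.isCoprime_iff_sup_eq]
        by_contra hn
        apply hP
        have := P.isMaximal.eq_of_le hn le_sup_left
        simp only [Set.Finite.mem_toFinset, Set.mem_ofPred_eq]
        exact Ideal.dvd_iff_le.mpr (this ▸ le_sup_right)
    linarith)
  refine ⟨(η.toMonoidHom.comp (MulEquiv.multiplicativeAdditive G).symm.toMonoidHom).ker, ?_, ?_⟩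
  · intro h
    apply hη
    refine AddChar.ext _ _ fun a => ?_
    have : a.toMul ∈
      (η.toMonoidHom.comp (MulEquiv.multiplicativeAdditive G).symm.toMonoidHom).ker := by
      rw [h]; trivial
    exact this
  · intro g hg
    by_contra hn
    push Not at hn
    apply hg
    refine hZ (Additive.ofMul g) (fun s => ?_) (fun s => ?_)
    · refine (tsum_congr fun P => if_neg fun h => ?_).trans tsum_zero
      exact (hn P.asIdeal P.isPrime P.ne_bot h.1).1 (Additive.ofMul.injective h.2)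
    · refine (tsum_congr fun P => if_neg fun h => ?_).trans tsum_zero
      exact (hn P.asIdeal P.isPrime P.ne_bot h.1).2 (Additive.ofMul.injective h.2)

end Pool.Agent.Lib.MP_61a4e3_al
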