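import Pool.Agent.Lib.MP_61a4e3_al.Men1
import Pool.Agent.Lib.MP_61a4e3_al.WeakDirichlet

/-! Relative symbols over a totally real field are trivial. -/

set_option linter.unusedSectionVars false
set_option linter.unusedSimpArgs false
set_option linter.unusedVariables false
set_option maxHeartbeats 800000

namespace Pool.Agent.Lib.MP_61a4e3_al

open Ideal NumberField

lemma three_cover {Γ : Type} [CommGroup Γ] {G A B N : Subgroup Γ}
    (h : ∀ g ∈ G, g ∉ A → g ∉ B → g ∈ N) (hA : ∃ g ∈ G, g ∉ A) (hB : ∃ g ∈ G, g ∉ B) {x y : Γ}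
    (hx : x ∈ G) (hy : y ∈ G) (xN : x ∉ N) (yN : y ∉ N) : x * y ∈ N := by
  obtain ⟨n, nG, nA, nB⟩ : ∃ n ∈ G, n ∉ A ∧ n ∉ B := by
    obtain ⟨a, aG, aA⟩ := hA
    obtain ⟨b, bG, bB⟩ := hB
    by_cases h1 : a ∈ B
    · by_cases h2 : b ∈ A
      · exact ⟨a * b, mul_mem aG bG, fun h => aA ((A.mul_mem_cancel_right h2).1 h),
          fun h => bB ((B.mul_mem_cancel_left h1).1 h)⟩
      · exact ⟨b, bG, h2, bB⟩
    · exact ⟨a, aG, aA, h1⟩
  have nN := h n nG nA nB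
  have k1 : ∀ c ∈ G, c ∈ A → c ∈ B → c ∈ N := fun c cG cA cB =>
    (N.mul_mem_cancel_right nN).1 (h _ (mul_mem cG nG) (fun h => nA ((A.mul_mem_cancel_left cA).1 h))
      (fun h => nB ((B.mul_mem_cancel_left cB).1 h)))
  have k2 : ∀ c ∈ G, c ∉ N → (c ∈ A → c * n ∈ B) ∧ (c ∈ B → c * n ∈ A) := by
    intro c cG cN
    have : c * n ∉ N := fun h => cN ((N.mul_mem_cancel_right nN).1 h)
    constructor
    · intro cA; by_contra hb
      exact this (h _ (mul_mem cG nG) (fun h => nA ((A.mul_mem_cancel_left cA).1 h)) hb)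
    · intro cB; by_contra ha
      exact this (h _ (mul_mem cG nG) ha (fun h => nB ((B.mul_mem_cancel_left cB).1 h)))
  have e : x * y = (x * n) * (y⁻¹ * n)⁻¹ := by
    rw [mul_inv_rev, inv_inv, mul_assoc, mul_inv_cancel_left]
  have yN' : y⁻¹ ∉ N := fun h => yN (by simpa using h)
  by_cases xA : x ∈ A <;> by_cases xB : x ∈ B <;> by_cases yA : y ∈ A <;> by_cases yB : y ∈ B
  all_goals first
    | exact absurd (k1 x hx xA xB) xN
    | exact absurd (k1 y hy yA yB) yN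
    | exact absurd (h x hx xA xB) xN
    | exact absurd (h y hy yA yB) yN
    | skip
  · refine k1 _ (mul_mem hx hy) (mul_mem xA yA) ?_
    rw [e]; exact mul_mem ((k2 x hx xN).1 xA) (inv_mem ((k2 _ (inv_mem hy) yN').1 (inv_mem yA)))
  · exact h _ (mul_mem hx hy) (fun h => yA ((A.mul_mem_cancel_left xA).1 h))
      (fun h => xB ((B.mul_mem_cancel_right yB).1 h))
  · exact h _ (mul_mem hx hy) (fun h => xA ((A.mul_mem_cancel_right yA).1 h))
      (fun h => yB ((B.mul_mem_cancel_left xB).1 h))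
  · refine k1 _ (mul_mem hx hy) ?_ (mul_mem xB yB)
    rw [e]; exact mul_mem ((k2 x hx xN).2 xB) (inv_mem ((k2 _ (inv_mem hy) yN').2 (inv_mem yB)))

variable {F : Type} [Field F] [NumberField F]

theorem wd_wrap [IsTotallyReal F] {m : 𝓞 F} (hm : m ≠ 0) {Γ : Type} [CommGroup Γ]
    (Ψ : Ideal (𝓞 F) → Γ)
    (hmul : ∀ I J : Ideal (𝓞 F), I ≠ ⊥ → J ≠ ⊥ → IsCoprime I (span {m}) →
      IsCoprime J (span {m}) → Ψ (I * J) = Ψ I * Ψ J)
    (htriv : ∀ x : 𝓞 F, m ∣ x - 1 → 0 < Algebra.norm ℤ x → Ψ (span {x}) = 1)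
    (hnt : ∃ I, I ≠ ⊥ ∧ IsCoprime I (span {m}) ∧ Ψ I ≠ 1) :
    ∃ G H : Subgroup Γ, (∀ g, g ∈ G ↔ ∃ I, I ≠ ⊥ ∧ IsCoprime I (span {m}) ∧ Ψ I = g) ∧
      (∃ g ∈ G, g ∉ H) ∧ ∀ g ∈ G, g ∉ H → ∃ P : Ideal (𝓞 F), P.IsPrime ∧ P ≠ ⊥ ∧
        IsCoprime P (span {m}) ∧ (Ψ P = g ∨ Ψ P = g⁻¹) := by
  classical
  let S : Submonoid Γ :=
    { carrier := {g | ∃ I, I ≠ ⊥ ∧ IsCoprime I (span {m}) ∧ Ψ I = g}
      mul_mem' := by
        rintro _ _ ⟨I, h1, h2, rfl⟩ ⟨J, h3, h4, rfl⟩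
        exact ⟨I * J, mul_ne_zero h1 h3, h2.mul_left h4, hmul _ _ h1 h3 h2 h4⟩
      one_mem' := ⟨span {1}, by simp, (cop_ideal_one _).symm, htriv 1 (by simp) (by simp)⟩ }
  have hc : ∀ k : ClassGroup (𝓞 F), ∃ c : Ideal (𝓞 F), c ≠ ⊥ ∧ IsCoprime c (span {m}) ∧
      ∀ I : nonZeroDivisors (Ideal (𝓞 F)), ClassGroup.mk0 I = k → ∃ x, I.1 * c = span {x} := by
    intro k
    obtain ⟨J, rfl⟩ := ClassGroup.mk0_surjective k
    have J0 : (J : Ideal (𝓞 F)) ≠ ⊥ := nonZeroDivisors.coe_ne_zero J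
    obtain ⟨a, c, e, hc⟩ := exists_cofactor J0 (mul_ne_zero hm (two_ne_zero (α := 𝓞 F)))
    obtain ⟨hc1, hc2⟩ := cop_ideal_mul.1 hc
    have c0 : c ≠ ⊥ := by
      rintro rfl
      have := (isCoprime_span_singleton_iff (0 : 𝓞 F) 2).1 (by simpa using hc2)
      rw [isCoprime_zero_left] at this
      have h2 : IsUnit ((2 : ℤ) : 𝓞 F) := by simpa using this
      exact absurd (isUnit_of_map_unit (algebraMap ℤ (𝓞 F)) 2 h2) (by decide)
    refine ⟨c, c0, hc1, fun I hI => ?_⟩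
    have := (ClassGroup.mk0_eq_mk0_inv_iff (I := J) (J := ⟨c, mem_nonZeroDivisors_of_ne_zero c0⟩)).2
      ⟨a, fun h => mul_ne_zero J0 c0 (by rw [← e, h]; simp), e.symm⟩
    obtain ⟨x, -, hx⟩ := ClassGroup.mk0_eq_mk0_inv_iff.1 (hI.trans this)
    exact ⟨x, hx⟩
  choose c c0 c1 c2 using hc
  have hfin : (S : Set Γ).Finite := by
    have := finiteQuotientOfFreeOfNeBot (span {m}) (by simpa using hm)
    refine (Set.finite_iUnion (ι := ClassGroup (𝓞 F) × (𝓞 F ⧸ span {m}) × Prop)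
      (f := fun p => {g | ∃ I x, I ≠ ⊥ ∧ IsCoprime I (span {m}) ∧ Ψ I = g ∧ I * c p.1 = span {x} ∧
        Ideal.Quotient.mk _ x = p.2.1 ∧ (0 < Algebra.norm ℤ x ↔ p.2.2)})
      fun p => Set.Subsingleton.finite ?_).subset ?_
    · rintro _ ⟨I, x, h1, h2, rfl, h3, h4, h5⟩ _ ⟨J, y, k1, k2, rfl, k3, k4, k5⟩
      have x0 : Algebra.norm ℤ x ≠ 0 := Algebra.norm_ne_zero_iff.2 fun h =>
        mul_ne_zero h1 (c0 _) (by rw [h3, h]; simp)
      have y0 : Algebra.norm ℤ y ≠ 0 := Algebra.norm_ne_zero_iff.2 fun h =>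
        mul_ne_zero k1 (c0 _) (by rw [k3, h]; simp)
      have := cl_periodic hm Ψ hmul htriv (x := x) (y := y)
        (mem_span_singleton.1 (Ideal.Quotient.eq.1 (k4.trans h4.symm)))
        (by
          rcases lt_or_gt_of_ne x0 with h | h
          · exact mul_pos_of_neg_of_neg h (lt_of_le_of_ne (not_lt.1 fun h' =>
              absurd (h5.2 (k5.1 h')) (not_lt.2 h.le)) y0)
          · exact mul_pos h (k5.2 (h5.1 h)))
        ((isCoprime_span_singleton_iff _ _).1 (h3 ▸ h2.mul_left (c1 _)))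
        ((isCoprime_span_singleton_iff _ _).1 (k3 ▸ k2.mul_left (c1 _)))
      rw [← h3, ← k3, hmul _ _ h1 (c0 _) h2 (c1 _), hmul _ _ k1 (c0 _) k2 (c1 _)] at this
      exact (mul_right_cancel this).symm
    · rintro _ ⟨I, h1, h2, rfl⟩
      obtain ⟨x, hx⟩ := c2 _ ⟨I, mem_nonZeroDivisors_of_ne_zero h1⟩ rfl
      exact Set.mem_iUnion.2 ⟨(_, Ideal.Quotient.mk _ x, 0 < Algebra.norm ℤ x), I, x, h1, h2, rfl,
        hx, rfl, Iff.rfl⟩
  let G : Subgroup Γ :=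
    { S with
      inv_mem' := by
        intro g hg
        have hle : Submonoid.powers g ≤ S := Submonoid.powers_le.2 hg
        have := finite_powers.1 (hfin.subset hle)
        exact hle (this.mem_powers_iff_mem_zpowers.2 (inv_mem (Subgroup.mem_zpowers g))) }
  have : Finite G := hfin
  have : Nontrivial G := by
    obtain ⟨I, h1, h2, h3⟩ := hnt
    exact ⟨⟨⟨Ψ I, I, h1, h2, rfl⟩, 1, fun h => h3 (congrArg Subtype.val h)⟩⟩
  let cl : Ideal (𝓞 F) → G := fun I =>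
    if h : I ≠ ⊥ ∧ IsCoprime I (span {m}) then ⟨Ψ I, I, h.1, h.2, rfl⟩ else 1
  have hcl : ∀ I, I ≠ ⊥ → IsCoprime I (span {m}) → (cl I : Γ) = Ψ I := by
    intro I h1 h2; simp only [cl]; rw [dif_pos ⟨h1, h2⟩]
  obtain ⟨H, hH, hP⟩ := weak_dirichlet F m hm G cl
    (fun I J h1 h2 h3 h4 => Subtype.ext (by
      rw [Subgroup.coe_mul, hcl _ h1 h3, hcl _ h2 h4, hcl _ (mul_ne_zero h1 h2) (h3.mul_left h4),
        hmul _ _ h1 h2 h3 h4]))
    (fun x h1 h2 => Subtype.ext (by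
      rw [hcl _ (by rintro h; rw [span_singleton_eq_bot] at h; simp [h] at h2)
        ((isCoprime_span_singleton_iff _ _).2 (cop_of_dvd_sub_one h1)), htriv x h1 h2]; rfl))
    (by
      rintro ⟨_, I, h1, h2, rfl⟩
      exact ⟨I, h1, h2, Subtype.ext (hcl _ h1 h2)⟩)
  refine ⟨G, H.map G.subtype, fun g => Iff.rfl, ?_, fun g hg h => ?_⟩
  · obtain ⟨g, hg⟩ : ∃ g, g ∉ H := by
      by_contra! h; exact hH (eq_top_iff.2 fun g _ => h g)
    exact ⟨g, g.2, by rintro ⟨g', h1, h2⟩; exact hg (Subtype.ext h2 ▸ h1)⟩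
  · obtain ⟨P, h1, h2, h3, h4⟩ := hP ⟨g, hg⟩ fun h' => h ⟨_, h', rfl⟩
    refine ⟨P, h1, h2, h3, h4.imp (fun e => ?_) (fun e => ?_)⟩ <;> rw [← hcl _ h2 h3, e] <;> rfl

theorem exists_neg_norm [IsTotallyReal F] {m : 𝓞 F} (hm : m ≠ 0) :
    ∃ x : 𝓞 F, m ∣ x - 1 ∧ Algebra.norm ℤ x < 0 := by
  classical
  obtain ⟨α, hα⟩ := Field.exists_primitive_element ℚ F
  have inj := (Field.primitive_element_iff_algHom_eq_of_eval' ℚ ℂ (fun _ => IsAlgClosed.splits _)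
    α).1 hα
  obtain ⟨y, y0, hy⟩ := ((IsFractionRing.isAlgebraic_iff ℤ ℚ F).2
    (Algebra.IsAlgebraic.isAlgebraic α)).exists_integral_multiple
  set θ : 𝓞 F := ⟨y • α, hy⟩
  have hθ : (θ : F) = y • α := rfl
  have real : ∀ (σ : F →ₐ[ℚ] ℂ) (x : F), ((σ x).re : ℂ) = σ x := fun σ x =>
    Complex.conj_eq_iff_re.1 (RingHom.congr_fun
      (IsTotallyReal.complexEmbedding_isReal (σ : F →+* ℂ)) x)
  set t : (F →ₐ[ℚ] ℂ) → ℝ := fun σ => (σ θ).re
  have tinj : Function.Injective t := by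
    intro σ τ h
    have : σ θ = τ θ := by rw [← real σ, ← real τ]; exact congrArg _ h
    rw [hθ, map_zsmul, map_zsmul] at this
    exact inj (smul_right_injective ℂ y0 this)
  have : Nonempty (F →ₐ[ℚ] ℂ) := ⟨IsAlgClosed.lift⟩
  obtain ⟨σ0, h0⟩ := Finite.exists_min t
  obtain ⟨u, hu⟩ : ∃ u : ℕ, ∀ σ, σ ≠ σ0 → 2 < u * (t σ - t σ0) := by
    refine (Filter.eventually_all (l := Filter.atTop).2 fun σ => ?_).exists
    by_cases h : σ = σ0
    · simp [h]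
    · have : 0 < t σ - t σ0 := sub_pos.2 (lt_of_le_of_ne (h0 σ) fun e => h (tinj e).symm)
      exact ((tendsto_natCast_atTop_atTop.atTop_mul_const this).eventually_gt_atTop 2).mono
        fun _ h _ => h
  set N := absNorm (span {m})
  have N0 : 1 ≤ N := Nat.pos_of_ne_zero (by simpa [N] using hm)
  set v := ⌊u * t σ0⌋ + 2
  refine ⟨1 + N * (u * θ - v), ?_, ?_⟩
  · rw [add_sub_cancel_left]
    exact (mem_span_singleton.1 (absNorm_mem _)).mul_right _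
  have e := Algebra.norm_eq_prod_embeddings ℚ ℂ ((1 + N * (u * θ - v) : 𝓞 F) : F)
  rw [← Algebra.coe_norm_int] at e
  have e2 : ∀ σ : F →ₐ[ℚ] ℂ, σ ((1 + N * (u * θ - v) : 𝓞 F) : F) =
      ((1 + N * (u * t σ - v) : ℝ) : ℂ) := by
    intro σ
    simp only [t]
    push_cast
    rw [real]; simp
  simp only [e2] at e
  rw [← Complex.ofReal_prod] at e
  have e3 : ((Algebra.norm ℤ (1 + N * (u * θ - v) : 𝓞 F) : ℤ) : ℝ) =
      ∏ σ : F →ₐ[ℚ] ℂ, (1 + N * (u * t σ - v) : ℝ) := by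
    apply Complex.ofReal_injective; rw [← e]; simp
  have N1 : (1 : ℝ) ≤ N := by exact_mod_cast N0
  have f1 := Int.floor_le (u * t σ0)
  have f2 := Int.lt_floor_add_one (u * t σ0)
  have hv : (v : ℝ) = ⌊u * t σ0⌋ + 2 := by simp [v]
  rw [← Int.cast_lt_zero (R := ℝ), e3, ← Finset.mul_prod_erase _ _ (Finset.mem_univ σ0)]
  refine mul_neg_of_neg_of_pos (by nlinarith) (Finset.prod_pos fun σ hσ => ?_)
  have := hu σ (Finset.ne_of_mem_erase hσ)
  nlinarith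

lemma norm_mod {n : ℕ} {x : 𝓞 F} (h : (n : 𝓞 F) ∣ x - 1) :
    ((Algebra.norm ℤ x : ℤ) : ZMod n) = 1 := by
  classical
  obtain ⟨y, hy⟩ := h
  have : x = 1 + (n : ℤ) • y := by rw [zsmul_eq_mul]; push_cast; linear_combination hy
  rw [this, Algebra.norm_eq_matrix_det (RingOfIntegers.basis F), map_add, map_one, map_zsmul,
    Matrix.det_one_add_smul]
  simp

lemma isUnit_absNorm {n : ℕ} {I : Ideal (𝓞 F)} (hI : I ≠ ⊥) (h : IsCoprime I (span {(n : 𝓞 F)})) :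
    IsUnit ((absNorm I : ℕ) : ZMod n) := by
  rw [ZMod.isUnit_iff_coprime]
  refine Nat.Coprime.symm (Nat.coprime_of_dvd fun p hp hn hN => ?_)
  have := finiteQuotientOfFreeOfNeBot I hI
  have := Fintype.ofFinite (𝓞 F ⧸ I)
  have := Fact.mk hp
  rw [absNorm_apply, Submodule.cardQuot_apply, Nat.card_eq_fintype_card] at hN
  refine not_isUnit_prime_of_dvd_card hN ?_
  obtain ⟨i, hi, j, hj, hij⟩ := isCoprime_iff_exists.1 h
  obtain ⟨c, rfl⟩ := mem_span_singleton'.1 hj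
  obtain ⟨k, rfl⟩ := hn
  refine IsUnit.of_mul_eq_one (Ideal.Quotient.mk I (c * k)) ?_
  rw [← map_natCast (Ideal.Quotient.mk I), ← map_mul, ← map_one (Ideal.Quotient.mk I),
    Ideal.Quotient.eq]
  convert I.neg_mem hi using 1
  push_cast at hij
  linear_combination hij

open Classical in
/-- The norm of an ideal modulo `n`. -/
noncomputable def nu (n : ℕ) (I : Ideal (𝓞 F)) : (ZMod n)ˣ :=
  if h : IsUnit ((absNorm I : ℕ) : ZMod n) then h.unit else 1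

lemma nu_val {n : ℕ} {I : Ideal (𝓞 F)} (hI : I ≠ ⊥) (h : IsCoprime I (span {(n : 𝓞 F)})) :
    (nu n I : ZMod n) = (absNorm I : ℕ) := by
  rw [nu, dif_pos (isUnit_absNorm hI h), IsUnit.unit_spec]

lemma nu_span {n : ℕ} {x : 𝓞 F} (h0 : x ≠ 0) (h : (n : 𝓞 F) ∣ x - 1) :
    (nu n (span {x}) : ZMod n) = if 0 < Algebra.norm ℤ x then 1 else -1 := by
  rw [nu_val (by simpa using h0) ((isCoprime_span_singleton_iff _ _).2 (cop_of_dvd_sub_one h)),
    absNorm_span_singleton, ← Int.cast_natCast, Int.natCast_natAbs]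
  split_ifs with h1
  · rw [abs_of_pos h1, norm_mod h]
  · rw [abs_of_nonpos (not_lt.1 h1), Int.cast_neg, norm_mod h]

variable {Q D : 𝓞 F} {C : Type} [CommGroup C] {M : 𝓞 F → 𝓞 F → C}

theorem kill [IsTotallyReal F] (S : MS Q D M) {C' : Type} [CommGroup C'] (φ : C →* C') {n : ℕ}
    (hn : 3 ≤ n)
    (P1 : ∀ P : Ideal (𝓞 F), P.IsPrime → P ≠ ⊥ → IsCoprime P (span {Q * D}) →
      ((absNorm P : ℕ) : ZMod n) ≠ 1 → φ (chi Q D M P (-1)) = 1 →
      ∀ y, IsCoprime P (span {y}) → φ (chi Q D M P y) = 1)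
    (P2 : (∀ I : Ideal (𝓞 F), I ≠ ⊥ → IsCoprime I (span {Q * D}) → φ (chi Q D M I (-1)) = 1) ∨
      (n = 4 ∧ ∀ P : Ideal (𝓞 F), P.IsPrime → P ≠ ⊥ → IsCoprime P (span {Q * D}) →
        ((absNorm P : ℕ) : ZMod n) = 1 → φ (chi Q D M P (-1)) = 1))
    {a b : 𝓞 F} (ha : Gd Q D a) (han : IsCoprime a n) (hab : IsCoprime a b) : φ (M a b) = 1 := by
  by_contra hne
  have n0 : (n : 𝓞 F) ≠ 0 := by exact_mod_cast (show n ≠ 0 by omega)
  obtain ⟨w, hw⟩ : ∃ w, w = Q * D * n := ⟨_, rfl⟩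
  have w0 : w ≠ 0 := hw ▸ mul_ne_zero (mul_ne_zero S.Q0 S.D0) n0
  have wq : Q * D ∣ w := ⟨n, hw⟩
  have wn : (n : 𝓞 F) ∣ w := ⟨Q * D, by rw [hw]; ring⟩
  have aw : IsCoprime a w := hw ▸ ha.cop.mul_right han
  obtain ⟨d1, p1, q1⟩ := crt aw b 1
  have a1 := cop_of_dvd_sub hab p1
  obtain ⟨d2, p2, q2⟩ := crt (aw.mul_right a1) b 1
  have a2 := cop_of_dvd_sub hab p2
  have g1 := Gd.of_dvd (wq.trans q1)
  have g2 := Gd.of_dvd (wq.trans (dvd_of_mul_right_dvd q2))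
  have c2 := cop_of_dvd_sub_one q2
  have c1 := cop_of_dvd_sub_one q1
  obtain ⟨x, x1, x2⟩ := crt (c1.mul_right c2.of_mul_right_right.symm) a 1
  obtain ⟨y, y1, y2⟩ := crt c2 a 1
  obtain ⟨m, hm⟩ : ∃ m, m = w * d1 * d2 := ⟨_, rfl⟩
  have m0 : m ≠ 0 := hm ▸ mul_ne_zero (mul_ne_zero w0 (S.ne_zero g1)) (S.ne_zero g2)
  have spl : ∀ {I : Ideal (𝓞 F)}, IsCoprime I (span {m}) → IsCoprime I (span {Q * D}) ∧
      IsCoprime I (span {(n : 𝓞 F)}) ∧ IsCoprime I (span {d1}) ∧ IsCoprime I (span {d2}) := by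
    intro I h
    rw [hm, hw, cop_ideal_mul, cop_ideal_mul, cop_ideal_mul] at h
    exact ⟨h.1.1.1, h.1.1.2, h.1.2, h.2⟩
  have cm1 : ∀ I : Ideal (𝓞 F), IsCoprime I (span {-1}) := fun I => by
    rw [span_singleton_neg]; exact cop_ideal_one I
  let Ψ : Ideal (𝓞 F) → C' × C' × C' × (ZMod n)ˣ := fun I =>
    (φ (chi Q D M I d1), φ (chi Q D M I d2), φ (chi Q D M I (-1)), nu n I)
  have hΨ : ∀ u, w ∣ u - 1 → IsCoprime u d1 → IsCoprime u d2 →
      Ψ (span {u}) = (φ (M u d1), φ (M u d2), 1, nu n (span {u})) ∧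
        span {u} ≠ ⊥ ∧ IsCoprime (span {u}) (span {m}) := by
    intro u h1 h2 h3
    have gu := Gd.of_dvd (wq.trans h1)
    refine ⟨?_, by simpa using S.ne_zero gu, (isCoprime_span_singleton_iff _ _).2
      (hm ▸ ((cop_of_dvd_sub_one h1).mul_right h2).mul_right h3)⟩
    simp only [Ψ]
    rw [S.chi_span gu h2, S.chi_span gu h3, S.chi_span gu isCoprime_one_right.neg_right,
      S.unit gu.1 isUnit_one.neg, map_one]
  have hΨ1 : ∀ u, m ∣ u - 1 → Ψ (span {u}) = (1, 1, 1, nu n (span {u})) ∧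
        span {u} ≠ ⊥ ∧ IsCoprime (span {u}) (span {m}) := by
    intro u h
    have e1 : Q * d1 ∣ u - 1 := Dvd.dvd.trans ⟨D * n * d2, by rw [hm, hw]; ring⟩ h
    have e2 : Q * d2 ∣ u - 1 := Dvd.dvd.trans ⟨D * n * d1, by rw [hm, hw]; ring⟩ h
    have := hΨ u (Dvd.dvd.trans ⟨d1 * d2, by rw [hm]; ring⟩ h)
      (cop_of_dvd_sub_one (dvd_of_mul_left_dvd e1)) (cop_of_dvd_sub_one (dvd_of_mul_left_dvd e2))
    rwa [S.one_of_dvd e1, S.one_of_dvd e2, map_one] at this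
  have mn : (n : 𝓞 F) ∣ m := wn.trans ⟨d1 * d2, by rw [hm]; ring⟩
  obtain ⟨x0, k1, k2⟩ := exists_neg_norm m0
  obtain ⟨z1, z2, z3⟩ := hΨ1 x0 k1
  have z4 : nu n (span {x0}) ≠ 1 := by
    intro h
    have := nu_span (by simpa using z2) (mn.trans k1)
    rw [h, if_neg (not_lt.2 k2.le), Units.val_one] at this
    have h2 : ((2 : ℕ) : ZMod n) = 0 := by push_cast; linear_combination this
    exact absurd (Nat.le_of_dvd two_pos ((ZMod.natCast_eq_zero_iff _ _).1 h2)) (by omega)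
  obtain ⟨G, H0, hG, hH, hP⟩ := wd_wrap m0 Ψ
    (fun I J h1 h2 h3 h4 => by
      obtain ⟨i1, i2, i3, i4⟩ := spl h3
      obtain ⟨j1, j2, j3, j4⟩ := spl h4
      simp only [Ψ, Prod.mk_mul_mk, ← map_mul]
      rw [S.chi_mul_left h1 h2 i1 j1 i3 j3, S.chi_mul_left h1 h2 i1 j1 i4 j4,
        S.chi_mul_left h1 h2 i1 j1 (cm1 _) (cm1 _)]
      congr 3
      ext
      rw [Units.val_mul, nu_val h1 i2, nu_val h2 j2, nu_val (mul_ne_zero h1 h2) (i2.mul_left j2),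
        map_mul, Nat.cast_mul])
    (fun u h1 h2 => by
      obtain ⟨u1, u2, u3⟩ := hΨ1 u h1
      rw [u1]
      congr 3
      ext
      rw [nu_span (by simpa using u2) (mn.trans h1), if_pos h2, Units.val_one])
    ⟨_, z2, z3, fun h => z4 (by rw [z1] at h; exact congrArg (·.2.2.2) h)⟩
  have wx : w ∣ x - 1 := dvd_of_mul_right_dvd x2
  have wy : w ∣ y - 1 := dvd_of_mul_right_dvd y2
  have qq : ∀ {u e : 𝓞 F}, w ∣ u - 1 → IsCoprime e w → e ∣ u - a → Q * e ∣ u - a := by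
    intro u e h1 h2 h3
    refine (h2.of_isCoprime_of_dvd_right (dvd_of_mul_right_dvd wq)).symm.mul_dvd ?_ h3
    simpa using dvd_sub ((dvd_of_mul_right_dvd wq).trans h1) ha.1
  have q3 : ∀ {u e : 𝓞 F}, w * e ∣ u - 1 → Q * e ∣ u - 1 := fun h =>
    (mul_dvd_mul (dvd_of_mul_right_dvd wq) dvd_rfl).trans h
  obtain ⟨X1, X2, X3⟩ := hΨ x wx (cop_of_dvd_sub a1.symm x1).symm
    (cop_of_dvd_sub_one (dvd_of_mul_left_dvd x2))
  obtain ⟨Y1, Y2, Y3⟩ := hΨ y wy (cop_of_dvd_sub_one (dvd_of_mul_left_dvd y2))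
    (cop_of_dvd_sub a2.symm y1).symm
  rw [S.cl ha.1 a1 (qq wx c1 x1), S.cr ha.1 hab p1, S.one_of_dvd (q3 x2), map_one] at X1
  rw [S.cl ha.1 a2 (qq wy c2.of_mul_right_left y1), S.cr ha.1 hab p2, S.one_of_dvd (q3 y2),
    map_one] at Y1
  have xG := (hG _).2 ⟨_, X2, X3, X1⟩
  have yG := (hG _).2 ⟨_, Y2, Y3, Y1⟩
  have zG := (hG _).2 ⟨_, z2, z3, z1⟩
  have good : ∀ g ∈ G, g ∉ H0 → g.2.2.2 ≠ 1 → g.2.2.1 = 1 → g.1 = 1 ∧ g.2.1 = 1 := by
    intro g hg h0 h1 h2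
    obtain ⟨P, s1, s2, s3, s4⟩ := hP g hg h0
    obtain ⟨i1, i2, i3, i4⟩ := spl s3
    have t1 : nu n P ≠ 1 := by
      rcases s4 with e | e
      · rwa [← e] at h1
      · rw [← inv_inj, inv_inv] at e; rw [← e] at h1; simpa [Ψ] using h1
    have t2 : φ (chi Q D M P (-1)) = 1 := by
      rcases s4 with e | e
      · rwa [← e] at h2
      · rw [← inv_inj, inv_inv] at e; rw [← e] at h2; simpa [Ψ] using h2
    have t3 := P1 P s1 s2 i1 (fun h => t1 (Units.ext (by rw [nu_val s2 i2, h]; rfl))) t2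
    rcases s4 with e | e
    · rw [← e]; exact ⟨t3 _ i3, t3 _ i4⟩
    · rw [← inv_inj, inv_inv] at e; rw [← e]; simp [Ψ, t3 _ i3, t3 _ i4]
  let B : Subgroup (C' × C' × C' × (ZMod n)ˣ) := Subgroup.prod ⊤ (.prod ⊤ (.prod ⊤ ⊥))
  let N : Subgroup (C' × C' × C' × (ZMod n)ˣ) := Subgroup.prod ⊥ (.prod ⊥ ⊤)
  have mB : ∀ g, g ∈ B ↔ g.2.2.2 = 1 := fun g => by simp [B, Subgroup.mem_prod]
  have mN : ∀ g, g ∈ N ↔ g.1 = 1 ∧ g.2.1 = 1 := fun g => by simp [N, Subgroup.mem_prod]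
  have fin : (∀ g ∈ G, g.2.2.1 = 1) → False := by
    intro h
    have := three_cover (A := H0) (B := B) (N := N)
      (fun g hg h0 h1 => (mN g).2 (good g hg h0 (fun e => h1 ((mB g).2 e)) (h g hg))) hH
      ⟨_, zG, fun e => z4 ((mB _).1 e)⟩ xG yG (fun e => hne ((mN _).1 e).1)
      (fun e => hne ((mN _).1 e).2)
    exact hne (by simpa using ((mN _).1 this).1)
  rcases P2 with P2 | ⟨rfl, P2⟩
  · refine fin fun g hg => ?_
    obtain ⟨I, h1, h2, rfl⟩ := (hG g).1 hg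
    exact P2 I h1 (spl h2).1
  have idx : ∀ u v : (ZMod 4)ˣ, u ≠ 1 → v ≠ 1 → u * v = 1 := by decide
  have g2 : ∀ g ∈ G, g ∉ H0 → g.2.2.2 = 1 → g.2.2.1 = 1 := by
    intro g hg h0 h1
    obtain ⟨P, s1, s2, s3, s4⟩ := hP g hg h0
    obtain ⟨i1, i2, i3, i4⟩ := spl s3
    have t1 : nu 4 P = 1 := by
      rcases s4 with e | e
      · rwa [← e] at h1
      · rw [← inv_inj, inv_inv] at e; rw [← e] at h1; simpa [Ψ] using h1
    have t2 := P2 P s1 s2 i1 (by rw [← nu_val s2 i2, t1]; rfl)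
    rcases s4 with e | e
    · rw [← e]; exact t2
    · rw [← inv_inj, inv_inv] at e; rw [← e]; simp [Ψ, t2]
  by_cases hB : ∃ h ∈ G, h.2.2.2 = 1 ∧ h ∉ H0
  · obtain ⟨h, hg, h1, h0⟩ := hB
    have g3 : ∀ g ∈ G, g.2.2.2 = 1 → g.2.2.1 = 1 := by
      intro g gG e
      by_cases g0 : g ∈ H0
      · have := g2 (g * h) (mul_mem gG hg) (fun h' => h0 ((H0.mul_mem_cancel_left g0).1 h'))
          (by simp [e, h1])
        simpa [g2 h hg h0 h1] using this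
      · exact g2 g gG g0 e
    refine fin fun g gG => ?_
    by_cases e : g.2.2.2 = 1
    · exact g3 g gG e
    · simpa using g3 _ (mul_mem gG zG) (idx _ _ e z4)
  · push Not at hB
    obtain ⟨g0, gG, g0H⟩ := hH
    have g4 : ∀ g ∈ G, g.2.2.2 ≠ 1 → g ∉ H0 := fun g hg e h' =>
      g0H ((H0.mul_mem_cancel_left h').1 (hB _ (mul_mem hg gG)
        (idx _ _ e fun e' => g0H (hB _ gG e'))))
    by_cases e : nu 4 (span {x}) = 1
    · have e' : nu 4 (span {x}) * nu 4 (span {x0}) ≠ 1 := by rwa [e, one_mul]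
      exact hne (by simpa using (good _ (mul_mem xG zG) (g4 _ (mul_mem xG zG) e') e' (by simp)).1)
    · exact hne (good _ xG (g4 _ xG e) e rfl).1

end Pool.Agent.Lib.MP_61a4e3_al
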