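import Pool.Agent.Lib.MP_61a4e3_al.Plane

/-! The relative symbol attached to a hyperbolic plane. -/

set_option linter.unusedSectionVars false
set_option linter.unusedSimpArgs false
set_option linter.unusedVariables false

namespace Pool.Agent.Lib.MP_61a4e3_al

open Matrix WG Form

section
variable {O : Type} [CommRing O] [StarRing O]

/-- Admissible pairs. -/
structure Adm (z a b : O) : Prop where
  ra : star a = a
  rb : star b = b
  cong : ((1 - z) * star (1 - z)) ^ 2 ∣ a - 1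
  cop : IsCoprime a b

/-- Triviality of all relative symbols on the real subring. -/
def MenOK (z : O) : Prop := ∀ (C : Type) [CommGroup C] (M : O → O → C),
  (∀ a b r, Adm z a b → star r = r → M a (b + r * a) = M a b) →
  (∀ a b r, Adm z a b → star r = r → M (a + r * ((1 - z) * star (1 - z)) ^ 2 * b) b = M a b) →
  (∀ b, star b = b → M 1 b = 1) →
  (∀ a x t, Adm z a x → IsCoprime a t → M a (x * (t * star t)) = M a (t * star t) * M a x) →
  ∀ a b, Adm z a b → M a b = 1

lemma MenOK.group {z : O} (h : MenOK z) (C : Type) [Group C] (M : O → O → C)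
    (hc : ∀ a b c d, M a b * M c d = M c d * M a b)
    (h1 : ∀ a b r, Adm z a b → star r = r → M a (b + r * a) = M a b)
    (h2 : ∀ a b r, Adm z a b → star r = r →
      M (a + r * ((1 - z) * star (1 - z)) ^ 2 * b) b = M a b)
    (h3 : ∀ b, star b = b → M 1 b = 1)
    (h4 : ∀ a x t, Adm z a x → IsCoprime a t → M a (x * (t * star t)) = M a (t * star t) * M a x)
    (a b : O) (hab : Adm z a b) : M a b = 1 := by
  let S : Set C := {c | ∃ a b, c = M a b}
  let : CommGroup (Subgroup.closure S) := Subgroup.closureCommGroupOfComm (by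
    rintro _ ⟨a, b, rfl⟩ _ ⟨c, d, rfl⟩; exact hc a b c d)
  let M' : O → O → Subgroup.closure S := fun a b => ⟨M a b, Subgroup.subset_closure ⟨a, b, rfl⟩⟩
  have := h (Subgroup.closure S) M' (fun a b r x y => Subtype.ext (h1 a b r x y))
    (fun a b r x y => Subtype.ext (h2 a b r x y)) (fun b x => Subtype.ext (h3 b x))
    (fun a x t u v => Subtype.ext (h4 a x t u v)) a b hab
  exact congrArg Subtype.val this

end

variable {O : Type} [CommRing O] [StarRing O] {ι : Type} [Fintype ι] [DecidableEq ι]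
  {F : Form O ι}

instance normal_NQ (q : O) (Q : Submodule O (ι → O)) :
    ((NQ F q Q).subgroupOf (sup F Q)).Normal :=
  ⟨fun n hn g => by
    rw [Subgroup.mem_subgroupOf] at hn ⊢
    exact conj_mem_NQ g.2 hn⟩

open Classical in
/-- The class modulo the elementary subgroup. -/
noncomputable def cl (q : O) (Q : Submodule O (ι → O)) (g : WG F) :
    sup F Q ⧸ (NQ F q Q).subgroupOf (sup F Q) :=
  if h : g ∈ sup F Q then QuotientGroup.mk ⟨g, h⟩ else 1

section cl
variable {q : O} {Q : Submodule O (ι → O)}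

lemma cl_mul {g h : WG F} (hg : g ∈ sup F Q) (hh : h ∈ sup F Q) :
    cl q Q (g * h) = cl q Q g * cl q Q h := by
  simp only [cl, dif_pos hg, dif_pos hh, dif_pos (mul_mem hg hh)]
  rfl

lemma cl_inv {g : WG F} (hg : g ∈ sup F Q) : cl q Q g⁻¹ = (cl q Q g)⁻¹ := by
  simp only [cl, dif_pos hg, dif_pos (inv_mem hg)]
  rfl

lemma cl_eq {g h : WG F} (hg : g ∈ sup F Q) (hh : h ∈ sup F Q) :
    cl q Q g = cl q Q h ↔ g⁻¹ * h ∈ NQ F q Q := by
  simp only [cl, dif_pos hg, dif_pos hh]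
  rw [QuotientGroup.eq, Subgroup.mem_subgroupOf]
  rfl

lemma cl_eq_one {g : WG F} (hg : g ∈ sup F Q) : cl q Q g = 1 ↔ g ∈ NQ F q Q := by
  simp only [cl, dif_pos hg]
  rw [QuotientGroup.eq_one_iff, Subgroup.mem_subgroupOf]

end cl

variable [IsDomain O] {f1 f1' f2 f2' : ι → O} {Q : Submodule O (ι → O)}

/-- `g` is a level element of the first plane with first column given by `(a, b)`. -/
structure IsT (F : Form O ι) (f f' : ι → O) (g : WG F) (a b : O) : Prop where
  l : g ∈ lev F ((1 - F.z) ^ 2)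
  s : g ∈ sup F (sp2 f f')
  e : act g *ᵥ f = a • f + ((1 - F.z) * ((1 - F.z) * star (1 - F.z)) * b) • f'

lemma real_pi (H : RH F.z) {r : O} (hr : star r = r) :
    F.z * star ((1 - F.z) * r) + (1 - F.z) * r = 0 := by
  rw [star_mul, hr, H.star_pi]; linear_combination (-(1 - F.z) * r) * H.hz

lemma sq_dvd_w2 (H : RH F.z) : (1 - F.z) ^ 2 ∣ (1 - F.z) * star (1 - F.z) := by
  rw [sq]; exact mul_dvd_mul_left _ H.pi_dvd_star

lemma Adm.cop_w {z a b : O} (h : Adm z a b) (k : ℕ) :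
    IsCoprime a (((1 - z) * star (1 - z)) ^ k * b) := by
  refine IsCoprime.mul_right (IsCoprime.pow_right ?_) h.cop
  obtain ⟨t, ht⟩ := h.cong
  exact ⟨1, -((1 - z) * star (1 - z) * t), by linear_combination ht⟩

lemma exists_T (H : RH F.z) {f f' : ι → O} (ff : F.B f f = 0) (f'f' : F.B f' f' = 0)
    (ff' : F.B f f' = 1) {a b c e : O} (hab : Adm F.z a b) (hc : star c = c) (he : star e = e)
    (hd : a * e - ((1 - F.z) * star (1 - F.z)) ^ 3 * b * c = 1) :
    ∃ g, IsT F f f' g a b ∧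
      act g *ᵥ f' = (star (1 - F.z) * ((1 - F.z) * star (1 - F.z) * c)) • f + e • f' := by
  set w := (1 - F.z) * star (1 - F.z) with hw
  have hwr : star w = w := by simp [hw, mul_comm]
  have hqw : (1 - F.z) ^ 2 ∣ w := sq_dvd_w2 H
  have hb' := real_pi H (r := w * b) (by simp [hwr, hab.rb, mul_comm])
  have hc' := H.lam_valid (r := w * c) (by simp [hwr, hc, mul_comm])
  have hd' : a * e - (1 - F.z) * (w * b) * (star (1 - F.z) * (w * c)) = 1 := by
    rw [hw] at hd ⊢; linear_combination hd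
  have qa : (1 - F.z) ^ 2 ∣ 1 - a := by
    have := hab.cong
    rw [← dvd_neg, neg_sub] at this
    exact dvd_trans (dvd_trans hqw (dvd_pow_self _ two_ne_zero)) this
  have qe : (1 - F.z) ^ 2 ∣ 1 - e := by
    have : 1 - e = -(1 - a) * e - w * (w ^ 2 * b * c) := by linear_combination -hd
    rw [this]; exact dvd_sub (qa.neg_right.mul_right _) (hqw.mul_right _)
  have f'f := F.B_eq_one_swap ff'
  have hz := F.hz
  refine ⟨mkT ff f'f' ff' hab.ra he hb' hc' hd', ⟨mkT_mem_lev _ _ _ _ _ _ _ _ qa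
    ((hqw.mul_right _).mul_left _) ((hqw.mul_right _).mul_left _) qe, mkT_mem_sup _ _ _ _ _ _ _ _,
    ?_⟩, ?_⟩
  · rw [act_mkT, ff, f'f]; match_scalars <;> grind
  · rw [act_mkT, ff', f'f']; match_scalars <;> grind

lemma exists_T' (H : RH F.z) {f f' : ι → O} (ff : F.B f f = 0) (f'f' : F.B f' f' = 0)
    (ff' : F.B f f' = 1) {a b : O} (hab : Adm F.z a b) : ∃ c e, star c = c ∧ star e = e ∧
      a * e - ((1 - F.z) * star (1 - F.z)) ^ 3 * b * c = 1 := by
  obtain ⟨u, v, huv⟩ := hab.cop_w 3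
  obtain ⟨u', v', hu, hv, h⟩ := H.real_comb hab.ra (by simp [hab.rb, mul_comm]) (star_one O) huv
  exact ⟨-v', u', by simp [hv], hu, by linear_combination h⟩

section
variable (H : RH F.z) (T : Planes F f1 f1' f2 f2') (h1 : f1 ∈ Q) (h1' : f1' ∈ Q)
    (h2 : f2 ∈ Q) (h2' : f2' ∈ Q)
include H T h1 h1' h2 h2'

lemma IsT.cl_eq {g g' : WG F} {a b : O} (hg : IsT F f1 f1' g a b) (hg' : IsT F f1 f1' g' a b) :
    cl ((1 - F.z) ^ 2) Q g = cl ((1 - F.z) ^ 2) Q g' := by
  have le := sup_mono (F := F) (sp2_le h1 h1')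
  rw [Pool.Agent.Lib.MP_61a4e3_al.cl_eq (le hg.s) (le hg'.s)]
  have hs := mul_mem (inv_mem hg.s) hg'.s
  refine stab_two H.sq_dvd_star T h1 h1' h2 h2' (mul_mem (inv_mem hg.l) hg'.l)
    (sup_mono le_sup_left hs) ?_ ?_
  · rw [act_mul_mulVec, hg'.e, ← hg.e, act_inv_act]
  · rw [(fix_other T hs).2, T.ff']

lemma cl_swp {g : WG F} (hl : g ∈ lev F ((1 - F.z) ^ 2)) (hg : g ∈ sup F (sp2 f1 f1')) :
    cl ((1 - F.z) ^ 2) Q g = cl ((1 - F.z) ^ 2) Q (swp T * g * (swp T)⁻¹) := by
  have le := sup_mono (F := F) (sp2_le h1 h1')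
  have hs : swp T ∈ sup F Q := sup_mono (sp4_le h1 h1' h2 h2') (swp_mem_sup T)
  rw [cl_eq (le hg) (mul_mem (mul_mem hs (le hg)) (inv_mem hs))]
  simpa [mul_assoc] using comm_swp H.sq_dvd_star T h1 h1' h2 h2' hl hg

lemma cl_comm {g h : WG F} (hl : g ∈ lev F ((1 - F.z) ^ 2)) (hg : g ∈ sup F (sp2 f1 f1'))
    (hh : h ∈ sup F (sp2 f1 f1')) :
    cl ((1 - F.z) ^ 2) Q g * cl ((1 - F.z) ^ 2) Q h =
      cl ((1 - F.z) ^ 2) Q h * cl ((1 - F.z) ^ 2) Q g := by
  have le := sup_mono (F := F) (sp2_le h1 h1')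
  have hs : swp T ∈ sup F Q := sup_mono (sp4_le h1 h1' h2 h2') (swp_mem_sup T)
  have hs' := mul_mem (mul_mem hs (le hg)) (inv_mem hs)
  rw [cl_swp H T h1 h1' h2 h2' hl hg, ← cl_mul hs' (le hh), ← cl_mul (le hh) hs']
  have := conj_eq_of_fix hh (swp_conj_fix T hg)
  congr 1
  rw [mul_inv_eq_iff_eq_mul] at this
  exact this

theorem plane_trivial (hM : MenOK F.z) {g : WG F} {a b : O} (hab : Adm F.z a b)
    (hg : IsT F f1 f1' g a b) : g ∈ NQ F ((1 - F.z) ^ 2) Q := by
  classical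
  obtain ⟨w, hw⟩ : ∃ w, w = (1 - F.z) * star (1 - F.z) := ⟨_, rfl⟩
  have hpi := H.pi_eq
  have hwr : star w = w := by simp [hw, mul_comm]
  have hqw : ((1 - F.z) ^ 2) ∣ w := hw ▸ sq_dvd_w2 H
  have hqs : ((1 - F.z) ^ 2) ∣ star ((1 - F.z) ^ 2) := H.sq_dvd_star
  have le := sup_mono (F := F) (sp2_le h1 h1')
  have le4 := sup_mono (F := F) (sp4_le h1 h1' h2 h2')
  have hz := F.hz
  let M : O → O → sup F Q ⧸ (NQ F ((1 - F.z) ^ 2) Q).subgroupOf (sup F Q) := fun a b =>
    if h : ∃ g, IsT F f1 f1' g a b then cl ((1 - F.z) ^ 2) Q h.choose else 1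
  have spec : ∀ {g a b}, IsT F f1 f1' g a b → M a b = cl ((1 - F.z) ^ 2) Q g := by
    intro g a b hg
    have h : ∃ g, IsT F f1 f1' g a b := ⟨g, hg⟩
    simp only [M, dif_pos h]
    exact h.choose_spec.cl_eq H T h1 h1' h2 h2' hg
  have ex : ∀ {a b}, Adm F.z a b → ∃ g, IsT F f1 f1' g a b := by
    intro a b hab
    obtain ⟨c, e, hc, he, hd⟩ := exists_T' H T.hh T.h'h' T.hh' hab
    obtain ⟨g, hg, -⟩ := exists_T H T.hh T.h'h' T.hh' hab hc he hd
    exact ⟨g, hg⟩
  have hcomm : ∀ a b c d, M a b * M c d = M c d * M a b := by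
    intro a b c d
    by_cases k1 : ∃ g, IsT F f1 f1' g a b
    · by_cases k2 : ∃ g, IsT F f1 f1' g c d
      · obtain ⟨g, hg⟩ := k1
        obtain ⟨g', hg'⟩ := k2
        rw [spec hg, spec hg']
        exact cl_comm H T h1 h1' h2 h2' hg.l hg.s hg'.s
      · simp [M, dif_neg k2]
    · simp [M, dif_neg k1]
  -- lower unipotents of level ((1 - F.z) ^ 2)
  have eL : ∀ r, star r = r → F.IsE f1' 0 (star (1 - F.z) * (w * r)) := fun r hr =>
    ⟨T.h'h', by simp, by rw [H.lam_valid (by simp [hwr, hr, mul_comm])]; simp⟩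
  have lL : ∀ r (hr : star r = r), mkE (eL r hr) ∈ NQ F ((1 - F.z) ^ 2) Q := fun r hr =>
    mkE_mem_NQ _ ⟨h1', T.u2⟩ (Dv.zero _) ((hqw.mul_right _).mul_left _)
  have sL : ∀ r (hr : star r = r), mkE (eL r hr) ∈ sup F (sp2 f1 f1') := fun r hr =>
    mkE_mem_sup _ (right_mem_sp2 _ _) (Submodule.zero_mem _)
  have p1 : ∀ a b r, Adm F.z a b → star r = r → M a (b + r * a) = M a b := by
    intro a b r hab hr
    obtain ⟨g, hg⟩ := ex hab
    have : IsT F f1 f1' (mkE (eL r hr) * g) a (b + r * a) := by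
      refine ⟨mul_mem (mkE_mem_lev hqs _ (Dv.zero _) ((hqw.mul_right _).mul_left _)) hg.l,
        mul_mem (sL r hr) hg.s, ?_⟩
      rw [act_mul_mulVec, hg.e, act_mkE]
      simp only [B_add_right, B_smul_right, B_zero_left, T.h'h, T.h'h', ← hw]
      match_scalars <;> (clear * - hz hpi hw; grind)
    rw [spec this, spec hg, cl_mul (le (sL r hr)) (le hg.s), (cl_eq_one (le (sL r hr))).2 (lL r hr),
      one_mul]
  have p2 : ∀ a b r, Adm F.z a b → star r = r → M (a + r * w ^ 2 * b) b = M a b := by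
    intro a b r hab hr
    obtain ⟨g, hg⟩ := ex hab
    have e : F.IsE f1 0 (star (1 - F.z) * (-r)) :=
      ⟨T.hh, by simp, by rw [H.lam_valid (by simp [hr])]; simp⟩
    have se : mkE e ∈ sup F (sp2 f1 f1') := mkE_mem_sup _ (left_mem_sp2 _ _) (Submodule.zero_mem _)
    have : IsT F f1 f1' (mkE e * g * (mkE e)⁻¹) (a + r * w ^ 2 * b) b := by
      refine ⟨conj_mem_lev hg.l _, mul_mem (mul_mem se hg.s) (inv_mem se), ?_⟩
      have : act (mkE e)⁻¹ *ᵥ f1 = f1 := by rw [mkE_inv, act_mkE]; simp [T.hh]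
      rw [act_mul_mulVec, act_mul_mulVec, this, hg.e, act_mkE]
      simp only [B_add_right, B_smul_right, B_zero_left, T.hh, T.hh', ← hw]
      match_scalars <;> (clear * - hz hpi hw; grind)
    rw [spec this, spec hg, cl_mul (mul_mem (le se) (le hg.s)) (inv_mem (le se)),
      cl_mul (le se) (le hg.s), cl_inv (le se), ← cl_comm H T h1 h1' h2 h2' hg.l hg.s se]
    simp
  have p3 : ∀ b, star b = b → M 1 b = 1 := by
    intro b hb
    have : IsT F f1 f1' (1 : WG F) 1 0 := ⟨one_mem _, one_mem _, by simp⟩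
    have k := p1 1 0 b ⟨by simp, by simp, by simp, isCoprime_one_left⟩ hb
    rw [zero_add, mul_one] at k
    rw [k, spec this, cl_eq_one (one_mem _)]; exact one_mem _
  -- the key relation
  have key : ∀ a t, star a = a → w ^ 2 ∣ a - 1 → IsCoprime a t → ((1 - F.z) ^ 2) ∣ t → ∃ η, ∀ x, Adm F.z a x →
      M a (x * (t * star t)) = η * M a x := by
    intro a t ha haw hat hqt
    have qa : ((1 - F.z) ^ 2) ∣ 1 - a := by
      rw [← dvd_neg, neg_sub]; exact dvd_trans (dvd_trans hqw (dvd_pow_self _ two_ne_zero)) haw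
    obtain ⟨r, s', hrs⟩ : IsCoprime a (((1 - F.z) ^ 2) * t) := by
      refine IsCoprime.mul_right ?_ hat
      obtain ⟨u, hu⟩ := qa
      exact ⟨1, u, by linear_combination -hu⟩
    have hd : a * r - (-(s' * ((1 - F.z) ^ 2))) * t = 1 := by linear_combination hrs
    have qr : ((1 - F.z) ^ 2) ∣ 1 - r := by
      have : 1 - r = -(1 - a) * r + ((1 - F.z) ^ 2) * (s' * t) := by linear_combination -hrs
      rw [this]; exact dvd_add (qa.neg_right.mul_right _) (dvd_mul_right _ _)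
    have hH := mkH_mem_sup T hd
    refine ⟨cl ((1 - F.z) ^ 2) Q (mkH T hd), fun x hx => ?_⟩
    have hat' : IsCoprime a (star t) := by
      obtain ⟨u, v, huv⟩ := hat
      exact ⟨star u, star v, by simpa [ha, mul_comm] using congrArg star huv⟩
    have hB : Adm F.z a (x * (t * star t)) :=
      ⟨ha, by simp [hx.rb, mul_comm], hw ▸ haw, hx.cop.mul_right (hat.mul_right hat')⟩
    obtain ⟨c, e, hc, he, hde⟩ := exists_T' H T.hh T.h'h' T.hh' hB
    obtain ⟨g1, hg1, k1⟩ := exists_T H T.hh T.h'h' T.hh' hB hc he hde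
    obtain ⟨g2, hg2, k2⟩ := exists_T H T.hh T.h'h' T.hh' hx (c := c * (t * star t))
      (by simp [hc, mul_comm]) he (by linear_combination hde)
    rw [← hw] at hde k1 k2
    have eU := isE_iso T.h'h' T.f'f' T.h'f' (star (1 - F.z) * w * x * t)
    have eE : F.IsE f1' (star F.z • (t • f2 + ((1 - F.z) * w * x * t * a) • f2')) 0 := by
      refine ⟨T.h'h', by simp [T.h'f, T.h'f'], ?_⟩
      simp only [B_add_right, B_add_left, B_smul_left, B_smul_right, T.ff, T.f'f', T.ff', T.f'f,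
        star_mul, hwr, hx.rb, ha, star_star, star_zero]
      clear * - hz hpi; grind
    have eL2 : F.IsE f2' 0 (star (1 - F.z) * (w * (-(a * x)))) :=
      ⟨T.f'f', by simp, by rw [H.lam_valid (by simp [hwr, hx.rb, ha, mul_comm])]; simp⟩
    have nU : mkE eU ∈ NQ F ((1 - F.z) ^ 2) Q := mkE_mem_NQ _ ⟨h1', T.u2⟩ (Dv.smul_of_dvd (hqt.mul_left _) _) (dvd_zero _)
    have dE : Dv ((1 - F.z) ^ 2) (star F.z • (t • f2 + ((1 - F.z) * w * x * t * a) • f2')) :=
      ((Dv.smul_of_dvd hqt _).add (Dv.smul_of_dvd ((hqt.mul_left _).mul_right _) _)).smul _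
    have nE : mkE eE ∈ NQ F ((1 - F.z) ^ 2) Q := mkE_mem_NQ _ ⟨h1', T.u2⟩ dE (dvd_zero _)
    have nL : mkE eL2 ∈ NQ F ((1 - F.z) ^ 2) Q := mkE_mem_NQ _ ⟨h2', T.u4⟩ (Dv.zero _) ((hqw.mul_right _).mul_left _)
    have sU : mkE eU ∈ sup F (sp4 f1 f1' f2 f2') :=
      mkE_mem_sup _ (m42 _ _ _ _) (Submodule.smul_mem _ _ (m44 _ _ _ _))
    have sE : mkE eE ∈ sup F (sp4 f1 f1' f2 f2') :=
      mkE_mem_sup _ (m42 _ _ _ _) (Submodule.smul_mem _ _ (Submodule.add_mem _
        (Submodule.smul_mem _ _ (m43 _ _ _ _)) (Submodule.smul_mem _ _ (m44 _ _ _ _))))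
    have sL2 : mkE eL2 ∈ sup F (sp4 f1 f1' f2 f2') :=
      mkE_mem_sup _ (m44 _ _ _ _) (Submodule.zero_mem _)
    have s1 : g1 ∈ sup F (sp4 f1 f1' f2 f2') := sup_mono le_sup_left hg1.s
    have s2 : swp T * g2 * (swp T)⁻¹ ∈ sup F (sp4 f1 f1' f2 f2') :=
      mul_mem (mul_mem (swp_mem_sup T) (sup_mono le_sup_left hg2.s)) (inv_mem (swp_mem_sup T))
    obtain ⟨w1, w1', w2, w2'⟩ := act_swp T
    have i2 : act (swp T)⁻¹ *ᵥ f2 = f1 := by simpa only [w1] using act_inv_act (swp T) f1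
    have i2' : act (swp T)⁻¹ *ᵥ f2' = f1' := by simpa only [w1'] using act_inv_act (swp T) f1'
    set G2 := swp T * g2 * (swp T)⁻¹ with hG2
    have a1 : act G2 *ᵥ f1 = f1 := swp_conj_fix T hg2.s _ (left_mem_sp2 _ _)
    have a2 : act G2 *ᵥ f2 = a • f2 + ((1 - F.z) * w * x) • f2' := by
      rw [hG2, act_mul_mulVec, act_mul_mulVec, i2, hg2.e, mulVec_add, mulVec_smul, mulVec_smul,
        w1, w1', hw]
    have a2' : act G2 *ᵥ f2' = (star (1 - F.z) * (w * (c * (t * star t)))) • f2 + e • f2' := by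
      rw [hG2, act_mul_mulVec, act_mul_mulVec, i2', k2, mulVec_add, mulVec_smul, mulVec_smul,
        w1, w1']
    have b1 : act g1⁻¹ *ᵥ (a • f1 + ((1 - F.z) * w * (x * (t * star t))) • f1') = f1 := by
      rw [hw, ← hg1.e, act_inv_act]
    have b1' : act g1⁻¹ *ᵥ f1' = -(star (1 - F.z) * (w * c)) • f1 + a • f1' := by
      have : f1' = act g1 *ᵥ (-(star (1 - F.z) * (w * c)) • f1 + a • f1') := by
        rw [mulVec_add, mulVec_smul, mulVec_smul, hg1.e, k1, ← hw]
        match_scalars <;> (clear * - hz hpi hw hde; grind)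
      rw [this, act_inv_act, ← this]
    obtain ⟨b2, b2'⟩ := fix_other T (inv_mem hg1.s)
    have hG : G2 * mkE eL2 * mkE eE * g1⁻¹ * mkE eU * mkH T hd ∈ NQ F ((1 - F.z) ^ 2) Q := by
      refine stab_two hqs T h1 h1' h2 h2' ?_
        (mul_mem (mul_mem (mul_mem (mul_mem (mul_mem s2 sL2) sE) (inv_mem s1)) sU) hH) ?_ ?_
      · exact mul_mem (mul_mem (mul_mem (mul_mem (mul_mem (conj_mem_lev hg2.l _)
          (mkE_mem_lev hqs _ (Dv.zero _) ((hqw.mul_right _).mul_left _)))
          (mkE_mem_lev hqs _ dE (dvd_zero _))) (inv_mem hg1.l))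
          (mkE_mem_lev hqs _ (Dv.smul_of_dvd (hqt.mul_left _) _) (dvd_zero _)))
          (mkH_mem_lev hqs T hd qa hqt (dvd_mul_left _ _).neg_right qr)
      · have c1 : act (mkH T hd) *ᵥ f1 = a • f1 + t • f2 := by
          rw [act_mkH]; simp only [T.hh, T.h'h, T.fh, T.f'h]; match_scalars <;> (clear * - hz hpi hw; grind)
        have c2 : act (mkE eU) *ᵥ (a • f1 + t • f2) =
            (a • f1 + ((1 - F.z) * w * (x * (t * star t))) • f1') + t • f2
              + ((1 - F.z) * w * x * t * a) • f2' := by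
          rw [act_mkE]
          simp only [B_add_right, B_smul_right, B_smul_left, T.h'h, T.h'f, T.f'h, T.f'f, star_mul,
            star_star, hwr, hx.rb]
          match_scalars <;> (clear * - hz hpi hw; grind)
        simp only [act_mul_mulVec]
        rw [c1, c2, mulVec_add (act g1⁻¹), mulVec_add (act g1⁻¹), b1, mulVec_smul, mulVec_smul, b2, b2']
        have c3 : act (mkE eE) *ᵥ (f1 + t • f2 + ((1 - F.z) * w * x * t * a) • f2') = f1 := by
          rw [act_mkE]
          simp only [B_add_right, B_add_left, B_smul_right, B_smul_left, T.h'h, T.h'f, T.h'f',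
            T.fh, T.f'h, T.ff, T.f'f', T.ff', T.f'f, star_mul, star_star, hwr, hx.rb, ha]
          match_scalars <;> (clear * - hz hpi hw; grind)
        rw [c3, act_mkE]
        simp [T.f'h, a1]
      · have c1 : act (mkH T hd) *ᵥ f2' = -star t • f1' + a • f2' := by
          rw [act_mkH]; simp only [T.hf', T.h'f', T.ff', T.f'f', ha]; match_scalars <;> (clear * - hz hpi hw; grind)
        have c2 : act (mkE eU) *ᵥ (-star t • f1' + a • f2') = -star t • f1' + a • f2' := by
          rw [act_mkE]; simp [T.h'h', T.h'f', T.f'h', T.f'f']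
        have c3 : act (mkE eE) *ᵥ (-star t • (-(star (1 - F.z) * (w * c)) • f1 + a • f1') + a • f2')
            = (star t * (star (1 - F.z) * (w * c))) • f1
              - (star (1 - F.z) * (w * (c * (t * star t)))) • f2
              + (a * (1 - w ^ 3 * c * x * (t * star t))) • f2' := by
          rw [act_mkE]
          simp only [B_add_right, B_add_left, B_smul_right, B_smul_left, T.h'h, T.h'h', T.h'f',
            T.fh, T.f'h, T.fh', T.f'h', T.ff', T.f'f', star_mul, star_star, hwr, hx.rb, ha]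
          match_scalars <;> (clear * - hz hpi hw; grind)
        simp only [act_mul_mulVec]
        rw [c1, c2, mulVec_add, mulVec_smul, mulVec_smul, b1', b2', c3, act_mkE]
        simp only [B_add_right, B_sub_right, B_smul_right, B_zero_left, T.f'h, T.f'f, T.f'f',
          mulVec_add, mulVec_sub, mulVec_smul, a1, a2, a2', smul_zero, mulVec_zero, T.fh, T.ff,
          T.ff', B_zero_right]
        clear * - hz hpi hw hde; grind
    have s2Q := le4 s2
    have hG' := (cl_eq_one (q := (1 - F.z) ^ 2) (le4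
      (mul_mem (mul_mem (mul_mem (mul_mem (mul_mem s2 sL2) sE) (inv_mem s1)) sU) hH))).2 hG
    rw [cl_mul (le4 (mul_mem (mul_mem (mul_mem (mul_mem s2 sL2) sE) (inv_mem s1)) sU)) (le4 hH),
      cl_mul (le4 (mul_mem (mul_mem (mul_mem s2 sL2) sE) (inv_mem s1))) (le4 sU),
      cl_mul (le4 (mul_mem (mul_mem s2 sL2) sE)) (le4 (inv_mem s1)),
      cl_mul (le4 (mul_mem s2 sL2)) (le4 sE), cl_mul s2Q (le4 sL2),
      (cl_eq_one (le4 sL2)).2 nL, (cl_eq_one (le4 sE)).2 nE, (cl_eq_one (le4 sU)).2 nU,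
      cl_inv (le4 s1), hG2, ← cl_swp H T h1 h1' h2 h2' hg2.l hg2.s, ← spec hg1, ← spec hg2] at hG'
    simp only [mul_one] at hG'
    have hc' := hcomm a x a (x * (t * star t))
    have k3 : cl ((1 - F.z) ^ 2) Q (mkH T hd) = M a (x * (t * star t)) * (M a x)⁻¹ := by
      rw [← inv_eq_of_mul_eq_one_right hG']; group
    rw [k3]; group
  have p4 : ∀ a x t, Adm F.z a x → IsCoprime a t →
      M a (x * (t * star t)) = M a (t * star t) * M a x := by
    intro a x t hx hat
    have ha := hx.ra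
    have hc1 : IsCoprime a (1 - a) := ⟨1, 1, by ring⟩
    obtain ⟨η, hη⟩ := key a (t * (1 - a)) ha (hw ▸ hx.cong) (hat.mul_right hc1) (by
      refine Dvd.dvd.mul_left ?_ _
      rw [← dvd_neg, neg_sub]
      exact dvd_trans (dvd_trans hqw (dvd_pow_self _ two_ne_zero)) (hw ▸ hx.cong))
    have hat' : IsCoprime a (star t) := by
      obtain ⟨u, v, huv⟩ := hat
      exact ⟨star u, star v, by simpa [ha, mul_comm] using congrArg star huv⟩
    have red : ∀ y, Adm F.z a y →
        M a (y * (t * (1 - a) * star (t * (1 - a)))) = M a (y * (t * star t)) := by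
      intro y hy
      rw [← p1 a (y * (t * star t)) (y * (t * star t) * (a - 2))
        ⟨ha, by simp [hy.rb, mul_comm], hx.cong, hy.cop.mul_right (hat.mul_right hat')⟩
        (by simp [hy.rb, ha, mul_comm])]
      congr 1
      rw [star_mul, star_sub, star_one, ha]; ring
    have h1a : Adm F.z a 1 := ⟨ha, by simp, hx.cong, isCoprime_one_right⟩
    have m1 : M a 1 = 1 := by
      obtain ⟨u, hu⟩ := hx.cong
      rw [← hw] at hu
      obtain ⟨u', hu', hu''⟩ := H.real_dvd (m := w ^ 2) (y := a - 1) (by simp [hwr])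
        (by simp [ha]) ⟨u, hu⟩
      have := p2 1 1 u' ⟨by simp, by simp, by simp, isCoprime_one_right⟩ hu'
      rw [p3 1 (by simp)] at this
      rw [← this]; congr 1; linear_combination hu''
    have k1 := hη x hx
    have k2 := hη 1 h1a
    rw [red x hx] at k1
    rw [red 1 h1a, m1, mul_one, one_mul] at k2
    rw [k1, k2]
  have := hM.group _ M hcomm p1 (hw ▸ p2) p3 p4 a b hab
  rwa [spec hg, cl_eq_one (le hg.s)] at this

end

end Pool.Agent.Lib.MP_61a4e3_al
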