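import Pool.Agent.Lib.MP_61a4e3_al.Men2
import Pool.Agent.Lib.MP_61a4e3_al.Symbol

/-! Triviality of relative symbols, and the transfer to the quadratic extension. -/

set_option linter.unusedSectionVars false
set_option linter.unusedSimpArgs false
set_option linter.unusedVariables false
set_option maxHeartbeats 800000

namespace Pool.Agent.Lib.MP_61a4e3_al

open Ideal NumberField Polynomial

lemma exists_sq_one_add {S : Type} [CommRing S] (h2 : IsUnit (2 : S)) (k : ℕ) :
    ∀ x : S, x ^ (k + 1) = 0 → ∃ s, s ^ 2 = 1 + x := by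
  obtain ⟨h, hh⟩ := h2.exists_right_inv
  induction k with
  | zero => intro x hx; exact ⟨1, by simp_all⟩
  | succ k ih =>
    intro x hx
    have : IsNilpotent (h * x) := ⟨k + 1 + 1, by rw [mul_pow, hx, mul_zero]⟩
    obtain ⟨v, hv⟩ := this.isUnit_one_add.exists_right_inv
    obtain ⟨s, hs⟩ := ih (-(h * v) ^ 2 * x ^ 2) (by
      rw [mul_pow, ← pow_mul, show 2 * (k + 1) = (k + 1 + 1) + k by ring, pow_add x, hx]; simp)
    refine ⟨s * (1 + h * x), ?_⟩
    rw [mul_pow, hs]
    linear_combination x * hh - (h * x) ^ 2 * ((1 + h * x) * v + 1) * hv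

lemma exists_form {S : Type} [CommRing S] [Finite S] {D u : S} (h2 : IsUnit (2 : S))
    (hD : IsUnit D) (hu : IsUnit u) : ∃ X Y, X ^ 2 - D * Y ^ 2 = u := by
  have loc : ∀ P : MaximalSpectrum S, ∃ X Y, X ^ 2 - D * Y ^ 2 - u ∈ P.asIdeal := by
    intro P
    have := P.isMaximal
    let := Ideal.Quotient.field P.asIdeal
    have : Finite (S ⧸ P.asIdeal) := Finite.of_surjective _ Ideal.Quotient.mk_surjective
    have := Fintype.ofFinite (S ⧸ P.asIdeal)
    have hD' : -Ideal.Quotient.mk P.asIdeal D ≠ 0 := (hD.map _).neg.ne_zero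
    have hc : Fintype.card (S ⧸ P.asIdeal) % 2 = 1 := by
      have := mt (not_isUnit_prime_of_dvd_card (R := S ⧸ P.asIdeal) (p := 2))
        (not_not.2 (by
          have := h2.map (Ideal.Quotient.mk P.asIdeal)
          rwa [map_ofNat] at this))
      omega
    obtain ⟨a, b, hab⟩ := FiniteField.exists_root_sum_quadratic
      (f := X ^ 2 - C (Ideal.Quotient.mk P.asIdeal u))
      (g := C (-Ideal.Quotient.mk P.asIdeal D) * X ^ 2) (degree_X_pow_sub_C two_pos _)
      (degree_C_mul_X_pow 2 hD') hc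
    obtain ⟨a, rfl⟩ := Ideal.Quotient.mk_surjective a
    obtain ⟨b, rfl⟩ := Ideal.Quotient.mk_surjective b
    refine ⟨a, b, Ideal.Quotient.eq_zero_iff_mem.1 ?_⟩
    simp only [eval_sub, eval_pow, eval_X, eval_C, eval_mul] at hab
    simp only [map_sub, map_pow, map_mul]
    linear_combination hab
  choose X Y hXY using loc
  have hp : Pairwise (Function.onFun IsCoprime fun P : MaximalSpectrum S => P.asIdeal) :=
    fun P P' h => isCoprime_iff_sup_eq.2
      (P.isMaximal.coprime_of_ne P'.isMaximal fun e => h (MaximalSpectrum.ext e))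
  obtain ⟨x, hx⟩ := Ideal.exists_forall_sub_mem_ideal hp X
  obtain ⟨y, hy⟩ := Ideal.exists_forall_sub_mem_ideal hp Y
  have nil : IsNilpotent (x ^ 2 - D * y ^ 2 - u) := by
    refine nilpotent_iff_mem_prime.2 fun J hJ => ?_
    let P : MaximalSpectrum S := ⟨J, IsArtinianRing.isMaximal_of_isPrime J⟩
    convert J.sub_mem (J.add_mem (hXY P) (J.mul_mem_right (x + X P) (hx P)))
      (J.mul_mem_right (D * (y + Y P)) (hy P)) using 1
    ring
  obtain ⟨v, hv⟩ := (nil.isUnit_add_left_of_commute hu (Commute.all _ _)).exists_right_inv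
  obtain ⟨k, hk⟩ := nil
  obtain ⟨s, hs⟩ := exists_sq_one_add h2 k (-v * (x ^ 2 - D * y ^ 2 - u)) (by
    rw [mul_pow, pow_succ (_ - u), hk]; simp)
  exact ⟨s * x, s * y, by
    linear_combination (x ^ 2 - D * y ^ 2) * hs - (x ^ 2 - D * y ^ 2 - u) * hv⟩

variable {F : Type} [Field F] [NumberField F]

lemma pow_sub_one_mem {P : Ideal (𝓞 F)} (hP : P.IsPrime) (h0 : P ≠ ⊥) {y : 𝓞 F}
    (hy : IsCoprime P (span {y})) : y ^ (absNorm P - 1) - 1 ∈ P := by
  have := hP.isMaximal h0
  let := Ideal.Quotient.field P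
  have := finiteQuotientOfFreeOfNeBot P h0
  have := Fintype.ofFinite (𝓞 F ⧸ P)
  rw [absNorm_apply, Submodule.cardQuot_apply, Nat.card_eq_fintype_card, ← Ideal.Quotient.eq,
    map_pow, map_one]
  refine FiniteField.pow_card_sub_one_eq_one _ fun h => hP.ne_top ?_
  rw [← isCoprime_iff_sup_eq.1 hy, eq_comm, sup_eq_left, span_singleton_le_iff_mem]
  exact Ideal.Quotient.eq_zero_iff_mem.1 h

lemma exists_sq_neg_one {P : Ideal (𝓞 F)} (hP : P.IsPrime) (h0 : P ≠ ⊥)
    (h : absNorm P % 4 ≠ 3) : ∃ w, -1 - w * w ∈ P := by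
  have := hP.isMaximal h0
  let := Ideal.Quotient.field P
  have := finiteQuotientOfFreeOfNeBot P h0
  have := Fintype.ofFinite (𝓞 F ⧸ P)
  rw [absNorm_apply, Submodule.cardQuot_apply, Nat.card_eq_fintype_card] at h
  obtain ⟨w, hw⟩ := FiniteField.isSquare_neg_one_iff.2 h
  obtain ⟨w, rfl⟩ := Ideal.Quotient.mk_surjective w
  exact ⟨w, Ideal.Quotient.eq.1 (by simpa using hw)⟩

variable [IsTotallyReal F] {Q D : 𝓞 F} {C : Type} [CommGroup C] {M : 𝓞 F → 𝓞 F → C}
  (S : MS Q D M) (h2 : 2 ∣ D)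
include S

lemma MS.move {a b n : 𝓞 F} (ha : Q ∣ a - 1) (hab : IsCoprime a b) (hn : n ≠ 0) :
    ∃ a', Gd Q D a' ∧ IsCoprime a' n ∧ IsCoprime a' b ∧ M a' b = M a b := by
  obtain ⟨r, hr⟩ := exists_add_coprime (S.fin _ (mul_ne_zero S.D0 hn)) (a := a) (b := Q * b)
    fun P hP _ h1 h2 => IsCoprime.not_mem ((cop_of_dvd_sub_one ha).mul_right hab) hP h1 h2
  refine ⟨a + r * (Q * b), ⟨?_, hr.of_mul_right_left⟩, hr.of_mul_right_right, ?_,
    S.cl ha hab ⟨r, by ring⟩⟩
  · convert dvd_add ha (dvd_mul_right Q (r * b)) using 1; ring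
  · rw [← mul_assoc]; exact hab.add_mul_right_left _

include h2

lemma odd_norm {P : Ideal (𝓞 F)} (h0 : P ≠ ⊥) (c : IsCoprime P (span {Q * D})) :
    ∃ k, absNorm P = 2 * k + 1 := by
  obtain ⟨e, rfl⟩ := h2
  have := isUnit_absNorm (n := 2) h0 (by simpa using (cop_ideal_mul.1 (cop_ideal_mul.1 c).2).1)
  rw [ZMod.isUnit_iff_coprime, Nat.coprime_two_right] at this
  exact this

theorem MS.sq_eq_one {a b : 𝓞 F} (ha : Q ∣ a - 1) (hab : IsCoprime a b) : M a b ^ 2 = 1 := by
  by_contra hne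
  obtain ⟨l, hl, hd⟩ := Nat.exists_prime_and_dvd (mt orderOf_eq_one_iff.1 hne)
  have ho : ∃ k, 0 < k ∧ M a b ^ k = 1 := by
    obtain ⟨a', g, -, c, e⟩ := S.move ha hab one_ne_zero
    obtain ⟨k, hk, h⟩ := exists_pow_sub_one (S.fin _ (S.ne_zero g)) c.symm
    have i0 : span {a'} ≠ ⊥ := by simpa using S.ne_zero g
    have i1 := (isCoprime_span_singleton_iff _ _).2 g.cop
    refine ⟨k, hk, ?_⟩
    rw [← e, ← S.chi_span g c, ← S.chi_pow i0 i1 ((isCoprime_span_singleton_iff _ _).2 c),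
      S.chi_one i0 i1 (mem_span_singleton.2 h)]
  let T : Subgroup C :=
    { carrier := {x | ∃ k, ¬ l ∣ k ∧ x ^ k = 1}
      mul_mem' := by
        rintro x y ⟨k, h1, h2⟩ ⟨j, h3, h4⟩
        refine ⟨k * j, fun h => (hl.dvd_mul.1 h).elim h1 h3, ?_⟩
        rw [mul_pow, pow_mul, h2, mul_comm k, pow_mul, h4]; simp
      one_mem' := ⟨1, hl.not_dvd_one, by simp⟩
      inv_mem' := by
        rintro x ⟨k, h1, h2⟩; exact ⟨k, h1, by rw [inv_pow, h2, inv_one]⟩ }
  have l2 := hl.two_le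
  obtain ⟨a', g, c1, c2, e⟩ := S.move ha hab (n := ((2 * l : ℕ) : 𝓞 F))
    (by exact_mod_cast (show 2 * l ≠ 0 by omega))
  have := kill S ((QuotientGroup.mk' T).comp (powMonoidHom 2)) (n := 2 * l) (by omega)
    (fun P hP h0 c hN _ y hy => by
      obtain ⟨k, hk⟩ := odd_norm S h2 h0 c
      refine (QuotientGroup.eq_one_iff _).2 ⟨k, ?_, ?_⟩
      · rintro ⟨j, rfl⟩
        refine hN ?_
        rw [hk, ← mul_assoc, Nat.cast_add, Nat.cast_mul, ZMod.natCast_self]; simp
      · have := pow_sub_one_mem hP h0 hy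
        rw [hk, Nat.add_sub_cancel] at this
        rw [powMonoidHom_apply, ← pow_mul, ← S.chi_pow h0 c hy, S.chi_one h0 c this])
    (Or.inl fun I h0 c => by
      rw [MonoidHom.comp_apply, powMonoidHom_apply, ← S.chi_pow h0 c (by
        rw [span_singleton_neg]; exact cop_ideal_one I), S.chi_one h0 c (by simp), map_one])
    g c1 c2
  obtain ⟨k, h1, h3⟩ := (QuotientGroup.eq_one_iff _).1 this
  rw [powMonoidHom_apply, e] at h3
  exact h1 (hd.trans (orderOf_dvd_of_pow_eq_one h3))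

theorem MS.eq_one {a b : 𝓞 F} (ha : Q ∣ a - 1) (hab : IsCoprime a b) : M a b = 1 := by
  have sq : ∀ I : Ideal (𝓞 F), I ≠ ⊥ → IsCoprime I (span {Q * D}) → ∀ y, IsCoprime I (span {y}) →
      chi Q D M I y ^ 2 = 1 := by
    intro I h0 c y hy
    obtain ⟨a, w, g, c', e⟩ := S.chi_val h0 c hy
    rw [e, S.sq_eq_one h2 g.1 c']
  have cm1 : ∀ I : Ideal (𝓞 F), IsCoprime I (span {-1}) := fun I => by
    rw [span_singleton_neg]; exact cop_ideal_one I
  obtain ⟨a', g, c1, c2, e⟩ := S.move ha hab (n := ((4 : ℕ) : 𝓞 F)) (by norm_num)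
  rw [← e]
  refine kill S (MonoidHom.id C) (n := 4) (by omega) (fun P hP h0 c hN h1 y hy => ?_)
    (Or.inr ⟨rfl, fun P hP h0 c hN => ?_⟩) g c1 c2
  · obtain ⟨k, hk⟩ := odd_norm S h2 h0 c
    obtain ⟨j, hj | hj⟩ := Nat.even_or_odd' k
    · refine absurd ?_ hN
      rw [hk, hj, ← mul_assoc, Nat.cast_add, Nat.cast_mul, ZMod.natCast_self]; simp
    have h3 := pow_sub_one_mem hP h0 hy
    rw [hk, Nat.add_sub_cancel, show y ^ (2 * k) - 1 = (y ^ k - 1) * (y ^ k - -1 * 1) by ring] at h3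
    have h4 : chi Q D M P y ^ k = 1 := by
      rw [← S.chi_pow h0 c hy]
      rcases hP.mem_or_mem h3 with h | h
      · exact S.chi_one h0 c h
      · rw [S.chi_mul_right h0 c (cm1 P) (cop_ideal_one P) h, S.chi_one h0 c (u := 1) (by simp),
          mul_one]; exact h1
    rwa [hj, pow_succ, pow_mul, sq P h0 c y hy, one_pow, one_mul] at h4
  · obtain ⟨w, hw⟩ := exists_sq_neg_one hP h0 (by
      have := (ZMod.natCast_eq_natCast_iff' (absNorm P) 1 4).1 (by simpa using hN)
      omega)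
    have hc := (cop_ideal_mul.1 (cop_ideal_of_sub (y' := w * w) (cm1 P)
      (by simpa using P.neg_mem hw))).1
    rw [MonoidHom.id_apply, S.chi_mul_right h0 c hc hc hw, ← pow_two, sq P h0 c w hc]

omit S h2 in
theorem menOK_of {O : Type} [CommRing O] [StarRing O] [IsDomain O] {z : O} (H : RH z)
    (j : 𝓞 F →+* O) (hj : Function.Injective j) (hr : ∀ x, star x = x ↔ ∃ r, j r = x) :
    MenOK z := by
  intro C _ M h1 h2 h3 h4 a b hab
  have hz := H.hz
  obtain ⟨τ, hτ⟩ := (hr (z + star z)).1 (by simp [add_comm])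
  have jr : ∀ r, star (j r) = j r := fun r => (hr _).2 ⟨r, rfl⟩
  have hQ : j ((2 - τ) ^ 2) = ((1 - z) * star (1 - z)) ^ 2 := by
    rw [map_pow, map_sub, hτ, map_ofNat, star_sub, star_one]
    congr 1; linear_combination -hz
  have adm : ∀ {a b}, (2 - τ) ^ 2 ∣ a - 1 → IsCoprime a b → Adm z (j a) (j b) := fun h h' =>
    ⟨jr _, jr _, by
      have := _root_.map_dvd j h
      rwa [hQ, map_sub, map_one] at this, h'.map j⟩
  have S : MS ((2 - τ) ^ 2) (2 * (τ ^ 2 - 4)) fun a b => M (j a) (j b) := by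
    have r1 : ∀ a b r, (2 - τ) ^ 2 ∣ a - 1 → IsCoprime a b →
        M (j a) (j (b + r * a)) = M (j a) (j b) := fun a b r h h' => by
      simpa using h1 _ _ (j r) (adm h h') (jr r)
    refine ⟨fun m hm => finiteQuotientOfFreeOfNeBot _ (by simpa using hm), fun h => ?_,
      mul_ne_zero two_ne_zero fun h => ?_, fun h => ?_, r1, fun a b r h h' => ?_,
      fun b => by simpa using h3 _ (jr b), fun a x y ha hD hx hy => ?_⟩
    · rw [h, map_zero] at hQ
      exact pow_ne_zero 2 (mul_ne_zero H.one_sub H.star_pi_ne) hQ.symm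
    · have := congrArg j h
      rw [map_sub, map_pow, hτ, map_ofNat, map_zero] at this
      refine pow_ne_zero 2 (mul_ne_zero H.one_sub H.one_add) ?_
      linear_combination z ^ 2 * this - (z * star z + 1 + 2 * z ^ 2) * hz
    · have h2 : IsUnit ((2 : ℤ) : 𝓞 F) := by simpa using isUnit_of_mul_isUnit_left h
      exact absurd (isUnit_of_map_unit (algebraMap ℤ (𝓞 F)) 2 h2) (by decide)
    · have := h2 _ _ (j r) (adm h h') (jr r)
      rwa [← hQ, ← map_mul, ← map_mul, ← map_add] at this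
    · have a0 : a ≠ 0 := by
        rintro rfl
        have h2 : IsUnit ((2 : ℤ) : 𝓞 F) := by
          simpa using isUnit_of_mul_isUnit_left (isCoprime_zero_left.1 hD)
        exact absurd (isUnit_of_map_unit (algebraMap ℤ (𝓞 F)) 2 h2) (by decide)
      have := finiteQuotientOfFreeOfNeBot (span {a}) (by simpa using a0)
      have un : ∀ {u}, IsCoprime a u → IsUnit (Ideal.Quotient.mk (span {a}) u) := by
        rintro u ⟨s, t, hst⟩
        refine IsUnit.of_mul_eq_one (Ideal.Quotient.mk _ t) ?_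
        rw [← map_mul, ← map_one (Ideal.Quotient.mk (span {a})), Ideal.Quotient.eq,
          mem_span_singleton]
        exact ⟨-s, by linear_combination hst⟩
      obtain ⟨X, Y, hXY⟩ := exists_form (by
        have := un hD.of_mul_right_left
        rwa [map_ofNat] at this)
        (un hD.of_mul_right_right) (un hy)
      obtain ⟨X, rfl⟩ := Ideal.Quotient.mk_surjective X
      obtain ⟨Y, rfl⟩ := Ideal.Quotient.mk_surjective Y
      rw [← map_pow, ← map_pow, ← map_mul, ← map_sub, Ideal.Quotient.eq, mem_span_singleton] at hXY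
      have cN := cop_of_dvd_sub hy hXY
      obtain ⟨c, hc⟩ := hXY
      have e : (j X - j τ * j Y + 2 * j Y * z) * star (j X - j τ * j Y + 2 * j Y * z) =
          j (X ^ 2 - (τ ^ 2 - 4) * Y ^ 2) := by
        simp only [star_add, star_sub, star_mul, jr, map_sub, map_mul, map_pow, map_ofNat,
          star_ofNat]
        linear_combination 4 * j Y ^ 2 * hz - 2 * j Y * (j X - j τ * j Y) * hτ
      have := h4 _ _ (j X - j τ * j Y + 2 * j Y * z) (adm ha hx)
        (by have := cN.map j; rw [← e] at this; exact this.of_mul_right_left)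
      rw [e, ← map_mul, show X ^ 2 - (τ ^ 2 - 4) * Y ^ 2 = y + c * a by linear_combination hc,
        r1 _ _ _ ha hy, show x * (y + c * a) = x * y + x * c * a by ring,
        r1 _ _ _ ha (hx.mul_right hy), mul_comm (M _ _)] at this
      exact this
  obtain ⟨a, rfl⟩ := (hr a).1 hab.ra
  obtain ⟨b, rfl⟩ := (hr b).1 hab.rb
  refine S.eq_one (dvd_mul_right _ _) ?_ ?_
  · obtain ⟨s, hs, e⟩ := H.real_dvd (by rw [← hQ, jr]) (by simp [jr]) hab.cong
    obtain ⟨s, rfl⟩ := (hr s).1 hs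
    exact ⟨s, hj (by rw [map_sub, map_one, e, map_mul, hQ])⟩
  · obtain ⟨u, v, huv⟩ := hab.cop
    obtain ⟨u, v, hu, hv, e⟩ := H.real_comb (jr a) (jr b) (star_one O) huv
    obtain ⟨u, rfl⟩ := (hr u).1 hu
    obtain ⟨v, rfl⟩ := (hr v).1 hv
    exact ⟨u, v, hj (by simpa using e)⟩

end Pool.Agent.Lib.MP_61a4e3_al
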