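import Pool.Agent.Lib.MP_61a4e3_al.Braid1

/-! Moving a unimodular vector into the orthogonal complement of a good pair. -/

set_option linter.unusedSectionVars false
set_option linter.unusedSimpArgs false
set_option linter.unusedVariables false
set_option maxHeartbeats 800000

namespace Pool.Agent.Lib.MP_61a4e3_al

open Matrix WG Form

variable {O : Type} [CommRing O] [StarRing O] [IsDomain O] {ι : Type} [Fintype ι] [DecidableEq ι]
  {F : Form O ι} {Γ : Subgroup (WG F)} {u u' k0 k f f' : ι → O}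

/-- The state of the reduction. -/
structure MvS (Γ : Subgroup (WG F)) (u u' k0 k f f' : ι → O) : Prop where
  H : RH F.z
  g1 : Good Γ u
  g2 : Good Γ u'
  orb : Orb Γ k0 k
  T : Planes F u u' f f'
  uni : Uni F k
  d1 : (1 - F.z) ∣ F.B u k
  d2 : (1 - F.z) ∣ F.B u' k

namespace MvS
variable (S : MvS Γ u u' k0 k f f')
include S

lemma st {l : O} (hl : (1 - F.z) ∣ l) : (1 - F.z) ∣ star l := by
  obtain ⟨m, rfl⟩ := hl; rw [star_mul]; exact S.H.pi_dvd_star.mul_left _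

lemma mv {y : ι → O} (h1 : F.B u y = 0) (h2 : F.B u' y = 0) (yy : F.B y y = 0) {l : O}
    (hl : (1 - F.z) ∣ l) : ∃ k', MvS Γ u u' k0 k' f f' ∧ ∀ x,
      F.B x k' = F.B x k - F.B u k * star l * F.B x y + star F.z * l * F.B y k * F.B x u := by
  have e := isE_iso S.T.hh yy h1 (star l)
  have hx : ∀ x, F.B x (act (mkE e) *ᵥ k) =
      F.B x k - F.B u k * star l * F.B x y + star F.z * l * F.B y k * F.B x u := by
    intro x; rw [act_mkE]; simp; ring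
  refine ⟨_, ⟨S.H, S.g1, S.g2, S.orb.trans ⟨_, (S.g1 _ _ e (Dv.smul_of_dvd (S.st hl) _)).mem e, rfl⟩,
    S.T, S.uni.act _, ?_, ?_⟩, hx⟩
  · rw [hx, h1, S.T.hh]; simpa using S.d1
  · rw [hx, h2, mul_zero, sub_zero]
    exact dvd_add S.d2 (((hl.mul_left _).mul_right _).mul_right _)

lemma mv' {y : ι → O} (h1 : F.B u y = 0) (h2 : F.B u' y = 0) (yy : F.B y y = 0) {l : O}
    (hl : (1 - F.z) ∣ l) : ∃ k', MvS Γ u u' k0 k' f f' ∧ ∀ x,
      F.B x k' = F.B x k - F.B u' k * star l * F.B x y + star F.z * l * F.B y k * F.B x u' := by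
  have e := isE_iso S.T.h'h' yy h2 (star l)
  have hx : ∀ x, F.B x (act (mkE e) *ᵥ k) =
      F.B x k - F.B u' k * star l * F.B x y + star F.z * l * F.B y k * F.B x u' := by
    intro x; rw [act_mkE]; simp; ring
  refine ⟨_, ⟨S.H, S.g1, S.g2, S.orb.trans ⟨_, (S.g2 _ _ e (Dv.smul_of_dvd (S.st hl) _)).mem e, rfl⟩,
    S.T, S.uni.act _, ?_, ?_⟩, hx⟩
  · rw [hx, h1, mul_zero, sub_zero]
    exact dvd_add S.d1 (((hl.mul_left _).mul_right _).mul_right _)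
  · rw [hx, h2, S.T.h'h']; simpa using S.d2

lemma re {g g' : ι → O} (T : Planes F u u' g g') : MvS Γ u u' k0 k g g' :=
  ⟨S.H, S.g1, S.g2, S.orb, T, S.uni, S.d1, S.d2⟩

lemma swap : MvS Γ u u' k0 k (F.z • f') f :=
  S.re ⟨S.T.hh, S.T.h'h', by simp [S.T.f'f'], S.T.ff, S.T.hh',
    by rw [B_smul_left, S.T.f'f, F.hz'], by simp [S.T.hf'], S.T.hf, by simp [S.T.h'f'], S.T.h'f⟩

lemma fr {x : ι → O} (m1 : F.B u x = 0) (m2 : F.B u' x = 0) (m3 : F.B f x = 0) (m4 : F.B f' x = 0)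
    {c : O} (hc : F.z * c + star c = F.B x x) : MvS Γ u u' k0 k (f + x - star c • f') f' := by
  have T := S.T
  refine S.re ⟨T.hh, T.h'h', ?_, T.f'f', T.hh', ?_, ?_, T.hf', ?_, T.h'f'⟩
  · simp [T.ff, T.ff', T.f'f, T.f'f', m3, m4, B_eq_zero_swap _ m3, B_eq_zero_swap _ m4, ← hc]
    ring
  · simp [T.ff', T.f'f', B_eq_zero_swap _ m4]
  · simp [T.hf, T.hf', m1]
  · simp [T.h'f, T.h'f', m2]

lemma fr' {r : O} (hr : star r = r) : MvS Γ u u' k0 k f (f' + (star (1 - F.z) * r) • f) := by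
  have T := S.T
  have := S.H.lam_valid hr
  refine S.re ⟨T.hh, T.h'h', T.ff, ?_, T.hh', ?_, T.hf, ?_, T.h'f, ?_⟩
  · simp only [B_add_left, B_add_right, B_smul_left, B_smul_right, T.ff, T.ff', T.f'f, T.f'f']
    linear_combination this
  · simp [T.ff', T.ff]
  · simp [T.hf, T.hf']
  · simp [T.h'f, T.h'f']

lemma dec : ∃ (m : ι → O) (a a' b b' : O), F.B u m = 0 ∧ F.B u' m = 0 ∧ F.B f m = 0 ∧
    F.B f' m = 0 ∧ F.B m k + a * F.B u k + a' * F.B u' k + b * F.B f k + b' * F.B f' k = 1 := by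
  obtain ⟨y, hy⟩ := S.uni
  obtain ⟨m, a, b, c, d, rfl, m1, m2, m3, m4⟩ := S.T.decomp y
  exact ⟨m, star a, star b, star c, star d, m1, m2, m3, m4, by simpa using hy⟩

lemma s0 : ∃ g g', MvS Γ u u' k0 k g g' ∧ IsCoprime (F.B g k) (1 - F.z) := by
  rcases S.H.pu with hu | hp
  · exact ⟨f, f', S, hu.exists_left_inv.elim fun c hc => ⟨0, c, by simpa using hc⟩⟩
  by_cases h1 : (1 - F.z) ∣ F.B f k
  swap
  · exact ⟨f, f', S, (S.H.coprime_of_prime hp h1).symm⟩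
  by_cases h2 : (1 - F.z) ∣ F.B f' k
  swap
  · refine ⟨_, _, S.swap, (S.H.coprime_of_prime hp fun h => h2 ?_).symm⟩
    have := h.mul_left F.z
    rwa [B_smul_left, ← mul_assoc, F.hz, one_mul] at this
  obtain ⟨m, a, a', b, b', m1, m2, m3, m4, h⟩ := S.dec
  refine ⟨_, _, S.fr m1 m2 m3 m4 (F.B_self m).symm, (S.H.coprime_of_prime hp fun h3 => ?_).symm⟩
  refine hp.not_isUnit (isUnit_of_dvd_one ?_)
  have := dvd_add (dvd_add (dvd_add (dvd_add h3 (S.d1.mul_left a)) (S.d2.mul_left a'))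
    (h1.mul_left (b - 1))) (h2.mul_left (b' + F.qf m))
  simp only [B_sub_left, B_add_left, B_smul_left, star_star] at this
  convert this using 1
  linear_combination -h

lemma s1 (h : IsCoprime (F.B f k) (1 - F.z)) : ∃ k g g', MvS Γ u u' k0 k g g' ∧
    IsCoprime (F.B g k) (1 - F.z) ∧ F.B g k ≠ 0 := by
  by_cases h0 : F.B f k = 0
  swap
  · exact ⟨k, f, f', S, h, h0⟩
  have T := S.T
  have c : ∀ x, IsCoprime x (1 - F.z) := fun x => by
    obtain ⟨a, b, e⟩ := h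
    exact ⟨0, b, by simpa [h0] using e⟩
  have p0 := S.H.star_pi_ne
  by_cases h1 : F.B f' k = 0
  swap
  · exact ⟨k, _, _, S.swap, c _, by simpa [S.H.unit_z.ne_zero] using h1⟩
  by_cases h2 : F.B u k = 0
  swap
  · obtain ⟨k', S', e⟩ := S.mv T.hf' T.h'f' T.f'f' dvd_rfl
    exact ⟨k', f, f', S', c _, by rw [e, h0, T.ff', T.fh]; simpa using ⟨h2, by simpa using p0⟩⟩
  by_cases h3 : F.B u' k = 0
  swap
  · obtain ⟨k', S', e⟩ := S.mv' T.hf' T.h'f' T.f'f' dvd_rfl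
    exact ⟨k', f, f', S', c _, by rw [e, h0, T.ff', T.fh']; simpa using ⟨h3, by simpa using p0⟩⟩
  obtain ⟨m, a, a', b, b', m1, m2, m3, m4, h⟩ := S.dec
  refine ⟨k, _, _, S.fr m1 m2 m3 m4 (F.B_self m).symm, c _, ?_⟩
  simp only [h0, h1, h2, h3, mul_zero, add_zero] at h
  simp [h0, h1, h]

lemma s2 (h : IsCoprime (F.B f k) (1 - F.z)) (h0 : F.B f k ≠ 0) : ∃ k g g' a,
    MvS Γ u u' k0 k g g' ∧ IsCoprime (F.B g k) (1 - F.z) ∧ F.B g' k ≠ 0 ∧
      F.B u k = (1 - F.z) * a ∧ IsCoprime a (1 - F.z) := by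
  have T := S.T
  obtain ⟨a, ha⟩ := S.d1
  obtain ⟨r, hr⟩ := exists_add_coprime (S.H.fin _ S.H.one_sub) (a := a) (b := F.B f k)
    fun P hP h1 _ h2 => IsCoprime.not_mem h hP h2 h1
  obtain ⟨k', S', e⟩ := S.mv' T.hf T.h'f T.ff (l := (1 - F.z) * (F.z * r)) (dvd_mul_right _ _)
  have e1 : F.B f k' = F.B f k := by rw [e, T.ff, T.fh']; ring
  have e2 : F.B u k' = (1 - F.z) * (a + r * F.B f k) := by
    rw [e, T.hf, T.hh', ha]; linear_combination (1 - F.z) * r * F.B f k * F.hz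
  by_cases h1 : F.B f' k' = 0
  · refine ⟨k', _, _, _, S'.fr' (star_one O), e1 ▸ h, ?_, e2, hr⟩
    simpa [h1, e1, S.H.one_sub] using h0
  · exact ⟨k', f, f', _, S', e1 ▸ h, h1, e2, hr⟩

lemma s3 {a : O} (h : IsCoprime (F.B f k) (1 - F.z)) (h0 : F.B f' k ≠ 0)
    (ha : F.B u k = (1 - F.z) * a) (hc : IsCoprime a (1 - F.z)) : ∃ k g g' a,
    MvS Γ u u' k0 k g g' ∧ IsCoprime (F.B g k) ((1 - F.z) * F.B g' k) ∧ F.B g' k ≠ 0 ∧
      F.B u k = (1 - F.z) * a ∧ IsCoprime a (1 - F.z) := by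
  have T := S.T
  have hz := F.hz
  have hs := S.H.star_pi
  obtain ⟨m, α, α', β, β', m1, m2, m3, m4, hm⟩ := S.dec
  obtain ⟨r, hr⟩ := exists_add_coprime (S.H.fin _ (mul_ne_zero S.H.one_sub h0)) (a := F.B f k)
    (b := (1 - F.z) ^ 2 * (F.B m k + α * F.B u k + α' * F.B u' k)) fun P hP h1 h2 h3 => by
      have hpi : 1 - F.z ∉ P := IsCoprime.not_mem h hP h2
      have h4 := (hP.mem_or_mem h1).resolve_left hpi
      have h5 := (hP.mem_or_mem h3).resolve_left fun h => hpi (hP.mem_of_pow_mem _ h)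
      refine hP.ne_top ((Ideal.eq_top_iff_one _).2 ?_)
      rw [← hm]; exact P.add_mem (P.add_mem h5 (P.mul_mem_left _ h2)) (P.mul_mem_left _ h4)
  set p := 1 - F.z with hp
  have dv : ∀ t, p ∣ star (p ^ 2 * t) := fun t => S.st ((dvd_pow_self p two_ne_zero).mul_right t)
  obtain ⟨k1, S1, e1⟩ := S.mv T.hf' T.h'f' T.f'f' (dv (-(r * α)))
  obtain ⟨k2, S2, e2⟩ := S1.mv' T.hf' T.h'f' T.f'f' (dv (-(r * α')))
  have S3 := S2.fr (x := star (p ^ 2 * r) • m) (by simp [m1]) (by simp [m2]) (by simp [m3])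
    (by simp [m4]) (F.B_self _).symm
  have b2 : F.B f' k2 = F.B f' k := by simp [e2, e1, T.f'f', T.f'h, T.f'h']
  refine ⟨k2, _, _, a + p * (star F.z ^ 3 * -star (r * α') * F.B f' k), S3, ?_, b2 ▸ h0, ?_,
    hc.add_mul_left_left _⟩
  · rw [b2]
    convert hr.add_mul_left_left (p * r * α' * star (p ^ 2 * -(r * α)) -
      p * r * star (p ^ 2 * r) * F.qf m) using 1
    simp only [B_sub_left, B_add_left, B_smul_left, star_star, e2, e1, qf_smul, T.f'f', T.f'h,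
      T.f'h', T.ff', T.fh, T.fh', T.h'f', T.h'h, T.h'h', B_eq_zero_swap _ m1, B_eq_zero_swap _ m2,
      B_eq_zero_swap _ m4]
    linear_combination (p ^ 2 * r * α' * star (p ^ 2 * -(r * α)) * F.B f' k) * hz
  · simp only [e2, e1, T.hf', T.hh, T.hh', T.f'f', T.f'h, ha, star_mul, star_pow, hs, star_neg]
    ring

lemma s4 {a : O} (h : IsCoprime (F.B f k) ((1 - F.z) * F.B f' k)) (h0 : F.B f' k ≠ 0)
    (ha : F.B u k = (1 - F.z) * a) (hc : IsCoprime a (1 - F.z)) : ∃ k a,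
    MvS Γ u u' k0 k f f' ∧ IsCoprime (F.B f k) ((1 - F.z) * F.B f' k) ∧ a ≠ 0 ∧
      F.B u k = (1 - F.z) * a ∧ IsCoprime a (1 - F.z) := by
  by_cases a0 : a = 0
  swap
  · exact ⟨k, a, S, h, a0, ha, hc⟩
  have T := S.T
  have hs := S.H.star_pi
  obtain ⟨k1, S1, e1⟩ := S.mv' T.hf' T.h'f' T.f'f'
    (S.st ((dvd_pow_self _ two_ne_zero).mul_right (F.B f' k)))
  have b1 : F.B f' k1 = F.B f' k := by simp [e1, T.f'f', T.f'h']
  refine ⟨k1, a + (1 - F.z) * (star F.z ^ 3 * star (F.B f' k) * F.B f' k), S1, ?_, ?_, ?_,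
    hc.add_mul_left_left _⟩
  · rw [b1]
    convert h.add_mul_left_left (-(F.B u' k * (1 - F.z))) using 1
    rw [e1, T.ff', T.fh', star_star]; ring
  · simp [a0, S.H.one_sub, S.H.unit_z.ne_zero, h0]
  · rw [e1, T.hf', T.hh', ha, star_mul, star_pow, hs]; ring

lemma s5 {a : O} (h : IsCoprime (F.B f k) ((1 - F.z) * F.B f' k)) (a0 : a ≠ 0)
    (ha : F.B u k = (1 - F.z) * a) (hc : IsCoprime a (1 - F.z)) : ∃ k g' a,
    MvS Γ u u' k0 k f g' ∧ IsCoprime (F.B f k) (1 - F.z) ∧ F.B u k = (1 - F.z) * a ∧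
      IsCoprime a ((1 - F.z) * F.B g' k) ∧ ∀ y, ∃ r, star r = r ∧ a ∣ y - r := by
  obtain ⟨ρ, hρ, hv⟩ := S.H.exists_real_avoid a0 (F.B f' k) ((1 - F.z) * F.B f k)
  have S1 := S.fr' hρ
  have b1 : F.B (f' + (star (1 - F.z) * ρ) • f) k = F.B f' k + (1 - F.z) * F.B f k * ρ := by
    simp only [B_add_left, B_smul_left, star_mul, star_star, hρ]; ring
  have c1 : IsCoprime a ((1 - F.z) * F.B (f' + (star (1 - F.z) * ρ) • f) k) := by
    refine hc.mul_right (isCoprime_of_forall_prime fun P hP h1 h2 => ?_)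
    rw [b1] at h2
    by_cases hw : (1 - F.z) * F.B f k ∈ P
    · have h3 := (hP.mem_or_mem hw).resolve_left (IsCoprime.not_mem hc hP h1)
      exact IsCoprime.not_mem h hP h3 (P.mul_mem_left _ (by
        simpa using P.sub_mem h2 (P.mul_mem_right ρ hw)))
    · exact hv P hP h1 hw h2
  generalize f' + (star (1 - F.z) * ρ) • f = g' at S1 c1
  have T := S1.T
  by_cases g0 : F.B g' k = 0
  · refine ⟨k, g', a, S1, h.of_mul_right_left, ha, c1, fun y => ⟨0, by simp, IsUnit.dvd ?_⟩⟩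
    rwa [g0, mul_zero, isCoprime_zero_right] at c1
  obtain ⟨l, hl⟩ := S.H.exists_real_primitive c1 (mul_ne_zero S.H.one_sub g0)
  obtain ⟨k1, S2, e1⟩ := S1.mv' T.hf' T.h'f' T.f'f' (l := (1 - F.z) * ((1 - F.z) * F.z * l))
    (dvd_mul_right _ _)
  have b1 : F.B g' k1 = F.B g' k := by simp [e1, T.f'f', T.f'h']
  refine ⟨k1, g', _, S2, ?_, ?_, b1 ▸ c1.add_mul_right_left l, hl⟩
  · obtain ⟨t, ht⟩ := S.d2
    convert h.of_mul_right_left.add_mul_left_left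
      (-(t * star ((1 - F.z) * ((1 - F.z) * F.z * l)))) using 1
    rw [e1, T.ff', T.fh', ht]; ring
  · rw [e1, T.hf', T.hh', ha]; linear_combination (1 - F.z) ^ 2 * l * F.B g' k * F.hz

lemma s6 {a : O} (h : IsCoprime (F.B f k) (1 - F.z)) (ha : F.B u k = (1 - F.z) * a)
    (hc : IsCoprime a ((1 - F.z) * F.B f' k)) (hp : ∀ y, ∃ r, star r = r ∧ a ∣ y - r) :
    ∃ k g, MvS Γ u u' k0 k g f' ∧ IsUnit (F.B g k) := by
  have hz := F.hz
  have hs := S.H.star_pi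
  obtain ⟨ε, hε, e, he⟩ := S.H.exists_unit h
  obtain ⟨μ, ν, hμ⟩ := hc
  obtain ⟨ρ, hρ, t, ht⟩ := hp (F.z ^ 2 * ν * e)
  have S1 := S.fr (x := 0) (by simp) (by simp) (by simp) (by simp)
    (c := star (1 - F.z) * ((1 - F.z) * star (1 - F.z) * ρ))
    (by rw [S.H.lam_valid (by simp [hρ, mul_comm])]; simp)
  have T := S1.T
  obtain ⟨k1, S2, e1⟩ := S1.mv T.hf' T.h'f' T.f'f' (S.st (dvd_mul_right (1 - F.z)
    (μ * e + star F.z ^ 2 * (1 - F.z) * F.B f' k * t)))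
  refine ⟨k1, _, S2, ?_⟩
  convert hε using 1
  rw [e1, T.ff', T.fh, star_star, ha]
  simp only [B_sub_left, B_add_left, B_smul_left, B_zero_left, star_star, hs]
  linear_combination he - (1 - F.z) ^ 2 * e * hμ +
    (1 - F.z) ^ 3 * star F.z ^ 2 * F.B f' k * ht -
    (1 - F.z) ^ 3 * F.B f' k * ν * e * (F.z * star F.z + 1) * hz

lemma s7 (h : IsUnit (F.B f k)) : ∃ g ∈ Γ, F.B u (act g *ᵥ k0) = 0 ∧ F.B u' (act g *ᵥ k0) = 0 := by
  have T := S.T
  obtain ⟨c, hc⟩ := h.exists_left_inv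
  obtain ⟨k1, S1, e1⟩ := S.mv T.hf T.h'f T.ff (S.d2.mul_right (-c))
  obtain ⟨k2, S2, e2⟩ := S1.mv' T.hf T.h'f T.ff (S.d1.mul_right (-(F.z * c)))
  obtain ⟨g, hg, rfl⟩ := S2.orb
  refine ⟨g, hg, ?_, ?_⟩
  · simp only [e2, e1, T.hf, T.hh, T.hh', T.ff, T.fh]
    linear_combination -F.B u k * hc - F.B u k * c * F.B f k * F.hz
  · simp only [e2, e1, T.h'f, T.h'h, T.h'h', T.ff, T.fh]
    linear_combination -F.B u' k * hc - F.B u' k * c * F.B f k * F.hz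

theorem done : ∃ g ∈ Γ, F.B u (act g *ᵥ k0) = 0 ∧ F.B u' (act g *ᵥ k0) = 0 := by
  obtain ⟨_, _, S, h⟩ := S.s0
  obtain ⟨_, _, _, S, h, h0⟩ := S.s1 h
  obtain ⟨_, _, _, _, S, h, h0, ha, hc⟩ := S.s2 h h0
  obtain ⟨_, _, _, _, S, h, h0, ha, hc⟩ := S.s3 h h0 ha hc
  obtain ⟨_, _, S, h, h0, ha, hc⟩ := S.s4 h h0 ha hc
  obtain ⟨_, _, _, S, h, ha, hc, hp⟩ := S.s5 h h0 ha hc
  obtain ⟨_, _, S, h⟩ := S.s6 h ha hc hp
  exact S.s7 h

end MvS

end Pool.Agent.Lib.MP_61a4e3_al
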