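import Pool.Agent.Lib.MP_61a4e3_al.Braid1

/-! Generation of the orthogonal variation group over a field. -/

set_option linter.unusedSectionVars false
set_option linter.unusedSimpArgs false
set_option linter.unusedVariables false
set_option maxHeartbeats 800000

namespace Pool.Agent.Lib.MP_61a4e3_al

open Matrix WG Form

section
variable {O : Type} [CommRing O] [StarRing O] {ι : Type} [Fintype ι] [DecidableEq ι]
  {F : Form O ι}

lemma eq_one_of_fix {f f' : ι → O} (ff : F.B f f = 0) (f'f' : F.B f' f' = 0) (ff' : F.B f f' = 1)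
    {g : WG F} (hg : g ∈ sup F (sp2 f f')) (e1 : act g *ᵥ f = f) (e2 : act g *ᵥ f' = f') :
    g = 1 := by
  have key : ∀ h y, act g *ᵥ h = h → F.B (g.Wᴴ *ᵥ y) h = 0 := by
    intro h y e
    rw [act_mulVec, sub_eq_self] at e
    rw [Form.B, star_mulVec, conjTranspose_conjTranspose, ← dotProduct_mulVec, e, dotProduct_zero]
  ext1
  rw [← conjTranspose_conjTranspose g.W, one_W, conjTranspose_eq_zero]
  refine Matrix.ext_of_mulVec_single fun i => ?_
  obtain ⟨a, b, h⟩ := ct_mem hg (Pi.single i 1)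
  have k1 := key f (Pi.single i 1) e1
  have k2 := key f' (Pi.single i 1) e2
  rw [h] at k1 k2
  simp only [B_add_left, B_smul_left, ff, f'f', ff', F.B_eq_one_swap ff', mul_zero, zero_add,
    add_zero, mul_one, star_eq_zero] at k1 k2
  have hb : star b = 0 := by linear_combination star F.z * k1 - star b * F.hz
  rw [h, k2, star_eq_zero.1 hb, zero_smul, zero_smul, add_zero, zero_mulVec]

lemma op_tau' (g : WG F) : F.tau g.W + g.W - F.tau g.W * F.A * g.W = 0 := F.op_tau_comm g.prop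

end

variable {k : Type} [Field k] [StarRing k] [TrivialStar k] {ι : Type} [Fintype ι] [DecidableEq ι]
  {F : Form k ι} (h1 : F.z = 1)

lemma star_vec (x : ι → k) : star x = x := by ext i; simp

lemma ct_eq (M : Matrix ι ι k) : Mᴴ = Mᵀ := by ext i j; simp

include h1

lemma B_comm (x y : ι → k) : F.B x y = F.B y x := by rw [B_swap, h1]; simp

lemma qf_add (x y : ι → k) : F.qf (x + y) = F.qf x + F.qf y + F.B x y := by
  have := star_dot_mulVec F.C y x
  simp only [Form.qf, Form.B, Form.A, h1, one_smul, star_vec, mulVec_add, add_mulVec,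
    dotProduct_add, add_dotProduct, star_trivial] at this ⊢
  rw [this]; ring

lemma qf_smul' (c : k) (x : ι → k) : F.qf (c • x) = c ^ 2 * F.qf x := by
  rw [qf_smul, star_trivial, sq]

lemma qf_neg (x : ι → k) : F.qf (-x) = F.qf x := by
  rw [← neg_one_smul k, qf_smul' h1]; ring

lemma B_self' (x : ι → k) : F.B x x = 2 * F.qf x := by rw [B_self, h1, star_trivial]; ring

lemma tau_eq (W : Matrix ι ι k) : F.tau W = Wᵀ := by rw [Form.tau, h1, ct_eq]; simp

lemma B_eq (x y : ι → k) : F.B x y = (F.A *ᵥ x) ⬝ᵥ y := by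
  rw [B_comm h1, Form.B, star_vec, dotProduct_comm]

/-- The orthogonal variation group. -/
def GQ : Subgroup (WG F) where
  carrier := {g | ∀ x, x ⬝ᵥ g.W *ᵥ x = F.qf (g.W *ᵥ x)}
  mul_mem' := by
    intro g h hg hh x
    have e : (g * h).W *ᵥ x = h.W *ᵥ x + g.W *ᵥ (x - F.A *ᵥ (h.W *ᵥ x)) := by
      rw [mul_W, Form.op, sub_mulVec, add_mulVec, mulVec_sub, ← mulVec_mulVec, ← mulVec_mulVec]; abel
    rw [e, qf_add h1, ← hg, ← hh, B_eq h1, dotProduct_add, sub_dotProduct]; ring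
  one_mem' := by intro x; simp [Form.qf]
  inv_mem' := by
    intro g hg x
    have e : g.W *ᵥ (x - F.A *ᵥ ((g⁻¹).W *ᵥ x)) = -((g⁻¹).W *ᵥ x) := by
      have := congrArg (· *ᵥ x) g.prop
      simp only [Form.op, ← inv_W, sub_mulVec, add_mulVec, zero_mulVec, ← mulVec_mulVec] at this
      rw [mulVec_sub, eq_neg_iff_add_eq_zero, ← this]; abel
    have := hg (x - F.A *ᵥ ((g⁻¹).W *ᵥ x))
    rw [e, qf_neg h1, dotProduct_neg, sub_dotProduct, ← B_eq h1, B_self' h1] at this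
    linear_combination -this

lemma GQ.qf_act {g : WG F} (hg : g ∈ GQ h1) (x : ι → k) : F.qf (act g *ᵥ x) = F.qf x := by
  rw [act_mulVec, sub_eq_add_neg, qf_add h1, qf_neg h1, ← hg, B_neg_right, B_eq h1]; ring

lemma mkE_mem_GQ {f u : ι → k} (qf0 : F.qf f = 0) (e : F.IsE f u (F.qf u)) : mkE e ∈ GQ h1 := by
  intro x
  rw [mkE_W, eW_mulVec, qf_add h1, qf_smul' h1, qf_smul' h1, qf0, B_smul_left, B_smul_right,
    B_eq_zero_swap _ e.kx, h1]
  simp only [dotProduct_add, dotProduct_smul, star_vec, smul_eq_mul, star_one]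
  rw [dotProduct_comm x u, dotProduct_comm x f]
  ring

/-- Data of a hyperbolic pair whose Eichler elements lie in `L`. -/
structure HP (L : Subgroup (WG F)) (f f' : ι → k) : Prop where
  q1 : F.qf f = 0
  q2 : F.qf f' = 0
  b : F.B f f' = 1
  e1 : ∀ u, F.B f u = 0 → HE L f u (F.qf u)
  e2 : ∀ u, F.B f' u = 0 → HE L f' u (F.qf u)

variable {L : Subgroup (WG F)} {f f' : ι → k}

lemma HP.symm (T : HP L f f') : HP L f' f := ⟨T.q2, T.q1, by rw [B_comm h1, T.b], T.e2, T.e1⟩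

lemma HP.mv (T : HP L f f') {P : Submodule k (ι → k)} (hf : f ∈ P) {r : ι → k} (rf : r ⬝ᵥ f = 0)
    {u : ι → k} (hu : u ∈ P) (fu : F.B f u = 0) : ∃ n ∈ L ⊓ GQ h1 ⊓ sup F P, ∀ g : WG F,
      (n * g).W *ᵥ r = g.W *ᵥ r - F.B f (g.W *ᵥ r) • u +
        (F.B u (g.W *ᵥ r) - F.qf u * F.B f (g.W *ᵥ r) - r ⬝ᵥ u) • f := by
  obtain ⟨e, he⟩ := T.e1 u fu
  refine ⟨mkE e, ⟨⟨he, mkE_mem_GQ h1 T.q1 e⟩, mkE_mem_sup e hf hu⟩, fun g => ?_⟩
  rw [mul_W', add_mulVec, ← mulVec_mulVec, act_mkE, mkE_W, eW_mulVec, h1]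
  simp only [star_vec, dotProduct_comm _ r, rf, star_one]
  module

lemma HP.step1 (T : HP L f f') {P : Submodule k (ι → k)} (hf : f ∈ P) (hf' : f' ∈ P)
    {r v : ι → k} (rf : r ⬝ᵥ f = 0) (rf' : r ⬝ᵥ f' = 0) (hv : v ∈ P) (rv : r ⬝ᵥ v = 1)
    {g : WG F} (hg : g ∈ GQ h1) (hP : g ∈ sup F P) (hb : F.B f (g.W *ᵥ r) ≠ 0) :
    ∃ n ∈ L ⊓ GQ h1 ⊓ sup F P, (n * g).W *ᵥ r = 0 := by
  have f'f : F.B f' f = 1 := (T.symm h1).b
  have f'f' : F.B f' f' = 0 := by rw [B_self' h1, T.q2, mul_zero]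
  set β := F.B f (g.W *ᵥ r) with hβ
  obtain ⟨n, hn, e⟩ := T.mv h1 hf rf (u := β⁻¹ • (g.W *ᵥ r - β • f'))
    (P.smul_mem _ (P.sub_mem (hP _) (P.smul_mem _ hf'))) (by simp [T.b, ← hβ])
  have e1 := e g
  rw [← hβ, smul_smul, mul_inv_cancel₀ hb, one_smul, sub_sub_cancel] at e1
  generalize (_ - _ - _ : k) = s at e1
  have e2 := mul_mem hn.1.2 hg r
  rw [e1, qf_add h1, qf_smul' h1, qf_smul' h1, T.q1, T.q2, B_smul_left, B_smul_right, f'f] at e2
  simp only [dotProduct_add, dotProduct_smul, rf, rf', smul_zero, mul_zero, add_zero, zero_add,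
    mul_one, star_trivial, zero_eq_mul, hb, false_or] at e2
  rw [e2, zero_smul, add_zero] at e1
  obtain ⟨n', hn', e'⟩ := (T.symm h1).mv h1 hf' rf' (u := β • (v - F.B f' v • f))
    (P.smul_mem _ (P.sub_mem hv (P.smul_mem _ hf))) (by simp [f'f])
  refine ⟨n' * n, mul_mem hn' hn, ?_⟩
  rw [mul_assoc, e', e1]
  simp [f'f', B_comm h1 v f', T.b, rv, rf]

lemma HP.step (T : HP L f f') {P : Submodule k (ι → k)} (hf : f ∈ P) (hf' : f' ∈ P)
    {r v : ι → k} (rf : r ⬝ᵥ f = 0) (rf' : r ⬝ᵥ f' = 0) (hv : v ∈ P) (rv : r ⬝ᵥ v = 1)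
    {g : WG F} (hg : g ∈ GQ h1) (hP : g ∈ sup F P) :
    ∃ n ∈ L ⊓ GQ h1, n * g ∈ sup F (P ⊓ kerv r) := by
  have f'f : F.B f' f = 1 := (T.symm h1).b
  obtain ⟨n, hn, e⟩ : ∃ n ∈ L ⊓ GQ h1 ⊓ sup F P, (n * g).W *ᵥ r = 0 := by
    by_cases hb : F.B f (g.W *ᵥ r) = 0
    swap
    · exact T.step1 h1 hf hf' rf rf' hv rv hg hP hb
    by_cases ha : F.B f' (g.W *ᵥ r) = 0
    swap
    · exact (T.symm h1).step1 h1 hf' hf rf' rf hv rv hg hP ha
    obtain ⟨n, hn, e⟩ := (T.symm h1).mv h1 hf' rf' (u := act g *ᵥ v - F.B f' (act g *ᵥ v) • f)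
      (P.sub_mem (act_mem hP hv) (P.smul_mem _ hf)) (by simp [f'f])
    have k1 : F.B (act g *ᵥ v) (g.W *ᵥ r) - r ⬝ᵥ (act g *ᵥ v) = -1 := by
      have h2 : act g⁻¹ *ᵥ (g.W *ᵥ r) = -((g⁻¹).W *ᵥ r) := by
        rw [mulVec_mulVec, eq_neg_iff_add_eq_zero, ← add_mulVec, add_comm, ← mul_W',
          inv_mul_cancel, one_W, zero_mulVec]
      rw [← B_act g⁻¹, act_inv_act, h2, B_neg_right, inv_W, tau_eq h1, act_mulVec, dotProduct_sub,
        rv, B_eq h1, dotProduct_comm, mulVec_transpose, ← dotProduct_mulVec]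
      ring
    obtain ⟨n', hn', e'⟩ := T.step1 h1 hf hf' rf rf' hv rv (mul_mem hn.1.2 hg) (mul_mem hn.2 hP) (by
      rw [e]
      simp only [ha, zero_smul, sub_zero, B_add_right, hb, B_smul_right, T.b, B_sub_left,
        B_smul_left, mul_zero, dotProduct_sub, dotProduct_smul, rf, smul_zero, k1]
      simp)
    exact ⟨n' * n, mul_mem hn' hn, by rwa [mul_assoc]⟩
  refine ⟨n, hn.1, fun y => ⟨mul_mem hn.2 hP y, ?_⟩⟩
  have h2 := congrArg (· *ᵥ r) (op_tau' (n * g))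
  simp only [sub_mulVec, add_mulVec, ← mulVec_mulVec, e, mulVec_zero, add_zero, sub_zero,
    zero_mulVec, tau_eq h1] at h2
  change r ⬝ᵥ _ = 0
  rw [dotProduct_mulVec, ← mulVec_transpose, h2, zero_dotProduct]

lemma HP.plane (T : HP L f f')
    (hR : ∀ t : k, t ≠ 0 → ∃ n ∈ L, n.W = t⁻¹ • ou (f + t • f') (f + t • f'))
    {g : WG F} (hg : g ∈ GQ h1) (hP : g ∈ sup F (sp2 f f')) : g ∈ L := by
  have f'f : F.B f' f = 1 := (T.symm h1).b
  have f'f' : F.B f' f' = 0 := by rw [B_self' h1, T.q2, mul_zero]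
  have ff : F.B f f = 0 := by rw [B_self' h1, T.q1, mul_zero]
  have qq : ∀ a b : k, F.qf (a • f + b • f') = a * b := by
    intro a b
    rw [qf_add h1, qf_smul' h1, qf_smul' h1, T.q1, T.q2, B_smul_left, B_smul_right, T.b]; simp
  have hR' : ∀ t : k, t ≠ 0 → ∃ n ∈ L ⊓ GQ h1 ⊓ sup F (sp2 f f'), act n *ᵥ f = -t • f' := by
    intro t ht
    obtain ⟨n, hn, e⟩ := hR t ht
    have q := qq 1 t
    rw [one_smul, one_mul] at q
    refine ⟨n, ⟨⟨hn, fun x => ?_⟩, fun y => ?_⟩, ?_⟩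
    · rw [e, smul_mulVec, ou_mulVec, smul_smul, qf_smul' h1, q, dotProduct_smul, star_vec,
        dotProduct_comm x, smul_eq_mul]
      field_simp
    · rw [e, smul_mulVec, ou_mulVec]
      exact Submodule.smul_mem _ _ (Submodule.smul_mem _ _ ⟨1, t, by simp⟩)
    · rw [act_of_W, e, Matrix.smul_mul, smul_mulVec, ou_A_mulVec, smul_smul]
      simp [ff, f'f, inv_mul_cancel₀ ht]
  have c1 : ∀ g ∈ GQ h1, g ∈ sup F (sp2 f f') → act g *ᵥ f = f → g ∈ L := by
    intro g hg hP e1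
    obtain ⟨a, b, e2⟩ := act_mem hP (right_mem_sp2 f f')
    have u1 := B_act g f f'
    have u2 := GQ.qf_act h1 hg f'
    rw [e1, e2] at u1
    rw [e2, qq, T.q2] at u2
    simp only [B_add_right, B_smul_right, ff, T.b, mul_zero, zero_add, mul_one] at u1
    rw [u1, mul_one] at u2
    rw [eq_one_of_fix ff f'f' T.b hP e1 (by simp [e2, u1, u2])]; exact one_mem _
  have c2 : ∀ g ∈ GQ h1, g ∈ sup F (sp2 f f') → ∀ b : k, b ≠ 0 → act g *ᵥ f = b • f' → g ∈ L := by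
    intro g hg hP b hb e1
    obtain ⟨n, hn, e⟩ := hR' (-b) (neg_ne_zero.2 hb)
    have := c1 (n⁻¹ * g) (mul_mem (inv_mem hn.1.2) hg) (mul_mem (inv_mem hn.2) hP) (by
      rw [act_mul_mulVec, e1, ← neg_neg b, ← e, act_inv_act])
    simpa using mul_mem hn.1.1 this
  obtain ⟨a, b, e1⟩ := act_mem hP (left_mem_sp2 f f')
  have u2 := GQ.qf_act h1 hg f
  rw [e1, qq, T.q1] at u2
  have u1 := B_act g f f'
  by_cases hb : b = 0
  · rw [hb, zero_smul, add_zero] at e1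
    have ha : a ≠ 0 := by rintro rfl; simp [e1, T.b] at u1
    obtain ⟨n, hn, e⟩ := hR' 1 one_ne_zero
    have := c2 (n * g) (mul_mem hn.1.2 hg) (mul_mem hn.2 hP) (-a) (neg_ne_zero.2 ha) (by
      rw [act_mul_mulVec, e1, mulVec_smul, e]; simp)
    simpa using L.mul_mem (L.inv_mem hn.1.1) this
  · exact c2 g hg hP b hb (by simp [e1, (mul_eq_zero.1 u2).resolve_right hb])

theorem HP.gen (T : HP L f f')
    (hR : ∀ t : k, t ≠ 0 → ∃ n ∈ L, n.W = t⁻¹ • ou (f + t • f') (f + t • f')) {p p' : ι}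
    (a1 : f p = 1) (a2 : f p' = 0) (a3 : f' p = 0) (a4 : f' p' = 1) : GQ h1 ≤ L := by
  intro g hg
  let ρ : ι → ι → k := fun j => Pi.single j 1 - f j • Pi.single p 1 - f' j • Pi.single p' 1
  have hρ : ∀ j x, ρ j ⬝ᵥ x = x j - f j * x p - f' j * x p' := by
    intro j x; simp [ρ, sub_dotProduct, smul_dotProduct]
  have ind : ∀ S : Finset ι, (∀ j ∈ S, j ≠ p ∧ j ≠ p') →
      ∃ n ∈ L ⊓ GQ h1, n * g ∈ sup F (⨅ j ∈ S, kerv (ρ j)) := by
    intro S
    induction S using Finset.induction_on with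
    | empty => exact fun _ => ⟨1, one_mem _, fun y => by simp⟩
    | insert j S hj ih =>
      intro hS
      obtain ⟨n, hn, hP⟩ := ih fun i hi => hS i (Finset.mem_insert_of_mem hi)
      obtain ⟨j1, j2⟩ := hS j (Finset.mem_insert_self _ _)
      obtain ⟨n', hn', hP'⟩ := T.step h1 (r := ρ j) (v := Pi.single j 1)
        (by simp [mem_kerv, hρ, a1, a2]) (by simp [mem_kerv, hρ, a3, a4]) (by simp [hρ, a1, a2])
        (by simp [hρ, a3, a4]) (by
          simp only [Submodule.mem_iInf, mem_kerv, hρ]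
          intro i hi
          have : i ≠ j := fun e => hj (e ▸ hi)
          simp [this, j1.symm, j2.symm]) (by simp [hρ, j1.symm, j2.symm]) (mul_mem hn.2 hg) hP
      refine ⟨n' * n, mul_mem hn' hn, ?_⟩
      rw [mul_assoc, Finset.iInf_insert, inf_comm]; exact hP'
  obtain ⟨n, hn, hP⟩ := ind (Finset.univ.filter fun j => j ≠ p ∧ j ≠ p') (by simp)
  have := T.plane h1 hR (mul_mem hn.2 hg) (sup_mono (fun x hx => ?_) hP)
  · simpa using L.mul_mem (L.inv_mem hn.1) this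
  · refine ⟨x p, x p', funext fun j => ?_⟩
    simp only [Submodule.mem_iInf, mem_kerv, hρ, Finset.mem_filter, Finset.mem_univ, true_and] at hx
    by_cases e1 : j = p
    · simp [e1, a1, a3]
    by_cases e2 : j = p'
    · simp [e2, a2, a4]
    have := hx j ⟨e1, e2⟩
    simp only [Pi.add_apply, Pi.smul_apply, smul_eq_mul]
    linear_combination this

end Pool.Agent.Lib.MP_61a4e3_al
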