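import Pool.Agent.Lib.MP_61a4e3_al.Cyc2

/-! The index of the Burau image at a primitive `d`-th root of unity in the integral unitary
group, for `n = m + 1 ≥ 2 d + 1` (index `0` means infinite index). -/

namespace Pool.Agent.Lib.MP_61a4e3_al.PartIndex

open Pool.Agent.Lib.MP_61a4e3_al Matrix

theorem result (d m : ℕ) (hd : 3 ≤ d) (hm : 2 * d ≤ m) :
    (burauImage m d).relIndex (unitaryInt m d) * (if IsPrimePow d then (m + 1).factorial else 1) =
      if d ∣ m + 1 ∧ d ≠ 3 ∧ d ≠ 4 ∧ d ≠ 6 then 0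
      else normOne d (m + 1) * (if IsPrimePow d then orthCard d.minFac m
        else if d % 4 = 2 ∧ ¬ IsPrimePow (d / 2) then 2 else 1) := by
  obtain ⟨O, _, _, _, z, φ, H, hM, inj, hs, hφ, hr, hf, h2, hu, hnu, hN⟩ :=
    exists_model hd (zeta_prim hd)
  have hp : IsPrimitiveRoot z d := (hφ ▸ zeta_prim hd).of_map_of_injective inj
  have hg := (geom_iff inj hφ hd d).2 dvd_rfl
  have hG : φ (geom z (m + 1)) = ∑ i ∈ Finset.range (m + 1), zeta d ^ i := by simp [geom, hφ]
  let κ : O → Set ℂ := fun a => {y | ∃ t ∈ Algebra.adjoin ℤ {zeta d},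
    y = φ a + (∑ i ∈ Finset.range (m + 1), zeta d ^ i) * t}
  have hκ : ∀ a b, κ a = κ b ↔ geom z (m + 1) ∣ a - b := by
    intro a b
    constructor
    · intro h
      obtain ⟨t, ht, e⟩ := (Set.ext_iff.1 h (φ a)).1 ⟨0, zero_mem _, by simp⟩
      obtain ⟨t, rfl⟩ := (hr t).1 ht
      exact ⟨t, inj (by rw [map_sub, map_mul, hG, e]; ring)⟩
    · rintro ⟨c, hc⟩
      have e := congrArg φ hc
      rw [map_sub, map_mul, hG] at e
      have hc' := (hr _).2 ⟨c, rfl⟩
      ext y
      exact ⟨fun ⟨t, ht, h⟩ => ⟨t + φ c, add_mem ht hc', by linear_combination h + e⟩,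
        fun ⟨t, ht, h⟩ => ⟨t - φ c, sub_mem ht hc', by linear_combination h - e⟩⟩
  have hc : normOne d (m + 1) = (κ '' {u | geom z (m + 1) ∣ u * star u - 1}).ncard := by
    rw [normOne]
    congr 1
    ext S
    constructor
    · rintro ⟨x, hx, ⟨t, ht, e⟩, rfl⟩
      obtain ⟨x, rfl⟩ := (hr x).1 hx
      obtain ⟨t, rfl⟩ := (hr t).1 ht
      exact ⟨x, ⟨t, inj (by rw [map_sub, map_mul, map_mul, hG, hs, map_one, e])⟩, rfl⟩
    · rintro ⟨x, ⟨t, e⟩, rfl⟩
      exact ⟨φ x, (hr _).2 ⟨x, rfl⟩, ⟨φ t, (hr _).2 ⟨t, rfl⟩, by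
        rw [← hG, ← map_mul, ← e, map_sub, map_mul, hs, map_one]⟩, rfl⟩
  rw [image_eq H hφ, unitary_eq H inj hs hφ hr, Subgroup.relIndex_map_map_of_injective _ _
    (glmap_inj inj), relIndex_GO H hd hp hM hm, mul_right_comm, index_Gam H hd hp hM hm hnu
    (fun h => by simpa [map_ofNat] using congrArg φ h) hN, index_chi (by omega) κ hκ, mul_comm, hc]
  generalize (if IsPrimePow d then orthCard d.minFac m else _) = c
  by_cases hn : geom z (m + 1) = 0
  · simp only [chi_zero (hz := H.hz) (show 0 < m by omega) hn]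
    have ik : Function.Injective κ := fun a b h => by simpa [hn, sub_eq_zero] using (hκ a b).1 h
    by_cases hfin : Finite Oˣ
    · rw [if_neg (by have := hu.1 hfin; omega)]
      congr 3
      ext u
      simp only [hn, zero_dvd_iff, sub_eq_zero]
      refine ⟨?_, IsUnit.of_mul_eq_one _⟩
      rintro ⟨u, rfl⟩
      have h1 := ((φ.toMonoidHom.comp (Units.coeHom O)).isOfFinOrder
        (isOfFinOrder_of_finite u)).norm_eq_one
      refine inj ?_
      rw [map_mul, hs, map_one, Complex.star_def, Complex.mul_conj']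
      exact_mod_cast congrArg (· ^ 2) h1 |>.trans (one_pow 2)
    · rw [if_pos ⟨(geom_iff inj hφ hd _).1 hn, by rw [hu] at hfin; omega⟩,
        Set.ncard_image_of_injective _ ik, Set.Infinite.ncard, zero_mul]
      rw [not_finite_iff_infinite] at hfin
      exact Set.infinite_range_of_injective Units.val_injective
  · rw [if_neg fun h => hn ((geom_iff inj hφ hd _).2 h.1)]
    simp only [chi_ne (hz := H.hz) H hd hg (show d + 1 ≤ m by omega) (tri H hd hp) hn]

end Pool.Agent.Lib.MP_61a4e3_al.PartIndex
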