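import Pool.Agent.Lib.MP_61a4e3_al.Transfer

/-! Exact description of the image of the reduced Burau representation at a primitive `d`-th root
of unity, for all `d ≥ 3` and all `n = m + 1 ≥ 2 d + 1`. -/

namespace Pool.Agent.Lib.MP_61a4e3_al.PartMembership

open Pool.Agent.Lib.MP_61a4e3_al Matrix

theorem result (d m : ℕ) (hd : 3 ≤ d) (hm : 2 * d ≤ m) (g : GL (Fin m) ℂ) :
    g ∈ burauImage m d ↔ g ∈ unitaryInt m d ∧ (∃ k : ℕ, g.val.det = (-zeta d) ^ k) ∧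
      ∃ (s : Equiv.Perm (Fin (m + 1))) (X : Matrix (Fin m) (Fin m) ℂ),
        (∀ i j, X i j ∈ Algebra.adjoin ℤ {zeta d}) ∧
        (1 + (zeta d)⁻¹) • (1 - g.val) = (permVar s + (1 - zeta d) • X) * herm (zeta d) m := by
  obtain ⟨O, _, _, _, z, φ, H, hM, inj, hs, hφ, hr, -⟩ := exists_model hd (zeta_prim hd)
  have main := abstract_main (hz := H.hz) H hd ((geom_iff inj hφ hd d).2 dvd_rfl) hM hm
  have key : ∀ (G Y : Matrix (Fin m) (Fin m) O) s,
      (1 + (zeta d)⁻¹) • (1 - G.map φ) = (permVar s + (1 - zeta d) • Y.map φ) * herm (zeta d) m ↔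
        G = 1 - (WP O s + (1 - z) • Y) * (BF m z H.hz).A := by
    intro G Y s
    have e1 : permVar s + (1 - zeta d) • Y.map φ = (WP O s + (1 - z) • Y).map φ := by
      rw [← WP_complex (φ := φ)]; ext i j; simp [hφ]
    have e2 : 1 - G.map φ = (1 - G).map φ := by
      rw [Matrix.map_sub _ (map_sub φ), Matrix.map_one _ (map_zero φ) (map_one φ)]
    rw [herm_eq H inj hφ, e1, e2, Matrix.mul_smul, ← Matrix.map_mul]
    constructor
    · intro h
      rw [← map_inj inj (smul_right_injective _ (scal_ne H inj hφ) h), sub_sub_cancel]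
    · intro h; rw [h, sub_sub_cancel]
  have hdet : ∀ (G : Matrix (Fin m) (Fin m) O) (k : ℕ),
      (G.map φ).det = (-zeta d) ^ k ↔ G.det = (-z) ^ k := by
    intro G k
    rw [← inj.eq_iff, RingHom.map_det, map_pow, map_neg, hφ]; rfl
  rw [image_eq H hφ, unitary_eq H inj hs hφ hr]
  constructor
  · rintro ⟨G, hG, rfl⟩
    obtain ⟨h1, ⟨W, s, h2, h3⟩, k, h4⟩ := (main G.val).1 (mem_GO.1 hG)
    obtain ⟨Y, hY⟩ := exists_smul_mat (M := W - WP O s) h3
    refine ⟨⟨G, h1, rfl⟩, ⟨k, (hdet _ _).2 h4⟩, s, Y.map φ, fun i j => (hr _).2 ⟨_, rfl⟩,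
      (key G.val Y s).2 ?_⟩
    rw [← hY, add_sub_cancel, ← h2]
  · rintro ⟨⟨G, hG, rfl⟩, ⟨k, hk⟩, s, X, hX, h⟩
    obtain ⟨Y, rfl⟩ := exists_map hr hX
    refine ⟨G, mem_GO.2 ((main G.val).2 ⟨hG, ⟨_, s, (key G.val Y s).1 h, fun i j => ?_⟩, k,
      (hdet _ _).1 hk⟩), rfl⟩
    simp

end Pool.Agent.Lib.MP_61a4e3_al.PartMembership
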