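import Pool.Agent.Lib.MP_61a4e3_al.Braid3

/-! The permutation part. -/

set_option linter.unusedSectionVars false
set_option linter.unusedSimpArgs false
set_option linter.unusedVariables false

namespace Pool.Agent.Lib.MP_61a4e3_al

open Matrix WG Form Equiv

section
variable (S : Type) [CommRing S] (m : ℕ)

/-- Partial sums. -/
def SM : Matrix (Fin m) (Fin (m + 1)) S := of fun i k => if k.val ≤ i.val then 1 else 0

/-- Differences. -/
def DM : Matrix (Fin m) (Fin (m + 1)) S :=
  of fun i k => (if k = i.castSucc then 1 else 0) - (if k = i.succ then 1 else 0)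

/-- The Cartan matrix. -/
def CM : Matrix (Fin m) (Fin m) S := DM S m * (DM S m)ᵀ

variable {m}

/-- The variation matrix of a permutation. -/
def WP (s : Perm (Fin (m + 1))) : Matrix (Fin m) (Fin m) S :=
  SM S m * (1 - s.permMatrix S) * (SM S m)ᵀ

variable {S}

lemma pm_apply (s : Perm (Fin (m + 1))) (a b : Fin (m + 1)) :
    s.permMatrix S a b = if s a = b then 1 else 0 := by
  simp [PEquiv.toMatrix_apply, Equiv.toPEquiv_apply]

lemma WP_apply (s : Perm (Fin (m + 1))) (i j : Fin m) : WP S s i j = (min i.val j.val + 1 : ℕ) -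
    ((Finset.univ.filter fun k : Fin (m + 1) => k.val ≤ i.val ∧ (s k).val ≤ j.val).card : ℕ) := by
  have h : ∀ s : Perm (Fin (m + 1)), (SM S m * s.permMatrix S * (SM S m)ᵀ) i j =
      ((Finset.univ.filter fun k : Fin (m + 1) => k.val ≤ i.val ∧ (s k).val ≤ j.val).card : ℕ) := by
    intro s
    rw [Matrix.mul_assoc, Matrix.mul_apply, Finset.card_filter]
    push_cast
    refine Finset.sum_congr rfl fun k _ => ?_
    simp only [Matrix.mul_apply, pm_apply, SM, Matrix.of_apply, Matrix.transpose_apply, ite_mul, one_mul, zero_mul,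
      Finset.sum_ite_eq, Finset.mem_univ, if_true]
    split_ifs <;> simp_all
  rw [WP, Matrix.mul_sub, Matrix.sub_mul, Matrix.sub_apply, h s, ← permMatrix_one, h 1]
  have := (Fin.card_filter_val_lt (n := m + 1) (m := min i.val j.val + 1)).trans
    (min_eq_right (by omega))
  rw [← this]
  congr 3
  ext k; simp [Nat.lt_succ_iff]

lemma SM_DM : SM S m * (DM S m)ᵀ = 1 := by
  ext i j
  simp only [Matrix.mul_apply, SM, DM, Matrix.of_apply, Matrix.transpose_apply, mul_sub, mul_ite,
    mul_one, mul_zero, Finset.sum_sub_distrib, Finset.sum_ite_eq', Finset.mem_univ, if_true,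
    Matrix.one_apply]
  simp only [Fin.ext_iff, Fin.val_castSucc, Fin.val_succ]
  split_ifs <;> first | omega | simp

lemma DM_SM : (DM S m)ᵀ * SM S m = 1 - of fun k l => if k = Fin.last m then 1 else 0 := by
  ext k l
  have h1 : ∑ i : Fin m, (if k = i.castSucc then (if l.val ≤ i.val then (1 : S) else 0) else 0) =
      if k.val < m ∧ l.val ≤ k.val then 1 else 0 := by
    by_cases h : k.val < m
    · rw [Finset.sum_eq_single ⟨k.val, h⟩]
      · simp [h]
      · intro b _ hb
        rw [if_neg]; rintro rfl; exact hb rfl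
      · simp
    · rw [if_neg (by omega)]
      refine Finset.sum_eq_zero fun i _ => if_neg ?_
      rintro rfl; exact h i.2
  have h2 : ∑ i : Fin m, (if k = i.succ then (if l.val ≤ i.val then (1 : S) else 0) else 0) =
      if l.val < k.val then 1 else 0 := by
    by_cases h : 0 < k.val
    · rw [Finset.sum_eq_single ⟨k.val - 1, by omega⟩]
      · rw [if_pos (Fin.ext (by simp; omega))]
        simp only; split_ifs <;> first | omega | rfl
      · intro b _ hb
        rw [if_neg]; rintro rfl; exact hb (Fin.ext (by simp))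
      · simp
    · rw [if_neg (by omega)]
      refine Finset.sum_eq_zero fun i _ => if_neg ?_
      rintro rfl; exact h (by simp)
  simp only [Matrix.mul_apply, SM, DM, Matrix.of_apply, Matrix.transpose_apply, sub_mul, ite_mul, one_mul, zero_mul,
    Finset.sum_sub_distrib, h1, h2, Matrix.sub_apply, Matrix.one_apply]
  simp only [Fin.ext_iff, Fin.val_last]
  have := k.2
  have := l.2
  split_ifs <;> first | omega | simp

lemma DM_SM_mul (s : Perm (Fin (m + 1))) :
    (DM S m)ᵀ * SM S m * (1 - s.permMatrix S) = 1 - s.permMatrix S := by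
  rw [DM_SM, Matrix.sub_mul, Matrix.one_mul, sub_eq_self]
  ext k l
  simp only [Matrix.mul_apply, Matrix.of_apply, Matrix.sub_apply, Matrix.one_apply, pm_apply, mul_sub, Finset.sum_sub_distrib,
    ← Finset.mul_sum, ← Equiv.eq_symm_apply, Finset.sum_ite_eq', Finset.mem_univ, if_true,
    Matrix.zero_apply, sub_self]

lemma WP_transpose (s : Perm (Fin (m + 1))) : (WP S s)ᵀ = WP S s⁻¹ := by
  simp [WP, transpose_mul, Matrix.mul_assoc, transpose_sub]

lemma WP_mul (s t : Perm (Fin (m + 1))) :
    WP S s + WP S t - WP S s * CM S m * WP S t = WP S (t * s) := by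
  have h1 := DM_SM_mul (S := S) t
  have h2 : (1 - s.permMatrix S) * (SM S m)ᵀ * DM S m = 1 - s.permMatrix S := by
    have := congrArg transpose (DM_SM_mul (S := S) s⁻¹)
    simpa [transpose_mul, transpose_sub, Matrix.mul_assoc] using this
  have : WP S s * CM S m * WP S t =
      SM S m * (((1 - s.permMatrix S) * (SM S m)ᵀ * DM S m) *
        ((DM S m)ᵀ * SM S m * (1 - t.permMatrix S))) * (SM S m)ᵀ := by
    simp only [WP, CM, Matrix.mul_assoc]
  rw [this, h1, h2]
  simp only [WP, permMatrix_mul, Matrix.mul_sub, Matrix.sub_mul, Matrix.mul_one, Matrix.one_mul]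
  abel

lemma CM_apply (i j : Fin m) : CM S m i j =
    if i = j then 2 else if i.val = j.val + 1 then -1 else if j.val = i.val + 1 then -1 else 0 := by
  simp only [CM, Matrix.mul_apply, DM, Matrix.of_apply, Matrix.transpose_apply, sub_mul,
    ite_mul, one_mul, zero_mul, Finset.sum_sub_distrib, Finset.sum_ite_eq', Finset.mem_univ,
    if_true]
  simp only [Fin.ext_iff, Fin.val_castSucc, Fin.val_succ]
  split_ifs <;> first | omega | norm_num

lemma WP_one : WP S (1 : Perm (Fin (m + 1))) = 0 := by simp [WP]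

lemma WP_swap (i : Fin m) :
    WP S (swap i.castSucc i.succ) = vecMulVec (Pi.single i 1) (Pi.single i 1) := by
  have h1 : 1 - (swap i.castSucc i.succ).permMatrix S = vecMulVec (DM S m i) (DM S m i) := by
    ext a b
    have : i.castSucc ≠ i.succ := (Fin.castSucc_lt_succ (i := i)).ne
    simp only [Matrix.sub_apply, Matrix.one_apply, pm_apply, vecMulVec_apply, DM, Matrix.of_apply,
      swap_apply_def]
    split_ifs <;> first | (exfalso; grind) | simp
  have h2 : SM S m *ᵥ DM S m i = Pi.single i 1 := by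
    ext j
    have := congrFun (congrFun (SM_DM (S := S) (m := m)) j) i
    simpa [Matrix.mul_apply, mulVec, dotProduct, Matrix.one_apply, Pi.single_apply] using this
  rw [WP, h1, mul_vecMulVec, vecMulVec_mul, vecMul_transpose, h2]

lemma WP_map {T : Type} [CommRing T] (φ : S →+* T) (s : Perm (Fin (m + 1))) :
    (WP S s).map φ = WP T s := by
  ext i j; simp [WP_apply]

end

variable {O : Type} [CommRing O] [StarRing O] [IsDomain O] {m : ℕ} {z : O} {hz : z * star z = 1}
  {d : ℕ} (H : RH z) (hd : 3 ≤ d) (hg : geom z d = 0)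

/-- Reduction modulo `1 - z`. -/
abbrev rd (z : O) : O →+* O ⧸ Ideal.span {1 - z} := Ideal.Quotient.mk _

lemma rd_eq {a b : O} : rd z a = rd z b ↔ (1 - z) ∣ a - b := by
  rw [Ideal.Quotient.eq, Ideal.mem_span_singleton]

lemma rd_z : rd z z = 1 := by
  rw [← map_one (rd z), eq_comm, rd_eq]

lemma map_rd_iff {W : Matrix (Fin m) (Fin m) O} {s : Perm (Fin (m + 1))} :
    W.map (rd z) = WP _ s ↔ ∀ i j, (1 - z) ∣ W i j - WP O s i j := by
  rw [← WP_map (rd z), ← Matrix.ext_iff]; simp [rd_eq]

lemma A_map : (BF m z hz).A.map (rd z) = CM _ m := by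
  ext i j
  rw [Matrix.map_apply, BF_A, CM_apply]
  split_ifs <;> simp [rd_z]
  norm_num

include H

lemma rd_star (x : O) : rd z (star x) = rd z x := rd_eq.2 (H.pi_dvd_star_sub x)

/-- Elements congruent to a permutation. -/
def PL (m : ℕ) (hz : z * star z = 1) : Subgroup (WG (BF m z hz)) where
  carrier := {g | ∃ s, g.W.map (rd z) = WP _ s}
  mul_mem' := by
    rintro a b ⟨s, hs⟩ ⟨t, ht⟩
    refine ⟨t * s, ?_⟩
    rw [mul_W, Form.op, Matrix.map_sub _ (map_sub _), Matrix.map_add _ (map_add _), Matrix.map_mul,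
      Matrix.map_mul, hs, ht, A_map, WP_mul]
  one_mem' := ⟨1, by simp [WP_one]⟩
  inv_mem' := by
    rintro a ⟨s, hs⟩
    refine ⟨s⁻¹, ?_⟩
    rw [← WP_transpose, ← hs]
    ext i j
    simp [inv_W, Form.tau, rd_star H, rd_z]

lemma rt_map (i : Fin m) : (rt (root_ev (z := z) (hz := hz) (j := i.val + 1)
    ⟨Nat.le_add_left 1 _, i.2⟩)).W.map (rd z) = WP _ (swap i.castSucc i.succ) := by
  rw [rt_W, ou, star_ev, ev_eq_single, WP_swap]
  ext a b
  simp only [Matrix.map_apply, vecMulVec_apply, Pi.single_apply]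
  split_ifs <;> simp

lemma Gam_le_PL : Gam m z hz ≤ PL H m hz := by
  rw [Gam, Subgroup.closure_le]
  rintro _ ⟨j, hj, rfl⟩
  obtain ⟨j, rfl⟩ : ∃ i, j = i + 1 := ⟨j - 1, by omega⟩
  exact ⟨_, rt_map H ⟨j, hj.2⟩⟩

lemma exists_perm (s : Perm (Fin (m + 1))) : ∃ h ∈ Gam m z hz, h.W.map (rd z) = WP _ s := by
  have hs : s ∈ Submonoid.closure (Set.range fun i : Fin m ↦ swap i.castSucc i.succ) := by
    rw [Perm.mclosure_swap_castSucc_succ]; trivial
  induction hs using Submonoid.closure_induction with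
  | mem x hx => obtain ⟨i, rfl⟩ := hx; exact ⟨_, sg_mem ⟨Nat.le_add_left 1 _, i.2⟩, rt_map H i⟩
  | one => exact ⟨1, one_mem _, by simp [WP_one]⟩
  | mul x y _ _ hx hy =>
    obtain ⟨a, ha, hs⟩ := hx
    obtain ⟨b, hb, ht⟩ := hy
    refine ⟨b * a, mul_mem hb ha, ?_⟩
    rw [mul_W, Form.op, Matrix.map_sub _ (map_sub _), Matrix.map_add _ (map_add _), Matrix.map_mul,
      Matrix.map_mul, hs, ht, A_map, WP_mul]

end Pool.Agent.Lib.MP_61a4e3_al
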