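import Pool.Agent.Lib.MP_61a4e3_al.Chain

/-! Elements supported on one or two hyperbolic planes. -/

set_option linter.unusedSectionVars false
set_option linter.unusedSimpArgs false
set_option linter.unusedVariables false

namespace Pool.Agent.Lib.MP_61a4e3_al

open Matrix WG Form

variable {O : Type*} [CommRing O] [StarRing O] {ι : Type*} [Fintype ι] [DecidableEq ι]
  {F : Form O ι}

/-- The row vector of the functional `B u`. -/
def cf (F : Form O ι) (u : ι → O) : ι → O := star u ᵥ* F.A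

@[simp] lemma cf_dot (u x : ι → O) : cf F u ⬝ᵥ x = F.B u x := by
  rw [cf, Form.B, dotProduct_mulVec]

def sp2 (f f' : ι → O) : Submodule O (ι → O) where
  carrier := {x | ∃ a b : O, x = a • f + b • f'}
  add_mem' := by
    rintro _ _ ⟨a, b, rfl⟩ ⟨c, d, rfl⟩; exact ⟨a + c, b + d, by module⟩
  zero_mem' := ⟨0, 0, by simp⟩
  smul_mem' := by rintro c _ ⟨a, b, rfl⟩; exact ⟨c * a, c * b, by module⟩

lemma mem_sp2 {f f' x : ι → O} : x ∈ sp2 f f' ↔ ∃ a b : O, x = a • f + b • f' := Iff.rfl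

lemma left_mem_sp2 (f f' : ι → O) : f ∈ sp2 f f' := ⟨1, 0, by simp⟩
lemma right_mem_sp2 (f f' : ι → O) : f' ∈ sp2 f f' := ⟨0, 1, by simp⟩

lemma sp2_le {f f' : ι → O} {Q : Submodule O (ι → O)} (h : f ∈ Q) (h' : f' ∈ Q) : sp2 f f' ≤ Q := by
  rintro _ ⟨a, b, rfl⟩; exact Q.add_mem (Q.smul_mem _ h) (Q.smul_mem _ h')

def sp4 (h h' f f' : ι → O) : Submodule O (ι → O) := sp2 h h' ⊔ sp2 f f'

lemma mem_sp4 {h h' f f' x : ι → O} :
    x ∈ sp4 h h' f f' ↔ ∃ a b c d : O, x = a • h + b • h' + c • f + d • f' := by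
  rw [sp4, Submodule.mem_sup]
  constructor
  · rintro ⟨_, ⟨a, b, rfl⟩, _, ⟨c, d, rfl⟩, rfl⟩; exact ⟨a, b, c, d, by abel⟩
  · rintro ⟨a, b, c, d, rfl⟩; exact ⟨_, ⟨a, b, rfl⟩, _, ⟨c, d, rfl⟩, by abel⟩

lemma m41 (h h' f f' : ι → O) : h ∈ sp4 h h' f f' := mem_sp4.2 ⟨1, 0, 0, 0, by simp⟩
lemma m42 (h h' f f' : ι → O) : h' ∈ sp4 h h' f f' := mem_sp4.2 ⟨0, 1, 0, 0, by simp⟩
lemma m43 (h h' f f' : ι → O) : f ∈ sp4 h h' f f' := mem_sp4.2 ⟨0, 0, 1, 0, by simp⟩
lemma m44 (h h' f f' : ι → O) : f' ∈ sp4 h h' f f' := mem_sp4.2 ⟨0, 0, 0, 1, by simp⟩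

lemma ct_mem {P : Submodule O (ι → O)} {g : WG F} (hg : g ∈ sup F P) (y : ι → O) :
    g.Wᴴ *ᵥ y ∈ P := by
  have := P.smul_mem F.z ((inv_mem hg : g⁻¹ ∈ sup F P) y)
  rwa [inv_W, Form.tau, smul_mulVec, smul_smul, F.hz, one_smul] at this

lemma fix_of_orth {P : Submodule O (ι → O)} {g : WG F} (hg : g ∈ sup F P) {h : ι → O}
    (hh : ∀ x ∈ P, F.B x h = 0) : act g *ᵥ h = h := by
  rw [act_mulVec, sub_eq_self]
  ext i
  have := hh _ (ct_mem hg (Pi.single i 1))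
  rw [Form.B, star_mulVec, conjTranspose_conjTranspose, ← dotProduct_mulVec] at this
  simpa [Pi.star_single] using this

lemma conj_eq_of_fix {P : Submodule O (ι → O)} {g h : WG F} (hh : h ∈ sup F P)
    (hg : ∀ x ∈ P, act g *ᵥ x = x) : g * h * g⁻¹ = h := by
  ext1
  have h1 : act g * h.W = h.W := by
    apply Matrix.ext_of_mulVec_single; intro i; rw [← mulVec_mulVec, hg _ (hh _)]
  have h2 : act g * h.Wᴴ = h.Wᴴ := by
    apply Matrix.ext_of_mulVec_single; intro i; rw [← mulVec_mulVec, hg _ (ct_mem hh _)]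
  rw [conj_W, h1, ← conjTranspose_conjTranspose (h.W * _), conjTranspose_mul,
    conjTranspose_conjTranspose, h2, conjTranspose_conjTranspose]

lemma eq_one_of_sup {P : Submodule O (ι → O)} {g : WG F} (hg : g ∈ sup F P)
    (hP : ∀ x ∈ P, x = 0) : g = 1 := by
  ext1; apply Matrix.ext_of_mulVec_single; intro i; rw [hP _ (hg _)]; ext; simp

lemma Red.trans {q : O} {P P' : Submodule O (ι → O)} {N : Subgroup (WG F)} {g : WG F}
    (h : Red q P N g) (h' : ∀ g' ∈ lev F q, g' ∈ sup F P → Red q P' N g') : Red q P' N g := by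
  obtain ⟨g1, a1, a2, a3⟩ := h
  obtain ⟨g2, b1, b2, b3⟩ := h' g1 a1 a2
  exact ⟨g2, b1, b2, by simpa [mul_assoc] using mul_mem b3 a3⟩

lemma Red.mono {q : O} {P P' : Submodule O (ι → O)} {N N' : Subgroup (WG F)} {g : WG F}
    (h : Red q P N g) (hP : P ≤ P') (hN : N ≤ N') : Red q P' N' g := by
  obtain ⟨g1, a1, a2, a3⟩ := h
  exact ⟨g1, a1, sup_mono hP a2, hN a3⟩

lemma Red.mem {q : O} {P : Submodule O (ι → O)} {N : Subgroup (WG F)} {g : WG F}
    (h : Red q P N g) (hP : ∀ x ∈ P, x = 0) : g ∈ N := by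
  obtain ⟨g1, -, a2, a3⟩ := h
  simpa [eq_one_of_sup a2 hP] using a3

section
variable {f1 f1' f2 f2' : ι → O} {Q : Submodule O (ι → O)} {q : O}

lemma stab_two (hq : q ∣ star q) (T : Planes F f1 f1' f2 f2') (h1 : f1 ∈ Q) (h1' : f1' ∈ Q)
    (h2 : f2 ∈ Q) (h2' : f2' ∈ Q) {g : WG F} (hl : g ∈ lev F q)
    (hs : g ∈ sup F (sp4 f1 f1' f2 f2')) (e1 : act g *ᵥ f1 = f1)
    (e2 : F.B f2 (act g *ᵥ f2') = 1) : g ∈ NQ F q Q := by
  obtain ⟨x, c, e, -, hx, hc, hs1⟩ := final_step (r := star F.z • cf F f1') hl hs T.hh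
    (m41 _ _ _ _) (by simp [T.h'h, F.hz']) (by simp [e1, T.h'h, F.hz'])
  have hl1 := mul_mem hl (mkE_mem_lev hq e hx hc)
  refine Red.mem (q := q) (P := ((sp4 f1 f1' f2 f2' ⊓ kerv (star F.z • cf F f1')) ⊓ kerv (cf F f2))
    ⊓ kerv (star F.z • cf F f2') ⊓ kerv (cf F f1)) (Red.of_mul (mkE_mem_NQ e ⟨h1, T.u1⟩ hx hc) ?_) ?_
  · have r2 := red_final (Q := Q) (r := cf F f2) hq hl1 hs1 T.f'f'
      ⟨m44 _ _ _ _, by simp [mem_kerv, T.h'f']⟩ ⟨h2', T.u4⟩ (by simp [T.ff'])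
      (by rw [act_mul_mulVec, act_mkE]; simp [T.hf', mulVec_add, mulVec_smul, e1, e2, T.fh])
    refine (r2.trans fun g2 l2 s2 => red_final (r := star F.z • cf F f2') hq l2 s2 T.ff
      ⟨⟨m43 _ _ _ _, by simp [mem_kerv, T.h'f]⟩, by simp [mem_kerv, T.ff]⟩ ⟨h2, T.u3⟩
      (by simp [T.f'f, F.hz']) ?_).trans fun g3 l3 s3 => red_final (r := cf F f1) hq l3 s3 T.h'h'
      ⟨⟨⟨m42 _ _ _ _, by simp [mem_kerv, T.h'h']⟩, by simp [mem_kerv, T.fh']⟩,
        by simp [mem_kerv, T.f'h']⟩ ⟨h1', T.u2⟩ (by simp [T.hh']) ?_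
    · rw [fix_of_orth s2]
      · simp [T.f'f, F.hz']
      · rintro x ⟨⟨-, -⟩, hx2⟩
        exact F.B_eq_zero_swap (by simpa [mem_kerv] using hx2)
    · rw [fix_of_orth s3]
      · simp [T.hh']
      · rintro x ⟨⟨⟨-, hx1⟩, -⟩, -⟩
        refine F.B_eq_zero_swap ?_
        have : star F.z * F.B f1' x = 0 := by simpa [mem_kerv] using hx1
        linear_combination F.z * this - F.B f1' x * F.hz
  · rintro x ⟨⟨⟨⟨hx0, hx1⟩, hx2⟩, hx3⟩, hx4⟩
    obtain ⟨a, b, c, d, rfl⟩ := mem_sp4.1 hx0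
    simp only [SetLike.mem_coe, mem_kerv, smul_dotProduct, cf_dot, B_add_right, B_smul_right,
      T.hh, T.hh', T.hf, T.hf', T.h'h, T.h'h', T.h'f, T.h'f', T.fh, T.fh', T.ff, T.ff', T.f'h,
      T.f'h', T.f'f, T.f'f', smul_eq_mul] at hx1 hx2 hx3 hx4
    have ha : a = 0 := by linear_combination hx1 - a * F.hz
    have hb : b = 0 := by linear_combination hx4
    have hc : c = 0 := by linear_combination hx3 - c * F.hz
    have hd : d = 0 := by linear_combination hx2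
    simp [ha, hb, hc, hd]

lemma comm_mkE {g : WG F} (hl : g ∈ lev F q) (hq : q ∣ star q) {k y : ι → O} {c : O}
    (e : F.IsE k y c) (hk : k ∈ Q ∧ Uni F k) (hg : act g *ᵥ k = k) :
    g⁻¹ * mkE e * g * (mkE e)⁻¹ ∈ NQ F q Q := by
  have hg' : act g⁻¹ *ᵥ k = k := by nth_rewrite 1 [← hg]; rw [act_inv_act]
  have e1 : F.IsE k (act g⁻¹ *ᵥ y) c := by simpa [hg'] using e.conj g⁻¹
  have : g⁻¹ * mkE e * g = mkE e1 := by
    have := conj_mkE e g⁻¹
    rw [inv_inv] at this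
    rw [this]; exact mkE_congr _ _ (by rw [hg'])
  rw [this, mkE_inv, mkE_mul]
  have hd := dv_act_sub (inv_mem hl) y
  refine mkE_mem_NQ _ hk (by simpa [sub_eq_add_neg] using hd) ?_
  obtain ⟨w, hw⟩ := hd.exists
  have h2 : act g⁻¹ *ᵥ y = y + q • w := by rw [← hw]; abel
  rw [h2, B_neg_right, B_add_left, B_smul_left, ← e.hc]
  have : c + star F.z * star c + star F.z * -(F.z * c + star c + star q * F.B w y)
      = star q * (-star F.z * F.B w y) := by linear_combination (-c) * F.hz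
  rw [this]; exact Dvd.dvd.mul_right hq _

/-- An element of the special unitary group of a hyperbolic plane. -/
def mkT {f f' : ι → O} (ff : F.B f f = 0) (f'f' : F.B f' f' = 0) (ff' : F.B f f' = 1)
    {a b c e : O} (ha : star a = a) (he : star e = e) (hb : F.z * star b + b = 0)
    (hc : F.z * c + star c = 0) (hd : a * e - b * c = 1) : WG F :=
  ⟨(-c) • ou f f + (star F.z * (1 - a)) • ou f f' + (1 - e) • ou f' f - (star F.z * b) • ou f' f', by
    have f'f := F.B_eq_one_swap ff'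
    have hz := F.hz
    have hb' : star b = -star F.z * b := by linear_combination star F.z * hb - star b * hz
    have hc' : star c = -F.z * c := by linear_combination hc
    simp only [Form.op, Form.tau, conjTranspose_add, conjTranspose_sub, conjTranspose_smul, ou_ct,
      Matrix.add_mul, Matrix.sub_mul, Matrix.mul_add, Matrix.mul_sub, Matrix.smul_mul,
      Matrix.mul_smul, smul_add, smul_sub, ou_A_ou, ff, f'f', ff', f'f, star_mul, star_sub, star_neg,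
      star_one, star_star, ha, he, hb', hc', smul_smul]
    match_scalars <;> grind⟩

lemma act_of_W (g : WG F) (y : ι → O) : act g *ᵥ y = y - (g.W * F.A) *ᵥ y := by
  rw [act_mulVec, mulVec_mulVec]

lemma ou_A_mulVec (u v y : ι → O) : (ou u v * F.A) *ᵥ y = F.B v y • u := by
  rw [← mulVec_mulVec, ou_mulVec, Form.B]

lemma act_mkT {f f' : ι → O} (ff : F.B f f = 0) (f'f' : F.B f' f' = 0) (ff' : F.B f f' = 1)
    {a b c e : O} (ha : star a = a) (he : star e = e) (hb : F.z * star b + b = 0)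
    (hc : F.z * c + star c = 0) (hd : a * e - b * c = 1) (y : ι → O) :
    act (mkT ff f'f' ff' ha he hb hc hd) *ᵥ y = y + (c * F.B f y - star F.z * (1 - a) * F.B f' y) • f
      + (star F.z * b * F.B f' y - (1 - e) * F.B f y) • f' := by
  rw [act_of_W]
  simp only [mkT, Matrix.add_mul, Matrix.sub_mul, Matrix.smul_mul, add_mulVec, sub_mulVec,
    smul_mulVec, ou_A_mulVec]
  module

lemma mkT_mem_sup {f f' : ι → O} (ff : F.B f f = 0) (f'f' : F.B f' f' = 0) (ff' : F.B f f' = 1)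
    {a b c e : O} (ha : star a = a) (he : star e = e) (hb : F.z * star b + b = 0)
    (hc : F.z * c + star c = 0) (hd : a * e - b * c = 1) :
    mkT ff f'f' ff' ha he hb hc hd ∈ sup F (sp2 f f') := by
  intro y
  simp only [mkT, add_mulVec, sub_mulVec, smul_mulVec, ou_mulVec]
  have h1 := left_mem_sp2 f f'
  have h2 := right_mem_sp2 f f'
  apply_rules [Submodule.sub_mem, Submodule.add_mem, Submodule.smul_mem]

lemma dvd_smul_mat {q c : O} (h : q ∣ c) (M : Matrix ι ι O) (i j : ι) : q ∣ (c • M) i j :=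
  Dvd.dvd.mul_right h _

lemma mkT_mem_lev {f f' : ι → O} (ff : F.B f f = 0) (f'f' : F.B f' f' = 0) (ff' : F.B f f' = 1)
    {a b c e : O} (ha : star a = a) (he : star e = e) (hb : F.z * star b + b = 0)
    (hc : F.z * c + star c = 0) (hd : a * e - b * c = 1) (qa : q ∣ 1 - a) (qb : q ∣ b)
    (qc : q ∣ c) (qe : q ∣ 1 - e) : mkT ff f'f' ff' ha he hb hc hd ∈ lev F q := by
  intro i j
  exact dvd_sub (dvd_add (dvd_add (dvd_smul_mat qc.neg_right _ _ _)
    (dvd_smul_mat (qa.mul_left _) _ _ _)) (dvd_smul_mat qe _ _ _))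
    (dvd_smul_mat (qb.mul_left _) _ _ _)

/-- An element of the Levi subgroup. -/
def mkH (T : Planes F f1 f1' f2 f2') {a t s r : O} (hd : a * r - s * t = 1) : WG F :=
  ⟨(star F.z * (1 - a)) • ou f1 f1' - (star F.z * t) • ou f2 f1' - (star F.z * s) • ou f1 f2'
    + (star F.z * (1 - r)) • ou f2 f2' + (1 - star r) • ou f1' f1 + star s • ou f2' f1
    + star t • ou f1' f2 + (1 - star a) • ou f2' f2, by
    have hz := F.hz
    have hd' : star a * star r - star s * star t = 1 := by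
      simpa [mul_comm] using congrArg star hd
    simp only [Form.op, Form.tau, conjTranspose_add, conjTranspose_sub, conjTranspose_smul, ou_ct,
      Matrix.add_mul, Matrix.sub_mul, Matrix.mul_add, Matrix.mul_sub, Matrix.smul_mul,
      Matrix.mul_smul, smul_add, smul_sub, ou_A_ou, star_mul, star_sub, star_neg,
      T.hh, T.hh', T.hf, T.hf', T.h'h, T.h'h', T.h'f, T.h'f', T.fh, T.fh', T.ff, T.ff', T.f'h,
      T.f'h', T.f'f, T.f'f', star_one, star_star, smul_smul, zero_smul, smul_zero, mul_zero]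
    match_scalars <;> grind⟩

lemma act_mkH (T : Planes F f1 f1' f2 f2') {a t s r : O} (hd : a * r - s * t = 1) (y : ι → O) :
    act (mkH T hd) *ᵥ y = y + (star F.z * (s * F.B f2' y - (1 - a) * F.B f1' y)) • f1
      + (star F.z * (t * F.B f1' y - (1 - r) * F.B f2' y)) • f2
      - ((1 - star r) * F.B f1 y + star t * F.B f2 y) • f1'
      - (star s * F.B f1 y + (1 - star a) * F.B f2 y) • f2' := by
  rw [act_of_W]
  simp only [mkH, Matrix.add_mul, Matrix.sub_mul, Matrix.smul_mul, add_mulVec, sub_mulVec,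
    smul_mulVec, ou_A_mulVec]
  module

lemma mkH_mem_sup (T : Planes F f1 f1' f2 f2') {a t s r : O} (hd : a * r - s * t = 1) :
    mkH T hd ∈ sup F (sp4 f1 f1' f2 f2') := by
  intro y
  simp only [mkH, add_mulVec, sub_mulVec, smul_mulVec, ou_mulVec]
  have h1 := m41 f1 f1' f2 f2'
  have h2 := m42 f1 f1' f2 f2'
  have h3 := m43 f1 f1' f2 f2'
  have h4 := m44 f1 f1' f2 f2'
  refine Submodule.add_mem _ (Submodule.add_mem _ (Submodule.add_mem _ (Submodule.add_mem _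
    (Submodule.add_mem _ (Submodule.sub_mem _ (Submodule.sub_mem _ ?_ ?_) ?_) ?_) ?_) ?_) ?_) ?_
  all_goals refine Submodule.smul_mem _ _ (Submodule.smul_mem _ _ ?_); assumption

lemma mkH_mem_lev (hq : q ∣ star q) (T : Planes F f1 f1' f2 f2') {a t s r : O}
    (hd : a * r - s * t = 1) (qa : q ∣ 1 - a) (qt : q ∣ t) (qs : q ∣ s) (qr : q ∣ 1 - r) :
    mkH T hd ∈ lev F q := by
  have st : ∀ x, q ∣ x → q ∣ star x := by
    rintro _ ⟨y, rfl⟩; rw [star_mul]; exact hq.mul_left _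
  intro i j
  exact dvd_add (dvd_add (dvd_add (dvd_add (dvd_add (dvd_sub (dvd_sub
    (dvd_smul_mat (qa.mul_left _) _ _ _) (dvd_smul_mat (qt.mul_left _) _ _ _))
    (dvd_smul_mat (qs.mul_left _) _ _ _)) (dvd_smul_mat (qr.mul_left _) _ _ _))
    (dvd_smul_mat (by simpa using st _ qr) _ _ _)) (dvd_smul_mat (st _ qs) _ _ _))
    (dvd_smul_mat (st _ qt) _ _ _)) (dvd_smul_mat (by simpa using st _ qa) _ _ _)

/-- The element exchanging the two planes. -/
def swp (T : Planes F f1 f1' f2 f2') : WG F :=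
  mkE (isE_iso T.ff T.h'h' T.fh' 1) * mkE (isE_iso T.f'f' T.hh T.f'h (star F.z)) *
    mkE (isE_iso T.ff T.h'h' T.fh' 1)

lemma act_swp (T : Planes F f1 f1' f2 f2') : act (swp T) *ᵥ f1 = f2 ∧ act (swp T) *ᵥ f1' = f2' ∧
    act (swp T) *ᵥ f2 = -f1 ∧ act (swp T) *ᵥ f2' = -f1' := by
  have hz := F.hz
  refine ⟨?_, ?_, ?_, ?_⟩ <;>
  · simp only [swp, act_mul_mulVec, act_mkE, B_add_right, B_sub_right, B_smul_right, B_smul_left,
      T.hh, T.hh', T.hf, T.hf', T.h'h, T.h'h', T.h'f, T.h'f', T.fh, T.fh', T.ff, T.ff', T.f'h,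
      T.f'h', T.f'f, T.f'f', star_one, star_star, smul_smul]
    match_scalars <;> grind

lemma swp_mem_sup (T : Planes F f1 f1' f2 f2') : swp T ∈ sup F (sp4 f1 f1' f2 f2') := by
  refine mul_mem (mul_mem ?_ ?_) ?_ <;> refine mkE_mem_sup _ ?_ (Submodule.smul_mem _ _ ?_)
  exacts [m43 _ _ _ _, m42 _ _ _ _, m44 _ _ _ _, m41 _ _ _ _, m43 _ _ _ _, m42 _ _ _ _]

lemma sp4_le (h1 : f1 ∈ Q) (h1' : f1' ∈ Q) (h2 : f2 ∈ Q) (h2' : f2' ∈ Q) :
    sp4 f1 f1' f2 f2' ≤ Q := sup_le (sp2_le h1 h1') (sp2_le h2 h2')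

lemma fix_other (T : Planes F f1 f1' f2 f2') {g : WG F} (hg : g ∈ sup F (sp2 f1 f1')) :
    act g *ᵥ f2 = f2 ∧ act g *ᵥ f2' = f2' := by
  constructor <;> refine fix_of_orth hg ?_ <;> rintro _ ⟨a, b, rfl⟩ <;>
    simp [T.hf, T.h'f, T.hf', T.h'f']

lemma comm_swp (hq : q ∣ star q) (T : Planes F f1 f1' f2 f2') (h1 : f1 ∈ Q) (h1' : f1' ∈ Q)
    (h2 : f2 ∈ Q) (h2' : f2' ∈ Q) {g : WG F} (hl : g ∈ lev F q) (hg : g ∈ sup F (sp2 f1 f1')) :
    g⁻¹ * swp T * g * (swp T)⁻¹ ∈ NQ F q Q := by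
  obtain ⟨e2, e2'⟩ := fix_other T hg
  have key : ∀ x y : WG F, x ∈ sup F Q → g⁻¹ * x * g * x⁻¹ ∈ NQ F q Q →
      g⁻¹ * y * g * y⁻¹ ∈ NQ F q Q → g⁻¹ * (x * y) * g * (x * y)⁻¹ ∈ NQ F q Q := by
    intro x y hx a b
    have := mul_mem a (conj_mem_NQ hx b)
    convert this using 1; group
  have s1 : mkE (isE_iso T.ff T.h'h' T.fh' 1) ∈ sup F Q := mkE_mem_sup _ h2 (Q.smul_mem _ h1')
  have s2 : mkE (isE_iso T.f'f' T.hh T.f'h (star F.z)) ∈ sup F Q :=
    mkE_mem_sup _ h2' (Q.smul_mem _ h1)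
  exact key _ _ (mul_mem s1 s2) (key _ _ s1 (comm_mkE hl hq _ ⟨h2, T.u3⟩ e2)
    (comm_mkE hl hq _ ⟨h2', T.u4⟩ e2')) (comm_mkE hl hq _ ⟨h2, T.u3⟩ e2)

lemma swp_conj_fix (T : Planes F f1 f1' f2 f2') {g : WG F} (hg : g ∈ sup F (sp2 f1 f1')) :
    ∀ x ∈ sp2 f1 f1', act (swp T * g * (swp T)⁻¹) *ᵥ x = x := by
  obtain ⟨e2, e2'⟩ := fix_other T hg
  obtain ⟨-, -, s2, s2'⟩ := act_swp T
  have i1 : act (swp T)⁻¹ *ᵥ f1 = -f2 := by
    have := act_inv_act (swp T) (-f2)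
    rwa [mulVec_neg, s2, neg_neg] at this
  have i2 : act (swp T)⁻¹ *ᵥ f1' = -f2' := by
    have := act_inv_act (swp T) (-f2')
    rwa [mulVec_neg, s2', neg_neg] at this
  rintro _ ⟨a, b, rfl⟩
  simp [act_mul_mulVec, mulVec_add, mulVec_smul, i1, i2, mulVec_neg, e2, e2', s2, s2',
    -map_mul]

/-- The determinant of an element supported on a plane. -/
lemma det_plane {f f' : ι → O} (ff : F.B f f = 0) (f'f' : F.B f' f' = 0) (ff' : F.B f f' = 1)
    {g : WG F} (hg : g ∈ sup F (sp2 f f')) {a b c e : O} (h1 : act g *ᵥ f = a • f + b • f')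
    (h2 : act g *ᵥ f' = c • f + e • f') : (act g).det = a * e - b * c := by
  have f'f := F.B_eq_one_swap ff'
  have hz := F.hz
  let U : Matrix ι (Fin 2) O := Matrix.of fun i j => ![f, f'] j i
  let V : Matrix (Fin 2) ι O :=
    Matrix.of fun j => ![star F.z • cf F f' ᵥ* (g.W * F.A), cf F f ᵥ* (g.W * F.A)] j
  have hU : ∀ w : Fin 2 → O, U *ᵥ w = w 0 • f + w 1 • f' := by
    intro w; ext i; simp [U, mulVec, dotProduct, Fin.sum_univ_two, mul_comm]
  have hV : ∀ y, V *ᵥ y = ![star F.z * F.B f' ((g.W * F.A) *ᵥ y), F.B f ((g.W * F.A) *ᵥ y)] := by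
    intro y; ext j; fin_cases j
    · change (star F.z • cf F f' ᵥ* (g.W * F.A)) ⬝ᵥ y = _
      rw [smul_dotProduct, ← dotProduct_mulVec]; simp
    · change (cf F f ᵥ* (g.W * F.A)) ⬝ᵥ y = _
      rw [← dotProduct_mulVec]; simp
  have hUV : g.W * F.A = U * V := by
    apply Matrix.ext_of_mulVec_single; intro i
    change _ = (U * V) *ᵥ Pi.single i 1
    rw [← mulVec_mulVec (Pi.single i 1) U V, hU, hV]
    obtain ⟨x, y, hxy⟩ := hg (F.A *ᵥ Pi.single i 1)
    rw [mulVec_mulVec] at hxy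
    rw [hxy]
    simp only [B_add_right, B_smul_right, ff, f'f', ff', f'f, cons_val_zero, cons_val_one]
    match_scalars <;> grind
  have k1 : (g.W * F.A) *ᵥ f = (1 - a) • f - b • f' := by
    rw [act_of_W] at h1; rw [← sub_sub_cancel f (_ *ᵥ f), h1]; module
  have k2 : (g.W * F.A) *ᵥ f' = (1 - e) • f' - c • f := by
    rw [act_of_W] at h2; rw [← sub_sub_cancel f' (_ *ᵥ f'), h2]; module
  have hVU : ∀ i j, (V * U) i j = (V *ᵥ (![f, f'] j)) i := fun i j => rfl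
  rw [act_apply, hUV, det_one_sub_mul_comm, det_fin_two]
  simp only [Matrix.sub_apply, hVU, hV, cons_val_zero, cons_val_one, k1, k2, B_sub_right,
    B_smul_right, ff, f'f', ff', f'f, one_apply_eq, ne_eq, zero_ne_one, one_ne_zero,
    not_false_eq_true, one_apply_ne, cons_val_fin_one]
  grind

end

end Pool.Agent.Lib.MP_61a4e3_al
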