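import Pool.Agent.Lib.MP_61a4e3_al.Perm0
import Pool.Agent.Lib.MP_61a4e3_al.Moves
import Pool.Agent.Lib.MP_61a4e3_al.Egz

/-! The braid group image contains the level `π²` determinant one group when `m ≥ 2 d`. -/

set_option linter.unusedSectionVars false
set_option linter.unusedSimpArgs false
set_option linter.unusedVariables false
set_option maxHeartbeats 800000

namespace Pool.Agent.Lib.MP_61a4e3_al

open Matrix WG Form Equiv

section
variable {O : Type} [CommRing O] [StarRing O] [IsDomain O] {ι : Type} [Fintype ι] [DecidableEq ι]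
  {F : Form O ι} {Γ : Subgroup (WG F)}

lemma planes_adj {u u' f f' : ι → O} (uu : F.B u u = 0) (u'u' : F.B u' u' = 0) (uu' : F.B u u' = 1)
    (ff : F.B f f = 0) (f'f' : F.B f' f' = 0) (ff' : F.B f f' = 1) (h : F.B f u' = 0)
    (h' : F.B f' u' = 0) : Planes F u u' (f - F.B u f • u') (f' - F.B u f' • u') := by
  have a := B_eq_zero_swap _ h
  have a' := B_eq_zero_swap _ h'
  refine ⟨uu, u'u', ?_, ?_, uu', ?_, ?_, ?_, ?_, ?_⟩ <;> simp [*]

theorem core' (H : RH F.z) (hM : MenOK F.z) {f1 f1' f2 f2' : ι → O}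
    (T12 : Planes F f1 f1' f2 f2') (g1 : Good Γ f1) (g1' : Good Γ f1')
    (N3 : NQ F ((1 - F.z) ^ 2) ⊤ ≤ Γ) (w : Fin 4 → ι → O) (p : Fin 4 → ι)
    (hp : ∀ a b, w a (p b) = if a = b then 1 else 0) (h1 : ∀ a, w a ∈ sp4 f1 f1' f2 f2')
    (h2 : ∀ r, (∀ a, r ⬝ᵥ w a = 0) → r ⬝ᵥ f1 = 0 ∧ r ⬝ᵥ f1' = 0 ∧ r ⬝ᵥ f2 = 0 ∧ r ⬝ᵥ f2' = 0)
    {g : WG F} (hl : g ∈ lev F ((1 - F.z) ^ 2)) (hd : g ∈ detK F) : g ∈ Γ := by
  have hρ : ∀ j x, (Pi.single j 1 - ∑ a, w a j • Pi.single (p a) 1 : ι → O) ⬝ᵥ x =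
      x j - ∑ a, w a j * x (p a) := by
    intro j x
    simp [sub_dotProduct, sum_dotProduct, smul_dotProduct]
  have hk : ∀ j b, (Pi.single j 1 - ∑ a, w a j • Pi.single (p a) 1 : ι → O) ⬝ᵥ w b = 0 := by
    intro j b
    simp [hρ, hp]
  refine core H hM T12 g1 g1' N3 (Finset.univ.filter fun j => ∀ a, j ≠ p a)
    (fun j => Pi.single j 1 - ∑ a, w a j • Pi.single (p a) 1) (fun j => Pi.single j 1)
    (fun j _ => h2 _ (hk j)) ?_ ?_ hl hd
  · intro i hi j hj
    simp only [Finset.mem_filter, Finset.mem_univ, true_and] at hj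
    rw [hρ, Finset.sum_eq_zero fun a _ => by rw [Pi.single_eq_of_ne (hj a).symm, mul_zero]]
    simp [Pi.single_apply]
  · intro x hx
    have : x = ∑ a, x (p a) • w a := by
      ext j
      by_cases hj : ∀ a, j ≠ p a
      · have := hx j (by simpa using hj)
        rw [hρ] at this
        simp only [Finset.sum_apply, Pi.smul_apply, smul_eq_mul]
        simp only [mul_comm] at this ⊢
        linear_combination this
      · push Not at hj
        obtain ⟨b, rfl⟩ := hj
        simp [hp]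
    rw [this]
    exact Submodule.sum_mem _ fun a _ => Submodule.smul_mem _ _ (h1 a)

end

lemma DM_WP {S : Type} [CommRing S] {m : ℕ} (s : Perm (Fin (m + 1))) :
    (DM S m)ᵀ * WP S s * DM S m = 1 - s.permMatrix S := by
  have h2 : (1 - s.permMatrix S) * (SM S m)ᵀ * DM S m = 1 - s.permMatrix S := by
    have := congrArg transpose (DM_SM_mul (S := S) s⁻¹)
    simpa [transpose_mul, transpose_sub, Matrix.mul_assoc] using this
  rw [WP, ← Matrix.mul_assoc, ← Matrix.mul_assoc, DM_SM_mul, h2]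

variable {O : Type} [CommRing O] [StarRing O] [IsDomain O] {m : ℕ} {z : O} {hz : z * star z = 1}
  {d : ℕ} (H : RH z) (hd : 3 ≤ d) (hg : geom z d = 0)

lemma DM_vec {u : ℕ → O} (h0 : u 0 = 0) (h1 : u (m + 1) = 0) (a : Fin (m + 1)) :
    ((DM O m)ᵀ *ᵥ vec m u) a = u (a.val + 1) - u a.val := by
  have ha := a.2
  rw [← sum_delta (m := m) u (a.val + 1) (by
      by_cases h : a.val = m
      · right; rwa [h]
      · left; omega), ← sum_delta (m := m) u a.val (by
      by_cases h : a.val = 0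
      · right; rwa [h]
      · left; omega), ← Finset.sum_sub_distrib]
  rw [mulVec, dotProduct]
  refine Finset.sum_congr rfl fun i _ => ?_
  simp only [transpose_apply, DM, of_apply, vec, Fin.ext_iff, Fin.val_castSucc, Fin.val_succ]
  split_ifs <;> first | omega | simp

lemma DM_act {γ : WG (BF m z hz)} {s : Perm (Fin (m + 1))} (hs : γ.W.map (rd z) = WP _ s)
    (x : Fin m → O) (a : Fin (m + 1)) :
    rd z (((DM O m)ᵀ *ᵥ (act γ *ᵥ x)) a) = rd z (((DM O m)ᵀ *ᵥ x) (s a)) := by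
  have e : (DM O m)ᵀ.map (rd z) = (DM _ m)ᵀ := by
    ext i j; simp only [DM, map_apply, transpose_apply, of_apply]; split_ifs <;> simp
  rw [mulVec_mulVec, RingHom.map_mulVec, RingHom.map_mulVec, Matrix.map_mul, act_apply,
    Matrix.map_sub _ (map_sub _), Matrix.map_one _ (map_zero _) (map_one _), Matrix.map_mul, hs,
    A_map, e, CM, Matrix.mul_sub, ← Matrix.mul_assoc, ← Matrix.mul_assoc, DM_WP, Matrix.sub_mul,
    Matrix.one_mul, Matrix.mul_one, sub_sub_cancel, ← mulVec_mulVec]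
  generalize (DM (O ⧸ Ideal.span {1 - z}) m)ᵀ *ᵥ (rd z ∘ x) = y
  simp [mulVec, dotProduct, pm_apply]

include hd hg

lemma B_window {j : ℕ} (hj : j + d ≤ m + 1) (x : Fin m → O) :
    (BF m z hz).B x (vec m (fv z d j)) =
      star (∑ a : Fin (m + 1) with j ≤ a.val ∧ a.val < j + d, ((DM O m)ᵀ *ᵥ x) a) := by
  obtain ⟨u, h0, h1, rfl⟩ := exists_vec x
  rw [B_fv hd hg hj h0 h1, ← star_sub, Finset.sum_filter]
  simp only [DM_vec h0 h1]
  rw [Fin.sum_univ_eq_sum_range (fun i => if j ≤ i ∧ i < j + d then u (i + 1) - u i else 0),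
    ← Finset.sum_filter, show (Finset.range (m + 1)).filter (fun i => j ≤ i ∧ i < j + d) =
      Finset.Ico j (j + d) by ext; simp; omega, Finset.sum_Ico_sub _ (by omega)]

include H

lemma exists_orb (hm : 2 * d ≤ m) (k : Fin m → O) : ∃ γ ∈ Gam m z hz, ∃ j, 0 < j ∧ j ≤ d ∧
    IsUnit (geom z (d - j)) ∧ (1 - z) ∣ (BF m z hz).B (vec m (fv z d 0)) (act γ *ᵥ k) ∧
      (1 - z) ∣ (BF m z hz).B (vec m (fv z d j)) (act γ *ᵥ k) := by
  rcases H.pu with hu | hp
  · exact ⟨1, one_mem _, 1, one_pos, by omega, IsUnit.of_mul_eq_one (-z) (by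
      linear_combination -geom_pred hd hg), hu.dvd, hu.dvd⟩
  have := (Ideal.span_singleton_prime hp.ne_zero).2 hp
  have := H.fin _ H.one_sub
  obtain ⟨p, hc⟩ := CharP.exists (O ⧸ Ideal.span {1 - z})
  have pp := CharP.char_is_prime (O ⧸ Ideal.span {1 - z}) p
  have cp : ∀ n : ℕ, (1 - z) ∣ n → p ∣ n := fun n hn => (CharP.cast_eq_zero_iff
    (O ⧸ Ideal.span {1 - z}) p n).1 (by
      rw [← map_natCast (rd z), ← map_zero (rd z), rd_eq, sub_zero]; exact hn)
  have pd : p ∣ d := cp d (by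
    have := H.pi_dvd_geom d
    rw [show ∑ j ∈ Finset.range d, z ^ j = 0 from hg] at this
    simpa using this)
  choose t ht using fun a => H.int_mod (((DM O m)ᵀ *ᵥ k) a)
  obtain ⟨s, j, j1, j2, e1, e2⟩ := exists_perm_sum t pp.two_le pd (by omega) (by omega)
  obtain ⟨γ, hγ, hs⟩ := exists_perm (hz := hz) H s
  have pd' := Nat.le_of_dvd (by omega) pd
  have key : ∀ j, j ≤ d →
      (p : ℤ) ∣ ∑ a : Fin (m + 1) with j ≤ a.val ∧ a.val < j + d, t (s a) →
      (1 - z) ∣ (BF m z hz).B (vec m (fv z d j)) (act γ *ᵥ k) := by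
    rintro j hj ⟨c, hc⟩
    rw [B_swap, B_window hd hg (by omega), star_star]
    refine Dvd.dvd.mul_left ?_ _
    rw [← sub_zero (∑ _ ∈ _, _), ← rd_eq, map_sum, Finset.sum_congr rfl fun a _ =>
      (DM_act hs k a).trans ((rd_eq.2 (ht _)).trans (map_intCast _ _)), ← Int.cast_sum, hc]
    simp
  exact ⟨γ, hγ, j, j1, by omega, H.gu _ fun h => absurd (Nat.le_of_dvd j1
    ((Nat.dvd_sub_iff_right (by omega) pd).1 (cp _ h))) (by omega), key 0 (by omega) e1,
    key j (by omega) e2⟩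

lemma second_plane (hm : 2 * d ≤ m) :
    (BF m z hz).B (-vec m (fv z d d)) (vec m (fv z d (d + 1))) = 1 ∧
    (BF m z hz).B (-vec m (fv z d d)) (vec m (fv z d 0)) = 0 ∧
    (BF m z hz).B (vec m (fv z d (d + 1))) (vec m (fv z d 0)) = 0 := by
  refine ⟨?_, ?_, ?_⟩
  · rw [B_neg_left, B_fv_fv hd hg (by omega) (by omega), fv_out hd hg (by omega),
      fv_in hd hg (by omega)]; simp
  · rw [B_neg_left, B_fv_fv hd hg (by omega) (by omega), fv_out hd hg (by omega),
      fv_out hd hg (by omega)]; simp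
  · rw [B_fv_fv hd hg (by omega) (by omega), fv_out hd hg (by omega), fv_out hd hg (by omega)]; simp

theorem NQ_top (hm : 2 * d ≤ m) : NQ (BF m z hz) ((1 - z) ^ 2) ⊤ ≤ Gam m z hz := by
  rw [NQ, Subgroup.closure_le]
  rintro _ ⟨k, x, c, e, ⟨-, hk⟩, hx, hc, rfl⟩
  obtain ⟨γ, hγ, j, j1, j2, hu, d1, d2⟩ := exists_orb (hz := hz) H hd hg hm k
  obtain ⟨l, hl⟩ := hu.exists_left_inv
  obtain ⟨a1, a2, a3⟩ := second_plane (hz := hz) H hd hg hm
  have i1 := fv_iso (hz := hz) H hd hg (m := m) (j := j) (by omega)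
  have T := planes_adj (F := BF m z hz) (u := l • vec m (fv z d j)) (by simp [i1])
    (fv_iso H hd hg (by omega)) (by
      rw [B_smul_left, B_fv_fv hd hg (by omega) (by omega), fv_in hd hg (by omega),
        fv_out hd hg (by omega), zero_add, star_zero, sub_zero, ← star_mul', hl, star_one])
    (by simp [fv_iso H hd hg (show d + d ≤ m + 1 by omega)]) (fv_iso H hd hg (by omega)) a1 a2 a3
  have g1 := (good_fv (hz := hz) (m := m) H hd hg (k := j) (by omega) (by omega)).smul' i1 l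
  have g2 := good_fv (hz := hz) (m := m) H hd hg (k := 0) (by omega) (by omega)
  obtain ⟨g, hg', o1, o2⟩ := MvS.done (k0 := k) ⟨H, g1, g2, ⟨γ, hγ, rfl⟩, T, hk.act γ,
    by rw [B_smul_left]; exact d2.mul_left _, d1⟩
  have := NQ_le (F := BF m z hz) H g1 g2 T.hh T.h'h' T.hh' (mkE_mem_NQ (e.conj g)
    ⟨mem_orth.2 ⟨o1, o2⟩, hk.act g⟩ (hx.mulVec _) hc)
  rw [← conj_mkE] at this
  simpa [mul_assoc] using (Gam m z hz).mul_mem ((Gam m z hz).mul_mem ((Gam m z hz).inv_mem hg') this) hg'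

theorem lev_sq_mem (hM : MenOK z) (hm : 2 * d ≤ m) {g : WG (BF m z hz)}
    (hl : g ∈ lev _ ((1 - z) ^ 2)) (hdet : g ∈ detK _) : g ∈ Gam m z hz := by
  obtain ⟨a1, a2, a3⟩ := second_plane (hz := hz) H hd hg hm
  have T := planes_adj (F := BF m z hz) (u := -z • vec m (fv z d (0 + 1)))
    (by simp [fv_iso H hd hg (show 1 + d ≤ m + 1 by omega)]) (fv_iso H hd hg (by omega))
    (plane_fv H hd hg (by omega))
    (by simp [fv_iso H hd hg (show d + d ≤ m + 1 by omega)]) (fv_iso H hd hg (by omega)) a1 a2 a3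
  refine core' (F := BF m z hz) H hM T
    ((good_fv H hd hg (by omega) (by omega)).smul (by simpa using hz))
    (good_fv H hd hg (by omega) (by omega)) (NQ_top H hd hg hm)
    ![-z • vec m (fv z d (0 + 1)), vec m (fv z d 0), vec m (fv z d d), -z • vec m (fv z d (d + 1))]
    ![⟨d - 1, by omega⟩, ⟨0, by omega⟩, ⟨d, by omega⟩, ⟨2 * d - 1, by omega⟩] ?_ ?_ ?_ hl hdet
  · have p1 : ∀ k i, i = k + d → -z * fv z d (k + 1) i = 1 := by
      rintro k i rfl
      rw [fv_in hd hg (by omega), show k + d - (k + 1) = d - 1 by omega, neg_mul, geom_pred hd hg,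
        neg_neg]
    have p2 : ∀ k i, i = k + 1 → fv z d k i = 1 := by
      rintro k i rfl
      rw [fv_in hd hg (by omega), show k + 1 - k = 1 by omega, geom_one]
    intro a b
    fin_cases a <;> fin_cases b <;>
      simp only [vec, Matrix.cons_val_zero, Matrix.cons_val', Matrix.cons_val, Pi.smul_apply,
        smul_eq_mul, Fin.mk_zero, Fin.mk_one, Fin.reduceFinMk, Fin.reduceEq, if_true, if_false] <;>
      first
      | exact p1 _ _ (by omega)
      | exact p2 _ _ (by omega)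
      | (rw [fv_out hd hg (by omega)]; try simp)
  · generalize (BF m z hz).B _ (-vec m (fv z d d)) = s
    generalize (BF m z hz).B _ (vec m (fv z d (d + 1))) = t
    intro a
    fin_cases a
    · exact m41 _ _ _ _
    · exact m42 _ _ _ _
    · exact mem_sp4.2 ⟨0, -s, -1, 0, by simp⟩
    · exact mem_sp4.2 ⟨0, -z * t, 0, -z, by simp; module⟩
  · intro r hr
    have h0 := hr 0
    have h1 := hr 1
    have h2 := hr 2
    have h3 := hr 3
    simp only [Matrix.cons_val_zero, Matrix.cons_val_one, Matrix.cons_val] at h0 h1 h2 h3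
    rw [dotProduct_smul, smul_eq_zero, or_iff_right (neg_ne_zero.2 H.unit_z.ne_zero)] at h3
    exact ⟨h0, h1, by simp [h1, h2], by simp [h1, h3]⟩

end Pool.Agent.Lib.MP_61a4e3_al
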