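import Mathlib

/-! The group of variation matrices of a twisted hermitian form, and Eichler elements. -/

set_option linter.unusedSectionVars false

namespace Pool.Agent.Lib.MP_61a4e3_al

open Matrix

variable {O : Type*} [CommRing O] [StarRing O] {ι : Type*} [Fintype ι] [DecidableEq ι]

/-- A twisted hermitian form `A = z C + C*` with `z` of norm one. -/
structure Form (O : Type*) [CommRing O] [StarRing O] (ι : Type*) where
  z : O
  hz : z * star z = 1
  C : Matrix ι ι O

namespace Form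

variable (F : Form O ι)

def A : Matrix ι ι O := F.z • F.C + F.Cᴴ

lemma hz' : star F.z * F.z = 1 := by rw [mul_comm]; exact F.hz

lemma A_ct : F.Aᴴ = star F.z • F.A := by
  simp only [A, conjTranspose_add, conjTranspose_smul, conjTranspose_conjTranspose, smul_add,
    smul_smul, F.hz', one_smul]
  rw [add_comm]

def op (W V : Matrix ι ι O) : Matrix ι ι O := W + V - W * F.A * V

def tau (W : Matrix ι ι O) : Matrix ι ι O := star F.z • Wᴴ

lemma op_assoc (W V U : Matrix ι ι O) : F.op (F.op W V) U = F.op W (F.op V U) := by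
  simp only [op, Matrix.add_mul, Matrix.sub_mul, Matrix.mul_add, Matrix.mul_sub, Matrix.mul_assoc]
  abel

@[simp] lemma op_zero (W : Matrix ι ι O) : F.op W 0 = W := by simp [op]

@[simp] lemma zero_op (W : Matrix ι ι O) : F.op 0 W = W := by simp [op]

lemma tau_op (W V : Matrix ι ι O) : F.tau (F.op W V) = F.op (F.tau V) (F.tau W) := by
  simp only [op, tau, conjTranspose_sub, conjTranspose_add, conjTranspose_mul, A_ct, smul_sub,
    smul_add, Matrix.smul_mul, Matrix.mul_smul, Matrix.mul_assoc]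
  abel

lemma tau_tau (W : Matrix ι ι O) : F.tau (F.tau W) = W := by
  simp only [tau, conjTranspose_smul, conjTranspose_conjTranspose, star_star, smul_smul, F.hz',
    one_smul]

lemma act_op (W V : Matrix ι ι O) :
    1 - F.op W V * F.A = (1 - W * F.A) * (1 - V * F.A) := by
  simp only [op, Matrix.add_mul, Matrix.sub_mul, Matrix.mul_sub, Matrix.mul_assoc, Matrix.one_mul,
    Matrix.mul_one]
  abel

lemma op_eq (W V : Matrix ι ι O) : F.op W V = W + (1 - W * F.A) * V := by
  simp only [op, Matrix.sub_mul, Matrix.one_mul]; abel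

lemma op_tau_comm {W : Matrix ι ι O} (h : F.op W (F.tau W) = 0) : F.op (F.tau W) W = 0 := by
  have h1 : (1 - W * F.A) * (1 - F.tau W * F.A) = 1 := by
    rw [← act_op, h]; simp
  have h2 : (1 - F.tau W * F.A) * (1 - W * F.A) = 1 := mul_eq_one_comm.mp h1
  rw [op_eq] at h ⊢
  have h3 : (1 - F.tau W * F.A) * (W + (1 - W * F.A) * F.tau W) = 0 := by rw [h]; simp
  rw [Matrix.mul_add, ← Matrix.mul_assoc, h2, Matrix.one_mul, add_comm] at h3
  exact h3

/-- The sesquilinear form. -/
def B (x y : ι → O) : O := star x ⬝ᵥ (F.A *ᵥ y)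

/-- The half form. -/
def qf (x : ι → O) : O := star x ⬝ᵥ (F.C *ᵥ x)

lemma star_dot_mulVec (M : Matrix ι ι O) (x y : ι → O) :
    star (star x ⬝ᵥ (M *ᵥ y)) = star y ⬝ᵥ (Mᴴ *ᵥ x) := by
  rw [star_dotProduct, star_star, star_mulVec, ← dotProduct_mulVec]

lemma B_swap (x y : ι → O) : F.B y x = F.z * star (F.B x y) := by
  rw [B, B, star_dot_mulVec, A_ct, smul_mulVec, dotProduct_smul, smul_eq_mul, ← mul_assoc, F.hz,
    one_mul]

lemma B_self (x : ι → O) : F.B x x = F.z * F.qf x + star (F.qf x) := by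
  rw [qf, star_dot_mulVec, B, A, add_mulVec, dotProduct_add, smul_mulVec, dotProduct_smul,
    smul_eq_mul]

@[simp] lemma B_add_right (x y w : ι → O) : F.B x (y + w) = F.B x y + F.B x w := by
  simp [B, mulVec_add, dotProduct_add]

@[simp] lemma B_add_left (x y w : ι → O) : F.B (x + y) w = F.B x w + F.B y w := by
  simp [B, add_dotProduct]

@[simp] lemma B_sub_right (x y w : ι → O) : F.B x (y - w) = F.B x y - F.B x w := by
  simp [B, mulVec_sub, dotProduct_sub]

@[simp] lemma B_sub_left (x y w : ι → O) : F.B (x - y) w = F.B x w - F.B y w := by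
  simp [B, sub_dotProduct]

@[simp] lemma B_neg_right (x y : ι → O) : F.B x (-y) = -F.B x y := by
  simp [B, mulVec_neg]

@[simp] lemma B_neg_left (x y : ι → O) : F.B (-x) y = -F.B x y := by
  simp [B]

@[simp] lemma B_smul_right (c : O) (x y : ι → O) : F.B x (c • y) = c * F.B x y := by
  simp [B, mulVec_smul, dotProduct_smul]

@[simp] lemma B_smul_left (c : O) (x y : ι → O) : F.B (c • x) y = star c * F.B x y := by
  simp [B, star_smul, smul_dotProduct]

@[simp] lemma B_zero_right (x : ι → O) : F.B x 0 = 0 := by simp [B]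

@[simp] lemma B_zero_left (x : ι → O) : F.B 0 x = 0 := by simp [B]

lemma B_eq_zero_swap {x y : ι → O} (h : F.B x y = 0) : F.B y x = 0 := by
  rw [B_swap, h]; simp

lemma B_eq_one_swap {x y : ι → O} (h : F.B x y = 1) : F.B y x = F.z := by
  rw [B_swap, h]; simp

end Form

/-- The group of variation matrices. -/
@[ext] structure WG (F : Form O ι) where
  W : Matrix ι ι O
  prop : F.op W (F.tau W) = 0

namespace WG

variable {F : Form O ι}

instance : Group (WG F) where
  mul g h := ⟨F.op g.W h.W, by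
    rw [F.tau_op, F.op_assoc, ← F.op_assoc h.W, h.prop, F.zero_op, g.prop]⟩
  one := ⟨0, by simp [Form.tau]⟩
  inv g := ⟨F.tau g.W, by rw [F.tau_tau]; exact F.op_tau_comm g.prop⟩
  mul_assoc a b c := WG.ext (F.op_assoc _ _ _)
  one_mul a := WG.ext (F.zero_op _)
  mul_one a := WG.ext (F.op_zero _)
  inv_mul_cancel a := WG.ext (F.op_tau_comm a.prop)

lemma mul_W (g h : WG F) : (g * h).W = F.op g.W h.W := rfl
@[simp] lemma one_W : (1 : WG F).W = 0 := rfl
lemma inv_W (g : WG F) : (g⁻¹).W = F.tau g.W := rfl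

/-- The action on vectors. -/
def act : WG F →* Matrix ι ι O where
  toFun g := 1 - g.W * F.A
  map_one' := by simp
  map_mul' g h := F.act_op _ _

lemma act_apply (g : WG F) : act g = 1 - g.W * F.A := rfl

lemma mul_W' (g h : WG F) : (g * h).W = g.W + act g * h.W := F.op_eq _ _

lemma act_mulVec (g : WG F) (y : ι → O) : act g *ᵥ y = y - g.W *ᵥ (F.A *ᵥ y) := by
  rw [act_apply, sub_mulVec, one_mulVec, mulVec_mulVec]

lemma act_ct_mul (g : WG F) : (act g)ᴴ * F.A = F.A * act g⁻¹ := by
  simp only [act_apply, inv_W, Form.tau, conjTranspose_sub, conjTranspose_one, conjTranspose_mul,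
    F.A_ct, Matrix.sub_mul, Matrix.mul_sub, Matrix.one_mul, Matrix.mul_one, Matrix.smul_mul,
    Matrix.mul_smul, Matrix.mul_assoc]

lemma unitary (g : WG F) : (act g)ᴴ * F.A * act g = F.A := by
  rw [act_ct_mul, Matrix.mul_assoc, ← map_mul, inv_mul_cancel, map_one, Matrix.mul_one]

lemma B_act (g : WG F) (x y : ι → O) : F.B (act g *ᵥ x) (act g *ᵥ y) = F.B x y := by
  rw [Form.B, Form.B, star_mulVec, ← dotProduct_mulVec, mulVec_mulVec, mulVec_mulVec, unitary]

lemma act_mul_mulVec (g h : WG F) (y : ι → O) : act (g * h) *ᵥ y = act g *ᵥ (act h *ᵥ y) := by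
  rw [map_mul, mulVec_mulVec]

@[simp] lemma act_inv_act (g : WG F) (y : ι → O) : act g⁻¹ *ᵥ (act g *ᵥ y) = y := by
  rw [← act_mul_mulVec, inv_mul_cancel, map_one, one_mulVec]

@[simp] lemma act_act_inv (g : WG F) (y : ι → O) : act g *ᵥ (act g⁻¹ *ᵥ y) = y := by
  rw [← act_mul_mulVec, mul_inv_cancel, map_one, one_mulVec]

lemma conj_W (g h : WG F) : (g * h * g⁻¹).W = act g * h.W * (act g)ᴴ := by
  have h0 : g.W + act g * (g⁻¹).W = 0 := by rw [← mul_W', mul_inv_cancel, one_W]
  have h1 : (act g)ᴴ = 1 - F.A * (g⁻¹).W := by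
    simp only [act_apply, inv_W, Form.tau, conjTranspose_sub, conjTranspose_one,
      conjTranspose_mul, F.A_ct, Matrix.smul_mul, Matrix.mul_smul]
  rw [mul_assoc, mul_W', mul_W, Form.op, h1]
  simp only [Matrix.mul_add, Matrix.mul_sub, Matrix.mul_one, Matrix.mul_assoc]
  rw [← sub_eq_zero]
  rw [← h0]
  abel

end WG

open WG

namespace Form

variable (F : Form O ι)

/-- The outer product `x k*`. -/
def ou (x k : ι → O) : Matrix ι ι O := vecMulVec x (star k)

lemma ou_mulVec (x k y : ι → O) : ou x k *ᵥ y = (star k ⬝ᵥ y) • x := by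
  rw [ou, vecMulVec_mulVec, op_smul_eq_smul]

lemma ou_ct (x k : ι → O) : (ou x k)ᴴ = ou k x := by
  ext i j; simp [ou, vecMulVec_apply, mul_comm]

lemma ou_A_ou (x k y l : ι → O) : ou x k * F.A * ou y l = F.B k y • ou x l := by
  rw [Matrix.mul_assoc, ou, ou, ou, mul_vecMulVec, vecMulVec_mul_vecMulVec, B, vecMulVec_smul]

lemma mul_ou_mul (M : Matrix ι ι O) (x k : ι → O) :
    M * ou x k * Mᴴ = ou (M *ᵥ x) (M *ᵥ k) := by
  rw [ou, ou, mul_vecMulVec, vecMulVec_mul, star_mulVec]

lemma ou_add_left (x y k : ι → O) : ou (x + y) k = ou x k + ou y k := by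
  ext i j; simp [ou, vecMulVec_apply, add_mul]

lemma ou_add_right (x y k : ι → O) : ou k (x + y) = ou k x + ou k y := by
  ext i j; simp [ou, vecMulVec_apply, mul_add]

lemma ou_smul_left (c : O) (x k : ι → O) : ou (c • x) k = c • ou x k := by
  ext i j; simp [ou, vecMulVec_apply, mul_assoc]

lemma ou_smul_right (c : O) (x k : ι → O) : ou k (c • x) = star c • ou k x := by
  ext i j; simp [ou, vecMulVec_apply]; ring

lemma ou_neg_left (x k : ι → O) : ou (-x) k = -ou x k := by
  ext i j; simp [ou, vecMulVec_apply]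

lemma ou_neg_right (x k : ι → O) : ou k (-x) = -ou k x := by
  ext i j; simp [ou, vecMulVec_apply]

@[simp] lemma ou_zero_left (k : ι → O) : ou 0 k = 0 := by
  ext i j; simp [ou, vecMulVec_apply]

@[simp] lemma ou_zero_right (k : ι → O) : ou k 0 = 0 := by
  ext i j; simp [ou, vecMulVec_apply]

/-- The matrix of an Eichler element. -/
def eW (k x : ι → O) (c : O) : Matrix ι ι O := ou x k - star F.z • ou k x + c • ou k k

/-- Validity of Eichler data. -/
structure IsE (k x : ι → O) (c : O) : Prop where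
  kk : F.B k k = 0
  kx : F.B k x = 0
  hc : F.z * c + star c = F.B x x

variable {F}

lemma op_eW {k x y : ι → O} (c d : O) (kk : F.B k k = 0) (kx : F.B k x = 0) (ky : F.B k y = 0) :
    F.op (F.eW k x c) (F.eW k y d) = F.eW k (x + y) (c + d + star F.z * F.B x y) := by
  have xk := F.B_eq_zero_swap kx
  simp only [op, eW, Matrix.add_mul, Matrix.sub_mul, Matrix.mul_add, Matrix.mul_sub,
    Matrix.smul_mul, Matrix.mul_smul, ou_A_ou, kk, ky, xk, zero_smul, smul_zero, ou_add_left,
    ou_add_right, add_smul, smul_add, smul_smul]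
  module

lemma tau_eW (k x : ι → O) (c : O) :
    F.tau (F.eW k x c) = F.eW k (-x) (star F.z * star c) := by
  simp only [tau, eW, conjTranspose_add, conjTranspose_sub, conjTranspose_smul, ou_ct, star_star,
    smul_add, smul_sub, smul_smul, F.hz', one_smul, ou_neg_left, ou_neg_right, smul_neg]
  abel

lemma eW_zero (k : ι → O) : F.eW k 0 0 = 0 := by simp [eW]

/-- The Eichler element. -/
def mkE {k x : ι → O} {c : O} (h : F.IsE k x c) : WG F :=
  ⟨F.eW k x c, by
    rw [tau_eW, op_eW _ _ h.kk h.kx (by simp [h.kx]), add_neg_cancel, B_neg_right, ← h.hc]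
    have : c + star F.z * star c + star F.z * -(F.z * c + star c) = 0 := by
      linear_combination (-c) * F.hz
    rw [this, eW_zero]⟩

@[simp] lemma mkE_W {k x : ι → O} {c : O} (h : F.IsE k x c) : (mkE h).W = F.eW k x c := rfl

lemma act_mkE {k x : ι → O} {c : O} (h : F.IsE k x c) (y : ι → O) :
    act (mkE h) *ᵥ y = y - F.B k y • x + (star F.z * F.B x y - c * F.B k y) • k := by
  rw [act_mulVec, mkE_W, eW, add_mulVec, sub_mulVec, smul_mulVec, smul_mulVec, ou_mulVec,
    ou_mulVec, ou_mulVec, B, B, smul_smul, smul_smul, sub_smul]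
  abel

lemma IsE.conj {k x : ι → O} {c : O} (h : F.IsE k x c) (g : WG F) :
    F.IsE (act g *ᵥ k) (act g *ᵥ x) c :=
  ⟨by rw [B_act, h.kk], by rw [B_act, h.kx], by rw [B_act, h.hc]⟩

lemma conj_eW (M : Matrix ι ι O) (k x : ι → O) (c : O) :
    M * F.eW k x c * Mᴴ = F.eW (M *ᵥ k) (M *ᵥ x) c := by
  simp only [eW, Matrix.add_mul, Matrix.sub_mul, Matrix.mul_add, Matrix.mul_sub,
    Matrix.smul_mul, Matrix.mul_smul, mul_ou_mul]

lemma conj_mkE {k x : ι → O} {c : O} (h : F.IsE k x c) (g : WG F) :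
    g * mkE h * g⁻¹ = mkE (h.conj g) := by
  ext1; rw [conj_W, mkE_W, mkE_W, conj_eW]

lemma IsE.mul {k x y : ι → O} {c d : O} (h : F.IsE k x c) (h' : F.IsE k y d) :
    F.IsE k (x + y) (c + d + star F.z * F.B x y) := by
  refine ⟨h.kk, by simp [h.kx, h'.kx], ?_⟩
  simp only [B_add_left, B_add_right, star_add, star_mul, star_star, ← h.hc, ← h'.hc]
  rw [F.B_swap x y]
  linear_combination (F.B x y) * F.hz

lemma mkE_mul {k x y : ι → O} {c d : O} (h : F.IsE k x c) (h' : F.IsE k y d) :
    mkE h * mkE h' = mkE (h.mul h') := by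
  ext1; rw [mul_W, mkE_W, mkE_W, mkE_W, op_eW _ _ h.kk h.kx h'.kx]

lemma IsE.inv {k x : ι → O} {c : O} (h : F.IsE k x c) : F.IsE k (-x) (star F.z * star c) := by
  refine ⟨h.kk, by simp [h.kx], ?_⟩
  simp only [B_neg_left, B_neg_right, neg_neg, star_mul, star_star, ← h.hc]
  linear_combination (star c) * F.hz

lemma mkE_inv {k x : ι → O} {c : O} (h : F.IsE k x c) : (mkE h)⁻¹ = mkE h.inv := by
  ext1; rw [inv_W, mkE_W, mkE_W, tau_eW]

lemma mkE_congr {k x k' x' : ι → O} {c c' : O} (h : F.IsE k x c) (h' : F.IsE k' x' c')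
    (e : F.eW k x c = F.eW k' x' c') : mkE h = mkE h' := WG.ext e

/-- Eichler elements have determinant one. -/
lemma det_mkE {k x : ι → O} {c : O} (h : F.IsE k x c) : (act (mkE h)).det = 1 := by
  have xk := F.B_eq_zero_swap h.kx
  -- factor as a product of two rank one unipotents
  have e : act (mkE h) =
      (1 - ou (x + c • k) k * F.A) * (1 + star F.z • (ou k x * F.A)) -
        (0 : Matrix ι ι O) := by
    simp only [act_apply, mkE_W, eW, Matrix.sub_mul, Matrix.mul_add, Matrix.add_mul,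
      Matrix.one_mul, Matrix.mul_one, Matrix.mul_smul, Matrix.smul_mul, ou_add_left, ou_smul_left]
    have h1 : ou x k * F.A * (ou k x * F.A) = 0 := by
      rw [← Matrix.mul_assoc, ou_A_ou, h.kk]; simp
    have h2 : ou k k * F.A * (ou k x * F.A) = 0 := by
      rw [← Matrix.mul_assoc, ou_A_ou, h.kk]; simp
    rw [h1, h2]; simp only [smul_zero, add_zero, sub_zero]; abel
  have r1 : ∀ u v : ι → O, F.B v u = 0 → (1 + ou u v * F.A).det = 1 := by
    intro u v huv
    rw [ou, vecMulVec_mul, vecMulVec_eq Unit, det_one_add_replicateCol_mul_replicateRow,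
      ← dotProduct_mulVec]
    rw [B] at huv; rw [huv, add_zero]
  rw [e, sub_zero, det_mul]
  have h1 := r1 (-(x + c • k)) k (by simp [h.kx, h.kk])
  have h2 := r1 (star F.z • k) x (by simp [xk])
  rw [ou_neg_left, Matrix.neg_mul, ← sub_eq_add_neg] at h1
  rw [ou_smul_left, Matrix.smul_mul] at h2
  rw [h1, h2, one_mul]

end Form

end Pool.Agent.Lib.MP_61a4e3_al
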